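import Pool.Agent.H37.TM.Virt

/-!
# Project TM: actions of subgroups of finite index on the manifold
-/

set_option autoImplicit false
set_option linter.unusedSectionVars false

open Finset

namespace Pool.Agent.H37.TM

open Pool.Agent.H19.Cub Pool.Agent.H19.LI Pool.Agent.H65.RM

section

variable {V X G : Type} [DecidableEq V] [Group G] [MulAction G V] [MulAction G X]
  {C : CubeComplex V X}

/-- a subgroup of finite index acts properly and cocompactly -/
theorem IsGeom.sub (hG : IsGeom G C) (P : Subgroup G) [P.FiniteIndex] : IsGeom P C where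
  graph g u v := hG.graph (g : G) u v
  lab g v x := hG.lab (g : G) v x
  nb g v x hv := hG.nb (g : G) v x hv
  cocompact := by
    classical
    have h1 : Finite (QX P X) := finite_qx P hG.cocompact
    have h2 : ∀ q : QX P X, ∃ x, qx P x = q := qx_surj
    choose r hr using h2
    let _ : Fintype (QX P X) := Fintype.ofFinite _
    refine ⟨Finset.univ.image r, fun x => ?_⟩
    obtain ⟨g, hg⟩ := qx_eq.1 (hr (qx P x))
    refine ⟨g, ?_⟩
    rw [hg]
    exact Finset.mem_image_of_mem r (Finset.mem_univ _)
  proper x := by
    have h1 := hG.proper x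
    exact (h1.preimage (f := ((↑) : P → G)) Subtype.val_injective.injOn)

/-- special actions, restricted to a subgroup -/
theorem IsSpecial.sub {H : Subgroup G} (hS : IsSpecial H C) (P : Subgroup G) :
    IsSpecial (H.subgroupOf P) C where
  free g x h := by
    have h1 := hS.free ⟨((g : P) : G), g.2⟩ x h
    have h2 : ((g : P) : G) = 1 := congrArg (fun y : H => (y : G)) h1
    exact Subtype.ext (Subtype.ext h2)
  self g v x hv hgv := hS.self ⟨((g : P) : G), g.2⟩ v x hv hgv
  inter g u v x hu hv h := hS.inter ⟨((g : P) : G), g.2⟩ u v x hu hv h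

end

/-- **The theorem for virtually special groups**, where a subgroup `P` of finite index acts on the manifold. -/
theorem l2_virtP {V X U G : Type} [DecidableEq V] [DecidableEq U] [Group G]
    [MulAction G V] [MulAction G X] (C : CubeComplex V X) (hC : IsCAT0 C)
    (hG : IsGeom G C) (hS : ∃ H : Subgroup G, H.FiniteIndex ∧ IsSpecial H C)
    (P : Subgroup G) (hP : P.FiniteIndex) [MulAction P U]
    {M B : Set (Finset U)} {n d : ℕ} (hd : DimLe C d) (hM : Mfd M B n) (hK : AcycLt M d)
    (hA : PAct P M B) {i : ℕ} (hdi : d ≤ i) (hn : n < 2 * i) : L2Zero C i := by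
  obtain ⟨H, hH, hS⟩ := hS
  have hH' : (H.subgroupOf P).FiniteIndex := inferInstance
  exact l2_virt C hC (IsGeom.sub hG P) ⟨H.subgroupOf P, hH', IsSpecial.sub hS P⟩ hd hM hK hA hdi hn

end Pool.Agent.H37.TM
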