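import Pool.Agent.H37.TM.StarDefs

/-!
# Project TM: comparison of the two chain maps
-/

set_option autoImplicit false
set_option linter.unusedSectionVars false

open Finset Pointwise

namespace Pool.Agent.H37.TM

open Pool.Agent.H19.Cub Pool.Agent.H77.SX

variable {V X U Γ P K : Type} [DecidableEq V] [DecidableEq U] [Group Γ] [MulAction Γ U]
  {Q : CubeComplex V X} {x₀ : X} [MulAction Γ (Q.Cover x₀)] {bit : X → V → ZMod 2}
  [Group P] [Field K] [Algebra (ZMod 2) K] {g : V → P} {t : V → P → K}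

omit [DecidableEq U] [Group Γ] [MulAction Γ U] [MulAction Γ (Q.Cover x₀)] in
theorem nbc_of_notMem {c : Q.Cover x₀} {v : V} (h : v ∉ Q.lab (Q.proj x₀ c)) :
    Q.nbc x₀ v c = c := by
  induction c using Quot.ind with
  | mk l =>
    have h' : v ∉ Q.lab (Q.fin x₀ l.1) := h
    show Quot.mk _ (Q.ext x₀ v l) = _
    unfold CubeComplex.ext
    rw [dif_neg h']

omit [DecidableEq U] [Group Γ] [MulAction Γ U] [MulAction Γ (Q.Cover x₀)] in
theorem nbc_nbc (c : Q.Cover x₀) (v : V) : Q.nbc x₀ v (Q.nbc x₀ v c) = c := by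
  by_cases h : v ∈ Q.lab (Q.proj x₀ c)
  · exact (Q.cover x₀).nb_nb v c h
  · rw [nbc_of_notMem h, nbc_of_notMem h]

/-- A function `c` on the cubes of dimension `d + 1` which does not depend on the vertex and has boundary zero:
the sum over the cofaces of a cube `b` of dimension `d` is zero. -/
theorem sum_cofaces {Y : Type} [AddCommGroup Y] [Module (ZMod 2) Y] [Fintype V] {d : ℕ}
    (hbit : IsBit Q bit) (c : Q.Cover x₀ × Finset V → Y)
    (h0 : ∀ e, c e ≠ 0 → e.2 ⊆ Q.lab (Q.proj x₀ e.1) ∧ Q.graph.IsClique (e.2 : Set V) ∧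
      e.2.card = d + 1)
    (h1 : ∀ x σ, σ ⊆ Q.lab (Q.proj x₀ x) → ∀ v ∈ σ, c (Q.nbc x₀ v x, σ) = c (x, σ))
    (h2 : ∀ x κ, ∑ v ∈ κᶜ, c (x, insert v κ) = 0) (b : Q.Cover x₀ × Finset V)
    (hb : b ∈ Cell Q x₀ bit d) :
    {e | e ∈ Cell Q x₀ bit (d + 1) ∧ bdD Q x₀ e b ≠ 0}.Finite ∧
    ∑ᶠ e : Q.Cover x₀ × Finset V, (open Classical in
      if e ∈ Cell Q x₀ bit (d + 1) then bdD Q x₀ e b • c e else 0) = 0 := by
  classical
  obtain ⟨x, κ⟩ := b
  obtain ⟨hb1, hb2, hb3, hb4⟩ := hb
  have hb4' : ∀ u ∈ κ, bit (Q.proj x₀ x) u = 0 := hb4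
  set ev : V → Q.Cover x₀ × Finset V := fun v =>
    (if bit (Q.proj x₀ x) v = 0 then x else Q.nbc x₀ v x, insert v κ) with hev
  have hA : ∀ e : Q.Cover x₀ × Finset V, e ∈ Cell Q x₀ bit (d + 1) → bdD Q x₀ e (x, κ) ≠ 0 →
      e ∈ κᶜ.image ev := by
    rintro ⟨y, σ⟩ ⟨he1, he2, he3, he4⟩ he
    rw [bdD, Finsupp.finsetSum_apply] at he
    obtain ⟨v, hv, hvb⟩ := exists_ne_zero_of_sum_ne_zero he
    have hv' : v ∈ σ := hv
    have he1' : σ ⊆ Q.lab (Q.proj x₀ y) := he1
    have he4' : ∀ u ∈ σ, bit (Q.proj x₀ y) u = 0 := he4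
    rw [Finsupp.add_apply] at hvb
    by_cases h5 : (y, σ.erase v) = (x, κ)
    · rw [Prod.mk.injEq] at h5
      obtain ⟨rfl, h5⟩ := h5
      refine mem_image.2 ⟨v, ?_, ?_⟩
      · rw [mem_compl, ← h5]
        exact notMem_erase v σ
      · show (if bit (Q.proj x₀ y) v = 0 then y else Q.nbc x₀ v y, insert v κ) = (y, σ)
        rw [if_pos (he4' v hv'), ← h5, insert_erase hv']
    · have h6 : (Q.nbc x₀ v y, σ.erase v) = (x, κ) := by
        by_contra h6
        have h7 : (Finsupp.single (y, σ.erase v) (1 : ZMod 2)) (x, κ) = 0 :=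
          Finsupp.single_eq_of_ne (Ne.symm h5)
        have h8 : (Finsupp.single (Q.nbc x₀ v y, σ.erase v) (1 : ZMod 2)) (x, κ) = 0 :=
          Finsupp.single_eq_of_ne (Ne.symm h6)
        exact hvb (by
          show (Finsupp.single (y, σ.erase v) (1 : ZMod 2)) (x, κ) +
            (Finsupp.single (Q.nbc x₀ v y, σ.erase v) (1 : ZMod 2)) (x, κ) = 0
          rw [h7, h8, add_zero])
      rw [Prod.mk.injEq] at h6
      obtain ⟨h6, h7⟩ := h6
      have h8 : bit (Q.proj x₀ x) v = 1 := by
        rw [← h6, proj_nbc x₀ (he1' hv'), hbit v _ (he1' hv') v, he4' v hv', if_pos rfl, zero_add]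
      refine mem_image.2 ⟨v, ?_, ?_⟩
      · rw [mem_compl, ← h7]
        exact notMem_erase v σ
      · show (if bit (Q.proj x₀ x) v = 0 then x else Q.nbc x₀ v x, insert v κ) = (y, σ)
        rw [if_neg (by rw [h8]; exact one_ne_zero), ← h7, insert_erase hv', ← h6,
          nbc_nbc]
  have hfin : {e | e ∈ Cell Q x₀ bit (d + 1) ∧ bdD Q x₀ e (x, κ) ≠ 0}.Finite :=
    ((κᶜ.image ev).finite_toSet).subset fun e he => mem_coe.2 (hA e he.1 he.2)
  refine ⟨hfin, ?_⟩
  set F : Q.Cover x₀ × Finset V → Y := fun e =>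
    if e ∈ Cell Q x₀ bit (d + 1) then bdD Q x₀ e (x, κ) • c e else 0 with hFdef
  have hsupp : Function.support F ⊆ ((κᶜ.image ev : Finset _) : Set _) := by
    intro e he
    rw [Function.mem_support] at he
    by_cases h3 : e ∈ Cell Q x₀ bit (d + 1)
    · have h4 : F e = bdD Q x₀ e (x, κ) • c e := if_pos h3
      refine mem_coe.2 (hA e h3 fun h5 => he ?_)
      rw [h4, h5, zero_smul]
    · exact absurd (if_neg h3) he
  have hinj : Set.InjOn ev ((κᶜ : Finset V) : Set V) := by
    intro v hv w hw hvw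
    have h3 : insert v κ = insert w κ := congrArg Prod.snd hvw
    have h4 : v ∈ insert w κ := h3 ▸ mem_insert_self v κ
    rcases mem_insert.1 h4 with h5 | h5
    · exact h5
    · exact absurd h5 (mem_compl.1 (mem_coe.1 hv))
  show ∑ᶠ e, F e = 0
  rw [finsum_eq_sum_of_support_subset F hsupp, sum_image hinj, ← h2 x κ]
  refine sum_congr rfl fun v hv => ?_
  have hv : v ∉ κ := mem_compl.1 hv
  -- the coefficient of `(x, κ)`
  have hcoef : ∀ y : Q.Cover x₀, bdD Q x₀ (y, insert v κ) (x, κ) =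
      (Finsupp.single y (1 : ZMod 2)) x + (Finsupp.single (Q.nbc x₀ v y) (1 : ZMod 2)) x := by
    intro y
    rw [bdD, Finsupp.finsetSum_apply]
    have h3 : ∀ w ∈ insert v κ, w ≠ v → ((Finsupp.single (y, (insert v κ).erase w) (1 : ZMod 2)) +
        Finsupp.single (Q.nbc x₀ w y, (insert v κ).erase w) 1 : Q.Cover x₀ × Finset V →₀ ZMod 2)
        (x, κ) = 0 := by
      intro w _ hwv
      have h4 : (insert v κ).erase w ≠ κ := by
        intro h5
        exact hv (h5 ▸ mem_erase.2 ⟨Ne.symm hwv, mem_insert_self v κ⟩)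
      rw [Finsupp.add_apply, Finsupp.single_eq_of_ne (fun h => h4 (congrArg Prod.snd h).symm),
        Finsupp.single_eq_of_ne (fun h => h4 (congrArg Prod.snd h).symm), add_zero]
    have h4 := sum_eq_single_of_mem (s := insert v κ) (f := fun w =>
      ((Finsupp.single (y, (insert v κ).erase w) (1 : ZMod 2)) +
        Finsupp.single (Q.nbc x₀ w y, (insert v κ).erase w) 1 : Q.Cover x₀ × Finset V →₀ ZMod 2)
        (x, κ)) v (mem_insert_self v κ) h3
    refine h4.trans ?_
    show ((Finsupp.single (y, (insert v κ).erase v) (1 : ZMod 2)) +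
        Finsupp.single (Q.nbc x₀ v y, (insert v κ).erase v) 1 : Q.Cover x₀ × Finset V →₀ ZMod 2)
        (x, κ) = _
    rw [erase_insert hv, Finsupp.add_apply]
    have h5 : ∀ y' : Q.Cover x₀, (Finsupp.single (y', κ) (1 : ZMod 2)) (x, κ) =
        (Finsupp.single y' (1 : ZMod 2)) x := by
      intro y'
      by_cases h6 : y' = x
      · rw [h6, Finsupp.single_eq_same, Finsupp.single_eq_same]
      · rw [Finsupp.single_eq_of_ne (fun h => h6 (congrArg Prod.fst h).symm),
          Finsupp.single_eq_of_ne (fun h => h6 h.symm)]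
    rw [h5, h5]
  by_cases hbv : bit (Q.proj x₀ x) v = 0
  · have hev1 : ev v = (x, insert v κ) := by
      show (if bit (Q.proj x₀ x) v = 0 then x else Q.nbc x₀ v x, insert v κ) = _
      rw [if_pos hbv]
    show F (ev v) = _
    rw [hev1]
    by_cases hc : c (x, insert v κ) = 0
    · show (if (x, insert v κ) ∈ Cell Q x₀ bit (d + 1) then
        bdD Q x₀ (x, insert v κ) (x, κ) • c (x, insert v κ) else 0) = _
      rw [hc, smul_zero, ite_self]
    · obtain ⟨g1, g2, g3⟩ := h0 _ hc
      have g1' : insert v κ ⊆ Q.lab (Q.proj x₀ x) := g1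
      have hcell : (x, insert v κ) ∈ Cell Q x₀ bit (d + 1) := by
        refine ⟨g1, g2, g3, fun u hu => ?_⟩
        rcases mem_insert.1 hu with h3 | h3
        · rw [h3]
          exact hbv
        · exact hb4' u h3
      have hne : Q.nbc x₀ v x ≠ x := by
        intro h3
        have h4 := hbit v _ (g1' (mem_insert_self v κ)) v
        rw [← proj_nbc x₀ (g1' (mem_insert_self v κ)), h3, if_pos rfl] at h4
        exact one_ne_zero (add_eq_left.1 h4.symm)
      show (if (x, insert v κ) ∈ Cell Q x₀ bit (d + 1) then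
        bdD Q x₀ (x, insert v κ) (x, κ) • c (x, insert v κ) else 0) = _
      rw [if_pos hcell, hcoef, Finsupp.single_eq_same, Finsupp.single_eq_of_ne (Ne.symm hne),
        add_zero, one_smul]
  · have hb1v : bit (Q.proj x₀ x) v = 1 := by
      generalize bit (Q.proj x₀ x) v = a at hbv
      revert a
      decide
    have hev1 : ev v = (Q.nbc x₀ v x, insert v κ) := by
      show (if bit (Q.proj x₀ x) v = 0 then x else Q.nbc x₀ v x, insert v κ) = _
      rw [if_neg hbv]
    show F (ev v) = _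
    rw [hev1]
    by_cases hc : c (x, insert v κ) = 0
    · rw [hc]
      show (if (Q.nbc x₀ v x, insert v κ) ∈ Cell Q x₀ bit (d + 1) then
        bdD Q x₀ (Q.nbc x₀ v x, insert v κ) (x, κ) • c (Q.nbc x₀ v x, insert v κ) else 0) = _
      split_ifs with h3
      · have h4 := h1 (Q.nbc x₀ v x) (insert v κ) h3.1 v (mem_insert_self v κ)
        rw [nbc_nbc, hc] at h4
        rw [← h4, smul_zero]
      · rfl
    · obtain ⟨g1, g2, g3⟩ := h0 _ hc
      have g1' : insert v κ ⊆ Q.lab (Q.proj x₀ x) := g1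
      have g2' : Q.graph.IsClique ((insert v κ : Finset V) : Set V) := g2
      have hvl := g1' (mem_insert_self v κ)
      have hcell : (Q.nbc x₀ v x, insert v κ) ∈ Cell Q x₀ bit (d + 1) := by
        refine ⟨fun u hu => ?_, g2, g3, fun u hu => ?_⟩
        · rcases mem_insert.1 hu with h3 | h3
          · rw [h3]
            exact (Q.cover x₀).lab_nb v x hvl
          · have h4 : u ≠ v := fun h => hv (h ▸ h3)
            exact (Q.cover x₀).lab_adj u v x (g2' (mem_coe.2 hu)
              (mem_coe.2 (mem_insert_self v κ)) h4) (g1' hu) hvl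
        · show bit (Q.proj x₀ (Q.nbc x₀ v x)) u = 0
          rw [proj_nbc x₀ hvl, hbit v _ hvl u]
          rcases mem_insert.1 hu with h3 | h3
          · rw [h3, hb1v, if_pos rfl]
            decide
          · have h4 : u ≠ v := fun h => hv (h ▸ h3)
            rw [hb4' u h3, if_neg h4, add_zero]
      have hne : Q.nbc x₀ v x ≠ x := by
        intro h3
        have h4 := hbit v _ hvl v
        rw [← proj_nbc x₀ hvl, h3, if_pos rfl] at h4
        exact one_ne_zero (add_eq_left.1 h4.symm)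
      show (if (Q.nbc x₀ v x, insert v κ) ∈ Cell Q x₀ bit (d + 1) then
        bdD Q x₀ (Q.nbc x₀ v x, insert v κ) (x, κ) • c (Q.nbc x₀ v x, insert v κ) else 0) = _
      rw [if_pos hcell, hcoef, nbc_nbc, Finsupp.single_eq_same,
        Finsupp.single_eq_of_ne (Ne.symm hne), zero_add, one_smul]
      exact h1 x (insert v κ) g1' v (mem_insert_self v κ)

/-- the values of `be` at the translates; `bet` depends only on the differences of the potentials, which are
given by `pot_smul` -/
theorem be_smul (D : Dat Q g t) (s : Finset V) (hΓ : IsDeck Γ Q x₀) (l : List V) (p : P)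
    (γ : Γ) (x : List (Q.Cover x₀) →₀ ZMod 2) :
    be D s x₀ l p (x.mapDomain (List.map (γ • ·))) =
      be D s x₀ l (p * pos D x₀ (γ • base Q x₀)) x := by
  unfold be
  rw [lin_map]
  congr 1
  have key : ∀ m : List (Q.Cover x₀), bet (fun b c => pot D s x₀ b c p) l (m.map (γ • ·)) =
      bet (fun b c => pot D s x₀ b c (p * pos D x₀ (γ • base Q x₀))) l m := by
    induction l with
    | nil =>
      intro m
      match m with
      | [] => rw [List.map_nil, bet_nil_nil, bet_nil_nil]
      | [x] => rw [List.map_cons, List.map_nil, bet_nil_one, bet_nil_one]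
      | x :: y :: m => rw [List.map_cons, List.map_cons, bet_nil_two, bet_nil_two]
    | cons b l ih =>
      intro m
      match m with
      | [] => rw [List.map_nil, bet_cons_nil, bet_cons_nil]
      | [x] => rw [List.map_cons, List.map_nil, bet_cons_one, bet_cons_one]
      | x :: y :: m =>
        have h1 := ih (y :: m)
        rw [List.map_cons] at h1
        rw [List.map_cons, List.map_cons, bet_cons_two, bet_cons_two, h1]
        congr 1
        show pot D s x₀ b (γ • x) p + pot D s x₀ b (γ • y) p = _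
        rw [pot_smul D s x₀ hΓ γ x b p, pot_smul D s x₀ hΓ γ y b p]
        have h2 := add_self_K (pot D s x₀ b (γ • base Q x₀) p)
        linear_combination h2
  exact congrArg lin (funext key)

/-- the values of `upz` at the component `∅` at the translates -/
theorem upz_empty_smul (D : Dat Q g t) (s : Finset V) (hΓ : IsDeck Γ Q x₀)
    (z : Finset V → X → Finset V × P → K) (p : P) (γ : Γ) (e : Q.Cover x₀ × Finset V) :
    upz D s x₀ z (γ • e) (∅, p) = upz D s x₀ z e (∅, p * pos D x₀ (γ • base Q x₀)) := by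
  obtain ⟨c, σ⟩ := e
  show upz D s x₀ z (γ • c, σ) (∅, p) = _
  rw [upz_smul D s x₀ hΓ z γ c σ, act_empty]

/-- the boundary of the translate of a cube -/
private theorem bdD_smul_map (hΓ : IsDeck Γ Q x₀) {i : ℕ} {e : Q.Cover x₀ × Finset V}
    (he : e ∈ Cell Q x₀ bit i) (γ : Γ) :
    bdD Q x₀ (γ • e) = (bdD Q x₀ e).mapDomain (γ • ·) := by
  have h1 : (bdD Q x₀ e).mapDomain (γ • ·) = ∑ v ∈ e.2,
      ((Finsupp.single (e.1, e.2.erase v) 1 + Finsupp.single (Q.nbc x₀ v e.1, e.2.erase v) 1 :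
        Q.Cover x₀ × Finset V →₀ ZMod 2)).mapDomain (γ • ·) :=
    map_sum (Finsupp.lmapDomain (ZMod 2) (ZMod 2) (γ • ·)) _ _
  rw [h1, bdD]
  refine sum_congr rfl fun v hv => ?_
  rw [Finsupp.mapDomain_add, Finsupp.mapDomain_single, Finsupp.mapDomain_single, cu_smul, cu_smul,
    cu_smul, ← hΓ.nb γ v e.1 (he.1 hv)]

theorem bdD_smul_apply (hΓ : IsDeck Γ Q x₀) {i : ℕ} {e : Q.Cover x₀ × Finset V}
    (he : e ∈ Cell Q x₀ bit i) (γ : Γ) (b : Q.Cover x₀ × Finset V) :
    bdD Q x₀ (γ • e) (γ • b) = bdD Q x₀ e b := by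
  rw [bdD_smul_map hΓ he, Finsupp.mapDomain_apply (MulAction.injective γ)]

/-- `be` of a combination -/
theorem be_lin (D : Dat Q g t) (s : Finset V) (l : List V) (p : P)
    (H : Q.Cover x₀ × Finset V → (List (Q.Cover x₀) →₀ ZMod 2))
    (y : Q.Cover x₀ × Finset V →₀ ZMod 2) :
    be D s x₀ l p (lin H y) = ∑ b ∈ y.support, y b • be D s x₀ l p (H b) := by
  rw [be, map_lin]
  rfl

/-- **The comparison.** `be (BL _) = 0` (`lin_bet_BL`), `osum_comm` with the kernel
`bdD e b • ∑ p, be p (H b) * upz e (∅, p) ^ 2`, and `sum_cofaces` for `c e = upz e (∅, p) ^ 2`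
(the square is additive in characteristic two). -/
theorem star_cmp [Fintype V] [Fintype X] [Fintype P] [CharP K 2] (D : Dat Q g t) {s : Finset V}
    {d : ℕ} (hbit : IsBit Q bit) (hΓ : IsDeck Γ Q x₀) {z : Finset V → X → Finset V × P → K}
    (hz : z ∈ ZQ K Q (d + 1) (rX g s t)) (l : List V)
    {F H : Q.Cover x₀ × Finset V → (List (Q.Cover x₀) →₀ ZMod 2)}
    (hH : ∀ i, ∀ γ : Γ, ∀ e ∈ Cell Q x₀ bit i,
      H (γ • e) = (H e).mapDomain (List.map (γ • ·)))
    (hF : ∀ i, ∀ e ∈ Cell Q x₀ bit i, BL (H e) = F e + lin H (bdD Q x₀ e)) :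
    osum Γ (fun e : Q.Cover x₀ × Finset V => open Classical in
      if e ∈ Cell Q x₀ bit (d + 1) then ∑ p, be D s x₀ l p (F e) * upz D s x₀ z e (∅, p) ^ 2
      else 0) = 0 := by
  classical
  -- the value at `F e`
  have hbe : ∀ e ∈ Cell Q x₀ bit (d + 1), ∀ p, be D s x₀ l p (F e) =
      ∑ b ∈ (bdD Q x₀ e).support, bdD Q x₀ e b • be D s x₀ l p (H b) := by
    intro e he p
    rw [← be_lin]
    have h1 : be D s x₀ l p (BL (H e)) = 0 := lin_bet_BL _ _ _
    rw [hF _ e he, be, map_add] at h1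
    have h2 := add_self_K (be D s x₀ l p (lin H (bdD Q x₀ e)))
    have h3 : be D s x₀ l p (F e) + be D s x₀ l p (lin H (bdD Q x₀ e)) = 0 := h1
    have h4 := h3.trans h2.symm
    exact add_right_cancel h4
  set k : Q.Cover x₀ × Finset V → Q.Cover x₀ × Finset V → K := fun e b =>
    if e ∈ Cell Q x₀ bit (d + 1) then
      bdD Q x₀ e b • ∑ p, be D s x₀ l p (H b) * upz D s x₀ z e (∅, p) ^ 2 else 0 with hk
  have hk0 : ∀ e b, k e b ≠ 0 → e ∈ Cell Q x₀ bit (d + 1) ∧ bdD Q x₀ e b ≠ 0 := by
    intro e b h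
    by_cases he : e ∈ Cell Q x₀ bit (d + 1)
    · refine ⟨he, fun h0 => h ?_⟩
      simp only [hk, if_pos he, h0, zero_smul]
    · exact absurd (by simp only [hk, if_neg he]) h
  have hrow : ∀ e, (if e ∈ Cell Q x₀ bit (d + 1) then
      ∑ p, be D s x₀ l p (F e) * upz D s x₀ z e (∅, p) ^ 2 else 0) = ∑ᶠ b, k e b := by
    intro e
    rw [finsum_eq_sum_of_support_subset (s := (bdD Q x₀ e).support) (k e) (fun b hb => by
      rw [mem_coe, Finsupp.mem_support_iff]
      exact (hk0 e b hb).2)]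
    by_cases he : e ∈ Cell Q x₀ bit (d + 1)
    · simp only [hk, if_pos he]
      rw [sum_congr rfl fun p _ => by rw [hbe e he p, sum_mul]]
      rw [sum_comm]
      refine sum_congr rfl fun b _ => ?_
      rw [smul_sum]
      exact sum_congr rfl fun p _ => smul_mul_assoc _ _ _
    · simp only [hk, if_neg he, sum_const_zero]
  have hinv : ∀ (γ : Γ) e b, k (γ • e) (γ • b) = k e b := by
    intro γ e b
    by_cases he : e ∈ Cell Q x₀ bit (d + 1)
    · have he' : γ • e ∈ Cell Q x₀ bit (d + 1) := (cell_smul hΓ γ e).2 he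
      simp only [hk, if_pos he, if_pos he']
      rw [bdD_smul_apply hΓ he]
      by_cases hb : bdD Q x₀ e b = 0
      · rw [hb, zero_smul, zero_smul]
      · have hb' := bdD_cell hbit he b hb
        congr 1
        rw [hH d γ b hb']
        simp only [be_smul D s hΓ, upz_empty_smul D s hΓ]
        exact Equiv.sum_comp (Equiv.mulRight (pos D x₀ (γ • base Q x₀)))
          (fun p => be D s x₀ l p (H b) * upz D s x₀ z e (∅, p) ^ 2)
    · have he' : γ • e ∉ Cell Q x₀ bit (d + 1) := fun h => he ((cell_smul hΓ γ e).1 h)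
      simp only [hk, if_neg he, if_neg he']
  have h1 : osum Γ (fun e => ∑ᶠ b, k e b) = osum Γ fun b => ∑ᶠ e, k e b := by
    refine osum_comm k hinv (fun e b _ γ h => cu_free hΓ e γ h) (fun e b _ γ h => cu_free hΓ b γ h)
      (fun e => ?_) ?_
    · exact (bdD Q x₀ e).support.finite_toSet.subset fun b hb => by
        rw [mem_coe, Finsupp.mem_support_iff]
        exact (hk0 e b hb).2
    · obtain ⟨S, hS⟩ := cu_fin (Q := Q) (x₀ := x₀) hΓ
      exact ⟨S, fun e _ _ => hS e⟩
  have h2 : (fun e : Q.Cover x₀ × Finset V =>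
      if e ∈ Cell Q x₀ bit (d + 1) then ∑ p, be D s x₀ l p (F e) * upz D s x₀ z e (∅, p) ^ 2
      else 0) = fun e => ∑ᶠ b, k e b := funext hrow
  rw [h2, h1]
  -- the columns
  have hcol : ∀ b, ∑ᶠ e, k e b = 0 := by
    intro b
    by_cases hb : b ∈ Cell Q x₀ bit d
    · -- the squares
      have hsq : ∀ p : P, {e | e ∈ Cell Q x₀ bit (d + 1) ∧ bdD Q x₀ e b ≠ 0}.Finite ∧
          ∑ᶠ e : Q.Cover x₀ × Finset V, (open Classical in
            if e ∈ Cell Q x₀ bit (d + 1) then
              bdD Q x₀ e b • (upz D s x₀ z e (∅, p) ^ 2) else 0) = 0 := by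
        intro p
        refine sum_cofaces hbit (fun e => upz D s x₀ z e (∅, p) ^ 2) ?_ ?_ ?_ b hb
        · intro e he
          refine hz.1 e.2 (Q.proj x₀ e.1) fun h0 => he ?_
          show (act D s x₀ e.1 (z e.2 (Q.proj x₀ e.1))) (∅, p) ^ 2 = 0
          rw [h0, map_zero]
          exact zero_pow two_ne_zero
        · intro x σ hσ v hv
          show upz D s x₀ z (Q.nbc x₀ v x, σ) (∅, p) ^ 2 = upz D s x₀ z (x, σ) (∅, p) ^ 2
          rw [upz_nbc D s x₀ hz hσ hv]
        · intro x κ
          show ∑ v ∈ κᶜ, upz D s x₀ z (x, insert v κ) (∅, p) ^ 2 = 0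
          have h3 := congrFun (upz_cyc D s x₀ hz x κ) (∅, p)
          rw [Finset.sum_apply] at h3
          rw [← CharTwo.sum_sq, h3]
          exact zero_pow two_ne_zero
      have hfin := (hsq 1).1
      have h4 : ∀ e, k e b = ∑ p, be D s x₀ l p (H b) *
          (if e ∈ Cell Q x₀ bit (d + 1) then
              bdD Q x₀ e b • (upz D s x₀ z e (∅, p) ^ 2) else 0) := by
        intro e
        by_cases he : e ∈ Cell Q x₀ bit (d + 1)
        · simp only [hk, if_pos he]
          rw [smul_sum]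
          exact sum_congr rfl fun p _ => (mul_smul_comm _ _ _).symm
        · simp only [hk, if_neg he, mul_zero, sum_const_zero]
      have hsub : ∀ p, Function.support (fun e => (if e ∈ Cell Q x₀ bit (d + 1) then
          bdD Q x₀ e b • (upz D s x₀ z e (∅, p) ^ 2) else 0)) ⊆ ↑hfin.toFinset := by
        intro p e he
        rw [Set.Finite.coe_toFinset]
        by_cases he1 : e ∈ Cell Q x₀ bit (d + 1)
        · refine ⟨he1, fun h0 => he ?_⟩
          show (if e ∈ Cell Q x₀ bit (d + 1) then _ else _) = (0 : K)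
          rw [if_pos he1, h0, zero_smul]
        · exact absurd (by
            show (if e ∈ Cell Q x₀ bit (d + 1) then _ else _) = (0 : K)
            rw [if_neg he1]) he
      rw [finsum_congr h4, finsum_eq_sum_of_support_subset (s := hfin.toFinset) _ (by
        intro e he
        by_contra hn
        refine he (sum_eq_zero fun p _ => ?_)
        have h5 : (if e ∈ Cell Q x₀ bit (d + 1) then
            bdD Q x₀ e b • (upz D s x₀ z e (∅, p) ^ 2) else 0) = 0 := by
          by_contra h6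
          exact hn (hsub p h6)
        rw [h5, mul_zero])]
      rw [sum_comm]
      refine sum_eq_zero fun p _ => ?_
      rw [← mul_sum, ← finsum_eq_sum_of_support_subset (s := hfin.toFinset) _ (hsub p)]
      rw [(hsq p).2, mul_zero]
    · refine finsum_eq_zero_of_forall_eq_zero fun e => ?_
      by_contra h
      exact hb (bdD_cell hbit (hk0 e b h).1 b (hk0 e b h).2)
  simp only [hcol]
  unfold osum
  exact finsum_zero

end Pool.Agent.H37.TM
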