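import Pool.Agent.H37.TM.TotA

/-!
# Project TM: auxiliary file for `Tot` (2)

Exactness of the complex of pairs, in terms of functions.
-/

set_option autoImplicit false

open Finset

namespace Pool.Agent.H37.TM.TotX

variable {V : Type*} [DecidableEq V] {n : ℕ} (M : MX V n)

/-- filling all the columns of size `m + 1` -/
theorem MX.col_step (k m : ℕ) {z : Finset V × Finset V → ZMod 2} (hz : M.IsTot k z)
    (hm : ∀ p, z p ≠ 0 → p.1.card ≤ m + 1)
    (hcol : ∀ s : Finset V, s.card = m + 1 → ∃ y : Finset V → ZMod 2,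
      (∀ t, y t ≠ 0 → t ∈ M.int ∧ s ⊆ t ∧ t.card + 1 + k = m + 1 + n) ∧
      ∀ t ∈ M.faces, s ⊆ t → z (s, t) = cob s y t) :
    ∃ b, M.IsTot (k + 1) b ∧ ∀ p, (z + M.D b) p ≠ 0 → p.1.card ≤ m := by
  classical
  choose! y hy1 hy2 using hcol
  set b : Finset V × Finset V → ZMod 2 := fun p =>
    if p.1.card = m + 1 ∧ (∃ t, z (p.1, t) ≠ 0) then y p.1 p.2 else 0 with hb
  have hb0 : ∀ p, b p ≠ 0 → p.1.card = m + 1 ∧ (∃ t, z (p.1, t) ≠ 0) ∧ y p.1 p.2 ≠ 0 := by
    intro p hp
    simp only [hb] at hp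
    split_ifs at hp with h
    · exact ⟨h.1, h.2, hp⟩
    · exact absurd rfl hp
  have hbT : M.IsTot (k + 1) b := by
    constructor
    · have h1 : Function.support b ⊆ ⋃ p ∈ Function.support z,
          ({p.1} : Set (Finset V)) ×ˢ {t | t ∈ M.faces ∧ p.1 ⊆ t} := by
        rintro ⟨s, t⟩ h
        obtain ⟨h1, ⟨t', h2⟩, h3⟩ := hb0 _ h
        simp only [Set.mem_iUnion, exists_prop]
        obtain ⟨g1, g2, _⟩ := hy1 s h1 t h3
        exact ⟨(s, t'), h2, rfl, M.int_sub g1, g2⟩
      refine Set.Finite.subset ?_ h1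
      refine hz.1.biUnion fun p hp => ?_
      exact (Set.finite_singleton _).prod (M.fin_up (hz.2 p hp).1)
    · rintro ⟨s, t⟩ h
      obtain ⟨h1, ⟨t', h2⟩, h3⟩ := hb0 _ h
      obtain ⟨g1, g2, g3⟩ := hy1 s h1 t h3
      refine ⟨(hz.2 _ h2).1, g2, g1, ?_⟩
      simp only at h1 ⊢
      omega
  refine ⟨b, hbT, ?_⟩
  rintro ⟨s, t⟩ h
  by_contra hlt
  simp only [not_le] at hlt
  have hg := (M.isTot_add hz (M.isTot_D hbT)).2 _ h
  obtain ⟨hs, hst, htI, _⟩ := hg
  simp only at hs hst htI
  have htF := M.int_sub htI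
  apply h
  rw [Pi.add_apply, M.D_of hs hst htF]
  have e1 : ∀ w ∈ t \ s, b (insert w s, t) + b (s, t.erase w) = b (s, t.erase w) := by
    intro w hw
    rw [Finset.mem_sdiff] at hw
    have : b (insert w s, t) = 0 := by
      by_contra hne
      have := (hb0 _ hne).1
      simp only at this
      rw [Finset.card_insert_of_notMem hw.2] at this
      omega
    rw [this, zero_add]
  rw [Finset.sum_congr rfl e1]
  by_cases hc : s.card = m + 1 ∧ ∃ t, z (s, t) ≠ 0
  · have e2 : ∀ w ∈ t \ s, b (s, t.erase w) = y s (t.erase w) := by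
      intro w _
      simp only [hb]
      rw [if_pos hc]
    rw [Finset.sum_congr rfl e2, hy2 s hc.1 t htF hst]
    exact zmod2_add_self _
  · have e2 : ∀ w ∈ t \ s, b (s, t.erase w) = 0 := by
      intro w _
      simp only [hb]
      rw [if_neg hc]
    rw [Finset.sum_congr rfl e2, Finset.sum_const_zero, add_zero]
    by_contra hne
    have h3 := hm _ hne
    simp only at h3
    exact hc ⟨by omega, t, hne⟩

/-- exactness for the cycles whose first simplices have size at most `k` -/
theorem MX.exact_aux (k : ℕ) : ∀ m ≤ k, ∀ z : Finset V × Finset V → ZMod 2, M.IsTot k z →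
    M.D z = 0 → (∀ p, z p ≠ 0 → p.1.card ≤ m) → ∃ b, M.IsTot (k + 1) b ∧ M.D b = z := by
  intro m
  induction m with
  | zero =>
    intro _ z hz _ h0
    have : z = 0 := by
      funext p
      by_contra hne
      have h1 := h0 p hne
      have h2 := Finset.card_pos.2 (hz.2 p hne).1
      omega
    exact ⟨0, M.isTot_zero _, by rw [this]; exact M.D_zero⟩
  | succ m ih =>
    intro hmk z hz hD hcard
    obtain ⟨b, hb, hb'⟩ := M.col_step k m hz hcard (by
      intro s hs
      by_cases h0 : ∃ t, z (s, t) ≠ 0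
      · obtain ⟨t0, ht0⟩ := h0
        obtain ⟨g1, g2, g3, g4⟩ := hz.2 _ ht0
        simp only at g1 g2 g3 g4
        have hsF : s ∈ M.faces := M.down t0 (M.int_sub g3) s g2 g1
        have hpos : 0 < t0.card := lt_of_lt_of_le (Finset.card_pos.2 g1) (Finset.card_le_card g2)
        obtain ⟨j, hj⟩ : ∃ j, m + 1 + n = j + 1 + k := ⟨t0.card - 1, by omega⟩
        obtain ⟨y, hy1, hy2⟩ := M.loc s hsF j (by omega) (fun t => z (s, t)) (by
          intro t ht
          obtain ⟨_, f2, f3, f4⟩ := hz.2 _ ht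
          simp only at f2 f3 f4
          exact ⟨f3, f2, by omega⟩) (by
          intro t ht hst
          have h1 : M.D z (s, t) = 0 := by rw [hD]; rfl
          rw [M.D_of g1 hst ht] at h1
          rw [← h1]
          unfold cob
          refine Finset.sum_congr rfl fun w hw => ?_
          rw [Finset.mem_sdiff] at hw
          have : z (insert w s, t) = 0 := by
            by_contra hne
            have := hcard _ hne
            simp only at this
            rw [Finset.card_insert_of_notMem hw.2] at this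
            omega
          rw [this, zero_add])
        refine ⟨y, fun t ht => ?_, hy2⟩
        obtain ⟨f1, f2, f3⟩ := hy1 t ht
        exact ⟨f1, f2, by omega⟩
      · push Not at h0
        refine ⟨0, fun t ht => absurd rfl ht, fun t _ _ => ?_⟩
        rw [h0 t]; simp [cob])
    obtain ⟨b', hb1, hb2⟩ := ih (by omega) (z + M.D b) (M.isTot_add hz (M.isTot_D hb))
      (by rw [M.D_add, hD, M.D_D, add_zero]) hb'
    refine ⟨b' + b, M.isTot_add hb1 hb, ?_⟩
    rw [M.D_add, hb2, add_assoc]
    have : M.D b + M.D b = 0 := by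
      funext p; exact zmod2_add_self _
    rw [this, add_zero]

/-- the coefficients of the simplicial boundary -/
theorem sbd_apply (c : Finset V →₀ ZMod 2) (U : Finset V) (hU : ∀ s ∈ c.support, s ⊆ U)
    (s' : Finset V) : sbd c s' = ∑ w ∈ U \ s', c (insert w s') := by
  classical
  have h1 : sbd c s' = ∑ s ∈ c.support, ∑ v ∈ s, if s.erase v = s' then c s else 0 := by
    unfold sbd
    rw [Finsupp.linearCombination_apply, Finsupp.sum, Finsupp.finsetSum_apply]
    refine Finset.sum_congr rfl fun s _ => ?_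
    rw [Finset.smul_sum, Finsupp.finsetSum_apply]
    refine Finset.sum_congr rfl fun v _ => ?_
    rw [Finsupp.smul_single, smul_eq_mul, mul_one, Finsupp.single_apply]
  have h2 : ∑ w ∈ U \ s', c (insert w s') =
      ∑ s ∈ c.support, ∑ w ∈ U \ s', if s = insert w s' then c s else 0 := by
    rw [Finset.sum_comm]
    refine Finset.sum_congr rfl fun w _ => ?_
    rw [Finset.sum_ite_eq']
    split_ifs with h
    · rfl
    · exact Finsupp.notMem_support_iff.1 h
  rw [h1, h2]
  refine Finset.sum_congr rfl fun s hs => ?_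
  rw [← Finset.sum_filter, ← Finset.sum_filter]
  refine Finset.sum_congr ?_ fun _ _ => rfl
  ext v
  simp only [Finset.mem_filter, Finset.mem_sdiff]
  constructor
  · rintro ⟨h3, h4⟩
    refine ⟨⟨hU s hs h3, ?_⟩, ?_⟩
    · rw [← h4]; exact Finset.notMem_erase _ _
    · rw [← h4, Finset.insert_erase h3]
  · rintro ⟨⟨_, h4⟩, h5⟩
    refine ⟨by rw [h5]; exact Finset.mem_insert_self _ _, ?_⟩
    rw [h5, Finset.erase_insert h4]

/-- a finite set of vertices which contains all the simplices around a finite chain -/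
theorem MX.exists_U {k : ℕ} {z : Finset V × Finset V → ZMod 2} (hz : M.IsTot k z) :
    ∃ U : Finset V, ∀ p, z p ≠ 0 → ∀ t ∈ M.faces, p.2 ⊆ t → t ⊆ U := by
  classical
  have h1 : (⋃ p ∈ Function.support z, {t | t ∈ M.faces ∧ p.2 ⊆ t}).Finite :=
    hz.1.biUnion fun p hp => M.fin_up (M.ne _ (M.int_sub (hz.2 p hp).2.2.1))
  refine ⟨h1.toFinset.biUnion id, ?_⟩
  intro p hp t ht hpt
  have : t ∈ h1.toFinset := by
    rw [Set.Finite.mem_toFinset]
    simp only [Set.mem_iUnion, exists_prop]
    exact ⟨p, hp, ht, hpt⟩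
  exact Finset.subset_biUnion_of_mem id this

omit [DecidableEq V] in
/-- a finsum over a finite set containing the support -/
theorem finsum_eq_powerset {x : Finset V → ZMod 2} {U : Finset V}
    (h : ∀ t, x t ≠ 0 → t ⊆ U) : ∑ᶠ t, x t = ∑ t ∈ U.powerset, x t := by
  refine finsum_eq_sum_of_support_subset _ ?_
  intro t ht
  rw [Finset.coe_powerset, Set.mem_preimage, Set.mem_powerset_iff]
  exact_mod_cast h t ht

/-- The top simplices: the chain `c s = sum of z (s, t)` over `t` is a cycle. -/
theorem MX.eps_cycle {k : ℕ} {z : Finset V × Finset V → ZMod 2} (hz : M.IsTot k z)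
    (hD : M.D z = 0) {s' : Finset V} (hs' : s'.Nonempty) (hk : s'.card = k)
    {U : Finset V} (hU : ∀ p, z p ≠ 0 → ∀ t ∈ M.faces, p.2 ⊆ t → t ⊆ U) :
    ∑ w ∈ U \ s', ∑ t ∈ U.powerset, z (insert w s', t) = 0 := by
  classical
  rw [Finset.sum_comm]
  by_cases hsF : s' ∈ M.faces
  swap
  · refine Finset.sum_eq_zero fun t _ => Finset.sum_eq_zero fun w _ => ?_
    by_contra hne
    obtain ⟨_, g2, g3, _⟩ := hz.2 _ hne
    exact hsF (M.down t (M.int_sub g3) s' ((Finset.subset_insert _ _).trans g2) hs')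
  have hx : ∀ t ∈ U.powerset, ∑ w ∈ U \ s', z (insert w s', t) =
      if s' ⊆ t ∧ t ∈ M.faces then cob s' (fun t => z (s', t)) t else 0 := by
    intro t ht
    rw [Finset.mem_powerset] at ht
    split_ifs with hc
    · have h1 : M.D z (s', t) = 0 := by rw [hD]; rfl
      rw [M.D_of hs' hc.1 hc.2, Finset.sum_add_distrib] at h1
      have h2 : ∑ w ∈ U \ s', z (insert w s', t) = ∑ w ∈ t \ s', z (insert w s', t) := by
        symm
        refine Finset.sum_subset (Finset.sdiff_subset_sdiff ht subset_rfl) ?_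
        intro w hw hwt
        by_contra hne
        obtain ⟨_, g2, _, _⟩ := hz.2 _ hne
        rw [Finset.mem_sdiff] at hw
        exact hwt (Finset.mem_sdiff.2 ⟨g2 (Finset.mem_insert_self _ _), hw.2⟩)
      rw [h2]
      unfold cob
      exact (CharTwo.add_eq_zero).1 h1
    · refine Finset.sum_eq_zero fun w _ => ?_
      by_contra hne
      obtain ⟨_, g2, g3, _⟩ := hz.2 _ hne
      exact hc ⟨(Finset.subset_insert _ _).trans g2, M.int_sub g3⟩
  rw [Finset.sum_congr rfl hx]
  have hsz : ∀ t, z (s', t) ≠ 0 → t ∈ M.int ∧ s' ⊆ t ∧ t.card = n := by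
    intro t ht
    obtain ⟨_, g2, g3, g4⟩ := hz.2 _ ht
    simp only at g2 g3 g4
    exact ⟨g3, g2, by omega⟩
  have hcob : ∀ t, (if s' ⊆ t ∧ t ∈ M.faces then cob s' (fun t => z (s', t)) t else 0) ≠ 0 →
      t ∈ M.faces ∧ s' ⊆ t ∧ ∃ w ∈ t \ s', z (s', t.erase w) ≠ 0 := by
    intro t ht
    split_ifs at ht with hc
    · obtain ⟨w, hw, hne⟩ := Finset.exists_ne_zero_of_sum_ne_zero ht
      exact ⟨hc.2, hc.1, w, hw, hne⟩
    · exact absurd rfl ht
  rw [← finsum_eq_powerset (U := U) (x := fun t =>
    if s' ⊆ t ∧ t ∈ M.faces then cob s' (fun t => z (s', t)) t else 0)]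
  · refine (M.top s' hsF _ ?_).2 ⟨fun t => z (s', t), hsz, ?_⟩
    · intro t ht
      obtain ⟨g1, g2, w, hw, hne⟩ := hcob t ht
      obtain ⟨f1, f2, f3⟩ := hsz _ hne
      rw [Finset.mem_sdiff] at hw
      refine ⟨M.int_up f1 (Finset.erase_subset _ _) g1, g2, ?_⟩
      rw [Finset.card_erase_of_mem hw.1] at f3
      have := Finset.card_pos.2 ⟨w, hw.1⟩
      omega
    · intro t ht hst
      rw [if_pos ⟨hst, ht⟩]
  · intro t ht
    obtain ⟨g1, g2, w, hw, hne⟩ := hcob t ht
    exact hU _ hne t g1 (Finset.erase_subset _ _)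

/-- a common finite set of vertices for two finite chains and a finite chain of simplices -/
theorem MX.exists_U3 {k k' : ℕ} {z z' : Finset V × Finset V → ZMod 2} (hz : M.IsTot k z)
    (hz' : M.IsTot k' z') (c : Finset V →₀ ZMod 2) :
    ∃ U : Finset V, (∀ p, z p ≠ 0 → ∀ t ∈ M.faces, p.2 ⊆ t → t ⊆ U) ∧
      (∀ p, z' p ≠ 0 → ∀ t ∈ M.faces, p.2 ⊆ t → t ⊆ U) ∧ ∀ s ∈ c.support, s ⊆ U := by
  classical
  obtain ⟨U1, h1⟩ := M.exists_U hz
  obtain ⟨U2, h2⟩ := M.exists_U hz'
  refine ⟨U1 ∪ U2 ∪ c.support.biUnion id, ?_, ?_, ?_⟩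
  · intro p hp t ht hpt
    exact (h1 p hp t ht hpt).trans (Finset.subset_union_left.trans Finset.subset_union_left)
  · intro p hp t ht hpt
    exact (h2 p hp t ht hpt).trans (Finset.subset_union_right.trans Finset.subset_union_left)
  · intro s hs
    exact (Finset.subset_biUnion_of_mem id hs).trans Finset.subset_union_right

/-- for a pair of degree `k` the size of the first simplex is at most `k + 1` -/
theorem MX.Good.card_le {k : ℕ} {p : Finset V × Finset V} (h : M.Good k p) :
    p.1.card ≤ k + 1 := by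
  have h1 := M.card_le _ (M.int_sub h.2.2.1)
  have h2 := h.2.2.2
  omega

/-- The complex `Tot` is exact: a cycle of degree `k` (for `k = 0`: with sum zero) is a
boundary. -/
theorem MX.exact (k : ℕ) (hkd : k + 1 ≤ M.dd) {z : Finset V × Finset V → ZMod 2} (hz : M.IsTot k z)
    (hD : M.D z = 0) (h0 : k = 0 → ∑ᶠ p, z p = 0) :
    ∃ b, M.IsTot (k + 1) b ∧ M.D b = z := by
  classical
  -- the chain of the top parts
  obtain ⟨U, hU⟩ := M.exists_U hz
  have hzU : ∀ s t, z (s, t) ≠ 0 → t ⊆ U := fun s t h =>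
    hU _ h t (M.int_sub (hz.2 _ h).2.2.1) subset_rfl
  have hcfin : (Function.support fun s : Finset V =>
      if s.card = k + 1 then ∑ t ∈ U.powerset, z (s, t) else 0).Finite := by
    refine (Finset.finite_toSet U.powerset).subset ?_
    intro s hs
    rw [Function.mem_support] at hs
    split_ifs at hs with h
    · obtain ⟨t, ht, hne⟩ := Finset.exists_ne_zero_of_sum_ne_zero hs
      rw [Finset.mem_coe, Finset.mem_powerset]
      exact (hz.2 _ hne).2.1.trans (hzU s t hne)
    · exact absurd rfl hs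
  set c : Finset V →₀ ZMod 2 := Finsupp.ofSupportFinite _ hcfin with hc
  have hcs : ∀ s, c s = if s.card = k + 1 then ∑ t ∈ U.powerset, z (s, t) else 0 := fun s => rfl
  have hcsupp : ∀ s ∈ c.support, s ∈ M.faces ∧ s ⊆ U ∧ s.card = k + 1 := by
    intro s hs
    rw [Finsupp.mem_support_iff, hcs] at hs
    split_ifs at hs with h
    · obtain ⟨t, ht, hne⟩ := Finset.exists_ne_zero_of_sum_ne_zero hs
      have hg := hz.2 _ hne
      exact ⟨M.down t (M.int_sub hg.2.2.1) s hg.2.1 hg.1, hg.2.1.trans (hzU s t hne), h⟩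
    · exact absurd rfl hs
  have hcyc : sbd c = 0 := by
    ext s'
    rw [sbd_apply c U (fun s hs => (hcsupp s hs).2.1), Finsupp.zero_apply]
    by_cases hk : s'.card = k
    · have e1 : ∀ w ∈ U \ s', c (insert w s') = ∑ t ∈ U.powerset, z (insert w s', t) := by
        intro w hw
        rw [Finset.mem_sdiff] at hw
        rw [hcs, Finset.card_insert_of_notMem hw.2, if_pos (by omega)]
      rw [Finset.sum_congr rfl e1]
      by_cases hs' : s'.Nonempty
      · exact M.eps_cycle hz hD hs' hk hU
      · rw [Finset.not_nonempty_iff_eq_empty] at hs'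
        subst hs'
        have hk0 : k = 0 := by rw [← hk]; rfl
        rw [← h0 hk0]
        have h3 : ∑ᶠ p, z p = ∑ p ∈ U.image (fun w => ({w} : Finset V)) ×ˢ U.powerset, z p := by
          refine finsum_eq_sum_of_support_subset _ ?_
          rintro ⟨s, t⟩ h
          have hg := hz.2 _ h
          have hg1 := MX.Good.card_le M hg
          have hg2 := Finset.card_pos.2 hg.1
          have hg3 : s.card = 1 := by simp only at hg1 hg2; omega
          obtain ⟨v, hv⟩ := Finset.card_eq_one.1 hg3
          have hg4 := hzU s t h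
          rw [Finset.mem_coe, Finset.mem_product, Finset.mem_image, Finset.mem_powerset]
          refine ⟨⟨v, hg4 (hg.2.1 ?_), hv.symm⟩, hg4⟩
          simp [hv]
        rw [h3, Finset.sum_product, Finset.sum_image (by
          intro a _ b _ hab
          simpa using hab)]
        rw [Finset.sdiff_empty]
        rfl
    · refine Finset.sum_eq_zero fun w hw => ?_
      rw [Finset.mem_sdiff] at hw
      rw [hcs, Finset.card_insert_of_notMem hw.2, if_neg (by omega)]
  obtain ⟨b0, hb0, hb0c⟩ := M.acyc c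
    (fun s hs => ⟨(hcsupp s hs).1, (hcsupp s hs).2.2 ▸ hkd⟩) hcyc
  -- move `b0` to the top simplices
  have htop : ∀ s : Finset V, ∃ t : Finset V, s ∈ M.faces → t ∈ M.int ∧ s ⊆ t ∧
      t.card = n + 1 := by
    intro s
    by_cases hs : s ∈ M.faces
    · obtain ⟨t, h1, h2, h3⟩ := M.ex_top s hs
      exact ⟨t, fun _ => ⟨h1, h2, h3⟩⟩
    · exact ⟨∅, fun h => absurd h hs⟩
  choose τ hτ using htop
  set b1 : Finset V × Finset V → ZMod 2 := fun p =>
    if p.1.card = k + 2 ∧ p.2 = τ p.1 then b0 p.1 else 0 with hb1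
  have hb1ne : ∀ p, b1 p ≠ 0 → p.1.card = k + 2 ∧ p.2 = τ p.1 ∧ b0 p.1 ≠ 0 := by
    intro p hp
    simp only [hb1] at hp
    split_ifs at hp with h
    · exact ⟨h.1, h.2, hp⟩
    · exact absurd rfl hp
  have hb1T : M.IsTot (k + 1) b1 := by
    constructor
    · refine ((Finset.finite_toSet b0.support).image (fun s => (s, τ s))).subset ?_
      rintro ⟨s, t⟩ h
      obtain ⟨_, h2, h3⟩ := hb1ne _ h
      simp only at h2 h3
      exact ⟨s, Finsupp.mem_support_iff.2 h3, by rw [h2]⟩
    · rintro ⟨s, t⟩ h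
      obtain ⟨h1, h2, h3⟩ := hb1ne _ h
      simp only at h1 h2 h3
      obtain ⟨g1, g2, g3⟩ := hτ s (hb0 s (Finsupp.mem_support_iff.2 h3))
      refine ⟨Finset.card_pos.1 (by simp only; omega), by rw [h2]; exact g2,
        by rw [h2]; exact g1, ?_⟩
      simp only
      rw [h2, g3]; omega
  have hz1 := M.isTot_add hz (M.isTot_D hb1T)
  have hD1 : M.D (z + M.D b1) = 0 := by rw [M.D_add, hD, M.D_D, add_zero]
  -- the sums over the top simplices vanish
  have hsum : ∀ s' : Finset V, s'.card = k + 1 → ∑ᶠ t, (z + M.D b1) (s', t) = 0 := by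
    intro s' hs'
    have hs'ne : s'.Nonempty := Finset.card_pos.1 (by omega)
    obtain ⟨W, hW1, hW2, hW3⟩ := M.exists_U3 hz hb1T (c + b0)
    obtain ⟨W', hW'1, hW'2, hW'3⟩ := M.exists_U3 hz hb1T b0
    set X := W ∪ W' ∪ U with hX
    have hX1 : ∀ t, z (s', t) ≠ 0 → t ⊆ X := fun t h =>
      (hzU s' t h).trans Finset.subset_union_right
    have hXz : ∑ᶠ t, z (s', t) = c s' := by
      rw [finsum_eq_powerset (U := U) (fun t h => hzU s' t h), hcs, if_pos hs']
    have hXz' : ∑ t ∈ X.powerset, z (s', t) = c s' := by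
      rw [← finsum_eq_powerset (U := X) (fun t h => hX1 t h), hXz]
    have hXD : ∀ t, M.D b1 (s', t) ≠ 0 → t ⊆ X := by
      intro t h
      have hg := (M.isTot_D hb1T).2 _ h
      have htF := M.int_sub hg.2.2.1
      rw [M.D_of hg.1 hg.2.1 htF] at h
      obtain ⟨w, hw, hne⟩ := Finset.exists_ne_zero_of_sum_ne_zero h
      by_cases h2 : b1 (insert w s', t) = 0
      · have h3 : b1 (s', t.erase w) ≠ 0 := by
          intro h3; rw [h2, h3, add_zero] at hne; exact hne rfl
        exact (hW2 _ h3 t htF (Finset.erase_subset _ _)).trans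
          (Finset.subset_union_left.trans Finset.subset_union_left)
      · exact (hW2 _ h2 t htF subset_rfl).trans
          (Finset.subset_union_left.trans Finset.subset_union_left)
    rw [finsum_eq_powerset (U := X) (by
      intro t h
      by_cases h2 : z (s', t) = 0
      · refine hXD t fun h3 => h ?_
        rw [Pi.add_apply, h2, h3, add_zero]
      · exact hX1 t h2)]
    simp only [Pi.add_apply]
    rw [Finset.sum_add_distrib, hXz']
    have hDs : ∀ t ∈ X.powerset, M.D b1 (s', t) = ∑ w ∈ X \ s', b1 (insert w s', t) := by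
      intro t ht
      rw [Finset.mem_powerset] at ht
      by_cases hct : s' ⊆ t ∧ t ∈ M.faces
      · rw [M.D_of hs'ne hct.1 hct.2]
        have e1 : ∀ w ∈ t \ s', b1 (insert w s', t) + b1 (s', t.erase w) =
            b1 (insert w s', t) := by
          intro w _
          have : b1 (s', t.erase w) = 0 := by
            by_contra hne
            have := (hb1ne _ hne).1
            simp only at this
            omega
          rw [this, add_zero]
        rw [Finset.sum_congr rfl e1]
        refine Finset.sum_subset (Finset.sdiff_subset_sdiff ht subset_rfl) ?_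
        intro w hw hwt
        by_contra hne
        have hg := hb1T.2 _ hne
        rw [Finset.mem_sdiff] at hw
        exact hwt (Finset.mem_sdiff.2 ⟨hg.2.1 (Finset.mem_insert_self _ _), hw.2⟩)
      · rw [M.D_of_not (fun h => hct ⟨h.2.1, h.2.2⟩)]
        symm
        refine Finset.sum_eq_zero fun w _ => ?_
        by_contra hne
        have hg := hb1T.2 _ hne
        exact hct ⟨(Finset.subset_insert _ _).trans hg.2.1, M.int_sub hg.2.2.1⟩
    rw [Finset.sum_congr rfl hDs, Finset.sum_comm]
    have hin : ∀ w ∈ X \ s', ∑ t ∈ X.powerset, b1 (insert w s', t) = b0 (insert w s') := by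
      intro w hw
      rw [Finset.mem_sdiff] at hw
      have hcd : (insert w s').card = k + 2 := by
        rw [Finset.card_insert_of_notMem hw.2, hs']
      by_cases hne : b0 (insert w s') = 0
      · rw [hne]
        refine Finset.sum_eq_zero fun t _ => ?_
        by_contra h
        exact (hb1ne _ h).2.2 hne
      · have hF := hb0 _ (Finsupp.mem_support_iff.2 hne)
        obtain ⟨g1, g2, g3⟩ := hτ _ hF
        have h4 : b1 (insert w s', τ (insert w s')) = b0 (insert w s') := by
          simp only [hb1]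
          rw [if_pos ⟨hcd, trivial⟩]
        have h5 : τ (insert w s') ⊆ X := (hW2 _ (by rw [h4]; exact hne) _ (M.int_sub g1)
          subset_rfl).trans (Finset.subset_union_left.trans Finset.subset_union_left)
        rw [Finset.sum_eq_single (τ (insert w s')), h4]
        · intro t _ ht
          by_contra h
          exact ht (hb1ne _ h).2.1
        · intro h
          exact absurd (Finset.mem_powerset.2 h5) h
    rw [Finset.sum_congr rfl hin, ← sbd_apply b0 X (fun s hs => (hW'3 s hs).trans
      (Finset.subset_union_right.trans Finset.subset_union_left)), hb0c]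
    exact zmod2_add_self _
  obtain ⟨b2, hb2, hb2'⟩ := M.col_step k k hz1 (fun p hp => MX.Good.card_le M (hz1.2 p hp)) (by
    intro s hs
    by_cases h0 : ∃ t, (z + M.D b1) (s, t) ≠ 0
    · obtain ⟨t0, ht0⟩ := h0
      obtain ⟨g1, g2, g3, g4⟩ := hz1.2 _ ht0
      have hsF : s ∈ M.faces := M.down t0 (M.int_sub g3) s g2 g1
      obtain ⟨y, hy1, hy2⟩ := (M.top s hsF (fun t => (z + M.D b1) (s, t)) (by
        intro t ht
        obtain ⟨_, f2, f3, f4⟩ := hz1.2 _ ht
        simp only at f2 f3 f4
        exact ⟨f3, f2, by omega⟩)).1 (hsum s hs)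
      refine ⟨y, fun t ht => ?_, hy2⟩
      obtain ⟨f1, f2, f3⟩ := hy1 t ht
      exact ⟨f1, f2, by omega⟩
    · push Not at h0
      refine ⟨0, fun t ht => absurd rfl ht, fun t _ _ => ?_⟩
      rw [h0 t]; simp [cob])
  have hz2 := M.isTot_add hz1 (M.isTot_D hb2)
  obtain ⟨b3, hb3, hb3'⟩ := M.exact_aux k k le_rfl _ hz2
    (by rw [M.D_add, hD1, M.D_D, add_zero]) hb2'
  refine ⟨b1 + b2 + b3, M.isTot_add (M.isTot_add hb1T hb2) hb3, ?_⟩
  rw [M.D_add, M.D_add, hb3']
  funext p
  simp only [Pi.add_apply]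
  have h1 := zmod2_add_self (M.D b1 p)
  have h2 := zmod2_add_self (M.D b2 p)
  linear_combination h1 + h2

/-- the augmentation is surjective -/
theorem MX.exists_aug : ∃ z : Finset V × Finset V → ZMod 2, M.IsTot 0 z ∧ ∑ᶠ p, z p = 1 := by
  classical
  obtain ⟨s0, hs0⟩ := M.nonempty
  obtain ⟨t, ht, hst, htc⟩ := M.ex_top s0 hs0
  obtain ⟨v, hv⟩ := M.ne s0 hs0
  refine ⟨Pi.single ({v}, t) 1, ⟨?_, ?_⟩, ?_⟩
  · exact (Set.finite_singleton _).subset Pi.support_single_subset
  · rintro p hp
    have hp' : p = ({v}, t) := by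
      by_contra hne
      rw [Pi.single_eq_of_ne hne] at hp
      exact hp rfl
    subst hp'
    refine ⟨Finset.singleton_nonempty v, ?_, ht, ?_⟩
    · simpa using hst hv
    · simp only [Finset.card_singleton]; omega
  · rw [finsum_eq_single _ (({v}, t) : Finset V × Finset V)]
    · rw [Pi.single_eq_same]
    · intro p hp
      rw [Pi.single_eq_of_ne hp]

end Pool.Agent.H37.TM.TotX
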