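import Pool.Agent.H37.TM.MDefs
import Pool.Agent.H37.TM.TotB

/-!
# Project TM: the double complex of pairs

`E = Finset U × Finset U`; a cell of index `m + 1` is a pair `(σ, τ)` with `∅ ≠ σ ⊆ τ`, `τ` in `K` but not in
`B`, `|σ| + n = |τ| + m`; the only cell of index `0` is `(∅, ∅)` (augmentation). The boundary lowers `σ` and
raises `τ`.
-/

set_option autoImplicit false
set_option linter.unusedSectionVars false

open Finset Pointwise

namespace Pool.Agent.H37.TM

variable {U : Type} [DecidableEq U]

open Classical in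
/-- the cofaces of `t` with `j` vertices -/
noncomputable def cofs (K : Set (Finset U)) (t : Finset U) (j : ℕ) : Finset (Finset U) :=
  if h : {t' | t' ∈ K ∧ t ⊆ t' ∧ t'.card = j}.Finite then h.toFinset else ∅

theorem mem_cofs {K B : Set (Finset U)} {n : ℕ} (hM : Mfd K B n) {t : Finset U} (ht : t ∈ K)
    {j : ℕ} {t' : Finset U} : t' ∈ cofs K t j ↔ t' ∈ K ∧ t ⊆ t' ∧ t'.card = j := by
  have h : {t' | t' ∈ K ∧ t ⊆ t' ∧ t'.card = j}.Finite :=
    (hM.locfin t ht).subset fun t' h => ⟨h.1, h.2.1⟩
  unfold cofs
  rw [dif_pos h, Set.Finite.mem_toFinset]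
  rfl

/-- the boundary of the cell `(σ, τ)` -/
noncomputable def bdE (K : Set (Finset U)) (n : ℕ) (e : Finset U × Finset U) :
    Finset U × Finset U →₀ ZMod 2 :=
  if e.1 = ∅ then 0 else
    (if e.1.card = 1 then (if e.2.card = n + 1 then Finsupp.single (∅, ∅) 1 else 0)
      else ∑ v ∈ e.1, Finsupp.single (e.1.erase v, e.2) 1) +
    ∑ t ∈ cofs K e.2 (e.2.card + 1), Finsupp.single (e.1, t) 1

/-- the boundary -/
noncomputable def bdT (K : Set (Finset U)) (n : ℕ) :
    (Finset U × Finset U →₀ ZMod 2) →ₗ[ZMod 2] (Finset U × Finset U →₀ ZMod 2) :=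
  Finsupp.linearCombination (ZMod 2) (bdE K n)

/-- the cells of index `i` -/
def TCell (K B : Set (Finset U)) (n : ℕ) : ℕ → Set (Finset U × Finset U)
  | 0 => {(∅, ∅)}
  | m + 1 => {e | e.1.Nonempty ∧ e.1 ⊆ e.2 ∧ e.2 ∈ K ∧ e.2 ∉ B ∧ e.1.card + n = e.2.card + m}

/-- the chains of index `i` -/
noncomputable def TN (K B : Set (Finset U)) (n : ℕ) (i : ℕ) :
    Submodule (ZMod 2) (Finset U × Finset U →₀ ZMod 2) :=
  Finsupp.supported (ZMod 2) (ZMod 2) (TCell K B n i)

/-- The homology manifold as an object of the auxiliary files. -/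
def toMX {K B : Set (Finset U)} {n d : ℕ} (hM : Mfd K B n) (hK : AcycLt K d) : TotX.MX U n where
  faces := K
  bd := B
  ne := hM.ne
  down := hM.down
  bd_down := hM.bd_down
  card_le := hM.card_le
  fin := by
    intro v
    by_cases h : ({v} : Finset U) ∈ K
    · refine (hM.locfin _ h).subset fun t ht => ⟨ht.1, ?_⟩
      rw [Finset.singleton_subset_iff]; exact ht.2
    · refine Set.Finite.subset Set.finite_empty fun t ht => ?_
      exact absurd (hM.down t ht.1 {v} (Finset.singleton_subset_iff.2 ht.2)
        (Finset.singleton_nonempty v)) h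
  loc := by
    intro s hs j hj x hx h0
    obtain ⟨g, hg, hg'⟩ := hM.low s hs j hj x
      (fun t ht => ⟨(hx t ht).1.1, (hx t ht).1.2, (hx t ht).2⟩)
      (fun t ht _ hst => h0 t ht hst)
    refine ⟨g, fun t ht => ⟨⟨(hg t ht).1, (hg t ht).2.1⟩, (hg t ht).2.2⟩, fun t ht hst => ?_⟩
    by_cases hB : t ∈ B
    · have h1 : x t = 0 := by
        by_contra hne
        exact (hx t hne).1.2 hB
      rw [h1]
      symm
      refine Finset.sum_eq_zero fun w _ => ?_
      by_contra hne
      obtain ⟨g1, g2, _⟩ := hg _ hne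
      exact g2 (hM.bd_down t hB _ (Finset.erase_subset _ _) (hM.ne _ g1))
    · exact (hg' t ht hB hst).symm
  top := by
    intro s hs x hx
    rw [hM.top s hs x (fun t ht => ⟨(hx t ht).1.1, (hx t ht).1.2, (hx t ht).2⟩)]
    constructor
    · rintro ⟨g, hg, hg'⟩
      refine ⟨g, fun t ht => ⟨⟨(hg t ht).1, (hg t ht).2.1⟩, (hg t ht).2.2⟩, fun t ht hst => ?_⟩
      by_cases hB : t ∈ B
      · have h1 : x t = 0 := by
          by_contra hne
          exact (hx t hne).1.2 hB
        rw [h1]
        symm
        refine Finset.sum_eq_zero fun w _ => ?_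
        by_contra hne
        obtain ⟨g1, g2, _⟩ := hg _ hne
        exact g2 (hM.bd_down t hB _ (Finset.erase_subset _ _) (hM.ne _ g1))
      · exact (hg' t ht hB hst).symm
    · rintro ⟨g, hg, hg'⟩
      exact ⟨g, fun t ht => ⟨(hg t ht).1.1, (hg t ht).1.2, (hg t ht).2⟩,
        fun t ht _ hst => (hg' t ht hst).symm⟩
  ex_top := by
    intro s hs
    obtain ⟨t, h1, h2, h3⟩ := hM.top_ex s hs
    exact ⟨t, ⟨h1, h2⟩, h3⟩
  nonempty := by
    obtain ⟨g, hg, hg'⟩ := hK (Finsupp.single ∅ 1) (by
      intro s hs
      have h0 : s = ∅ := by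
        by_contra hne
        rw [Finsupp.single_apply, if_neg (fun h => hne h.symm)] at hs
        exact hs rfl
      exact ⟨Or.inr h0, by rw [h0, Finset.card_empty]; exact Nat.zero_le d⟩) (by
      unfold bdS
      rw [Finsupp.linearCombination_single]; simp)
    by_contra hne
    rw [Set.not_nonempty_iff_eq_empty] at hne
    have h0 : g = 0 := by
      ext s
      by_contra h
      have := hg s h
      rw [hne] at this
      exact this
    rw [h0, map_zero] at hg'
    have h1 := DFunLike.congr_fun hg' (∅ : Finset U)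
    rw [Finsupp.single_eq_same, Finsupp.zero_apply] at h1
    exact absurd h1 (by decide)
  dd := d
  acyc := by
    intro c hc h0
    obtain ⟨g, hg, hg'⟩ := hK c (fun s hs =>
      ⟨Or.inl (hc s (Finsupp.mem_support_iff.2 hs)).1, (hc s (Finsupp.mem_support_iff.2 hs)).2⟩) h0
    exact ⟨g, fun s hs => hg s (Finsupp.mem_support_iff.1 hs), hg'⟩

/-- the coefficients of the boundary of one cell -/
theorem bdE_apply {K B : Set (Finset U)} {n d : ℕ} (hM : Mfd K B n) (hK : AcycLt K d) {m : ℕ}
    {e : Finset U × Finset U} (he : e ∈ TCell K B n (m + 1)) {s t : Finset U}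
    (hs : s.Nonempty) :
    bdE K n e (s, t) = (toMX hM hK).D (Pi.single e 1) (s, t) := by
  classical
  obtain ⟨σ, τ⟩ := e
  obtain ⟨hσ, hστ, hτK, hτB, hcard⟩ := he
  simp only at hσ hστ hτK hτB hcard
  have hsne : s ≠ ∅ := hs.ne_empty
  have hFaces : (toMX hM hK).faces = K := rfl
  -- the coefficients of `bdE`
  have hA : bdE K n (σ, τ) (s, t) = (∑ v ∈ σ, if σ.erase v = s ∧ τ = t then (1 : ZMod 2) else 0) +
      (if σ = s ∧ t ∈ cofs K τ (τ.card + 1) then 1 else 0) := by
    unfold bdE
    rw [if_neg hσ.ne_empty, Finsupp.add_apply]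
    congr 1
    · simp only
      by_cases h1 : σ.card = 1
      · rw [if_pos h1]
        obtain ⟨v, hv⟩ := Finset.card_eq_one.1 h1
        have h2 : (∑ v ∈ σ, if σ.erase v = s ∧ τ = t then (1 : ZMod 2) else 0) = 0 := by
          refine Finset.sum_eq_zero fun w hw => ?_
          rw [if_neg]
          rintro ⟨h3, _⟩
          rw [hv, Finset.mem_singleton] at hw
          rw [hv, hw, Finset.erase_singleton] at h3
          exact hsne h3.symm
        rw [h2]
        split_ifs
        · rw [Finsupp.single_apply, if_neg]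
          intro h3
          rw [Prod.mk.injEq] at h3
          exact hsne h3.1.symm
        · rfl
      · rw [if_neg h1, Finsupp.finsetSum_apply]
        refine Finset.sum_congr rfl fun v _ => ?_
        rw [Finsupp.single_apply]
        simp only [Prod.mk.injEq]
    · rw [Finsupp.finsetSum_apply]
      simp only [Finsupp.single_apply, Prod.mk.injEq]
      by_cases h1 : σ = s
      · simp [h1]
      · simp [h1]
  rw [hA]
  by_cases hc : s ⊆ t ∧ t ∈ K
  · rw [(toMX hM hK).D_of hs hc.1 hc.2, Finset.sum_add_distrib]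
    congr 1
    · have h1 : ∀ w ∈ t \ s, (Pi.single (σ, τ) (1 : ZMod 2) : Finset U × Finset U → ZMod 2)
          (insert w s, t) = if insert w s = σ ∧ t = τ then 1 else 0 := by
        intro w _
        rw [Pi.single_apply]
        simp only [Prod.mk.injEq]
      rw [Finset.sum_congr rfl h1, ← Finset.sum_filter, ← Finset.sum_filter]
      refine Finset.sum_congr ?_ fun _ _ => rfl
      ext v
      simp only [Finset.mem_filter, Finset.mem_sdiff]
      constructor
      · rintro ⟨h2, h3, h4⟩
        refine ⟨⟨by rw [← h4]; exact hστ h2, ?_⟩, ?_, h4.symm⟩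
        · rw [← h3]; exact Finset.notMem_erase _ _
        · rw [← h3, Finset.insert_erase h2]
      · rintro ⟨⟨_, h3⟩, h4, h5⟩
        refine ⟨by rw [← h4]; exact Finset.mem_insert_self _ _, ?_, h5.symm⟩
        rw [← h4, Finset.erase_insert h3]
    · have h1 : ∀ w ∈ t \ s, (Pi.single (σ, τ) (1 : ZMod 2) : Finset U × Finset U → ZMod 2)
          (s, t.erase w) = if s = σ ∧ t.erase w = τ then 1 else 0 := by
        intro w _
        rw [Pi.single_apply]
        simp only [Prod.mk.injEq]
      rw [Finset.sum_congr rfl h1]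
      by_cases h2 : σ = s ∧ t ∈ cofs K τ (τ.card + 1)
      · rw [if_pos h2]
        obtain ⟨h3, h4⟩ := h2
        rw [mem_cofs hM hτK] at h4
        obtain ⟨_, h5, h6⟩ := h4
        have h7 : (t \ τ).card = 1 := by
          rw [Finset.card_sdiff_of_subset h5]; omega
        obtain ⟨w, hw⟩ := Finset.card_eq_one.1 h7
        have hw1 : w ∈ t ∧ w ∉ τ := by
          rw [← Finset.mem_sdiff, hw]; exact Finset.mem_singleton_self w
        have hw2 : t.erase w = τ := by
          have h8 : τ ⊆ t.erase w := Finset.subset_erase.2 ⟨h5, hw1.2⟩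
          refine (Finset.eq_of_subset_of_card_le h8 ?_).symm
          rw [Finset.card_erase_of_mem hw1.1]; omega
        rw [Finset.sum_eq_single w]
        · rw [if_pos ⟨h3.symm, hw2⟩]
        · intro v hv hvw
          rw [if_neg]
          rintro ⟨_, h9⟩
          rw [Finset.mem_sdiff] at hv
          have : v ∈ t \ τ := by
            rw [Finset.mem_sdiff, ← h9]
            exact ⟨hv.1, Finset.notMem_erase _ _⟩
          rw [hw, Finset.mem_singleton] at this
          exact hvw this
        · intro h9
          exact absurd (Finset.mem_sdiff.2 ⟨hw1.1, fun h => hw1.2 (hστ (by rw [h3]; exact h))⟩) h9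
      · rw [if_neg h2]
        symm
        refine Finset.sum_eq_zero fun w hw => ?_
        rw [if_neg]
        rintro ⟨h3, h4⟩
        rw [Finset.mem_sdiff] at hw
        refine h2 ⟨h3.symm, ?_⟩
        rw [mem_cofs hM hτK]
        refine ⟨hc.2, by rw [← h4]; exact Finset.erase_subset _ _, ?_⟩
        rw [← h4, Finset.card_erase_of_mem hw.1]
        have := Finset.card_pos.2 ⟨w, hw.1⟩
        omega
  · rw [(toMX hM hK).D_of_not (p := (s, t)) (fun h => hc ⟨h.2.1, h.2.2⟩)]
    have h1 : (∑ v ∈ σ, if σ.erase v = s ∧ τ = t then (1 : ZMod 2) else 0) = 0 := by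
      refine Finset.sum_eq_zero fun v _ => ?_
      rw [if_neg]
      rintro ⟨h3, h4⟩
      refine hc ⟨?_, by rw [← h4]; exact hτK⟩
      rw [← h3, ← h4]
      exact (Finset.erase_subset _ _).trans hστ
    rw [h1, zero_add, if_neg]
    rintro ⟨h3, h4⟩
    rw [mem_cofs hM hτK] at h4
    exact hc ⟨by rw [← h3]; exact hστ.trans h4.2.1, h4.1⟩

/-- `D` as an additive map -/
noncomputable def DL {K B : Set (Finset U)} {n d : ℕ} (hM : Mfd K B n) (hK : AcycLt K d) :
    (Finset U × Finset U → ZMod 2) →+ (Finset U × Finset U → ZMod 2) where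
  toFun := (toMX hM hK).D
  map_zero' := (toMX hM hK).D_zero
  map_add' := (toMX hM hK).D_add

/-- the coefficients of the boundary of a chain -/
theorem bdT_apply {K B : Set (Finset U)} {n d : ℕ} (hM : Mfd K B n) (hK : AcycLt K d) {m : ℕ}
    {x : Finset U × Finset U →₀ ZMod 2} (hx : x ∈ TN K B n (m + 1)) {s t : Finset U}
    (hs : s.Nonempty) : bdT K n x (s, t) = (toMX hM hK).D x (s, t) := by
  classical
  have hx' : ∀ e ∈ x.support, e ∈ TCell K B n (m + 1) := fun e he =>
    (Finsupp.mem_supported _ _).1 hx he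
  have h1 : (x : Finset U × Finset U → ZMod 2) = ∑ e ∈ x.support, Pi.single e (x e) := by
    funext p
    rw [Finset.sum_apply]
    by_cases hp : p ∈ x.support
    · rw [Finset.sum_eq_single p]
      · rw [Pi.single_eq_same]
      · intro e _ hne
        rw [Pi.single_eq_of_ne hne.symm]
      · intro h; exact absurd hp h
    · rw [Finsupp.notMem_support_iff.1 hp]
      symm
      refine Finset.sum_eq_zero fun e he => ?_
      rw [Pi.single_eq_of_ne]
      intro h; rw [h] at hp; exact hp he
  have h2 : (toMX hM hK).D x = ∑ e ∈ x.support, (toMX hM hK).D (Pi.single e (x e)) := by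
    conv_lhs => rw [h1]
    exact map_sum (DL hM hK) _ _
  rw [h2, Finset.sum_apply]
  unfold bdT
  rw [Finsupp.linearCombination_apply, Finsupp.sum, Finsupp.finsetSum_apply]
  refine Finset.sum_congr rfl fun e he => ?_
  have h3 : x e = 1 := by
    have h4 := Finsupp.mem_support_iff.1 he
    revert h4
    generalize x e = a
    revert a
    decide
  rw [h3, one_smul]
  exact bdE_apply hM hK (hx' e he) hs

/-- **The augmented complex of pairs is exact.** Proof for `i = m + 1`: decompose `x` by `|σ|`; the sum over the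
`τ` with `n + 1` vertices of the part with `|σ| = m + 1` is a cycle of `K`, so a boundary (`Acyc`); lift the
bounding chain (choose for every `σ` a top simplex) and subtract: then this sum is zero and `Mfd.top` makes the
part with `|σ| = m + 1` zero; then `Mfd.low` does the same for `|σ| = m, …, 1`. For `i = 0` take a vertex and a top
simplex. -/
theorem tot_exact {K B : Set (Finset U)} {n d : ℕ} (hM : Mfd K B n) (hK : AcycLt K d) (i : ℕ)
    (hi : i ≤ d)
    (x : Finset U × Finset U →₀ ZMod 2) (hx : x ∈ TN K B n i) (h0 : bdT K n x = 0) :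
    ∃ y ∈ TN K B n (i + 1), bdT K n y = x := by
  classical
  match i with
  | 0 =>
    -- a vertex and a top simplex
    obtain ⟨s0, hs0⟩ := (toMX hM hK).nonempty
    obtain ⟨t, htK, htB, hst, htc⟩ := hM.top_ex s0 hs0
    obtain ⟨v, hv⟩ := hM.ne s0 hs0
    have hcell : (({v}, t) : Finset U × Finset U) ∈ TCell K B n 1 := by
      refine ⟨Finset.singleton_nonempty v, ?_, htK, htB, ?_⟩
      · simpa using hst hv
      · simp only [Finset.card_singleton]; omega
    refine ⟨Finsupp.single ({v}, t) (x (∅, ∅)), ?_, ?_⟩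
    · exact Finsupp.single_mem_supported _ _ hcell
    · unfold bdT
      rw [Finsupp.linearCombination_single]
      have h1 : bdE K n ({v}, t) = Finsupp.single (∅, ∅) 1 := by
        unfold bdE
        simp only [Finset.card_singleton, if_true]
        rw [if_neg (Finset.singleton_ne_empty v), if_pos htc]
        have h2 : cofs K t (t.card + 1) = ∅ := by
          ext t'
          rw [mem_cofs hM htK]
          simp only [Finset.notMem_empty, iff_false]
          rintro ⟨h3, _, h4⟩
          have := hM.card_le t' h3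
          omega
        rw [h2, Finset.sum_empty, add_zero]
      rw [h1]
      ext p
      rw [Finsupp.smul_apply, Finsupp.single_apply]
      split_ifs with hp
      · rw [← hp, smul_eq_mul, mul_one]
      · rw [smul_zero]
        by_contra hne
        have := (Finsupp.mem_supported _ _).1 hx (Finsupp.mem_support_iff.2 (Ne.symm hne))
        exact hp (Set.mem_singleton_iff.1 this).symm
  | m + 1 =>
    have hx' : ∀ e, x e ≠ 0 → e ∈ TCell K B n (m + 1) := fun e he =>
      (Finsupp.mem_supported _ _).1 hx (Finsupp.mem_support_iff.2 he)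
    have hT : (toMX hM hK).IsTot m x := by
      refine ⟨x.hasFiniteSupport, fun p hp => ?_⟩
      obtain ⟨h1, h2, h3, h4, h5⟩ := hx' p hp
      exact ⟨h1, h2, ⟨h3, h4⟩, h5⟩
    have hD : (toMX hM hK).D x = 0 := by
      funext p
      obtain ⟨s, t⟩ := p
      by_cases hs : s.Nonempty
      · rw [← bdT_apply hM hK hx hs, h0]; rfl
      · rw [(toMX hM hK).D_of_not (fun h => hs h.1)]; rfl
    obtain ⟨b, hb, hbx⟩ := (toMX hM hK).exact m hi hT hD (by
      intro hm
      subst hm
      -- the coefficient of the empty pair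
      have h1 : bdT K n x (∅, ∅) = 0 := by rw [h0]; rfl
      unfold bdT at h1
      rw [Finsupp.linearCombination_apply, Finsupp.sum, Finsupp.finsetSum_apply] at h1
      rw [← h1, finsum_eq_sum_of_support_subset (s := x.support) _ (by
        intro p hp
        exact Finsupp.mem_support_iff.2 hp)]
      refine Finset.sum_congr rfl fun e he => ?_
      obtain ⟨σ, τ⟩ := e
      obtain ⟨f1, f2, f3, f4, f5⟩ := hx' _ (Finsupp.mem_support_iff.1 he)
      simp only at f1 f2 f3 f4 f5
      have h2 := Finset.card_pos.2 f1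
      have h3 := hM.card_le τ f3
      have h4 : σ.card = 1 := by omega
      have h5 : τ.card = n + 1 := by omega
      rw [Finsupp.smul_apply]
      unfold bdE
      simp only
      rw [if_neg f1.ne_empty, if_pos h4, if_pos h5, Finsupp.add_apply, Finsupp.single_eq_same,
        Finsupp.finsetSum_apply]
      rw [Finset.sum_eq_zero (fun t _ => ?_), add_zero, smul_eq_mul, mul_one]
      rw [Finsupp.single_apply, if_neg]
      intro h
      rw [Prod.mk.injEq] at h
      exact f1.ne_empty h.1)
    set y : Finset U × Finset U →₀ ZMod 2 := Finsupp.ofSupportFinite b hb.1 with hy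
    have hyb : (y : Finset U × Finset U → ZMod 2) = b := rfl
    have hyT : y ∈ TN K B n (m + 1 + 1) := by
      refine (Finsupp.mem_supported _ _).2 fun e he => ?_
      obtain ⟨h1, h2, h3, h4⟩ := hb.2 e (Finsupp.mem_support_iff.1 he)
      exact ⟨h1, h2, h3.1, h3.2, h4⟩
    refine ⟨y, hyT, ?_⟩
    ext p
    obtain ⟨s, t⟩ := p
    by_cases hs : s.Nonempty
    · rw [bdT_apply hM hK hyT hs, hyb, hbx]
    · rw [Finset.not_nonempty_iff_eq_empty] at hs
      subst hs
      have h1 : x (∅, t) = 0 := by
        by_contra hne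
        exact Finset.not_nonempty_empty (hx' _ hne).1
      rw [h1]
      unfold bdT
      rw [Finsupp.linearCombination_apply, Finsupp.sum, Finsupp.finsetSum_apply]
      refine Finset.sum_eq_zero fun e he => ?_
      obtain ⟨σ, τ⟩ := e
      obtain ⟨f1, f2, f3, f4, f5⟩ : (σ, τ) ∈ TCell K B n (m + 1 + 1) :=
        (Finsupp.mem_supported _ _).1 hyT he
      simp only at f1 f2 f3 f4 f5
      rw [Finsupp.smul_apply]
      unfold bdE
      simp only
      have h7 : ∑ i ∈ cofs K τ (τ.card + 1),
          (Finsupp.single (σ, i) (1 : ZMod 2)) ((∅ : Finset U), t) = 0 := by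
        refine Finset.sum_eq_zero fun t' _ => ?_
        rw [Finsupp.single_apply, if_neg]
        intro h
        rw [Prod.mk.injEq] at h
        exact f1.ne_empty h.1
      rw [if_neg f1.ne_empty, Finsupp.add_apply, Finsupp.finsetSum_apply, h7, add_zero]
      · by_cases h4 : σ.card = 1
        · rw [if_pos h4, if_neg (by omega)]
          simp
        · rw [if_neg h4, Finsupp.finsetSum_apply, Finset.sum_eq_zero (fun v hv => ?_), smul_zero]
          rw [Finsupp.single_apply, if_neg]
          intro h
          rw [Prod.mk.injEq] at h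
          have h6 := Finset.card_erase_of_mem hv
          rw [h.1, Finset.card_empty] at h6
          have := Finset.card_pos.2 f1
          omega

end Pool.Agent.H37.TM
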