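import Pool.Agent.H37.TM.Cup

/-!
# Project TM (top degree): homology manifolds

`Mfd K B n` = simplicial complexes `K` which are homology manifolds of dimension `n` over the field of two
elements, with boundary `B`; `Acyc K` = acyclic over the field of two elements; `MAct` = free actions.
-/

set_option autoImplicit false
set_option linter.unusedSectionVars false

open Finset Pointwise

namespace Pool.Agent.H37.TM

variable {U : Type} [DecidableEq U]

/-- cochains of `K` relative to `B` on the simplices with `j` vertices which contain `s` -/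
def Rel (K B : Set (Finset U)) (s : Finset U) (j : ℕ) (f : Finset U → ZMod 2) : Prop :=
  ∀ t, f t ≠ 0 → t ∈ K ∧ t ∉ B ∧ s ⊆ t ∧ t.card = j

/-- `f` is the coboundary of `g` in the star of `s` -/
def IsCob (K B : Set (Finset U)) (s : Finset U) (g f : Finset U → ZMod 2) : Prop :=
  ∀ t ∈ K, t ∉ B → s ⊆ t → ∑ v ∈ t \ s, g (t.erase v) = f t

/-- The simplicial complex `K` (a set of nonempty finite sets) is a homology manifold of dimension `n` over the
field of two elements, with boundary `B`: the links of the simplices `s` relative to their links in `B` have the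
cohomology of a sphere or of a ball relative to its boundary. -/
structure Mfd (K B : Set (Finset U)) (n : ℕ) : Prop where
  ne : ∀ s ∈ K, s.Nonempty
  down : ∀ s ∈ K, ∀ t, t ⊆ s → t.Nonempty → t ∈ K
  bd_sub : B ⊆ K
  bd_down : ∀ s ∈ B, ∀ t, t ⊆ s → t.Nonempty → t ∈ B
  locfin : ∀ s ∈ K, {t | t ∈ K ∧ s ⊆ t}.Finite
  card_le : ∀ s ∈ K, s.card ≤ n + 1
  top_ex : ∀ s ∈ K, ∃ t ∈ K, t ∉ B ∧ s ⊆ t ∧ t.card = n + 1
  low : ∀ s ∈ K, ∀ j < n, ∀ f, Rel K B s (j + 1) f → IsCob K B s f 0 →
    ∃ g, Rel K B s j g ∧ IsCob K B s g f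
  top : ∀ s ∈ K, ∀ f, Rel K B s (n + 1) f →
    (∑ᶠ t, f t = 0 ↔ ∃ g, Rel K B s n g ∧ IsCob K B s g f)

/-- the simplicial boundary (augmented) -/
noncomputable def bdS : (Finset U →₀ ZMod 2) →ₗ[ZMod 2] (Finset U →₀ ZMod 2) :=
  Finsupp.linearCombination (ZMod 2) fun s => ∑ v ∈ s, Finsupp.single (s.erase v) 1

/-- the augmented simplicial chain complex of `K` over the field of two elements is exact -/
def Acyc (K : Set (Finset U)) : Prop :=
  ∀ f : Finset U →₀ ZMod 2, (∀ s, f s ≠ 0 → s ∈ K ∨ s = ∅) → bdS f = 0 →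
    ∃ g : Finset U →₀ ZMod 2, (∀ s, g s ≠ 0 → s ∈ K) ∧ bdS g = f

/-- the augmented simplicial chain complex of `K` over the field of two elements is exact in the degrees less than
`d` (simplices with at most `d` vertices) -/
def AcycLt (K : Set (Finset U)) (d : ℕ) : Prop :=
  ∀ f : Finset U →₀ ZMod 2, (∀ s, f s ≠ 0 → (s ∈ K ∨ s = ∅) ∧ s.card ≤ d) → bdS f = 0 →
    ∃ g : Finset U →₀ ZMod 2, (∀ s, g s ≠ 0 → s ∈ K) ∧ bdS g = f

theorem Acyc.lt {K : Set (Finset U)} (h : Acyc K) (d : ℕ) : AcycLt K d :=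
  fun f hf => h f fun s hs => (hf s hs).1

/-- a free simplicial action with an invariant height which is injective on the simplices -/
structure MAct (Γ : Type) [Group Γ] [MulAction Γ U] (K B : Set (Finset U)) (n : ℕ)
    (ht : U → ℕ) : Prop where
  K_mem : ∀ (g : Γ) (s : Finset U), s ∈ K → g • s ∈ K
  B_mem : ∀ (g : Γ) (s : Finset U), s ∈ B → g • s ∈ B
  free : ∀ (g : Γ) (s : Finset U), s ∈ K → g • s = s → g = 1
  ht_smul : ∀ (g : Γ) (u : U), ht (g • u) = ht u
  ht_inj : ∀ s ∈ K, Set.InjOn ht (s : Set U)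
  ht_le : ∀ s ∈ K, ∀ u ∈ s, ht u ≤ n

end Pool.Agent.H37.TM
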