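import Pool.Agent.H37.TM.StarDefs

/-!
# Project TM: existence of the chain map `Ψ`, of the vertex map `f` and of the homotopy `H`
-/

set_option autoImplicit false
set_option linter.unusedSectionVars false

open Finset Pointwise

namespace Pool.Agent.H37.TM

open Pool.Agent.H19.Cub Pool.Agent.H77.SX

variable {V X U Γ : Type} [DecidableEq V] [DecidableEq U] [Group Γ] [MulAction Γ U]
  {Q : CubeComplex V X} {x₀ : X} [MulAction Γ (Q.Cover x₀)] {bit : X → V → ZMod 2}
  {K B : Set (Finset U)} {n : ℕ} {ht : U → ℕ}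

/-! ### Generalities -/

/-- the action on the chains of a set with an action, as linear maps -/
noncomputable def rhoM (Γ A : Type) [Group Γ] (φ : Γ → A → A) (h1 : φ 1 = id)
    (hm : ∀ g h, φ (g * h) = φ g ∘ φ h) : Γ →* ((A →₀ ZMod 2) →ₗ[ZMod 2] (A →₀ ZMod 2)) where
  toFun g := Finsupp.lmapDomain (ZMod 2) (ZMod 2) (φ g)
  map_one' := by
    rw [h1, Finsupp.lmapDomain_id]
    rfl
  map_mul' g h := by
    rw [hm, Finsupp.lmapDomain_comp]
    rfl

theorem rhoM_apply {Γ A : Type} [Group Γ] (φ : Γ → A → A) (h1 : φ 1 = id)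
    (hm : ∀ g h, φ (g * h) = φ g ∘ φ h) (g : Γ) (x : A →₀ ZMod 2) :
    rhoM Γ A φ h1 hm g x = x.mapDomain (φ g) := rfl

theorem mapDomain_lin {A B C : Type} (φ : B → C) {f : A → (B →₀ ZMod 2)} {x : A →₀ ZMod 2} :
    (lin f x).mapDomain φ = lin (fun c => (f c).mapDomain φ) x :=
  map_lin (Finsupp.lmapDomain (ZMod 2) (ZMod 2) φ)

theorem lin_mapDomain {A B N : Type} [AddCommGroup N] [Module (ZMod 2) N] (φ : A → B)
    {f : B → N} {x : A →₀ ZMod 2} : lin f (x.mapDomain φ) = lin (fun c => f (φ c)) x := by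
  unfold lin
  rw [Finsupp.linearCombination_mapDomain]
  rfl

theorem cell_card {i : ℕ} {e : Q.Cover x₀ × Finset V} (he : e ∈ Cell Q x₀ bit i) :
    e.2.card = i := he.2.2.1

theorem cell_zero {e : Q.Cover x₀ × Finset V} (he : e ∈ Cell Q x₀ bit 0) : bdD Q x₀ e = 0 := by
  unfold bdD
  rw [Finset.card_eq_zero.1 (cell_card he), Finset.sum_empty]

theorem cell_disj (i j : ℕ) (e : Q.Cover x₀ × Finset V) (he : e ∈ Cell Q x₀ bit i)
    (he' : e ∈ Cell Q x₀ bit j) : i = j := by
  rw [← cell_card he, ← cell_card he']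

theorem bdD_smul (hΓ : IsDeck Γ Q x₀) {i : ℕ} (g : Γ) {e : Q.Cover x₀ × Finset V}
    (he : e ∈ Cell Q x₀ bit i) : bdD Q x₀ (g • e) = (bdD Q x₀ e).mapDomain (g • ·) := by
  unfold bdD
  rw [Finsupp.mapDomain_finsetSum]
  rw [cu_smul]
  refine Finset.sum_congr rfl fun v hv => ?_
  rw [Finsupp.mapDomain_add, Finsupp.mapDomain_single, Finsupp.mapDomain_single, cu_smul, cu_smul]
  change Finsupp.single (g • e.1, e.2.erase v) 1 +
    Finsupp.single (Q.nbc x₀ v (g • e.1), e.2.erase v) 1 = _
  rw [hΓ.nb g v e.1 (he.1 hv)]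

/-- a function of the type of the cubes only is killed by the boundary -/
theorem lin_bdD_const {N : Type} [AddCommGroup N] [Module (ZMod 2) N] (F : Finset V → N)
    (e : Q.Cover x₀ × Finset V) :
    lin (fun e : Q.Cover x₀ × Finset V => F e.2) (bdD Q x₀ e) = 0 := by
  unfold bdD
  rw [map_sum]
  refine Finset.sum_eq_zero fun v _ => ?_
  rw [map_add, lin_single, lin_single]
  exact add_self_mod _

/-! ### The complex of pairs -/

theorem smul_mem_iff (hA : SAct Γ K B) (g : Γ) (s : Finset U) : g • s ∈ K ↔ s ∈ K := by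
  refine ⟨fun h => ?_, hA.K_mem g s⟩
  have := hA.K_mem g⁻¹ _ h
  rwa [inv_smul_smul] at this

theorem smul_memB_iff (hA : SAct Γ K B) (g : Γ) (s : Finset U) : g • s ∈ B ↔ s ∈ B := by
  refine ⟨fun h => ?_, hA.B_mem g s⟩
  have := hA.B_mem g⁻¹ _ h
  rwa [inv_smul_smul] at this

theorem cofs_smul (hA : SAct Γ K B) (g : Γ) (t : Finset U) (j : ℕ) :
    cofs K (g • t) j = (cofs K t j).map ⟨fun s => g • s, MulAction.injective g⟩ := by
  classical
  have hset : {t' | t' ∈ K ∧ g • t ⊆ t' ∧ t'.card = j} =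
      (fun s => g • s) '' {t' | t' ∈ K ∧ t ⊆ t' ∧ t'.card = j} := by
    ext t'
    constructor
    · rintro ⟨h1, h2, h3⟩
      refine ⟨g⁻¹ • t', ⟨?_, ?_, ?_⟩, smul_inv_smul g t'⟩
      · rw [smul_mem_iff hA]; exact h1
      · rw [← Finset.smul_finset_subset_smul_finset_iff (a := g), smul_inv_smul]
        exact h2
      · rw [Finset.card_smul_finset]; exact h3
    · rintro ⟨s, ⟨h1, h2, h3⟩, rfl⟩
      refine ⟨(smul_mem_iff hA g s).2 h1, ?_, ?_⟩
      · exact Finset.smul_finset_subset_smul_finset h2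
      · rw [Finset.card_smul_finset]; exact h3
  have hfin : {t' | t' ∈ K ∧ g • t ⊆ t' ∧ t'.card = j}.Finite ↔
      {t' | t' ∈ K ∧ t ⊆ t' ∧ t'.card = j}.Finite := by
    rw [hset]
    exact Set.finite_image_iff (MulAction.injective g).injOn
  unfold cofs
  by_cases h : {t' | t' ∈ K ∧ t ⊆ t' ∧ t'.card = j}.Finite
  · rw [dif_pos h, dif_pos (hfin.2 h)]
    ext t'
    rw [Set.Finite.mem_toFinset, Finset.mem_map]
    have : t' ∈ {t' | t' ∈ K ∧ g • t ⊆ t' ∧ t'.card = j} ↔
        t' ∈ (fun s => g • s) '' {t' | t' ∈ K ∧ t ⊆ t' ∧ t'.card = j} := by rw [hset]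
    rw [this]
    simp only [Set.mem_image, Set.Finite.mem_toFinset]
    rfl
  · rw [dif_neg h, dif_neg fun h' => h (hfin.1 h'), Finset.map_empty]

theorem bdE_smul (hA : SAct Γ K B) (g : Γ) (e : Finset U × Finset U) :
    bdE K n (g • e) = (bdE K n e).mapDomain (g • ·) := by
  have he : g • e = (g • e.1, g • e.2) := rfl
  unfold bdE
  by_cases h0 : e.1 = ∅
  · rw [if_pos h0, he, if_pos (by change g • e.1 = ∅; rw [h0, Finset.smul_finset_empty]),
      Finsupp.mapDomain_zero]
  · have h0' : ¬ (g • e).1 = ∅ := by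
      change ¬ g • e.1 = ∅
      rwa [Finset.smul_finset_eq_empty]
    rw [if_neg h0, if_neg h0', Finsupp.mapDomain_add]
    have hc1 : (g • e).1.card = e.1.card := Finset.card_smul_finset g e.1
    have hc2 : (g • e).2.card = e.2.card := Finset.card_smul_finset g e.2
    congr 1
    · rw [hc1, hc2]
      split_ifs with h1 h2
      · rw [Finsupp.mapDomain_single]
        congr 1
      · rw [Finsupp.mapDomain_zero]
      · rw [Finsupp.mapDomain_finsetSum]
        change ∑ v ∈ g • e.1, Finsupp.single ((g • e.1).erase v, g • e.2) 1 = _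
        have hsm : g • e.1 = e.1.map ⟨fun u => g • u, MulAction.injective g⟩ := by
          rw [Finset.map_eq_image]
          rfl
        conv_lhs => rw [hsm]
        rw [Finset.sum_map]
        refine Finset.sum_congr rfl fun v _ => ?_
        rw [Finsupp.mapDomain_single, ← hsm]
        change Finsupp.single ((g • e.1).erase (g • v), g • e.2) 1 =
          Finsupp.single (g • (e.1.erase v), g • e.2) 1
        rw [erase_smul]
    · rw [Finsupp.mapDomain_finsetSum]
      change ∑ t ∈ cofs K (g • e.2) ((g • e).2.card + 1), Finsupp.single (g • e.1, t) 1 = _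
      rw [hc2, cofs_smul hA, Finset.sum_map]
      refine Finset.sum_congr rfl fun t _ => ?_
      rw [Finsupp.mapDomain_single]
      rfl

theorem tcell_smul (hA : SAct Γ K B) (g : Γ) (i : ℕ) (e : Finset U × Finset U)
    (he : e ∈ TCell K B n i) : g • e ∈ TCell K B n i := by
  cases i with
  | zero =>
    have h : e = (∅, ∅) := he
    rw [h]
    change ((g • ∅ : Finset U), (g • ∅ : Finset U)) = (∅, ∅)
    rw [Finset.smul_finset_empty]
  | succ m =>
    obtain ⟨h1, h2, h3, h4, h5⟩ := he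
    refine ⟨?_, ?_, ?_, ?_, ?_⟩
    · exact h1.smul_finset
    · exact Finset.smul_finset_subset_smul_finset h2
    · exact (smul_mem_iff hA g _).2 h3
    · exact fun h => h4 ((smul_memB_iff hA g _).1 h)
    · change (g • e.1).card + n = (g • e.2).card + m
      rw [Finset.card_smul_finset, Finset.card_smul_finset]
      exact h5

theorem tn_smul (hA : SAct Γ K B) (g : Γ) (i : ℕ) (x : Finset U × Finset U →₀ ZMod 2)
    (hx : x ∈ TN K B n i) : x.mapDomain (g • ·) ∈ TN K B n i := by
  classical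
  unfold TN at hx ⊢
  rw [Finsupp.mem_supported] at hx ⊢
  intro e he
  have h := Finsupp.mapDomain_support he
  rw [Finset.mem_image] at h
  obtain ⟨e', he', rfl⟩ := h
  exact tcell_smul hA g i e' (hx he')

/-- the action on the pairs -/
noncomputable def rhoE (Γ U : Type) [DecidableEq U] [Group Γ] [MulAction Γ U] :
    Γ →* ((Finset U × Finset U →₀ ZMod 2) →ₗ[ZMod 2] (Finset U × Finset U →₀ ZMod 2)) :=
  rhoM Γ (Finset U × Finset U) (fun g e => g • e) (funext fun e => one_smul Γ e)
    fun g h => funext fun e => mul_smul g h e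

/-- `lift_free` with `F` = the augmentation `e ↦ if e.2 = ∅ then single (∅, ∅) 1 else 0`, target `bdT K n`,
`M i = TN K B n i`, exact by `tot_exact` -/
theorem exists_psi (hbit : IsBit Q bit) (hΓ : IsDeck Γ Q x₀) {d : ℕ} (hd : DimLe Q d)
    (hM : Mfd K B n) (hK : AcycLt K d)
    (hA : SAct Γ K B) :
    ∃ Ψ : Q.Cover x₀ × Finset V → (Finset U × Finset U →₀ ZMod 2),
      IsPsi Γ Q x₀ bit K B n Ψ := by
  classical
  obtain ⟨H, h1, h2, h3⟩ := lift_free (Γ := Γ) (A := Q.Cover x₀ × Finset V)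
    (N := Finset U × Finset U →₀ ZMod 2) (Cell Q x₀ bit)
    (fun i g e he => (cell_smul hΓ g e).2 he) cell_disj
    (fun i e _ g h => cu_free hΓ e g h) (bdD Q x₀)
    (fun i e he b hb => bdD_cell hbit he b hb) (fun e he => cell_zero he)
    (fun i g e he => bdD_smul hΓ g he) (fun i e he => bdD_bdD he)
    (rhoE Γ U) (bdT K n)
    (fun g x => by
      change bdT K n (x.mapDomain (g • ·)) = (bdT K n x).mapDomain (g • ·)
      change lin (bdE K n) (x.mapDomain (g • ·)) = (lin (bdE K n) x).mapDomain (g • ·)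
      rw [lin_mapDomain, mapDomain_lin]
      exact lin_congr fun c _ => bdE_smul hA g c)
    (TN K B n) (fun i g x hx => tn_smul hA g i x hx)
    (fun i ⟨e, he⟩ x hx h0 => tot_exact hM hK i (he.2.2.1 ▸ hd _ _ he.1 he.2.1) x hx h0)
    (fun e => if e.2 = ∅ then Finsupp.single (∅, ∅) 1 else 0)
    (fun i e he => by
      split_ifs with h
      · have hi : i = 0 := by
          rw [← cell_card he, h, Finset.card_empty]
        subst hi
        exact Finsupp.single_mem_supported (ZMod 2) (1 : ZMod 2)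
          (show ((∅ : Finset U), (∅ : Finset U)) ∈ TCell K B n 0 from rfl)
      · exact Submodule.zero_mem _)
    (fun i g e he => by
      rw [cu_smul]
      dsimp only
      split_ifs with h
      · change _ = (Finsupp.single ((∅ : Finset U), (∅ : Finset U)) (1 : ZMod 2)).mapDomain (g • ·)
        rw [Finsupp.mapDomain_single]
        congr 1
      · rw [map_zero])
    (fun i e he => by
      rw [lin_bdD_const (fun σ => if σ = ∅ then Finsupp.single ((∅ : Finset U), (∅ : Finset U))
        (1 : ZMod 2) else 0) e]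
      split_ifs with h
      · change lin (bdE K n) (Finsupp.single ((∅ : Finset U), (∅ : Finset U)) (1 : ZMod 2)) = 0
        rw [lin_single]
        unfold bdE
        rw [if_pos rfl]
      · rw [map_zero])
  refine ⟨H, h1, fun g i e he => h2 i g e he, fun i e he => ?_⟩
  rw [h3 i e he]
  congr 1
  have h := cell_card he
  by_cases hi : i = 0
  · subst hi
    rw [if_pos rfl, if_pos (Finset.card_eq_zero.1 h)]
  · rw [if_neg hi, if_neg]
    intro h'
    rw [h', Finset.card_empty] at h
    exact hi h.symm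

/-- choose representatives of the orbits of the vertices -/
theorem exists_vmap (hA : SAct Γ K B) (hU : ∀ u : U, {u} ∈ K) :
    ∃ f : U → Q.Cover x₀, IsVMap Γ f := by
  obtain ⟨f, hf, -⟩ := exists_equivOn (G := Γ) (B := U) (M := Q.Cover x₀) Set.univ
    (fun _ _ _ => Set.mem_univ _)
    (fun u _ g h => hA.free g {u} (hU u) (by rw [Finset.smul_finset_singleton, h]))
    (fun g c => g • c) (fun g h c => mul_smul g h c) (fun _ _ => True)
    (fun _ _ _ _ _ => trivial) (fun _ _ => ⟨base Q x₀, trivial⟩) (base Q x₀)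
  exact ⟨f, fun g u => hf g u (Set.mem_univ u)⟩

/-! ### The homotopy -/

/-- the action on the tuples -/
noncomputable def rhoL (Γ D : Type) [Group Γ] [MulAction Γ D] :
    Γ →* ((List D →₀ ZMod 2) →ₗ[ZMod 2] (List D →₀ ZMod 2)) :=
  rhoM Γ (List D) (fun g l => l.map (g • ·))
    (funext fun l => by
      have : (fun x : D => (1 : Γ) • x) = id := funext fun x => one_smul Γ x
      rw [this, List.map_id]
      rfl)
    fun g h => funext fun l => by
      have : (fun x : D => (g * h) • x) = (fun x => g • x) ∘ fun x => h • x :=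
        funext fun x => mul_smul g h x
      rw [this, ← List.map_map]
      rfl

theorem tn_cell {i : ℕ} {y : Finset U × Finset U →₀ ZMod 2} (hy : y ∈ TN K B n i)
    (c : Finset U × Finset U) (hc : y c ≠ 0) : c ∈ TCell K B n i := by
  unfold TN at hy
  rw [Finsupp.mem_supported] at hy
  exact hy (Finsupp.mem_support_iff.2 hc)

theorem Phi_add {D : Type} (f : U → D) (y y' : Finset U × Finset U →₀ ZMod 2) :
    Phi K n ht f (y + y') = Phi K n ht f y + Phi K n ht f y' := by
  unfold Phi
  rw [map_add, Finsupp.mapDomain_add]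

theorem Phi_lin {D A : Type} (f : U → D) {Ψ : A → (Finset U × Finset U →₀ ZMod 2)}
    {x : A →₀ ZMod 2} : Phi K n ht f (lin Ψ x) = lin (fun e => Phi K n ht f (Ψ e)) x := by
  unfold Phi
  rw [map_lin, mapDomain_lin]

theorem Phi_smul {D : Type} [MulAction Γ D] (hM : Psm K B n) (hA : MAct Γ K B n ht) {f : U → D}
    (hf : IsVMap Γ f) (g : Γ) {i : ℕ} {y : Finset U × Finset U →₀ ZMod 2}
    (hy : y ∈ TN K B n i) :
    Phi K n ht f (y.mapDomain (g • ·)) = (Phi K n ht f y).mapDomain (List.map (g • ·)) := by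
  unfold Phi
  rw [lin_mapDomain, mapDomain_lin, mapDomain_lin, mapDomain_lin]
  refine lin_congr fun c hc => ?_
  rw [lamE_smul hM hA g (tn_cell hy c hc), ← Finsupp.mapDomain_comp, ← Finsupp.mapDomain_comp]
  congr 1
  funext l
  simp only [Function.comp, List.map_map]
  congr 1
  funext u
  exact hf g u

theorem BL_Phi {D : Type} (hM : Psm K B n) (hinj : ∀ s ∈ K, Set.InjOn ht (s : Set U))
    (hle : ∀ s ∈ K, ∀ u ∈ s, ht u ≤ n) (f : U → D) {i : ℕ}
    {y : Finset U × Finset U →₀ ZMod 2} (hy : y ∈ TN K B n i) :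
    BL (Phi K n ht f y) = Phi K n ht f (bdT K n y) := by
  unfold Phi
  rw [BL_map]
  congr 1
  rw [map_lin]
  change _ = lin (lamE K n ht) (lin (bdE K n) y)
  rw [← lin_lin]
  exact lin_congr fun c hc => BL_lamE hM hinj hle (tn_cell hy c hc)

/-- both `TT` and `Phi ∘ Ψ` are chain maps to the exact complex of tuples (`BL_TT`, `BL_lamE`, `BL_map`), the
augmentations cancel; `lift_free` with `F e = TT e + Phi (Ψ e)`, `M i = ⊤` -/
theorem exists_homotopy (hbit : IsBit Q bit) (hΓ : IsDeck Γ Q x₀) (hM : Psm K B n)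
    (hA : MAct Γ K B n ht) {Ψ : Q.Cover x₀ × Finset V → (Finset U × Finset U →₀ ZMod 2)}
    (hΨ : IsPsi Γ Q x₀ bit K B n Ψ) {f : U → Q.Cover x₀} (hf : IsVMap Γ f) :
    ∃ H : Q.Cover x₀ × Finset V → (List (Q.Cover x₀) →₀ ZMod 2),
      (∀ i, ∀ g : Γ, ∀ e ∈ Cell Q x₀ bit i, H (g • e) = (H e).mapDomain (List.map (g • ·))) ∧
      ∀ i, ∀ e ∈ Cell Q x₀ bit i,
        BL (H e) = TT Q x₀ e + Phi K n ht f (Ψ e) + lin H (bdD Q x₀ e) := by
  classical
  have : Nonempty (Q.Cover x₀) := ⟨base Q x₀⟩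
  have hlam0 : Phi K n ht f (Finsupp.single (∅, ∅) 1) = Finsupp.single [] 1 := by
    unfold Phi
    rw [lin_single]
    unfold lamE
    rw [if_pos rfl, Finsupp.mapDomain_single]
    rfl
  obtain ⟨H, h1, h2, h3⟩ := lift_free (Γ := Γ) (A := Q.Cover x₀ × Finset V)
    (N := List (Q.Cover x₀) →₀ ZMod 2) (Cell Q x₀ bit)
    (fun i g e he => (cell_smul hΓ g e).2 he) cell_disj
    (fun i e _ g h => cu_free hΓ e g h) (bdD Q x₀)
    (fun i e he b hb => bdD_cell hbit he b hb) (fun e he => cell_zero he)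
    (fun i g e he => bdD_smul hΓ g he) (fun i e he => bdD_bdD he)
    (rhoL Γ (Q.Cover x₀)) BL
    (fun g x => BL_map _ x)
    (fun _ => ⊤) (fun _ _ _ _ => Submodule.mem_top)
    (fun i _ x _ h0 => by
      obtain ⟨y, hy⟩ := BL_exact x h0
      exact ⟨y, Submodule.mem_top, hy⟩)
    (fun e => TT Q x₀ e + Phi K n ht f (Ψ e))
    (fun _ _ _ => Submodule.mem_top)
    (fun i g e he => by
      change TT Q x₀ (g • e) + Phi K n ht f (Ψ (g • e)) =
        (TT Q x₀ e + Phi K n ht f (Ψ e)).mapDomain (List.map (g • ·))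
      rw [Finsupp.mapDomain_add, cu_smul, TT_smul hΓ he g, ← cu_smul, hΨ.smul g i e he,
        Phi_smul hM hA hf g (hΨ.mem i e he)])
    (fun i e he => by
      rw [lin_add, map_add, BL_TT he, BL_Phi hM hA.ht_inj hA.ht_le f (hΨ.mem i e he),
        hΨ.bd i e he, Phi_add, Phi_lin]
      split_ifs with hi
      · subst hi
        rw [hlam0, cell_zero he, map_zero, map_zero, add_zero, add_zero]
        exact add_self_mod _
      · have h0 : Phi K n ht f (0 : Finset U × Finset U →₀ ZMod 2) = 0 := by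
          unfold Phi
          rw [map_zero, Finsupp.mapDomain_zero]
        rw [h0, zero_add])
  exact ⟨H, h2, h3⟩

end Pool.Agent.H37.TM
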