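import Pool.Agent.H37.TM.StarD

/-!
# Project TM: the coboundary of the cochains of pairs, correspondence at the translates
-/

set_option autoImplicit false
set_option linter.unusedSectionVars false

open Finset Pointwise

namespace Pool.Agent.H37.TM

open Pool.Agent.H19.Cub Pool.Agent.H77.SX

section

variable {U : Type} [DecidableEq U] {M B : Set (Finset U)} {n : ℕ}

theorem al_add' (x y : Finset U × Finset U →₀ ZMod 2) (τ : Finset U) :
    al (x + y) τ = al x τ + al y τ := by
  unfold al
  rw [← sum_add_distrib]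
  rfl

theorem al_smul'' (c : ZMod 2) (x : Finset U × Finset U →₀ ZMod 2) (τ : Finset U) :
    al (c • x) τ = c * al x τ := by
  unfold al
  rw [mul_sum]
  rfl

theorem al_sum' {ι : Type} (s : Finset ι) (F : ι → (Finset U × Finset U →₀ ZMod 2))
    (τ : Finset U) : al (∑ i ∈ s, F i) τ = ∑ i ∈ s, al (F i) τ := by
  unfold al
  rw [sum_comm]
  refine sum_congr rfl fun v _ => ?_
  rw [Finsupp.finsetSum_apply]

/-- the cochain of one pair -/
theorem al_single (σ τ' τ : Finset U) :
    al (Finsupp.single (σ, τ') (1 : ZMod 2)) τ =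
      ∑ v ∈ τ, if σ = {v} ∧ τ' = τ then (1 : ZMod 2) else 0 := by
  unfold al
  refine sum_congr rfl fun v _ => ?_
  rw [Finsupp.single_apply]
  simp only [Prod.mk.injEq]

/-- a symmetric double sum without diagonal vanishes modulo two -/
theorem sum_symm (τ : Finset U) (F : U → U → ZMod 2) (h : ∀ u v, F u v = F v u)
    (h0 : ∀ u, F u u = 0) : ∑ v ∈ τ, ∑ u ∈ τ, F u v = 0 := by
  rw [← sum_product']
  refine sum_involution (fun p _ => (p.2, p.1)) ?_ ?_ ?_ ?_
  · rintro ⟨v, u⟩ _
    show F u v + F v u = 0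
    rw [h u v]
    exact CharTwo.add_self_eq_zero _
  · rintro ⟨v, u⟩ _ h1 h2
    rw [Prod.mk.injEq] at h2
    apply h1
    have h3 : u = v := h2.1
    show F u v = 0
    rw [h3]
    exact h0 v
  · rintro ⟨v, u⟩ h1
    rw [mem_product] at h1 ⊢
    exact ⟨h1.2, h1.1⟩
  · rintro ⟨v, u⟩ _
    rfl

/-- the part of the boundary which lowers `σ` -/
theorem al_low (σ τ' τ : Finset U) (h : σ ⊆ τ') :
    al (∑ u ∈ σ, Finsupp.single (σ.erase u, τ') (1 : ZMod 2)) τ = 0 := by
  rw [al_sum']
  simp only [al_single]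
  by_cases hτ : τ' = τ
  · subst hτ
    simp only [and_true]
    have h1 : ∑ u ∈ σ, ∑ v ∈ τ', (if σ.erase u = {v} then (1 : ZMod 2) else 0) =
        ∑ u ∈ τ', ∑ v ∈ τ', (if u ≠ v ∧ σ = {u, v} then (1 : ZMod 2) else 0) := by
      rw [← sum_subset h]
      · refine sum_congr rfl fun u hu => sum_congr rfl fun v _ => ?_
        have h2 : σ.erase u = {v} ↔ (u ≠ v ∧ σ = {u, v}) := by
          constructor
          · intro h3
            refine ⟨?_, ?_⟩
            · rintro rfl
              have h4 : u ∈ σ.erase u := h3 ▸ mem_singleton_self u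
              exact notMem_erase u σ h4
            · rw [← insert_erase hu, h3]
          · rintro ⟨h3, h4⟩
            rw [h4, erase_insert]
            rw [mem_singleton]
            exact h3
        simp only [h2]
      · intro u _ hu
        refine sum_eq_zero fun v _ => if_neg ?_
        rintro ⟨-, h3⟩
        exact hu (h3 ▸ mem_insert_self u {v})
    rw [h1]
    refine sum_symm τ' (fun v u => if u ≠ v ∧ σ = {u, v} then (1 : ZMod 2) else 0) ?_ ?_
    · intro u v
      have h2 : (v ≠ u ∧ σ = {v, u}) ↔ (u ≠ v ∧ σ = {u, v}) := by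
        rw [pair_comm u v]
        exact and_congr_left fun _ => ne_comm
      simp only [h2]
    · intro u
      exact if_neg fun h2 => h2.1 rfl
  · refine sum_eq_zero fun u _ => sum_eq_zero fun v _ => if_neg fun h1 => hτ h1.2

/-- the coboundary of the cochain of one cell -/
theorem al_bdE (hM : Psm M B n) {i : ℕ} {e : Finset U × Finset U}
    (he : e ∈ TCell M B n (i + 1)) {τ : Finset U} (hτ : τ ∈ M) :
    al (bdE M n e) τ = cob (al (Finsupp.single e 1)) τ := by
  obtain ⟨σ, τ'⟩ := e
  obtain ⟨h1, h2, h3, h4, h5⟩ := he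
  simp only at h1 h2 h3 h4 h5
  unfold bdE
  simp only
  rw [if_neg h1.ne_empty, al_add', al_sum']
  have h6 : al (if σ.card = 1 then (if τ'.card = n + 1 then Finsupp.single (∅, ∅) (1 : ZMod 2)
      else 0) else ∑ v ∈ σ, Finsupp.single (σ.erase v, τ') 1) τ = 0 := by
    split_ifs
    · rw [al_single]
      refine sum_eq_zero fun v _ => if_neg ?_
      rintro ⟨h7, -⟩
      exact (singleton_ne_empty v) h7.symm
    · unfold al
      simp
    · exact al_low σ τ' τ h2
  rw [h6, zero_add]
  unfold cob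
  simp only [al_single]
  by_cases h7 : ∃ w, σ = {w}
  · obtain ⟨w, rfl⟩ := h7
    have hw : w ∈ τ' := h2 (mem_singleton_self w)
    -- both sides count whether `τ` is a coface of `τ'`
    have h8 : ∀ t : Finset U, (∑ v ∈ τ, if ({w} : Finset U) = {v} ∧ t = τ then (1 : ZMod 2) else 0) =
        if t = τ ∧ w ∈ τ then 1 else 0 := by
      intro t
      by_cases ht : t = τ
      · subst ht
        simp only [and_true, true_and, singleton_inj]
        rw [sum_ite_eq]
      · rw [if_neg fun h => ht h.1]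
        exact sum_eq_zero fun v _ => if_neg fun h => ht h.2
    have h9 : ∀ u ∈ τ, (∑ v ∈ τ.erase u, if ({w} : Finset U) = {v} ∧ τ' = τ.erase u
        then (1 : ZMod 2) else 0) = if τ' = τ.erase u then 1 else 0 := by
      intro u _
      by_cases ht : τ' = τ.erase u
      · rw [if_pos ht, ← ht]
        simp only [and_true, singleton_inj]
        rw [sum_ite_eq, if_pos hw]
      · rw [if_neg ht]
        exact sum_eq_zero fun v _ => if_neg fun h => ht h.2
    rw [sum_congr rfl fun t _ => h8 t, sum_congr rfl h9]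
    by_cases hc : τ' ⊆ τ ∧ τ.card = τ'.card + 1
    · have h10 : τ ∈ cofs M τ' (τ'.card + 1) := (mem_cofsP hM h3).2 ⟨hτ, hc.1, hc.2⟩
      have hwτ : w ∈ τ := hc.1 hw
      rw [sum_eq_single_of_mem τ h10 (fun t _ ht => if_neg fun h => ht h.1), if_pos ⟨rfl, hwτ⟩]
      have h11 : (τ \ τ').card = 1 := by
        rw [card_sdiff_of_subset hc.1]
        omega
      obtain ⟨v, hv⟩ := card_eq_one.1 h11
      have hv' : v ∈ τ \ τ' := hv ▸ mem_singleton_self v
      have hv1 := (mem_sdiff.1 hv').1
      have hv2 := (mem_sdiff.1 hv').2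
      have h12 : τ' = τ.erase v := by
        refine eq_of_subset_of_card_le (subset_erase.2 ⟨hc.1, hv2⟩) ?_
        rw [card_erase_of_mem hv1]
        omega
      rw [sum_eq_single_of_mem v hv1, if_pos h12]
      intro u hu huv
      refine if_neg fun h => ?_
      rw [h12] at h
      have h13 : v ∈ τ.erase u := mem_erase.2 ⟨huv.symm, hv1⟩
      rw [← h] at h13
      exact notMem_erase v τ h13
    · rw [sum_eq_zero, sum_eq_zero]
      · intro u hu
        refine if_neg fun h : τ' = τ.erase u => hc ⟨?_, ?_⟩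
        · rw [h]
          exact erase_subset u τ
        · have h13 := card_pos.2 ⟨u, hu⟩
          rw [h, card_erase_of_mem hu]
          omega
      · intro t ht
        refine if_neg ?_
        rintro ⟨rfl, -⟩
        rw [mem_cofsP hM h3] at ht
        exact hc ⟨ht.2.1, ht.2.2⟩
  · rw [sum_eq_zero, sum_eq_zero]
    · intro u _
      exact sum_eq_zero fun v _ => if_neg fun h => h7 ⟨v, h.1⟩
    · intro t _
      exact sum_eq_zero fun v _ => if_neg fun h => h7 ⟨v, h.1⟩

end

variable {V X U Γ P K : Type} [DecidableEq V] [DecidableEq U] [Group Γ] [MulAction Γ U]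
  {Q : CubeComplex V X} {x₀ : X} [MulAction Γ (Q.Cover x₀)] {bit : X → V → ZMod 2}
  [Group P] [Field K] [Algebra (ZMod 2) K] {g : V → P} {t : V → P → K}
  {M B : Set (Finset U)} {n : ℕ} {ht : U → ℕ}

/-- the coboundary of the cochain of a chain -/
theorem al_bdT (hM : Psm M B n) {i : ℕ} {y : Finset U × Finset U →₀ ZMod 2}
    (hy : y ∈ TN M B n (i + 1)) {τ : Finset U} (hτ : τ ∈ M) :
    al (bdT M n y) τ = cob (al y) τ := by
  have h1 : y ∈ Submodule.span (ZMod 2)
      ((fun e => Finsupp.single e (1 : ZMod 2)) '' TCell M B n (i + 1)) := by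
    rw [← Finsupp.supported_eq_span_single]
    exact hy
  clear hy
  induction h1 using Submodule.span_induction with
  | mem x hx =>
    obtain ⟨e, he, rfl⟩ := hx
    show al (bdT M n (Finsupp.single e 1)) τ = cob (al (Finsupp.single e 1)) τ
    rw [← al_bdE hM he hτ]
    unfold bdT
    rw [Finsupp.linearCombination_single, one_smul]
  | zero =>
    rw [map_zero]
    unfold cob al
    simp
  | add x y _ _ h1 h2 =>
    rw [map_add, al_add', h1, h2]
    unfold cob
    rw [← sum_add_distrib]
    exact sum_congr rfl fun v _ => (al_add' x y _).symm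
  | smul c x _ h =>
    rw [map_smul, al_smul'', h]
    unfold cob
    rw [mul_sum]
    exact sum_congr rfl fun v _ => (al_smul'' c x _).symm

/-- the element of the extension module which is the value of all `aa` at `τ` -/
noncomputable def FF (D : Dat Q g t) (s : Finset V) (x₀ : X) (bit : X → V → ZMod 2) (d : ℕ)
    (z : Finset V → X → Finset V × P → K)
    (Ψ : Q.Cover x₀ × Finset V → (Finset U × Finset U →₀ ZMod 2)) (τ : Finset U) :
    Finset V × P → K := open Classical in
  ∑ᶠ e : Q.Cover x₀ × Finset V,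
    if e ∈ Cell Q x₀ bit d then al (Ψ e) τ • upz D s x₀ z e else 0

theorem FF_apply (D : Dat Q g t) {s : Finset V} {d : ℕ}
    {Ψ : Q.Cover x₀ × Finset V → (Finset U × Finset U →₀ ZMod 2)}
    (z : Finset V → X → Finset V × P → K) {τ : Finset U}
    (h : {e | e ∈ Cell Q x₀ bit d ∧ al (Ψ e) τ ≠ 0}.Finite) (p : P) (A : Finset V) :
    FF D s x₀ bit d z Ψ τ (A, p) = aa D s x₀ bit d z Ψ p A τ := by
  classical
  unfold FF aa
  have h1 := (LinearMap.proj (R := K) (φ := fun _ : Finset V × P => K) (A, p)).toAddMonoidHom.map_finsum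
    (f := fun e : Q.Cover x₀ × Finset V =>
      if e ∈ Cell Q x₀ bit d then al (Ψ e) τ • upz D s x₀ z e else 0) (h.subset ?_)
  · have h2 : ∀ F : Finset V × P → K, (LinearMap.proj (R := K)
        (φ := fun _ : Finset V × P => K) (A, p)).toAddMonoidHom F = F (A, p) := fun F => rfl
    rw [h2] at h1
    refine Eq.trans ?_ (h1.trans (finsum_congr fun e => ?_))
    · congr!
    · rw [h2]
      by_cases hc : e ∈ Cell Q x₀ bit d
      · rw [if_pos hc, if_pos hc]
        rfl
      · rw [if_neg hc, if_neg hc]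
        rfl
  · intro e he
    rw [Function.mem_support] at he
    by_cases hc : e ∈ Cell Q x₀ bit d
    · rw [if_pos hc] at he
      exact ⟨hc, fun h0 => he (by rw [h0, zero_smul])⟩
    · rw [if_neg hc] at he
      exact absurd rfl he

/-- the values of the cochains at the translates -/
theorem aa_smul [Fintype V] [Fintype X] (D : Dat Q g t) {s : Finset V} {d : ℕ}
    (hΓ : IsDeck Γ Q x₀) (hM : Psm M B n) (hA : MAct Γ M B n ht)
    {Ψ : Q.Cover x₀ × Finset V → (Finset U × Finset U →₀ ZMod 2)}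
    (hΨ : IsPsi Γ Q x₀ bit M B n Ψ) (z : Finset V → X → Finset V × P → K) (p : P) (γ : Γ)
    (A : Finset V) (τ : Finset U) :
    aa D s x₀ bit d z Ψ p A (γ • τ) =
      act D s x₀ (γ • base Q x₀) (FF D s x₀ bit d z Ψ τ) (A, p) := by
  classical
  obtain ⟨-, -, hcol, heq⟩ := al_fin (d := d) hΓ hM hA hΨ
  have h1 : act D s x₀ (γ • base Q x₀) (FF D s x₀ bit d z Ψ τ) (A, p) =
      ((LinearMap.proj (R := K) (φ := fun _ : Finset V × P => K) (A, p)) ∘ₗ
        act D s x₀ (γ • base Q x₀)).toAddMonoidHom (FF D s x₀ bit d z Ψ τ) := rfl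
  rw [h1]
  unfold FF
  rw [AddMonoidHom.map_finsum]
  · unfold aa
    rw [← finsum_comp_equiv (MulAction.toPerm γ)]
    refine finsum_congr fun e => ?_
    rw [MulAction.toPerm_apply]
    by_cases hc : e ∈ Cell Q x₀ bit d
    · rw [if_pos ((cell_smul hΓ γ e).2 hc), if_pos hc, heq γ e hc]
      show al (Ψ e) τ • upz D s x₀ z (γ • e.1, e.2) (A, p) = _
      rw [upz_smul D s x₀ hΓ]
      show _ = act D s x₀ (γ • base Q x₀) (al (Ψ e) τ • upz D s x₀ z e) (A, p)
      have h2 : ∀ (c : ZMod 2) (F : Finset V × P → K), act D s x₀ (γ • base Q x₀) (c • F) =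
          c • act D s x₀ (γ • base Q x₀) F := fun c F =>
        LinearMap.map_smul_of_tower _ c F
      rw [h2]
      rfl
    · rw [if_neg (fun h => hc ((cell_smul hΓ γ e).1 h)), if_neg hc, map_zero]
  · refine (hcol τ).subset fun e he => ?_
    rw [Function.mem_support] at he
    by_cases hc : e ∈ Cell Q x₀ bit d
    · rw [if_pos hc] at he
      exact ⟨hc, fun h0 => he (by rw [h0, zero_smul])⟩
    · rw [if_neg hc] at he
      exact absurd rfl he

/-- the values at the translates correspond to each other -/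
theorem aa_corr [Fintype V] [Fintype X] [CharP K 2] (D : Dat Q g t) {s : Finset V} {d : ℕ}
    (hbit : IsBit Q bit) (hΓ : IsDeck Γ Q x₀) (hM : Psm M B n) (hA : MAct Γ M B n ht)
    {Ψ : Q.Cover x₀ × Finset V → (Finset U × Finset U →₀ ZMod 2)}
    (hΨ : IsPsi Γ Q x₀ bit M B n Ψ) {f : U → Q.Cover x₀} (hf : IsVMap Γ f)
    (z : Finset V → X → Finset V × P → K) (p : P) (γ : Γ) :
    Corr γ (aa D s x₀ bit d z Ψ p) (aa D s x₀ bit d z Ψ (p * pos D x₀ (γ • base Q x₀)))
      (hpf D s x₀ f p) (hpf D s x₀ f (p * pos D x₀ (γ • base Q x₀))) := by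
  obtain ⟨-, -, hcol, -⟩ := al_fin (d := d) hΓ hM hA hΨ
  have h1 : ∀ (A : Finset V) (τ : Finset U), aa D s x₀ bit d z Ψ p A (γ • τ) =
      act D s x₀ (γ • base Q x₀) (FF D s x₀ bit d z Ψ τ) (A, p) := aa_smul D hΓ hM hA hΨ z p γ
  have h2 : ∀ (A : Finset V) (τ : Finset U),
      aa D s x₀ bit d z Ψ (p * pos D x₀ (γ • base Q x₀)) A τ =
      FF D s x₀ bit d z Ψ τ (A, p * pos D x₀ (γ • base Q x₀)) := fun A τ =>
    (FF_apply D z (hcol τ) _ A).symm
  have h3 : ∀ (b : V) (u : U), hpf D s x₀ f p b (γ • u) = pot D s x₀ b (γ • base Q x₀) p +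
      hpf D s x₀ f (p * pos D x₀ (γ • base Q x₀)) b u := by
    intro b u
    unfold hpf
    rw [hf γ u, pot_smul D s x₀ hΓ]
  refine ⟨?_, ?_, ?_⟩
  · intro ρ t t'
    simp only [h1, h2]
    exact act_one D s x₀ (γ • base Q x₀) _ _ ρ p
  · intro ρ b hb t t' u
    simp only [h1, h2, h3]
    exact act_two D s x₀ (γ • base Q x₀) _ _ ρ hb _ p
  · intro b u u'
    rw [h3, h3]
    have h4 := add_self_zero (pot D s x₀ b (γ • base Q x₀) p)
    linear_combination h4

end Pool.Agent.H37.TM
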