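import Mathlib

/-!
# Project TM: maps from a free complex to an exact complex
-/

set_option autoImplicit false
set_option linter.unusedSectionVars false

open Finset

namespace Pool.Agent.H37.TM

/-- the linear extension of a function on a basis -/
noncomputable def lin {A N : Type} [AddCommGroup N] [Module (ZMod 2) N] (F : A → N) :
    (A →₀ ZMod 2) →ₗ[ZMod 2] N := Finsupp.linearCombination (ZMod 2) F

theorem lin_single {A N : Type} [AddCommGroup N] [Module (ZMod 2) N] (F : A → N) (a : A) :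
    lin F (Finsupp.single a 1) = F a := by
  unfold lin
  rw [Finsupp.linearCombination_single, one_smul]

/-- Equivariant choice on an invariant set on which the group acts freely. -/
theorem exists_equivOn {G B M : Type*} [Group G] [MulAction G B] (S : Set B)
    (hS : ∀ (g : G), ∀ b ∈ S, g • b ∈ S)
    (hfree : ∀ b ∈ S, ∀ g : G, g • b = b → g = 1)
    (ρ : G → M → M) (hmul : ∀ g h m, ρ (g * h) m = ρ g (ρ h m))
    (P : B → M → Prop) (hP : ∀ g, ∀ b ∈ S, ∀ m, P b m → P (g • b) (ρ g m))
    (hex : ∀ b ∈ S, ∃ m, P b m) (m0 : M) :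
    ∃ f : B → M, (∀ g : G, ∀ b ∈ S, f (g • b) = ρ g (f b)) ∧ ∀ b ∈ S, P b (f b) := by
  classical
  let rep : B → B := fun b => Quotient.out (Quotient.mk (MulAction.orbitRel G B) b)
  have hrel : ∀ b, ∃ g : G, g • rep b = b := by
    intro b
    have h := Quotient.mk_out (s := MulAction.orbitRel G B) b
    have h2 : (MulAction.orbitRel G B).r (rep b) b := h
    rw [MulAction.orbitRel_apply] at h2
    obtain ⟨g, hg⟩ := h2
    exact ⟨g⁻¹, by rw [← hg]; simp⟩
  choose γ hγ using hrel
  have hrepS : ∀ b ∈ S, rep b ∈ S := by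
    intro b hb
    have : rep b = (γ b)⁻¹ • b := by
      rw [eq_inv_smul_iff]
      exact hγ b
    rw [this]
    exact hS _ b hb
  let m : B → M := fun b => if h : b ∈ S then (hex b h).choose else m0
  have hm : ∀ b ∈ S, P b (m b) := by
    intro b hb
    simp only [m, dif_pos hb]
    exact (hex b hb).choose_spec
  have hrepG : ∀ (g : G) (b : B), rep (g • b) = rep b := by
    intro g b
    have : (Quotient.mk (MulAction.orbitRel G B) (g • b)) =
        Quotient.mk (MulAction.orbitRel G B) b := by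
      apply Quotient.sound
      change (MulAction.orbitRel G B).r (g • b) b
      rw [MulAction.orbitRel_apply]
      exact ⟨g, rfl⟩
    simp only [rep, this]
  refine ⟨fun b => ρ (γ b) (m (rep b)), ?_, ?_⟩
  · intro g b hb
    have h1' : γ (g • b) = g * γ b := by
      have e1 : γ (g • b) • rep b = g • b := by
        have := hγ (g • b)
        rwa [hrepG] at this
      have e2 : (g * γ b) • rep b = g • b := by
        rw [mul_smul, hγ]
      have e3 : ((g * γ b)⁻¹ * γ (g • b)) • rep b = rep b := by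
        rw [mul_smul, e1, ← e2, ← mul_smul, inv_mul_cancel, one_smul]
      have e4 := hfree _ (hrepS b hb) _ e3
      have := eq_inv_of_mul_eq_one_right e4
      simpa using this
    change ρ (γ (g • b)) (m (rep (g • b))) = ρ g (ρ (γ b) (m (rep b)))
    rw [h1', hrepG, hmul]
  · intro b hb
    have := hP (γ b) (rep b) (hrepS b hb) (m (rep b)) (hm _ (hrepS b hb))
    rwa [hγ] at this

/-- Dependent sequences by choice. -/
theorem exists_seq {S : ℕ → Type*} (Rel : ∀ n, S n → S (n + 1) → Prop) (s0 : S 0)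
    (step : ∀ n (s : S n), ∃ t : S (n + 1), Rel n s t) :
    ∃ s : ∀ n, S n, s 0 = s0 ∧ ∀ n, Rel n (s n) (s (n + 1)) := by
  choose t ht using step
  exact ⟨fun n => Nat.rec s0 (fun n s => t n s) n, rfl, fun n => ht n _⟩

section
variable {A N : Type} [AddCommGroup N] [Module (ZMod 2) N]

/-- The linear extension depends only on the values on the support. -/
theorem lin_congr {f f' : A → N} {x : A →₀ ZMod 2} (h : ∀ c, x c ≠ 0 → f' c = f c) :
    lin f' x = lin f x := by
  unfold lin
  rw [Finsupp.linearCombination_apply, Finsupp.linearCombination_apply]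
  exact Finsupp.sum_congr fun c hc => by rw [h c (Finsupp.mem_support_iff.1 hc)]

/-- The linear extension lies in a submodule. -/
theorem lin_mem {f : A → N} {x : A →₀ ZMod 2} {L : Submodule (ZMod 2) N}
    (h : ∀ c, x c ≠ 0 → f c ∈ L) : lin f x ∈ L := by
  unfold lin
  rw [Finsupp.linearCombination_apply]
  exact L.sum_mem fun c hc => L.smul_mem _ (h c (Finsupp.mem_support_iff.1 hc))

/-- A linear map of a linear extension. -/
theorem map_lin {N' : Type} [AddCommGroup N'] [Module (ZMod 2) N'] (u : N →ₗ[ZMod 2] N')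
    {f : A → N} {x : A →₀ ZMod 2} : u (lin f x) = lin (fun c => u (f c)) x := by
  unfold lin
  simp only [Finsupp.linearCombination_apply, Finsupp.sum, map_sum, map_smul]

/-- The linear extension of `lin f o e` is `lin f (lin e)`. -/
theorem lin_lin {B : Type} {f : B → N} {e : A → (B →₀ ZMod 2)} {x : A →₀ ZMod 2} :
    lin (fun c => lin f (e c)) x = lin f (lin e x) :=
  (map_lin (lin f)).symm

/-- Additivity in the function. -/
theorem lin_add {f g : A → N} {x : A →₀ ZMod 2} :
    lin (fun c => f c + g c) x = lin f x + lin g x := by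
  unfold lin
  simp only [Finsupp.linearCombination_apply, Finsupp.sum, smul_add, Finset.sum_add_distrib]

/-- The linear extension of a function which is equivariant on the support. -/
theorem lin_smul {Γ : Type} [Group Γ] [MulAction Γ A] (ρ : Γ →* (N →ₗ[ZMod 2] N)) {f : A → N}
    {x : A →₀ ZMod 2} (g : Γ) (hf : ∀ c, x c ≠ 0 → f (g • c) = ρ g (f c)) :
    lin f (x.mapDomain (g • ·)) = ρ g (lin f x) := by
  rw [map_lin]
  unfold lin
  rw [Finsupp.linearCombination_mapDomain]
  exact lin_congr hf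

/-- Twice anything is zero. -/
theorem add_self_mod (x : N) : x + x = 0 := by
  have h : (2 : ZMod 2) • x = 0 := by
    have : (2 : ZMod 2) = 0 := by decide
    rw [this, zero_smul]
  rwa [two_smul] at h

end

/-- **The lifting lemma.** The source is a complex with the basis `A` (cells of index `i`: `cell i`; on the cells
the group `Γ` acts freely; the boundary is `bd`), the target `N` an exact complex with the action `ρ`, `F` an
equivariant chain map. Then `F` is homotopic to zero: `d (H a) = F a + H (bd a)`. (Induction on `i`; choose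
representatives of the orbits. `F a + H (bd a)` is a cycle. The same lemma gives the existence of chain maps: the
source is not augmented, the target is, and `F` is the augmentation.) -/
theorem lift_free {Γ A N : Type} [Group Γ] [MulAction Γ A] [AddCommGroup N] [Module (ZMod 2) N]
    (cell : ℕ → Set A) (hcell : ∀ i, ∀ g : Γ, ∀ a ∈ cell i, g • a ∈ cell i)
    (hdisj : ∀ i j, ∀ a ∈ cell i, a ∈ cell j → i = j)
    (hfree : ∀ i, ∀ a ∈ cell i, ∀ g : Γ, g • a = a → g = 1)
    (bd : A → (A →₀ ZMod 2)) (hbd : ∀ i, ∀ a ∈ cell (i + 1), ∀ b, bd a b ≠ 0 → b ∈ cell i)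
    (hbd0 : ∀ a ∈ cell 0, bd a = 0)
    (hbdg : ∀ i, ∀ g : Γ, ∀ a ∈ cell i, bd (g • a) = (bd a).mapDomain (g • ·))
    (hbd2 : ∀ i, ∀ a ∈ cell i, lin bd (bd a) = 0)
    (ρ : Γ →* (N →ₗ[ZMod 2] N)) (d : N →ₗ[ZMod 2] N) (hd : ∀ g x, d (ρ g x) = ρ g (d x))
    (M : ℕ → Submodule (ZMod 2) N) (hM : ∀ i g, ∀ x ∈ M i, ρ g x ∈ M i)
    (hex : ∀ i, (∃ a, a ∈ cell i) → ∀ x ∈ M i, d x = 0 → ∃ y ∈ M (i + 1), d y = x)
    (F : A → N) (hF : ∀ i, ∀ a ∈ cell i, F a ∈ M i)
    (hFg : ∀ i, ∀ g : Γ, ∀ a ∈ cell i, F (g • a) = ρ g (F a))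
    (hFd : ∀ i, ∀ a ∈ cell i, d (F a) = lin F (bd a)) :
    ∃ H : A → N, (∀ i, ∀ a ∈ cell i, H a ∈ M (i + 1)) ∧
      (∀ i, ∀ g : Γ, ∀ a ∈ cell i, H (g • a) = ρ g (H a)) ∧
      ∀ i, ∀ a ∈ cell i, d (H a) = F a + lin H (bd a) := by
  classical
  let S : ℕ → Type := fun i => {h : A → N // (∀ a ∈ cell i, h a ∈ M (i + 1)) ∧
    (∀ g : Γ, ∀ a ∈ cell i, h (g • a) = ρ g (h a)) ∧
    ∀ b ∈ cell (i + 1), d (F b + lin h (bd b)) = 0}
  let Rel : ∀ i, S i → S (i + 1) → Prop := fun i s t =>
    ∀ b ∈ cell (i + 1), d (t.1 b) = F b + lin s.1 (bd b)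
  have key : ∀ i (t e : A → N), (∀ c ∈ cell i, d (t c) = F c + e c) →
      (∀ b ∈ cell (i + 1), lin e (bd b) = 0) →
      ∀ b ∈ cell (i + 1), d (F b + lin t (bd b)) = 0 := by
    intro i t e ht he b hb
    rw [map_add, hFd (i + 1) b hb, map_lin,
      lin_congr (f' := fun c => d (t c)) (f := fun c => F c + e c)
        (fun c hc => ht c (hbd i b hb c hc)), lin_add, he b hb, add_zero]
    exact add_self_mod _
  have step : ∀ i (s : S i), ∃ t : S (i + 1), Rel i s t := by
    rintro i ⟨h, hmem, hG, hz⟩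
    obtain ⟨t, htG, ht⟩ := exists_equivOn (M := N) (cell (i + 1)) (hcell (i + 1))
      (hfree (i + 1)) (fun g x => ρ g x) (fun g h x => by simp)
      (fun b m => m ∈ M (i + 1 + 1) ∧ d m = F b + lin h (bd b))
      (fun g b hb m hm => by
        refine ⟨hM _ g m hm.1, ?_⟩
        rw [hd, hm.2, map_add, hFg (i + 1) g b hb, hbdg (i + 1) g b hb,
          lin_smul ρ g (fun c hc => hG g c (hbd i b hb c hc))])
      (fun b hb => by
        obtain ⟨y, hy, hy'⟩ := hex (i + 1) ⟨b, hb⟩ (F b + lin h (bd b))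
          (Submodule.add_mem _ (hF (i + 1) b hb)
            (lin_mem fun c hc => hmem c (hbd i b hb c hc))) (hz b hb)
        exact ⟨y, hy, hy'⟩) 0
    refine ⟨⟨t, fun a ha => (ht a ha).1, htG, ?_⟩, fun b hb => (ht b hb).2⟩
    refine key (i + 1) t (fun c => lin h (bd c)) (fun c hc => (ht c hc).2) (fun b hb => ?_)
    rw [lin_lin, hbd2 _ b hb, map_zero]
  obtain ⟨t0, ht0G, ht0⟩ := exists_equivOn (M := N) (cell 0) (hcell 0)
      (hfree 0) (fun g x => ρ g x) (fun g h x => by simp)
      (fun b m => m ∈ M 1 ∧ d m = F b)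
      (fun g b hb m hm => by
        refine ⟨hM _ g m hm.1, ?_⟩
        rw [hd, hm.2, hFg 0 g b hb])
      (fun b hb => by
        obtain ⟨y, hy, hy'⟩ := hex 0 ⟨b, hb⟩ (F b) (hF 0 b hb) (by
          rw [hFd 0 b hb, hbd0 b hb, map_zero])
        exact ⟨y, hy, hy'⟩) 0
  obtain ⟨s, hs0, hs⟩ := exists_seq Rel ⟨t0, fun a ha => (ht0 a ha).1, ht0G,
    key 0 t0 (fun _ => 0) (fun c hc => by rw [(ht0 c hc).2, add_zero]) (fun b hb => by
      unfold lin
      simp [Finsupp.linearCombination_apply])⟩ step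
  -- the index of a cell
  let ix : A → ℕ := fun a => if h : ∃ i, a ∈ cell i then h.choose else 0
  have hix : ∀ i, ∀ a ∈ cell i, ix a = i := by
    intro i a ha
    have h : ∃ i, a ∈ cell i := ⟨i, ha⟩
    simp only [ix, dif_pos h]
    exact hdisj _ _ a h.choose_spec ha
  refine ⟨fun a => (s (ix a)).1 a, fun i a ha => ?_, fun i g a ha => ?_, fun i a ha => ?_⟩
  · change (s (ix a)).1 a ∈ _
    rw [hix i a ha]
    exact (s i).2.1 a ha
  · change (s (ix (g • a))).1 (g • a) = ρ g ((s (ix a)).1 a)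
    rw [hix i a ha, hix i _ (hcell i g a ha)]
    exact (s i).2.2.1 g a ha
  · cases i with
    | zero =>
      rw [hbd0 a ha, map_zero, add_zero]
      change d ((s (ix a)).1 a) = _
      rw [hix 0 a ha, hs0]
      exact (ht0 a ha).2
    | succ i =>
      change d ((s (ix a)).1 a) = _
      rw [hix _ a ha, hs i a ha]
      congr 1
      symm
      apply lin_congr
      intro c hc
      rw [hix i c (hbd i a ha c hc)]

end Pool.Agent.H37.TM
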