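import Pool.Agent.H19.Cub.Stmt
import Pool.Agent.H77.SX.Defs
import Pool.Agent.H37.TM.MDefs

/-!
# Project TM (top degree): definitions

`IsDeck` = deck groups of the universal cover of a finite special cube complex; `ZQ` = cycles of top degree of a finite
special cube complex with coefficients in a space with involutions; `StarRel` = the main relation.
-/

set_option autoImplicit false
set_option linter.unusedSectionVars false

open Finset Pointwise

namespace Pool.Agent.H37.TM

open Pool.Agent.H19.Cub Pool.Agent.H77.SX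

variable {V X : Type} [DecidableEq V]

/-- `Γ` is the group of deck transformations of the universal cover of `Q` -/
structure IsDeck (Γ : Type) [Group Γ] (Q : CubeComplex V X) (x₀ : X)
    [MulAction Γ (Q.Cover x₀)] : Prop where
  nb : ∀ (g : Γ) v (c : Q.Cover x₀), v ∈ Q.lab (Q.proj x₀ c) → Q.nbc x₀ v (g • c) = g • Q.nbc x₀ v c
  proj : ∀ (g : Γ) (c : Q.Cover x₀), Q.proj x₀ (g • c) = Q.proj x₀ c
  trans : ∀ c c' : Q.Cover x₀, Q.proj x₀ c = Q.proj x₀ c' → ∃ g : Γ, g • c = c'
  free : ∀ (g : Γ) (c : Q.Cover x₀), g • c = c → g = 1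

/-- `bit x v`: the side of `x` with respect to the hyperplanes with the label `v` -/
def IsBit (Q : CubeComplex V X) (bit : X → V → ZMod 2) : Prop :=
  ∀ v x, v ∈ Q.lab x → ∀ u, bit (Q.nb v x) u = bit x u + if u = v then 1 else 0

/-- the dimension of `Q` is at most `d` -/
def DimLe (Q : CubeComplex V X) (d : ℕ) : Prop :=
  ∀ x, ∀ σ : Finset V, σ ⊆ Q.lab x → Q.graph.IsClique (σ : Set V) → σ.card ≤ d

/-- cycles of degree `n` (the top degree) of `Q` with coefficients in `Y`; the component `z σ x` is the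
coefficient of the cube spanned by the labels `σ` at `x`, in the frame of the vertex `x` -/
def ZQ (K : Type) [Field K] [Fintype V] (Q : CubeComplex V X) (n : ℕ) {Y : Type}
    [AddCommGroup Y] [Module K Y] (r : V → Y →ₗ[K] Y) : Submodule K (Finset V → X → Y) where
  carrier := {z | (∀ σ x, z σ x ≠ 0 → σ ⊆ Q.lab x ∧ Q.graph.IsClique (σ : Set V) ∧ σ.card = n) ∧
    (∀ σ x, σ ⊆ Q.lab x → ∀ v ∈ σ, z σ (Q.nb v x) = r v (z σ x)) ∧
    ∀ κ x, ∑ v ∈ κᶜ, z (insert v κ) x = 0}
  zero_mem' := by
    refine ⟨fun σ x h => absurd rfl h, fun σ x _ v _ => ?_, fun κ x => ?_⟩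
    · simp
    · simp
  add_mem' := by
    rintro z w ⟨h1, h2, h3⟩ ⟨h4, h5, h6⟩
    refine ⟨fun σ x h => ?_, fun σ x hσ v hv => ?_, fun κ x => ?_⟩
    · by_cases hz : z σ x = 0
      · by_cases hw : w σ x = 0
        · exact absurd (by simp [hz, hw]) h
        · exact h4 σ x hw
      · exact h1 σ x hz
    · simp only [Pi.add_apply]
      rw [map_add, h2 σ x hσ v hv, h5 σ x hσ v hv]
    · simp only [Pi.add_apply, sum_add_distrib, h3 κ x, h6 κ x, add_zero]
  smul_mem' := by
    rintro c z ⟨h1, h2, h3⟩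
    refine ⟨fun σ x h => h1 σ x fun h0 => h ?_, fun σ x hσ v hv => ?_, fun κ x => ?_⟩
    · simp only [Pi.smul_apply, h0, smul_zero]
    · simp only [Pi.smul_apply]
      rw [map_smul, h2 σ x hσ v hv]
    · simp only [Pi.smul_apply, ← smul_sum, h3 κ x, smul_zero]

theorem mem_ZQ {K : Type} [Field K] [Fintype V] {Q : CubeComplex V X} {n : ℕ} {Y : Type}
    [AddCommGroup Y] [Module K Y] {r : V → Y →ₗ[K] Y} {z : Finset V → X → Y} :
    z ∈ ZQ K Q n r ↔
      (∀ σ x, z σ x ≠ 0 → σ ⊆ Q.lab x ∧ Q.graph.IsClique (σ : Set V) ∧ σ.card = n) ∧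
      (∀ σ x, σ ⊆ Q.lab x → ∀ v ∈ σ, z σ (Q.nb v x) = r v (z σ x)) ∧
      ∀ κ x, ∑ v ∈ κᶜ, z (insert v κ) x = 0 := Iff.rfl

/-- **The main relation** (over the field `K` of characteristic two): for all cycles of top degree with
coefficients in the extension module `rX g s t` the sum over the cubes of type `s` of the products of the
`t v` and the squares of the coefficients vanishes. Every cube is represented by its vertex `x` whose bits
vanish on `s`. -/
def StarRel (K : Type) [Field K] [Fintype V] [Fintype X] (Q : CubeComplex V X)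
    (bit : X → V → ZMod 2) (d : ℕ) : Prop :=
  ∀ (P : Type) [Group P] [Fintype P] (g : V → P), (∀ v, g v * g v = 1) →
    (∀ u v, Q.graph.Adj u v → g u * g v = g v * g u) →
    ∀ s : Finset V, Q.graph.IsClique (s : Set V) → s.card = d →
    ∀ t : V → P → K, (∀ v u, (u = v ∨ Q.graph.Adj v u) → ∀ p, t v (p * g u) = t v p) →
    ∀ z ∈ ZQ K Q d (rX g s t),
      ∑ x ∈ univ.filter (fun x => s ⊆ Q.lab x ∧ ∀ v ∈ s, bit x v = 0), ∑ p,
        (∏ v ∈ s, t v p) * z s x (∅, p) ^ 2 = 0

end Pool.Agent.H37.TM
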