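import Pool.Agent.H37.TM.Defs
import Pool.Agent.H37.TM.Lift

/-!
# Project TM: the complex of tuples, monotone paths in cubes, products of one-cocycles
-/

set_option autoImplicit false
set_option linter.unusedSectionVars false

open Finset

namespace Pool.Agent.H37.TM

open Pool.Agent.H19.Cub

section

variable {α β : Type}

/-- the (augmented) boundary of a tuple: the sum of the tuples with one entry removed -/
noncomputable def bdl : List α → (List α →₀ ZMod 2)
  | [] => 0
  | x :: l => Finsupp.single l 1 + (bdl l).mapDomain (x :: ·)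

/-- the boundary of the complex of tuples -/
noncomputable def BL : (List α →₀ ZMod 2) →ₗ[ZMod 2] (List α →₀ ZMod 2) := lin bdl

theorem BL_single (l : List α) : BL (Finsupp.single l 1) = bdl l := lin_single _ _

/-- a linear identity of chains has to be checked on the basis only -/
theorem chain_ext {A N : Type} [AddCommGroup N] [Module (ZMod 2) N]
    {F G : (A →₀ ZMod 2) →ₗ[ZMod 2] N} (h : ∀ a, F (Finsupp.single a 1) = G (Finsupp.single a 1))
    (x : A →₀ ZMod 2) : F x = G x := by
  have h1 : F = G := Finsupp.lhom_ext' fun a => LinearMap.ext_ring (h a)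
  rw [h1]

/-- the boundary of the tuples of `y` preceded by `x` -/
theorem BL_cons (x : α) (y : List α →₀ ZMod 2) :
    BL (y.mapDomain (x :: ·)) = y + (BL y).mapDomain (x :: ·) := by
  have := chain_ext (F := BL ∘ₗ Finsupp.lmapDomain (ZMod 2) (ZMod 2) (x :: ·))
    (G := LinearMap.id + Finsupp.lmapDomain (ZMod 2) (ZMod 2) (x :: ·) ∘ₗ BL) (fun l => by
      simp only [LinearMap.comp_apply, LinearMap.add_apply, LinearMap.id_apply,
        Finsupp.lmapDomain_apply, Finsupp.mapDomain_single, BL_single]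
      rfl) y
  simpa only [LinearMap.comp_apply, LinearMap.add_apply, LinearMap.id_apply,
    Finsupp.lmapDomain_apply] using this

theorem chain_add_self {A : Type} (x : A →₀ ZMod 2) : x + x = 0 := by
  ext a
  rw [Finsupp.add_apply, Finsupp.zero_apply]
  exact CharTwo.add_self_eq_zero _

theorem BL_bdl (l : List α) : BL (bdl l) = 0 := by
  induction l with
  | nil => simp only [bdl, map_zero]
  | cons x l ih =>
    rw [bdl, map_add, BL_single, BL_cons, ih, Finsupp.mapDomain_zero, add_zero, chain_add_self]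

theorem BL_BL (x : List α →₀ ZMod 2) : BL (BL x) = 0 :=
  chain_ext (F := BL ∘ₗ BL) (G := 0) (fun l => by
    rw [LinearMap.comp_apply, BL_single, BL_bdl, LinearMap.zero_apply]) x

/-- exactness: `y` = the tuples of `x` preceded by a base point -/
theorem BL_exact [Nonempty α] (x : List α →₀ ZMod 2) (h : BL x = 0) : ∃ y, BL y = x := by
  obtain ⟨b⟩ := ‹Nonempty α›
  refine ⟨x.mapDomain (b :: ·), ?_⟩
  rw [BL_cons, h, Finsupp.mapDomain_zero, add_zero]

theorem bdl_map (f : α → β) (l : List α) :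
    bdl (l.map f) = (bdl l).mapDomain (List.map f) := by
  induction l with
  | nil => simp only [List.map_nil, bdl, Finsupp.mapDomain_zero]
  | cons x l ih =>
    rw [List.map_cons, bdl, bdl, ih, Finsupp.mapDomain_add, Finsupp.mapDomain_single,
      ← Finsupp.mapDomain_comp, ← Finsupp.mapDomain_comp]
    rfl

theorem BL_map (f : α → β) (x : List α →₀ ZMod 2) :
    BL (x.mapDomain (List.map f)) = (BL x).mapDomain (List.map f) :=
  chain_ext (F := BL ∘ₗ Finsupp.lmapDomain (ZMod 2) (ZMod 2) (List.map f))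
    (G := Finsupp.lmapDomain (ZMod 2) (ZMod 2) (List.map f) ∘ₗ BL) (fun l => by
      simp only [LinearMap.comp_apply, Finsupp.lmapDomain_apply, Finsupp.mapDomain_single,
        BL_single, bdl_map]) x

end

section

variable {V X : Type} [DecidableEq V]

/-- the boundary of the cube `(c, σ)`, `c` = the vertex with bits `0` -/
noncomputable def bdD (Q : CubeComplex V X) (x₀ : X) (e : Q.Cover x₀ × Finset V) :
    Q.Cover x₀ × Finset V →₀ ZMod 2 :=
  ∑ v ∈ e.2, (Finsupp.single (e.1, e.2.erase v) 1 +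
    Finsupp.single (Q.nbc x₀ v e.1, e.2.erase v) 1)

/-- the cubes of dimension `i` of the universal cover, represented by the vertex with bits `0` -/
def Cell (Q : CubeComplex V X) (x₀ : X) (bit : X → V → ZMod 2) (i : ℕ) :
    Set (Q.Cover x₀ × Finset V) :=
  {e | e.2 ⊆ Q.lab (Q.proj x₀ e.1) ∧ Q.graph.IsClique (e.2 : Set V) ∧ e.2.card = i ∧
    ∀ v ∈ e.2, bit (Q.proj x₀ e.1) v = 0}

/-! #### cliques of labels at a vertex of the cover -/

/-- `σ` spans a cube at `c` -/
private def Cb (Q : CubeComplex V X) (x₀ : X) (c : Q.Cover x₀) (σ : Finset V) : Prop :=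
  σ ⊆ Q.lab (Q.proj x₀ c) ∧ Q.graph.IsClique (σ : Set V)

private theorem proj_nbc (Q : CubeComplex V X) (x₀ : X) (v : V) (c : Q.Cover x₀)
    (h : v ∈ Q.lab (Q.proj x₀ c)) : Q.proj x₀ (Q.nbc x₀ v c) = Q.nb v (Q.proj x₀ c) := by
  induction c using Quot.ind with
  | mk l =>
    have h' : v ∈ Q.lab (Q.fin x₀ l.1) := h
    rw [Q.nbc_mk x₀ v l h']
    show Q.fin x₀ (l.1 ++ [v]) = Q.nb v (Q.fin x₀ l.1)
    rw [CubeComplex.fin_append]
    rfl

private theorem Cb.erase {Q : CubeComplex V X} {x₀ : X} {c : Q.Cover x₀} {σ : Finset V}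
    (h : Cb Q x₀ c σ) (v : V) : Cb Q x₀ c (σ.erase v) :=
  ⟨(erase_subset _ _).trans h.1, h.2.subset (by
    rw [coe_erase]; exact Set.sdiff_subset)⟩

private theorem Cb.step {Q : CubeComplex V X} {x₀ : X} {c : Q.Cover x₀} {σ : Finset V}
    (h : Cb Q x₀ c σ) {v : V} (hv : v ∈ σ) : Cb Q x₀ (Q.nbc x₀ v c) (σ.erase v) :=
  ⟨fun u hu => (Q.cover x₀).lab_adj u v c
    (h.2 (mem_coe.2 (mem_of_mem_erase hu)) (mem_coe.2 hv) (ne_of_mem_erase hu))
    (h.1 (mem_of_mem_erase hu)) (h.1 hv), (h.erase v).2⟩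

private theorem Cb.comm {Q : CubeComplex V X} {x₀ : X} {c : Q.Cover x₀} {σ : Finset V}
    (h : Cb Q x₀ c σ) {u v : V} (hu : u ∈ σ) (hv : v ∈ σ) :
    Q.nbc x₀ u (Q.nbc x₀ v c) = Q.nbc x₀ v (Q.nbc x₀ u c) := by
  by_cases huv : u = v
  · rw [huv]
  · exact (Q.cover x₀).nb_comm u v c (h.2 (mem_coe.2 hu) (mem_coe.2 hv) huv) (h.1 hu) (h.1 hv)

/-- a symmetric sum over the ordered pairs of different elements vanishes in characteristic two -/
private theorem sum_symm_pairs {M : Type} [AddCommGroup M] (h2 : ∀ x : M, x + x = 0)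
    (σ : Finset V) (F : V → V → M) (hF : ∀ u ∈ σ, ∀ v ∈ σ, F u v = F v u) :
    ∑ v ∈ σ, ∑ u ∈ σ.erase v, F v u = 0 := by
  induction σ using Finset.induction_on with
  | empty => simp
  | insert a σ ha ih =>
    rw [sum_insert ha, erase_insert ha]
    have h1 : ∑ v ∈ σ, ∑ u ∈ (insert a σ).erase v, F v u =
        ∑ v ∈ σ, (F v a + ∑ u ∈ σ.erase v, F v u) := by
      refine sum_congr rfl fun v hv => ?_
      have hva : a ≠ v := fun h => ha (h ▸ hv)
      rw [erase_insert_of_ne hva, sum_insert (fun h => ha (mem_of_mem_erase h))]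
    rw [h1, sum_add_distrib, ih fun u hu v hv => hF u (mem_insert_of_mem hu) v
      (mem_insert_of_mem hv), add_zero, sum_congr rfl fun v hv => hF v (mem_insert_of_mem hv) a
      (mem_insert_self _ _)]
    exact h2 _

/-- faces are cells -/
theorem bdD_cell {Q : CubeComplex V X} {x₀ : X} {bit : X → V → ZMod 2} (hbit : IsBit Q bit)
    {i : ℕ} {e : Q.Cover x₀ × Finset V} (he : e ∈ Cell Q x₀ bit (i + 1)) (b)
    (hb : bdD Q x₀ e b ≠ 0) : b ∈ Cell Q x₀ bit i := by
  obtain ⟨h1, h2, h3, h4⟩ := he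
  have hC : Cb Q x₀ e.1 e.2 := ⟨h1, h2⟩
  rw [bdD, Finsupp.finsetSum_apply] at hb
  obtain ⟨v, hv, hvb⟩ := exists_ne_zero_of_sum_ne_zero hb
  have hcard : (e.2.erase v).card = i := by
    rw [card_erase_of_mem hv, h3]; rfl
  rw [Finsupp.add_apply] at hvb
  by_cases h5 : (e.1, e.2.erase v) = b
  · subst h5
    exact ⟨(hC.erase v).1, (hC.erase v).2, hcard, fun u hu => h4 u (mem_of_mem_erase hu)⟩
  · rw [Finsupp.single_eq_of_ne (Ne.symm h5), zero_add] at hvb
    by_cases h6 : (Q.nbc x₀ v e.1, e.2.erase v) = b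
    · subst h6
      refine ⟨(hC.step hv).1, (hC.step hv).2, hcard, fun u hu => ?_⟩
      show bit (Q.proj x₀ (Q.nbc x₀ v e.1)) u = 0
      rw [proj_nbc Q x₀ v e.1 (h1 hv), hbit v _ (h1 hv) u, h4 u (mem_of_mem_erase hu),
        if_neg (ne_of_mem_erase hu), add_zero]
    · exact absurd (Finsupp.single_eq_of_ne (Ne.symm h6)) hvb

private theorem lin_bdD (Q : CubeComplex V X) (x₀ : X) {N : Type} [AddCommGroup N]
    [Module (ZMod 2) N] (F : Q.Cover x₀ × Finset V → N) (e : Q.Cover x₀ × Finset V) :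
    lin F (bdD Q x₀ e) = ∑ v ∈ e.2, (F (e.1, e.2.erase v) + F (Q.nbc x₀ v e.1, e.2.erase v)) := by
  rw [bdD, map_sum]
  exact sum_congr rfl fun v _ => by rw [map_add, lin_single, lin_single]

theorem bdD_bdD {Q : CubeComplex V X} {x₀ : X} {bit : X → V → ZMod 2} {i : ℕ}
    {e : Q.Cover x₀ × Finset V} (he : e ∈ Cell Q x₀ bit i) :
    lin (bdD Q x₀) (bdD Q x₀ e) = 0 := by
  have hC : Cb Q x₀ e.1 e.2 := ⟨he.1, he.2.1⟩
  rw [lin_bdD]
  simp only [bdD]
  rw [sum_congr rfl fun v _ => (sum_add_distrib (s := e.2.erase v) (f := fun u =>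
    Finsupp.single (e.1, (e.2.erase v).erase u) (1 : ZMod 2) +
      Finsupp.single (Q.nbc x₀ u e.1, (e.2.erase v).erase u) 1) (g := fun u =>
    Finsupp.single (Q.nbc x₀ v e.1, (e.2.erase v).erase u) (1 : ZMod 2) +
      Finsupp.single (Q.nbc x₀ u (Q.nbc x₀ v e.1), (e.2.erase v).erase u) 1)).symm]
  refine sum_symm_pairs (fun x => chain_add_self x) e.2 (fun v u =>
    Finsupp.single (e.1, (e.2.erase v).erase u) (1 : ZMod 2) +
      Finsupp.single (Q.nbc x₀ u e.1, (e.2.erase v).erase u) 1 +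
    (Finsupp.single (Q.nbc x₀ v e.1, (e.2.erase v).erase u) (1 : ZMod 2) +
      Finsupp.single (Q.nbc x₀ u (Q.nbc x₀ v e.1), (e.2.erase v).erase u) 1)) fun u hu v hv => ?_
  simp only [erase_right_comm (a := u) (b := v), hC.comm hu hv]
  abel

/-- the sum of the monotone paths with `k` edges in the cube `σ` which start at `c` -/
noncomputable def Tm (Q : CubeComplex V X) (x₀ : X) :
    ℕ → Q.Cover x₀ → Finset V → (List (Q.Cover x₀) →₀ ZMod 2)
  | 0, c, _ => Finsupp.single [c] 1
  | k + 1, c, σ => ∑ v ∈ σ, (Tm Q x₀ k (Q.nbc x₀ v c) (σ.erase v)).mapDomain (c :: ·)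

/-- the sum of the monotone paths through the cube -/
noncomputable def TT (Q : CubeComplex V X) (x₀ : X) (e : Q.Cover x₀ × Finset V) :
    List (Q.Cover x₀) →₀ ZMod 2 := Tm Q x₀ e.2.card e.1 e.2

private theorem Tm_zero (Q : CubeComplex V X) (x₀ : X) (c : Q.Cover x₀) (σ : Finset V) :
    Tm Q x₀ 0 c σ = Finsupp.single [c] 1 := rfl

private theorem Tm_succ (Q : CubeComplex V X) (x₀ : X) (k : ℕ) (c : Q.Cover x₀) (σ : Finset V) :
    Tm Q x₀ (k + 1) c σ =
      ∑ v ∈ σ, (Tm Q x₀ k (Q.nbc x₀ v c) (σ.erase v)).mapDomain (c :: ·) := rfl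

private theorem mapDomain_finset_sum' {A B ι : Type} (f : A → B) (s : Finset ι)
    (y : ι → (A →₀ ZMod 2)) :
    (∑ i ∈ s, y i).mapDomain f = ∑ i ∈ s, (y i).mapDomain f :=
  map_sum (Finsupp.lmapDomain (ZMod 2) (ZMod 2) f) y s

private theorem BL_Tm {Q : CubeComplex V X} {x₀ : X} (k : ℕ) : ∀ (c : Q.Cover x₀) (σ : Finset V),
    Cb Q x₀ c σ → σ.card = k + 1 →
    BL (Tm Q x₀ (k + 1) c σ) =
      ∑ v ∈ σ, (Tm Q x₀ k c (σ.erase v) + Tm Q x₀ k (Q.nbc x₀ v c) (σ.erase v)) := by
  induction k with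
  | zero =>
    intro c σ _ _
    rw [Tm_succ, map_sum]
    refine sum_congr rfl fun v _ => ?_
    rw [BL_cons, Tm_zero, Tm_zero, BL_single]
    simp only [bdl, Finsupp.mapDomain_zero, add_zero, Finsupp.mapDomain_single]
    rw [add_comm]
  | succ k ih =>
    intro c σ hC hcard
    have h1 : ∀ v ∈ σ, BL ((Tm Q x₀ (k + 1) (Q.nbc x₀ v c) (σ.erase v)).mapDomain (c :: ·)) =
        Tm Q x₀ (k + 1) (Q.nbc x₀ v c) (σ.erase v) +
        ((∑ u ∈ σ.erase v, (Tm Q x₀ k (Q.nbc x₀ v c) ((σ.erase v).erase u)).mapDomain (c :: ·)) +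
          ∑ u ∈ σ.erase v,
            (Tm Q x₀ k (Q.nbc x₀ u (Q.nbc x₀ v c)) ((σ.erase v).erase u)).mapDomain (c :: ·)) := by
      intro v hv
      rw [BL_cons, ih _ _ (hC.step hv) (by rw [card_erase_of_mem hv, hcard]; rfl),
        mapDomain_finset_sum', ← sum_add_distrib]
      congr 1
      exact sum_congr rfl fun u _ => Finsupp.mapDomain_add
    rw [Tm_succ, map_sum, sum_congr rfl h1, sum_add_distrib, sum_add_distrib,
      sum_symm_pairs (fun x => chain_add_self x) σ
        (fun v u => (Tm Q x₀ k (Q.nbc x₀ u (Q.nbc x₀ v c)) ((σ.erase v).erase u)).mapDomain (c :: ·))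
        (fun u hu v hv => by simp only [erase_right_comm (a := u) (b := v), hC.comm hu hv]),
      add_zero, sum_add_distrib, add_comm]
    congr 1
    -- exchange the two sums
    have h2 : ∀ v ∈ σ, Tm Q x₀ (k + 1) c (σ.erase v) =
        ∑ u ∈ σ.erase v, (Tm Q x₀ k (Q.nbc x₀ u c) ((σ.erase v).erase u)).mapDomain (c :: ·) :=
      fun v _ => Tm_succ Q x₀ k c (σ.erase v)
    rw [sum_congr rfl h2]
    rw [sum_comm' (s := σ) (t := fun v => σ.erase v) (t' := σ) (s' := fun u => σ.erase u) (by
      intro u v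
      simp only [mem_erase]
      constructor
      · rintro ⟨h5, h6, h7⟩; exact ⟨⟨Ne.symm h6, h5⟩, h7⟩
      · rintro ⟨⟨h5, h6⟩, h7⟩; exact ⟨h6, Ne.symm h5, h7⟩)]
    exact sum_congr rfl fun u _ => sum_congr rfl fun v _ => by rw [erase_right_comm]

/-- `TT` is a chain map. -/
theorem BL_TT {Q : CubeComplex V X} {x₀ : X} {bit : X → V → ZMod 2} {i : ℕ}
    {e : Q.Cover x₀ × Finset V} (he : e ∈ Cell Q x₀ bit i) :
    BL (TT Q x₀ e) = if i = 0 then Finsupp.single [] 1 else lin (TT Q x₀) (bdD Q x₀ e) := by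
  obtain ⟨h1, h2, h3, -⟩ := he
  cases i with
  | zero =>
    rw [if_pos rfl, TT, h3, Tm_zero, BL_single]
    simp only [bdl, Finsupp.mapDomain_zero, add_zero]
  | succ k =>
    rw [if_neg (Nat.succ_ne_zero k), lin_bdD, TT, h3, BL_Tm k e.1 e.2 ⟨h1, h2⟩ h3]
    refine sum_congr rfl fun v hv => ?_
    have h4 : (e.2.erase v).card = k := by
      rw [card_erase_of_mem hv, h3]; rfl
    simp only [TT, h4]

theorem TT_smul {Γ : Type} [Group Γ] {Q : CubeComplex V X} {x₀ : X}
    [MulAction Γ (Q.Cover x₀)] (hΓ : IsDeck Γ Q x₀) {bit : X → V → ZMod 2} {i : ℕ}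
    {e : Q.Cover x₀ × Finset V} (he : e ∈ Cell Q x₀ bit i) (g : Γ) :
    TT Q x₀ (g • e.1, e.2) = (TT Q x₀ e).mapDomain (List.map (g • ·)) := by
  have key : ∀ (k : ℕ) (c : Q.Cover x₀) (σ : Finset V), Cb Q x₀ c σ →
      Tm Q x₀ k (g • c) σ = (Tm Q x₀ k c σ).mapDomain (List.map (g • ·)) := by
    intro k
    induction k with
    | zero =>
      intro c σ _
      rw [Tm_zero, Tm_zero, Finsupp.mapDomain_single]
      rfl
    | succ k ih =>
      intro c σ hC
      rw [Tm_succ, Tm_succ, mapDomain_finset_sum']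
      refine sum_congr rfl fun v hv => ?_
      rw [hΓ.nb g v c (hC.1 hv), ih _ _ (hC.step hv), ← Finsupp.mapDomain_comp,
        ← Finsupp.mapDomain_comp]
      rfl
  exact key _ e.1 e.2 ⟨he.1, he.2.1⟩

end

section

variable {V D K : Type} [DecidableEq V] [Field K] [Algebra (ZMod 2) K]

/-- the product of the one-cocycles with the potentials `h b`, `b ∈ l`, at a tuple -/
def bet (h : V → D → K) : List V → List D → K
  | [], [_] => 1
  | b :: l, x :: y :: xs => (h b x + h b y) * bet h l (y :: xs)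
  | _, _ => 0

theorem bet_nil_nil (h : V → D → K) : bet h [] ([] : List D) = 0 := by
  simp only [bet]

theorem bet_nil_one (h : V → D → K) (x : D) : bet h [] [x] = 1 := by
  simp only [bet]

theorem bet_nil_two (h : V → D → K) (x y : D) (m : List D) : bet h [] (x :: y :: m) = 0 := by
  simp only [bet]

theorem bet_cons_nil (h : V → D → K) (b : V) (l : List V) : bet h (b :: l) ([] : List D) = 0 := by
  simp only [bet]

theorem bet_cons_one (h : V → D → K) (b : V) (l : List V) (x : D) :
    bet h (b :: l) [x] = 0 := by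
  simp only [bet]

theorem bet_cons_two (h : V → D → K) (b : V) (l : List V) (x y : D) (m : List D) :
    bet h (b :: l) (x :: y :: m) = (h b x + h b y) * bet h l (y :: m) := by
  simp only [bet]

theorem lin_map {A B N : Type} [AddCommGroup N] [Module (ZMod 2) N] (F : B → N) (f : A → B)
    (x : A →₀ ZMod 2) : lin F (x.mapDomain f) = lin (fun a => F (f a)) x := by
  unfold lin
  rw [Finsupp.linearCombination_mapDomain]
  rfl

theorem lin_mul {A : Type} (c : K) (F : A → K) (x : A →₀ ZMod 2) :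
    lin (fun a => c * F a) x = c * lin F x :=
  chain_ext (F := lin (fun a => c * F a)) (G := LinearMap.mulLeft (ZMod 2) c ∘ₗ lin F) (fun a => by
    rw [LinearMap.comp_apply, LinearMap.mulLeft_apply, lin_single, lin_single]) x

theorem lin_fun_zero {A N : Type} [AddCommGroup N] [Module (ZMod 2) N] (x : A →₀ ZMod 2) :
    lin (fun _ => (0 : N)) x = 0 :=
  chain_ext (F := lin (fun _ => (0 : N))) (G := 0) (fun a => by
    rw [lin_single, LinearMap.zero_apply]) x

theorem add_self_K (a : K) : a + a = 0 := by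
  have h2 : (2 : K) = 0 := by
    have h1 : algebraMap (ZMod 2) K 2 = 0 := by
      rw [show (2 : ZMod 2) = 0 from rfl, map_zero]
    rw [← h1, map_ofNat]
  rw [← two_mul, h2, zero_mul]

theorem bdl_two (x y : D) (m : List D) : bdl (x :: y :: m) =
    Finsupp.single (y :: m) 1 + (Finsupp.single (x :: m) 1 +
      (bdl m).mapDomain (fun n => x :: y :: n)) := by
  rw [bdl, bdl, Finsupp.mapDomain_add, Finsupp.mapDomain_single, ← Finsupp.mapDomain_comp]
  rfl

theorem lin_bet_bdl (h : V → D → K) (l : List V) : ∀ m : List D,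
    lin (bet h l) (bdl m) = 0 := by
  induction l with
  | nil =>
    intro m
    match m with
    | [] => simp only [bdl, map_zero]
    | [x] =>
      simp only [bdl, Finsupp.mapDomain_zero, add_zero, lin_single, bet_nil_nil]
    | x :: y :: m =>
      rw [bdl_two, map_add, map_add, lin_single, lin_single, lin_map]
      have h1 : (fun n : List D => bet h [] (x :: y :: n)) = fun _ => 0 := by
        funext n
        exact bet_nil_two h x y n
      rw [h1, lin_fun_zero, add_zero]
      match m with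
      | [] => rw [bet_nil_one, bet_nil_one, add_self_K]
      | z :: m => rw [bet_nil_two, bet_nil_two, add_zero]
  | cons b l ih =>
    intro m
    match m with
    | [] => simp only [bdl, map_zero]
    | [x] =>
      simp only [bdl, Finsupp.mapDomain_zero, add_zero, lin_single, bet_cons_nil]
    | x :: y :: m =>
      have h0 := ih (y :: m)
      rw [bdl, map_add, lin_single, lin_map] at h0
      rw [bdl_two, map_add, map_add, lin_single, lin_single, lin_map]
      have h1 : (fun n : List D => bet h (b :: l) (x :: y :: n)) =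
          fun n => (h b x + h b y) * bet h l (y :: n) := by
        funext n
        exact bet_cons_two h b l x y n
      rw [h1, lin_mul]
      match m with
      | [] =>
        simp only [bdl, map_zero, mul_zero, add_zero, bet_cons_one]
      | z :: m =>
        rw [bet_cons_two, bet_cons_two]
        have e : (h b y + h b z) * bet h l (z :: m) + ((h b x + h b z) * bet h l (z :: m) +
            (h b x + h b y) * lin (fun n => bet h l (y :: n)) (bdl (z :: m))) =
            (h b x + h b y) * (bet h l (z :: m) +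
              lin (fun n => bet h l (y :: n)) (bdl (z :: m))) +
            (h b z * bet h l (z :: m) + h b z * bet h l (z :: m)) := by ring
        rw [e, add_self_K, add_zero, h0, mul_zero]

/-- it is a cocycle -/
theorem lin_bet_BL (h : V → D → K) (l : List V) (x : List D →₀ ZMod 2) :
    lin (bet h l) (BL x) = 0 :=
  chain_ext (F := lin (bet h l) ∘ₗ BL) (G := 0) (fun m => by
    rw [LinearMap.comp_apply, BL_single, lin_bet_bdl, LinearMap.zero_apply]) x

end

/-- all paths start at `c` -/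
private theorem Tm_head {V X : Type} [DecidableEq V] (Q : CubeComplex V X) (x₀ : X) (k : ℕ)
    (c : Q.Cover x₀) (σ : Finset V) :
    ∃ y : List (Q.Cover x₀) →₀ ZMod 2, Tm Q x₀ k c σ = y.mapDomain (c :: ·) := by
  cases k with
  | zero => exact ⟨Finsupp.single [] 1, by rw [Tm_zero, Finsupp.mapDomain_single]⟩
  | succ k =>
    exact ⟨∑ v ∈ σ, Tm Q x₀ k (Q.nbc x₀ v c) (σ.erase v), by
      rw [Tm_succ, mapDomain_finset_sum']⟩

/-- the value at a cube: only the path along the labels `l` (in this order) contributes -/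
theorem lin_bet_TT {V X K : Type} [DecidableEq V] [Field K] [Algebra (ZMod 2) K]
    {Q : CubeComplex V X} {x₀ : X} {bit : X → V → ZMod 2} {h t : V → Q.Cover x₀ → K}
    (hh : ∀ c, ∀ v ∈ Q.lab (Q.proj x₀ c), ∀ b,
      h b (Q.nbc x₀ v c) = h b c + if v = b then t b c else 0)
    (ht : ∀ c, ∀ v ∈ Q.lab (Q.proj x₀ c), ∀ b, (b = v ∨ Q.graph.Adj b v) →
      t b (Q.nbc x₀ v c) = t b c)
    {e : Q.Cover x₀ × Finset V} {l : List V} (hl : l.Nodup)
    (he : e ∈ Cell Q x₀ bit l.length) :
    lin (bet h l) (TT Q x₀ e) = if e.2 = l.toFinset then ∏ b ∈ e.2, t b e.1 else 0 := by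
  have key : ∀ (l : List V), l.Nodup → ∀ (c : Q.Cover x₀) (σ : Finset V), Cb Q x₀ c σ →
      σ.card = l.length →
      lin (bet h l) (Tm Q x₀ l.length c σ) = if σ = l.toFinset then ∏ b ∈ σ, t b c else 0 := by
    intro l
    induction l with
    | nil =>
      intro _ c σ _ hσ
      have h0 : σ = ∅ := card_eq_zero.1 hσ
      subst h0
      rw [List.length_nil, Tm_zero, lin_single, bet_nil_one]
      simp
    | cons b l ih =>
      intro hl c σ hC hσ
      have hbl : b ∉ l := (List.nodup_cons.1 hl).1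
      rw [List.length_cons, Tm_succ, map_sum]
      have h1 : ∀ v ∈ σ, lin (bet h (b :: l))
          ((Tm Q x₀ l.length (Q.nbc x₀ v c) (σ.erase v)).mapDomain (c :: ·)) =
          (if v = b then t b c else 0) *
            (if σ.erase v = l.toFinset then ∏ b' ∈ σ.erase v, t b' (Q.nbc x₀ v c) else 0) := by
        intro v hv
        rw [← ih (List.nodup_cons.1 hl).2 _ _ (hC.step hv) (by
          rw [card_erase_of_mem hv, hσ]; rfl)]
        obtain ⟨y, hy⟩ := Tm_head Q x₀ l.length (Q.nbc x₀ v c) (σ.erase v)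
        rw [hy, lin_map, lin_map, lin_map, ← lin_mul]
        congr 2
        funext m
        rw [bet_cons_two, hh c v (hC.1 hv) b, ← add_assoc, add_self_K, zero_add]
      rw [sum_congr rfl h1]
      by_cases hb : b ∈ σ
      · rw [sum_eq_single b (fun v _ hvb => by rw [if_neg hvb, zero_mul]) (fun h => absurd hb h),
          if_pos rfl]
        have h2 : σ.erase b = l.toFinset ↔ σ = (b :: l).toFinset := by
          rw [List.toFinset_cons]
          constructor
          · intro h3; rw [← h3, insert_erase hb]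
          · intro h3
            rw [h3, erase_insert (by simpa using hbl)]
        by_cases h3 : σ.erase b = l.toFinset
        · rw [if_pos h3, if_pos (h2.1 h3), ← mul_prod_erase σ (fun b' => t b' c) hb]
          congr 1
          refine prod_congr rfl fun b' hb' => ?_
          exact ht c b (hC.1 hb) b' (Or.inr (hC.2 (mem_coe.2 (mem_of_mem_erase hb'))
            (mem_coe.2 hb) (ne_of_mem_erase hb')))
        · rw [if_neg h3, if_neg (fun h4 => h3 (h2.2 h4)), mul_zero]
      · have h4 : ∀ v ∈ σ, v ≠ b := fun v hv h5 => hb (h5 ▸ hv)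
        have h6 : σ ≠ (b :: l).toFinset := fun h5 => hb (by rw [h5]; simp)
        rw [sum_eq_zero (fun v hv => by rw [if_neg (h4 v hv), zero_mul]), if_neg h6]
  have h1 := key l hl e.1 e.2 ⟨he.1, he.2.1⟩ he.2.2.1
  rw [TT, he.2.2.1]
  exact h1

end Pool.Agent.H37.TM
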