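import Pool.Agent.H37.TM.StarB0

/-!
# Project TM: the relation on the manifold
-/

set_option autoImplicit false
set_option linter.unusedSectionVars false

open Finset Pointwise

namespace Pool.Agent.H37.TM

open Pool.Agent.H19.Cub Pool.Agent.H77.SX

variable {V X U Γ P K : Type} [DecidableEq V] [DecidableEq U] [Group Γ] [MulAction Γ U]
  {Q : CubeComplex V X} {x₀ : X} [MulAction Γ (Q.Cover x₀)] {bit : X → V → ZMod 2}
  [Group P] [Field K] [Algebra (ZMod 2) K] {g : V → P} {t : V → P → K}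
  {M B : Set (Finset U)} {n : ℕ} {ht : U → ℕ}

theorem al_add (x y : Finset U × Finset U →₀ ZMod 2) (τ : Finset U) :
    al (x + y) τ = al x τ + al y τ := by
  unfold al
  rw [← sum_add_distrib]
  rfl

theorem al_zero (τ : Finset U) : al (0 : Finset U × Finset U →₀ ZMod 2) τ = 0 := by
  unfold al
  simp

theorem al_smul' (c : ZMod 2) (x : Finset U × Finset U →₀ ZMod 2) (τ : Finset U) :
    al (c • x) τ = c * al x τ := by
  unfold al
  rw [mul_sum]
  rfl

/-- `al` of a linear combination -/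
theorem al_lin {A : Type} (F : A → (Finset U × Finset U →₀ ZMod 2)) (x : A →₀ ZMod 2)
    (τ : Finset U) : al (lin F x) τ = x.sum fun a c => c * al (F a) τ := by
  classical
  unfold lin
  rw [Finsupp.linearCombination_apply]
  induction x using Finsupp.induction with
  | zero => simp [al_zero]
  | single_add a b f ha hb ih =>
    rw [Finsupp.sum_add_index' (by intro a; simp) (by intro a b c; rw [add_smul]), al_add, ih,
      Finsupp.sum_add_index' (by intro a; simp) (by intro a b c; rw [add_mul]),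
      Finsupp.sum_single_index (by simp), Finsupp.sum_single_index (by simp), al_smul']

theorem upz_valid [Fintype V] (D : Dat Q g t) {s : Finset V} {d : ℕ}
    {z : Finset V → X → Finset V × P → K} (hz : z ∈ ZQ K Q d (rX g s t))
    (e : Q.Cover x₀ × Finset V) (h : upz D s x₀ z e ≠ 0) :
    e.2 ⊆ Q.lab (Q.proj x₀ e.1) ∧ Q.graph.IsClique (e.2 : Set V) ∧ e.2.card = d := by
  refine (mem_ZQ.1 hz).1 e.2 (Q.proj x₀ e.1) fun h0 => h ?_
  unfold upz
  rw [h0, map_zero]

/-- `aa p A` is a cocycle -/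
theorem aa_cob [Fintype V] [Fintype X] [CharP K 2] (D : Dat Q g t) {s : Finset V} {d : ℕ}
    (hbit : IsBit Q bit) (hΓ : IsDeck Γ Q x₀) (hM : Psm M B n) (hA : MAct Γ M B n ht)
    {Ψ : Q.Cover x₀ × Finset V → (Finset U × Finset U →₀ ZMod 2)}
    (hΨ : IsPsi Γ Q x₀ bit M B n Ψ) {z : Finset V → X → Finset V × P → K}
    (hz : z ∈ ZQ K Q (d + 1) (rX g s t)) (p : P)
    (A : Finset V) {τ : Finset U} (hτ : τ ∈ M) :
    cob (aa D s x₀ bit (d + 1) z Ψ p A) τ = 0 := by
  classical
  obtain ⟨-, -, hcol, -⟩ := al_fin (d := d + 1) hΓ hM hA hΨ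
  obtain ⟨-, -, hcol', -⟩ := al_fin (d := d) hΓ hM hA hΨ
  have hco := sum_cofaces (x₀ := x₀) (d := d) hbit (fun e => upz D s x₀ z e (A, p))
    (fun e he => upz_valid D hz e fun h0 => he (by rw [h0]; rfl))
    (fun x σ hσ v hv => by rw [upz_nbc D s x₀ hz hσ hv])
    (fun x κ => by
      have h := congrFun (upz_cyc D s x₀ hz x κ) (A, p)
      rw [Finset.sum_apply] at h
      exact h)
  set BS : Finset (Q.Cover x₀ × Finset V) := (hcol' τ).toFinset with hBS
  -- first step: one finite sum over the cubes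
  have h1 : cob (aa D s x₀ bit (d + 1) z Ψ p A) τ =
      ∑ᶠ e : Q.Cover x₀ × Finset V, ∑ v ∈ τ,
        (if e ∈ Cell Q x₀ bit (d + 1) then al (Ψ e) (τ.erase v) • upz D s x₀ z e (A, p)
          else 0) := by
    rw [finsum_sum_comm]
    · unfold cob aa
      refine sum_congr rfl fun v _ => finsum_congr fun e => ?_
      split_ifs <;> rfl
    · intro v _
      refine (hcol (τ.erase v)).subset fun e he => ?_
      rw [Function.mem_support] at he
      by_cases hc : e ∈ Cell Q x₀ bit (d + 1)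
      · rw [if_pos hc] at he
        exact ⟨hc, fun h0 => he (by rw [h0, zero_smul])⟩
      · rw [if_neg hc] at he
        exact absurd rfl he
  have h2 : ∀ e : Q.Cover x₀ × Finset V, (∑ v ∈ τ,
        (if e ∈ Cell Q x₀ bit (d + 1) then al (Ψ e) (τ.erase v) • upz D s x₀ z e (A, p)
          else 0)) = ∑ b ∈ BS, al (Ψ b) τ •
        (if e ∈ Cell Q x₀ bit (d + 1) then bdD Q x₀ e b • upz D s x₀ z e (A, p) else 0) := by
    intro e
    by_cases hc : e ∈ Cell Q x₀ bit (d + 1)
    · simp only [if_pos hc]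
      have h3 : ∑ v ∈ τ, al (Ψ e) (τ.erase v) = ∑ b ∈ BS, al (Ψ b) τ * bdD Q x₀ e b := by
        have h4 : cob (al (Ψ e)) τ = al (bdT M n (Ψ e)) τ := (al_bdT hM (hΨ.mem _ e hc) hτ).symm
        have h5 := hΨ.bd _ e hc
        rw [if_neg (Nat.succ_ne_zero d), zero_add] at h5
        show cob (al (Ψ e)) τ = _
        rw [h4, h5, al_lin]
        have h6 : (bdD Q x₀ e).sum (fun a c => c * al (Ψ a) τ) =
            ∑ b ∈ (bdD Q x₀ e).support ∪ BS, bdD Q x₀ e b * al (Ψ b) τ := by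
          refine sum_subset subset_union_left fun b _ hb => ?_
          show bdD Q x₀ e b * al (Ψ b) τ = 0
          rw [Finsupp.notMem_support_iff.1 hb, zero_mul]
        rw [h6]
        symm
        refine (sum_subset subset_union_right fun b _ hb => ?_).trans
          (sum_congr rfl fun b _ => mul_comm _ _)
        by_cases h7 : bdD Q x₀ e b = 0
        · rw [h7, mul_zero]
        · have h8 := bdD_cell hbit hc b h7
          have h9 : al (Ψ b) τ = 0 := by
            by_contra h10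
            exact hb ((Set.Finite.mem_toFinset _).2 ⟨h8, h10⟩)
          rw [h9, zero_mul]
      rw [← Finset.sum_smul, h3, Finset.sum_smul]
      exact sum_congr rfl fun b _ => mul_smul _ _ _
    · simp only [if_neg hc, sum_const_zero, smul_zero]
  rw [h1, finsum_congr h2, finsum_sum_comm]
  · refine sum_eq_zero fun b hb => ?_
    obtain ⟨hb1, hb2⟩ := (Set.Finite.mem_toFinset _).1 hb
    obtain ⟨hf1, hf2⟩ := hco b hb1
    have h10 : ∑ᶠ e : Q.Cover x₀ × Finset V, al (Ψ b) τ •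
        (if e ∈ Cell Q x₀ bit (d + 1) then bdD Q x₀ e b • upz D s x₀ z e (A, p) else 0) =
        al (Ψ b) τ • ∑ᶠ e : Q.Cover x₀ × Finset V,
        (if e ∈ Cell Q x₀ bit (d + 1) then bdD Q x₀ e b • upz D s x₀ z e (A, p) else 0) := by
      rw [smul_finsum]
    rw [h10]
    have h11 : ∑ᶠ e : Q.Cover x₀ × Finset V,
        (if e ∈ Cell Q x₀ bit (d + 1) then bdD Q x₀ e b • upz D s x₀ z e (A, p) else 0) = 0 := by
      refine Eq.trans (finsum_congr fun e => ?_) hf2
      split_ifs <;> rfl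
    rw [h11, smul_zero]
  · intro b hb
    obtain ⟨hb1, hb2⟩ := (Set.Finite.mem_toFinset _).1 hb
    refine (hco b hb1).1.subset fun e he => ?_
    rw [Function.mem_support] at he
    by_cases hc : e ∈ Cell Q x₀ bit (d + 1)
    · rw [if_pos hc] at he
      exact ⟨hc, fun h0 => he (by rw [h0, zero_smul, smul_zero])⟩
    · rw [if_neg hc, smul_zero] at he
      exact absurd rfl he

/-- the support of `aa` -/
theorem aa_ne_zero [Fintype V] [Fintype X] (D : Dat Q g t) {s : Finset V} {d : ℕ}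
    {Ψ : Q.Cover x₀ × Finset V → (Finset U × Finset U →₀ ZMod 2)}
    (z : Finset V → X → Finset V × P → K) (p : P) (A : Finset V) (τ : Finset U)
    (h : aa D s x₀ bit d z Ψ p A τ ≠ 0) : ∃ e ∈ Cell Q x₀ bit d, al (Ψ e) τ ≠ 0 := by
  classical
  by_contra hno
  push Not at hno
  apply h
  unfold aa
  refine finsum_eq_zero_of_forall_eq_zero fun e => ?_
  by_cases hc : e ∈ Cell Q x₀ bit d
  · rw [if_pos hc, hno e hc, zero_smul]
  · rw [if_neg hc]

theorem aa_empty (D : Dat Q g t) (s : Finset V) (d : ℕ)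
    (Ψ : Q.Cover x₀ × Finset V → (Finset U × Finset U →₀ ZMod 2))
    (z : Finset V → X → Finset V × P → K) (p : P) (A : Finset V) :
    aa D s x₀ bit d z Ψ p A ∅ = 0 := by
  unfold aa
  refine finsum_eq_zero_of_forall_eq_zero fun e => ?_
  unfold al
  rw [sum_empty, zero_smul, ite_self]

theorem powersetCard_image_erase {τ : Finset U} {n : ℕ} (h : τ.card = n + 1) :
    τ.powersetCard n = τ.image fun v => τ.erase v := by
  ext r
  rw [mem_powersetCard, mem_image]
  constructor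
  · rintro ⟨h1, h2⟩
    have h3 : (τ \ r).card = 1 := by
      rw [card_sdiff_of_subset h1]
      omega
    obtain ⟨v, hv⟩ := card_eq_one.1 h3
    have hv' : v ∈ τ \ r := by
      rw [hv]
      exact mem_singleton_self v
    refine ⟨v, (mem_sdiff.1 hv').1, ?_⟩
    ext w
    rw [mem_erase]
    constructor
    · rintro ⟨h4, h5⟩
      by_contra h6
      have h7 : w ∈ τ \ r := mem_sdiff.2 ⟨h5, h6⟩
      rw [hv, mem_singleton] at h7
      exact h4 h7
    · intro h4
      refine ⟨?_, h1 h4⟩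
      rintro rfl
      exact (mem_sdiff.1 hv').2 h4
  · rintro ⟨v, hv, rfl⟩
    refine ⟨erase_subset v τ, ?_⟩
    rw [card_erase_of_mem hv]
    omega

/-- **The relation on the manifold** -/
theorem star_zero [Fintype V] [Fintype X] [Fintype P] [CharP K 2] (D : Dat Q g t)
    {s : Finset V} {d q : ℕ} (hbit : IsBit Q bit) (hΓ : IsDeck Γ Q x₀) (hM : Psm M B n)
    (hA : MAct Γ M B n ht) {Ψ : Q.Cover x₀ × Finset V → (Finset U × Finset U →₀ ZMod 2)}
    (hΨ : IsPsi Γ Q x₀ bit M B n Ψ) {f : U → Q.Cover x₀} (hf : IsVMap Γ f)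
    {z : Finset V → X → Finset V × P → K}
    (hz : z ∈ ZQ K Q (d + 1) (rX g s t)) {l : List V} (hn : l.Nodup) (hl : l.length = d + 1)
    (hq0 : 0 < q) (hqd : q ≤ d + 1) (hq : q + (d + 1) = n + 1) :
    osum Γ (fun τ : Finset U => open Classical in
      if τ ∈ M ∧ τ.card = n + 1 then
        ∑ p, WW ht (aa D s x₀ bit (d + 1) z Ψ p) (hpf D s x₀ f p) q l τ
      else 0) = 0 := by
  classical
  obtain ⟨hal1, hal2, -, hal4⟩ := al_fin (d := d + 1) hΓ hM hA hΨ
  set R : Finset U → K := fun r =>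
    ∑ p, VT ht (aa D s x₀ bit (d + 1) z Ψ p) (hpf D s x₀ f p) q l r with hR
  have hMg : ∀ (γ : Γ) (τ : Finset U), γ • τ ∈ M ↔ τ ∈ M := by
    intro γ τ
    refine ⟨fun h => ?_, hA.K_mem γ τ⟩
    have h1 := hA.K_mem γ⁻¹ _ h
    rwa [inv_smul_smul] at h1
  -- the values of `WW`
  have h1 : ∀ τ ∈ M, ∑ p, WW ht (aa D s x₀ bit (d + 1) z Ψ p) (hpf D s x₀ f p) q l τ =
      ∑ v ∈ τ, R (τ.erase v) := by
    intro τ hτ
    rw [hR]
    simp only
    rw [sum_comm]
    refine sum_congr rfl fun p _ => ?_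
    refine WW_eq (fun A => aa_empty D s (d + 1) Ψ z p A) hn (by omega) (hA.ht_inj τ hτ) ?_
    intro A r hr
    rcases r.eq_empty_or_nonempty with rfl | hne
    · exact sum_empty
    · exact aa_cob D hbit hΓ hM hA hΨ hz p A (hM.down τ hτ r hr hne)
  -- invariance
  have h2 : ∀ (γ : Γ) (r : Finset U), Set.InjOn ht (r : Set U) → R (γ • r) = R r := by
    intro γ r hr
    have h3 : ∀ p, VT ht (aa D s x₀ bit (d + 1) z Ψ p) (hpf D s x₀ f p) q l (γ • r) =
        VT ht (aa D s x₀ bit (d + 1) z Ψ (p * pos D x₀ (γ • base Q x₀)))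
          (hpf D s x₀ f (p * pos D x₀ (γ • base Q x₀))) q l r := fun p =>
      VT_smul (fun u => hA.ht_smul γ u) (aa_corr D hbit hΓ hM hA hΨ hf z p γ) l hn r hr
    rw [hR]
    simp only
    rw [sum_congr rfl fun p _ => h3 p]
    exact Fintype.sum_equiv (Equiv.mulRight (pos D x₀ (γ • base Q x₀))) _ _ fun p => rfl
  -- support
  have h3 : ∀ r, R r ≠ 0 → ∃ r' ⊆ r, ∃ e ∈ Cell Q x₀ bit (d + 1), al (Ψ e) r' ≠ 0 := by
    intro r hr
    obtain ⟨p, -, hp⟩ := exists_ne_zero_of_sum_ne_zero hr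
    obtain ⟨r', h4, A, h5⟩ := VT_ne_zero l r hp
    exact ⟨r', h4, aa_ne_zero D z p A r' h5⟩
  -- double counting
  have h4 : osum Γ (fun τ : Finset U => ∑ᶠ r : Finset U,
      if τ ∈ M ∧ τ.card = n + 1 ∧ r ⊆ τ ∧ r.card = n then R r else 0) =
      osum Γ (fun r : Finset U => ∑ᶠ τ : Finset U,
      if τ ∈ M ∧ τ.card = n + 1 ∧ r ⊆ τ ∧ r.card = n then R r else 0) := by
    have hk : ∀ τ r : Finset U, (if τ ∈ M ∧ τ.card = n + 1 ∧ r ⊆ τ ∧ r.card = n then R r else 0) ≠
        0 → (τ ∈ M ∧ τ.card = n + 1 ∧ r ⊆ τ ∧ r.card = n) ∧ R r ≠ 0 := by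
      intro τ r h
      by_cases hc : τ ∈ M ∧ τ.card = n + 1 ∧ r ⊆ τ ∧ r.card = n
      · rw [if_pos hc] at h
        exact ⟨hc, h⟩
      · rw [if_neg hc] at h
        exact absurd rfl h
    refine osum_comm (Γ := Γ) (fun τ r : Finset U =>
      if τ ∈ M ∧ τ.card = n + 1 ∧ r ⊆ τ ∧ r.card = n then R r else 0) ?_ ?_ ?_ ?_ ?_
    · intro γ τ r
      show (if γ • τ ∈ M ∧ (γ • τ).card = n + 1 ∧ γ • r ⊆ γ • τ ∧ (γ • r).card = n
        then R (γ • r) else 0) = _
      have hiff : (γ • τ ∈ M ∧ (γ • τ).card = n + 1 ∧ γ • r ⊆ γ • τ ∧ (γ • r).card = n) ↔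
          (τ ∈ M ∧ τ.card = n + 1 ∧ r ⊆ τ ∧ r.card = n) := by
        rw [hMg, Finset.card_smul_finset, Finset.card_smul_finset,
          Finset.smul_finset_subset_smul_finset_iff]
      by_cases hc : τ ∈ M ∧ τ.card = n + 1 ∧ r ⊆ τ ∧ r.card = n
      · rw [if_pos hc, if_pos (hiff.2 hc)]
        exact h2 γ r ((hA.ht_inj τ hc.1).mono (by exact_mod_cast hc.2.2.1))
      · rw [if_neg hc, if_neg (fun h => hc (hiff.1 h))]
    · intro τ r h γ hγ
      exact hA.free γ τ (hk τ r h).1.1 hγ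
    · intro τ r h γ hγ
      obtain ⟨⟨h5, h6, h7, h8⟩, -⟩ := hk τ r h
      exact hA.free γ r (hM.down τ h5 r h7 (card_pos.1 (by omega))) hγ
    · intro τ
      refine (τ.powerset.finite_toSet).subset fun r h => ?_
      exact mem_coe.2 (mem_powerset.2 (hk τ r h).1.2.2.1)
    · obtain ⟨F, hF⟩ := cu_fin (x₀ := x₀) hΓ
      have hloc : ∀ r : Finset U, {τ | τ ∈ M ∧ r ⊆ τ ∧ r ∈ M}.Finite := by
        intro r
        by_cases hr : r ∈ M
        · exact (hM.locfin r hr).subset fun τ h => ⟨h.1, h.2.1⟩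
        · exact Set.finite_empty.subset fun τ h => absurd h.2.2 hr
      refine ⟨F.biUnion fun e => (hal2 e).toFinset.biUnion fun r => (hloc r).toFinset,
        fun τ r h => ?_⟩
      obtain ⟨⟨h5, -, h7, -⟩, h9⟩ := hk τ r h
      obtain ⟨r', h10, e, he, h11⟩ := h3 r h9
      obtain ⟨γ, hγ⟩ := hF e
      refine ⟨γ, mem_biUnion.2 ⟨γ • e, hγ, mem_biUnion.2 ⟨γ • r', ?_, ?_⟩⟩⟩
      · rw [Set.Finite.mem_toFinset]
        show al (Ψ (γ • e)) (γ • r') ≠ 0
        rwa [hal4 γ e he]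
      · rw [Set.Finite.mem_toFinset]
        refine ⟨(hMg γ τ).2 h5, ?_, (hMg γ r').2 (hal1 e he r' h11).1⟩
        rw [Finset.smul_finset_subset_smul_finset_iff]
        exact h10.trans h7
  -- the left side
  have h5 : (fun τ : Finset U =>
      if τ ∈ M ∧ τ.card = n + 1 then
        ∑ p, WW ht (aa D s x₀ bit (d + 1) z Ψ p) (hpf D s x₀ f p) q l τ
      else 0) = fun τ : Finset U => ∑ᶠ r : Finset U,
      if τ ∈ M ∧ τ.card = n + 1 ∧ r ⊆ τ ∧ r.card = n then R r else 0 := by
    funext τ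
    by_cases hτ : τ ∈ M ∧ τ.card = n + 1
    · rw [if_pos hτ, h1 τ hτ.1]
      have h6 : ∀ r : Finset U, (if τ ∈ M ∧ τ.card = n + 1 ∧ r ⊆ τ ∧ r.card = n then R r else 0) =
          if r ∈ τ.powersetCard n then R r else 0 := by
        intro r
        have h7 : (τ ∈ M ∧ τ.card = n + 1 ∧ r ⊆ τ ∧ r.card = n) ↔ r ∈ τ.powersetCard n := by
          rw [mem_powersetCard]
          exact ⟨fun h => h.2.2, fun h => ⟨hτ.1, hτ.2, h⟩⟩
        simp only [h7]
      rw [finsum_congr h6, finsum_eq_sum_of_support_subset (s := τ.powersetCard n) _ (by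
        intro r hr
        rw [Function.mem_support] at hr
        by_contra h8
        exact hr (if_neg h8)), sum_congr rfl fun r hr => if_pos hr]
      rw [powersetCard_image_erase hτ.2, sum_image (Finset.erase_injOn τ)]
    · rw [if_neg hτ]
      exact (finsum_eq_zero_of_forall_eq_zero fun r => if_neg fun h => hτ ⟨h.1, h.2.1⟩).symm
  -- the right side
  have h6 : (fun r : Finset U => ∑ᶠ τ : Finset U,
      if τ ∈ M ∧ τ.card = n + 1 ∧ r ⊆ τ ∧ r.card = n then R r else 0) = fun _ => 0 := by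
    funext r
    by_cases hr : R r = 0
    · refine finsum_eq_zero_of_forall_eq_zero fun τ => ?_
      rw [hr, ite_self]
    · obtain ⟨r', h10, e, he, h11⟩ := h3 r hr
      obtain ⟨h12, h13, -⟩ := hal1 e he r' h11
      by_cases hrM : r ∈ M ∧ r.card = n
      · have hB : r ∉ B := fun h => h13 (hM.bd_down r h r' h10 (hM.ne r' h12))
        have h14 : ∀ τ : Finset U,
            (if τ ∈ M ∧ τ.card = n + 1 ∧ r ⊆ τ ∧ r.card = n then R r else 0) =
            if τ ∈ cofs M r (n + 1) then R r else 0 := by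
          intro τ
          have h15 : (τ ∈ M ∧ τ.card = n + 1 ∧ r ⊆ τ ∧ r.card = n) ↔ τ ∈ cofs M r (n + 1) := by
            rw [mem_cofsP hM hrM.1]
            exact ⟨fun h => ⟨h.1, h.2.2.1, h.2.1⟩, fun h => ⟨h.1, h.2.2, h.2.1, hrM.2⟩⟩
          simp only [h15]
        rw [finsum_congr h14, finsum_eq_sum_of_support_subset (s := cofs M r (n + 1)) _ (by
          intro τ hτ
          rw [Function.mem_support] at hτ
          by_contra h8
          exact hτ (if_neg h8)), sum_congr rfl fun τ hτ => if_pos hτ, sum_const,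
          ← Nat.cast_smul_eq_nsmul (ZMod 2), even_cofs hM hrM.1 hB hrM.2, zero_smul]
      · refine finsum_eq_zero_of_forall_eq_zero fun τ => if_neg fun h => hrM ⟨?_, h.2.2.2⟩
        exact hM.down τ h.1 r h.2.2.1 (hM.ne r' h12 |>.mono h10)
  have h7 : (fun τ : Finset U => open Classical in
      if τ ∈ M ∧ τ.card = n + 1 then
        ∑ p, WW ht (aa D s x₀ bit (d + 1) z Ψ p) (hpf D s x₀ f p) q l τ
      else 0) = fun τ : Finset U => ∑ᶠ r : Finset U,
      if τ ∈ M ∧ τ.card = n + 1 ∧ r ⊆ τ ∧ r.card = n then R r else 0 := by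
    rw [← h5]
  rw [h7, h4, h6]
  unfold osum
  exact finsum_zero

end Pool.Agent.H37.TM
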