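import Pool.Agent.H37.TM.SdE
import Pool.Agent.H37.TM.StarB

/-!
# Project TM: the main relation holds if the deck group acts freely on an acyclic manifold of small dimension
-/

set_option autoImplicit false
set_option linter.unusedSectionVars false

open Finset Pointwise

namespace Pool.Agent.H37.TM

open Pool.Agent.H19.Cub Pool.Agent.H77.SX

variable {V X U Γ : Type} [DecidableEq V] [DecidableEq U] [Group Γ] [MulAction Γ U]
  {Q : CubeComplex V X} {x₀ : X} [MulAction Γ (Q.Cover x₀)] {bit : X → V → ZMod 2}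
  {M B : Set (Finset U)} {n : ℕ} {ht : U → ℕ}

theorem be_add {P K : Type} [Group P] [Field K] [Algebra (ZMod 2) K] {g : V → P}
    {t : V → P → K} (D : Dat Q g t) (s : Finset V) (l : List V) (p : P)
    (x y : List (Q.Cover x₀) →₀ ZMod 2) :
    be D s x₀ l p (x + y) = be D s x₀ l p x + be D s x₀ l p y := by
  unfold be
  rw [map_add]

/-- The relation from a pseudomanifold with a height and a map to its complex of pairs. -/
theorem star_rel_psi [Fintype V] [Fintype X] (hbit : IsBit Q bit)
    (hsurj : Function.Surjective (Q.proj x₀)) (hΓ : IsDeck Γ Q x₀) (hM : Psm M B n)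
    (hA : MAct Γ M B n ht) (hU : ∀ u : U, {u} ∈ M)
    {Ψ : Q.Cover x₀ × Finset V → (Finset U × Finset U →₀ ZMod 2)}
    (hΨ : IsPsi Γ Q x₀ bit M B n Ψ) {d : ℕ} (hn : n < 2 * d)
    (K : Type) [Field K] [CharP K 2] : StarRel K Q bit d := by
  classical
  intro P _ _ g hg1 hg2 s hs hsd t hts z hz
  letI : Algebra (ZMod 2) K := ZMod.algebra K 2
  have D : Dat Q g t := ⟨hg1, hg2, hts⟩
  obtain ⟨d, rfl⟩ : ∃ d', d = d' + 1 := ⟨d - 1, by omega⟩
  obtain ⟨f, hf⟩ := exists_vmap (Q := Q) (x₀ := x₀) hA.sact hU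
  obtain ⟨H, hH1, hH2⟩ := exists_homotopy hbit hΓ hM hA hΨ hf
  have hnd : s.toList.Nodup := s.nodup_toList
  have hls : s.toList.toFinset = s := s.toList_toFinset
  have hll : s.toList.length = d + 1 := by
    rw [length_toList, hsd]
  have h1 := star_cmp D hbit hΓ hz s.toList (F := fun e => TT Q x₀ e + Phi M n ht f (Ψ e)) hH1 hH2
  rw [← star_left D hbit hΓ hsurj hz hs hsd hnd hls]
  obtain ⟨S, hS⟩ := cu_fin (x₀ := x₀) hΓ
  -- the second part
  have h2 : osum Γ (fun e : Q.Cover x₀ × Finset V => open Classical in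
      if e ∈ Cell Q x₀ bit (d + 1) then
        ∑ p, be D s x₀ s.toList p (Phi M n ht f (Ψ e)) * upz D s x₀ z e (∅, p) ^ 2
      else 0) = 0 := by
    by_cases hnd' : d + 1 ≤ n
    · rw [star_right D (q := n - d) hbit hΓ hM hA hΨ hf hz hll (by omega) (by omega)]
      exact star_zero D hbit hΓ hM hA hΨ hf hz hnd hll (by omega) (by omega) (by omega)
    · have h3 : ∀ e ∈ Cell Q x₀ bit (d + 1), Ψ e = 0 := by
        intro e he
        have h4 := hΨ.mem _ e he
        by_contra h5
        obtain ⟨a, ha⟩ := Finsupp.support_nonempty_iff.2 h5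
        have h6 : a ∈ TCell M B n (d + 1 + 1) := (Finsupp.mem_supported _ _).1 h4 ha
        obtain ⟨h7, h8, -, -, h9⟩ := h6
        have h10 := card_le_card h8
        omega
      unfold osum
      refine finsum_eq_zero_of_forall_eq_zero fun c => ?_
      beta_reduce
      by_cases hc : c.out ∈ Cell Q x₀ bit (d + 1)
      · rw [if_pos hc]
        refine sum_eq_zero fun p _ => ?_
        have h11 : Phi M n ht f (Ψ c.out) = 0 := by
          unfold Phi
          rw [h3 _ hc, map_zero, Finsupp.mapDomain_zero]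
        have h12 : be D s x₀ s.toList p (0 : List (Q.Cover x₀) →₀ ZMod 2) = 0 := by
          unfold be
          rw [map_zero]
        rw [h11, h12, zero_mul]
      · rw [if_neg hc]
  have h3 := osum_add (Γ := Γ)
    (fun e : Q.Cover x₀ × Finset V => open Classical in
      if e ∈ Cell Q x₀ bit (d + 1) then
        ∑ p, be D s x₀ s.toList p (TT Q x₀ e) * upz D s x₀ z e (∅, p) ^ 2
      else 0)
    (fun e : Q.Cover x₀ × Finset V => open Classical in
      if e ∈ Cell Q x₀ bit (d + 1) then
        ∑ p, be D s x₀ s.toList p (Phi M n ht f (Ψ e)) * upz D s x₀ z e (∅, p) ^ 2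
      else 0) ⟨S, fun e _ => hS e⟩ ⟨S, fun e _ => hS e⟩
  rw [h2, add_zero] at h3
  rw [← h3]
  refine Eq.trans ?_ h1
  congr 1
  funext e
  by_cases hc : e ∈ Cell Q x₀ bit (d + 1)
  · rw [if_pos hc, if_pos hc, if_pos hc, ← sum_add_distrib]
    exact sum_congr rfl fun p _ => by rw [be_add, add_mul]
  · rw [if_neg hc, if_neg hc, if_neg hc, add_zero]

/-- **The main relation.** The deck group acts freely and simplicially on the homology manifold `M`; no height is
needed: the relation is applied to the flags of `M`. -/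
theorem star_rel [Fintype V] [Fintype X] (hbit : IsBit Q bit)
    (hsurj : Function.Surjective (Q.proj x₀)) (hΓ : IsDeck Γ Q x₀) (hM : Mfd M B n)
    {d : ℕ} (hd : DimLe Q d) (hK : AcycLt M d) (hA : SAct Γ M B)
    (hn : n < 2 * d)
    (K : Type) [Field K] [CharP K 2] : StarRel K Q bit d := by
  classical
  letI iact : MulAction Γ (Sx M) :=
    { smul := fun g a => ⟨g • a.1, hA.K_mem g a.1 a.2⟩
      one_smul := fun a => Subtype.ext (one_smul Γ a.1)
      mul_smul := fun g h a => Subtype.ext (mul_smul g h a.1) }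
  have hact : ∀ (g : Γ) (a : Sx M), (g • a).1 = g • a.1 := fun _ _ => rfl
  obtain ⟨Ψ, hΨ⟩ := exists_psi (Γ := Γ) (x₀ := x₀) (bit := bit) hbit hΓ hd hM hK hA
  obtain ⟨φ, hφ, hφg⟩ := exists_phi hM.psm hact hA.free
  exact star_rel_psi hbit hsurj hΓ (sd_psm hM.psm)
    (sd_mact hM.psm hact hA.B_mem hA.free) sd_singleton (sd_psi hM.psm hφ hact hφg hΨ) hn K

end Pool.Agent.H37.TM
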