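import Pool.Agent.H37.TM.Defs
import Pool.Agent.H19.Cub.Compl
import Pool.Agent.H4.Singer.L2Hodge

/-!
# Project TM: coverings of labelled cube complexes and relabelling

`IsCov`: coverings `Q' → Q` which may refine the labels. `relabel`: every finite complex `Q` has a finite covering
with bits and with labels such that no label is adjacent to all labels of a cube of dimension `d = dim Q`.
-/

set_option autoImplicit false
set_option linter.unusedSectionVars false

open Finset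

namespace Pool.Agent.H37.TM

open Pool.Agent.H19.Cub

/-- no label is adjacent to all labels of a cube of dimension `d` -/
def MaxCl {V X : Type} [DecidableEq V] (Q : CubeComplex V X) (d : ℕ) : Prop :=
  ∀ x, ∀ σ : Finset V, σ ⊆ Q.lab x → Q.graph.IsClique (σ : Set V) → σ.card = d →
    ∀ u, ∃ v ∈ σ, ¬ Q.graph.Adj v u

/-- coverings `Q' → Q`: `φ` on the vertices, `ψ` on the labels (the labels of `Q'` may be finer) -/
structure IsCov {V X V' X' : Type} [DecidableEq V] [DecidableEq V'] (Q' : CubeComplex V' X')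
    (Q : CubeComplex V X) (ψ : V' → V) (φ : X' → X) : Prop where
  lab : ∀ y v, v ∈ Q.lab (φ y) → ∃ v' ∈ Q'.lab y, ψ v' = v
  lab' : ∀ y, ∀ v' ∈ Q'.lab y, ψ v' ∈ Q.lab (φ y)
  inj : ∀ y, ∀ u' ∈ Q'.lab y, ∀ v' ∈ Q'.lab y, ψ u' = ψ v' → u' = v'
  nb : ∀ y, ∀ v' ∈ Q'.lab y, φ (Q'.nb v' y) = Q.nb (ψ v') (φ y)
  adj : ∀ u' v', Q'.graph.Adj u' v' → Q.graph.Adj (ψ u') (ψ v')
  adj' : ∀ y, ∀ u' ∈ Q'.lab y, ∀ v' ∈ Q'.lab y, Q.graph.Adj (ψ u') (ψ v') → Q'.graph.Adj u' v'

namespace IsCov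

variable {V X V' X' : Type} [DecidableEq V] [DecidableEq V'] {Q' : CubeComplex V' X'}
  {Q : CubeComplex V X} {ψ : V' → V} {φ : X' → X} (h : IsCov Q' Q ψ φ)

include h

theorem isPath {y : X'} {l : List V'} (hl : Q'.IsPath y l) : Q.IsPath (φ y) (l.map ψ) := by
  induction l generalizing y with
  | nil => trivial
  | cons v l ih =>
    refine ⟨h.lab' y v hl.1, ?_⟩
    rw [← h.nb y v hl.1]
    exact ih hl.2

theorem fin_map {y : X'} {l : List V'} (hl : Q'.IsPath y l) :
    Q.fin (φ y) (l.map ψ) = φ (Q'.fin y l) := by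
  induction l generalizing y with
  | nil => rfl
  | cons v l ih =>
    show Q.fin (Q.nb (ψ v) (φ y)) (l.map ψ) = φ (Q'.fin (Q'.nb v y) l)
    rw [← h.nb y v hl.1]
    exact ih hl.2

theorem lift {y : X'} {l : List V} (hl : Q.IsPath (φ y) l) :
    ∃ l' : List V', Q'.IsPath y l' ∧ l'.map ψ = l := by
  induction l generalizing y with
  | nil => exact ⟨[], trivial, rfl⟩
  | cons v l ih =>
    obtain ⟨v', hv', rfl⟩ := h.lab y v hl.1
    have h2 := hl.2
    rw [← h.nb y v' hv'] at h2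
    obtain ⟨l', hl', rfl⟩ := ih h2
    exact ⟨v' :: l', ⟨hv', hl'⟩, rfl⟩

theorem uniq {y : X'} {l l' : List V'} (hl : Q'.IsPath y l) (hl' : Q'.IsPath y l')
    (he : l.map ψ = l'.map ψ) : l = l' := by
  induction l generalizing y l' with
  | nil =>
    cases l' with
    | nil => rfl
    | cons w l' => simp at he
  | cons v l ih =>
    cases l' with
    | nil => simp at he
    | cons w l' =>
      simp only [List.map_cons, List.cons.injEq] at he
      have hvw : v = w := h.inj y v hl.1 w hl'.1 he.1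
      subst hvw
      rw [ih hl.2 hl'.2 he.2]

theorem step_map {l l' : List V'} (hs : Step Q'.graph l l') :
    Step Q.graph (l.map ψ) (l'.map ψ) := by
  cases hs with
  | back a b v =>
    simp only [List.map_append, List.map_cons]
    exact Step.back _ _ _
  | square a b u v huv =>
    simp only [List.map_append, List.map_cons]
    exact Step.square _ _ _ _ (h.adj u v huv)

theorem step_lift {y : X'} {l l' : List V'} (hl : Q'.IsPath y l) (hl' : Q'.IsPath y l')
    {m m' : List V} (hs : Step Q.graph m m') (hm : l.map ψ = m) (hm' : l'.map ψ = m') :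
    Step Q'.graph l l' := by
  cases hs with
  | back a b v =>
    obtain ⟨a1, r1, rfl, ha1, hr1⟩ := List.map_eq_append_iff.1 hm
    obtain ⟨x, r2, rfl, hx, hr2⟩ := List.map_eq_cons_iff.1 hr1
    obtain ⟨x', b1, rfl, hx', hb1⟩ := List.map_eq_cons_iff.1 hr2
    obtain ⟨a2, b2, rfl, ha2, hb2⟩ := List.map_eq_append_iff.1 hm'
    rw [CubeComplex.isPath_append] at hl hl'
    obtain ⟨p1, p2, p3, p4⟩ := hl
    obtain ⟨q1, q2⟩ := hl'
    have e1 : a1 = a2 := h.uniq p1 q1 (ha1.trans ha2.symm)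
    subst e1
    have e2 : x = x' := h.inj _ x (Q'.lab_nb x _ p2) x' p3 (hx.trans hx'.symm)
    subst e2
    rw [Q'.nb_nb x _ p2] at p4
    have e3 : b1 = b2 := h.uniq p4 q2 (hb1.trans hb2.symm)
    subst e3
    exact Step.back _ _ _
  | square a b u v huv =>
    obtain ⟨a1, r1, rfl, ha1, hr1⟩ := List.map_eq_append_iff.1 hm
    obtain ⟨x, r2, rfl, hx, hr2⟩ := List.map_eq_cons_iff.1 hr1
    obtain ⟨w, b1, rfl, hw, hb1⟩ := List.map_eq_cons_iff.1 hr2
    obtain ⟨a2, s1, rfl, ha2, hs1⟩ := List.map_eq_append_iff.1 hm'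
    obtain ⟨w', s2, rfl, hw', hs2⟩ := List.map_eq_cons_iff.1 hs1
    obtain ⟨x', b2, rfl, hx', hb2⟩ := List.map_eq_cons_iff.1 hs2
    rw [CubeComplex.isPath_append] at hl hl'
    obtain ⟨p1, p2, p3, p4⟩ := hl
    obtain ⟨q1, q2, q3, q4⟩ := hl'
    have e1 : a1 = a2 := h.uniq p1 q1 (ha1.trans ha2.symm)
    subst e1
    have hadj : Q'.graph.Adj x w' := by
      refine h.adj' _ x p2 w' q2 ?_
      rw [hx, hw']
      exact huv
    have e2 : w = w' := by
      refine h.inj _ w p3 w' ?_ (hw.trans hw'.symm)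
      exact Q'.lab_adj w' x _ hadj.symm q2 p2
    subst e2
    have e3 : x' = x := by
      refine h.inj _ x' q3 x ?_ (hx'.trans hx.symm)
      exact Q'.lab_adj x w _ hadj p2 q2
    subst e3
    rw [Q'.nb_comm w x' _ hadj.symm q2 p2] at p4
    have e4 : b1 = b2 := h.uniq p4 q4 (hb1.trans hb2.symm)
    subst e4
    exact Step.square _ _ _ _ hadj

/-- the map of the universal covers -/
def down (y : X') : Q'.Cover y → Q.Cover (φ y) :=
  Quot.map (fun l => ⟨l.1.map ψ, h.isPath l.2⟩) fun _ _ hs => h.step_map hs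

/-- the inverse -/
noncomputable def up (y : X') : Q.Cover (φ y) → Q'.Cover y :=
  Quot.map (fun l => ⟨(h.lift l.2).choose, (h.lift l.2).choose_spec.1⟩) fun a b hs =>
    h.step_lift (h.lift a.2).choose_spec.1 (h.lift b.2).choose_spec.1 hs
      (h.lift a.2).choose_spec.2 (h.lift b.2).choose_spec.2

theorem up_down (y : X') (c : Q'.Cover y) : h.up y (h.down y c) = c := by
  induction c using Quot.ind with
  | mk l =>
    have hp := h.isPath l.2
    have e : (h.lift hp).choose = l.1 :=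
      h.uniq (h.lift hp).choose_spec.1 l.2 (h.lift hp).choose_spec.2
    show Quot.mk _ ⟨(h.lift hp).choose, _⟩ = Quot.mk _ l
    congr 1
    exact Subtype.ext e

theorem down_up (y : X') (c : Q.Cover (φ y)) : h.down y (h.up y c) = c := by
  induction c using Quot.ind with
  | mk l =>
    show Quot.mk _ ⟨(h.lift l.2).choose.map ψ, _⟩ = Quot.mk _ l
    congr 1
    exact Subtype.ext (h.lift l.2).choose_spec.2

theorem down_bij (y : X') : Function.Bijective (h.down y) :=
  Function.bijective_iff_has_inverse.2 ⟨h.up y, h.up_down y, h.down_up y⟩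

theorem proj_down (y : X') (c : Q'.Cover y) : Q.proj (φ y) (h.down y c) = φ (Q'.proj y c) := by
  induction c using Quot.ind with
  | mk l => exact h.fin_map l.2

theorem down_nbc (y : X') (c : Q'.Cover y) {v : V'} (hv : v ∈ Q'.lab (Q'.proj y c)) :
    h.down y (Q'.nbc y v c) = Q.nbc (φ y) (ψ v) (h.down y c) := by
  induction c using Quot.ind with
  | mk l =>
    have hv1 : v ∈ Q'.lab (Q'.fin y l.1) := hv
    rw [Q'.nbc_mk y v l hv1]
    have hv2 : ψ v ∈ Q.lab (Q.fin (φ y) (l.1.map ψ)) := by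
      rw [h.fin_map l.2]
      exact h.lab' _ v hv1
    have e := Q.nbc_mk (φ y) (ψ v) ⟨l.1.map ψ, h.isPath l.2⟩ hv2
    refine Eq.trans ?_ e.symm
    refine congrArg (Quot.mk _) (Subtype.ext ?_)
    exact List.map_append ..

/-- the map of the universal covers is a covering -/
theorem cover (y : X') : IsCov (Q'.cover y) (Q.cover (φ y)) ψ (h.down y) where
  lab c v hv := by
    have h1 : v ∈ Q.lab (φ (Q'.proj y c)) := by
      rw [← h.proj_down]
      exact hv
    exact h.lab _ v h1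
  lab' c v' hv' := by
    show ψ v' ∈ Q.lab (Q.proj (φ y) (h.down y c))
    rw [h.proj_down]
    exact h.lab' _ v' hv'
  inj c u' hu' v' hv' he := h.inj _ u' hu' v' hv' he
  nb c v' hv' := h.down_nbc y c hv'
  adj := h.adj
  adj' c u' hu' v' hv' ha := h.adj' _ u' hu' v' hv' ha

end IsCov

/-! ### `ℓ²`-homology -/

section L2

open Pool.Agent.H4.Singer

variable {V X V' X' : Type} [DecidableEq V] [DecidableEq V'] {Q' : CubeComplex V' X'}
  {Q : CubeComplex V X} {ψ : V' → V} {φ : X' → X} (h : IsCov Q' Q ψ φ)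

/-- the labels at `y` over `σ` -/
def liftS (Q' : CubeComplex V' X') (ψ : V' → V) (σ : Finset V) (y : X') : Finset V' :=
  (Q'.lab y).filter fun v' => ψ v' ∈ σ

theorem liftS_sub (σ : Finset V) (y : X') : liftS Q' ψ σ y ⊆ Q'.lab y := filter_subset _ _

include h

theorem liftS_image {τ : Finset V'} {y : X'} (hτ : τ ⊆ Q'.lab y) :
    liftS Q' ψ (τ.image ψ) y = τ := by
  ext v'
  simp only [liftS, mem_filter, mem_image]
  constructor
  · rintro ⟨h1, w, hw, hwv⟩
    rwa [← h.inj y w (hτ hw) v' h1 hwv]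
  · intro hv
    exact ⟨hτ hv, v', hv, rfl⟩

theorem image_liftS {σ : Finset V} {y : X'} (hσ : σ ⊆ Q.lab (φ y)) :
    (liftS Q' ψ σ y).image ψ = σ := by
  ext v
  simp only [liftS, mem_filter, mem_image]
  constructor
  · rintro ⟨w, ⟨_, hw⟩, rfl⟩
    exact hw
  · intro hv
    obtain ⟨v', hv', rfl⟩ := h.lab y v (hσ hv)
    exact ⟨v', ⟨hv', hv⟩, rfl⟩

theorem injOn_lab {τ : Finset V'} {y : X'} (hτ : τ ⊆ Q'.lab y) : Set.InjOn ψ (τ : Set V') :=
  fun a ha b hb hab => h.inj y a (hτ ha) b (hτ hb) hab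

theorem card_img {τ : Finset V'} {y : X'} (hτ : τ ⊆ Q'.lab y) : (τ.image ψ).card = τ.card :=
  card_image_of_injOn (injOn_lab h hτ)

theorem image_sub {τ : Finset V'} {y : X'} (hτ : τ ⊆ Q'.lab y) : τ.image ψ ⊆ Q.lab (φ y) := by
  intro v hv
  obtain ⟨v', hv', rfl⟩ := mem_image.1 hv
  exact h.lab' y v' (hτ hv')

theorem clique_iff {τ : Finset V'} {y : X'} (hτ : τ ⊆ Q'.lab y) :
    Q.graph.IsClique ((τ.image ψ : Finset V) : Set V) ↔ Q'.graph.IsClique (τ : Set V') := by
  constructor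
  · intro hc a ha b hb hab
    refine h.adj' y a (hτ ha) b (hτ hb) (hc ?_ ?_ ?_)
    · exact mem_coe.2 (mem_image_of_mem ψ ha)
    · exact mem_coe.2 (mem_image_of_mem ψ hb)
    · exact fun he => hab (h.inj y a (hτ ha) b (hτ hb) he)
  · intro hc a ha b hb hab
    obtain ⟨a', ha', rfl⟩ := mem_image.1 (mem_coe.1 ha)
    obtain ⟨b', hb', rfl⟩ := mem_image.1 (mem_coe.1 hb)
    exact h.adj _ _ (hc ha' hb' fun he => hab (congrArg ψ he))

/-- cliques stay at the neighbours -/
theorem sub_nb' {τ : Finset V'} {y : X'} (hτ : τ ⊆ Q'.lab y) (hc : Q'.graph.IsClique (τ : Set V'))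
    {v' : V'} (hv : v' ∈ τ) : τ ⊆ Q'.lab (Q'.nb v' y) := by
  intro u hu
  by_cases huv : u = v'
  · subst huv
    exact Q'.lab_nb _ y (hτ hu)
  · exact Q'.lab_adj u v' y (hc hu hv huv) (hτ hu) (hτ hv)

variable [Fintype V] [Fintype V']

/-- the boundaries agree -/
theorem bdry_cov {ν : V → ℕ} {ν' : V' → ℕ}
    (hν : ∀ a b, ψ a ≠ ψ b → (ν' a < ν' b ↔ ν (ψ a) < ν (ψ b)))
    {f' : Finset V' → X' → ℂ} {f : Finset V → X → ℂ} {y : X'}
    (hf : ∀ σ, f σ (φ y) ≠ 0 → σ ⊆ Q.lab (φ y)) (hf' : ∀ σ, f' σ y ≠ 0 → σ ⊆ Q'.lab y)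
    (hff : ∀ σ, σ ⊆ Q'.lab y → f' σ y = f (σ.image ψ) (φ y)) {τ : Finset V'}
    (hτ : τ ⊆ Q'.lab y) : bdry ν' f' τ y = bdry ν f (τ.image ψ) (φ y) := by
  have e1 : bdry ν' f' τ y = ∑ v ∈ Q'.lab y \ τ,
      (-1) ^ (τ.filter fun u => ν' u < ν' v).card * f' (insert v τ) y := by
    unfold bdry
    refine (sum_subset ?_ ?_).symm
    · intro v hv
      rw [mem_sdiff] at hv
      exact mem_compl.2 hv.2
    · intro v hv hv2
      rw [mem_compl] at hv
      rw [mem_sdiff] at hv2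
      by_contra hne
      have h1 := hf' _ (right_ne_zero_of_mul hne) (mem_insert_self v τ)
      exact hv2 ⟨h1, hv⟩
  have e2 : bdry ν f (τ.image ψ) (φ y) = ∑ v ∈ Q.lab (φ y) \ τ.image ψ,
      (-1) ^ ((τ.image ψ).filter fun u => ν u < ν v).card *
        f (insert v (τ.image ψ)) (φ y) := by
    unfold bdry
    refine (sum_subset ?_ ?_).symm
    · intro v hv
      rw [mem_sdiff] at hv
      exact mem_compl.2 hv.2
    · intro v hv hv2
      rw [mem_compl] at hv
      rw [mem_sdiff] at hv2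
      by_contra hne
      have h1 := hf _ (right_ne_zero_of_mul hne) (mem_insert_self v _)
      exact hv2 ⟨h1, hv⟩
  rw [e1, e2]
  refine sum_nbij ψ ?_ ?_ ?_ ?_
  · intro v hv
    rw [mem_sdiff] at hv ⊢
    refine ⟨h.lab' y v hv.1, fun hm => ?_⟩
    obtain ⟨w, hw, hwv⟩ := mem_image.1 hm
    exact hv.2 (h.inj y w (hτ hw) v hv.1 hwv ▸ hw)
  · intro a ha b hb hab
    rw [mem_coe, mem_sdiff] at ha hb
    exact h.inj y a ha.1 b hb.1 hab
  · intro v hv
    rw [mem_coe, mem_sdiff] at hv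
    obtain ⟨v', hv', rfl⟩ := h.lab y v hv.1
    refine ⟨v', ?_, rfl⟩
    rw [mem_coe, mem_sdiff]
    exact ⟨hv', fun hm => hv.2 (mem_image_of_mem ψ hm)⟩
  · intro v hv
    rw [mem_sdiff] at hv
    have h1 : insert v τ ⊆ Q'.lab y := insert_subset hv.1 hτ
    rw [hff _ h1, image_insert]
    congr 2
    have h2 : (τ.image ψ).filter (fun u => ν u < ν (ψ v)) =
        (τ.filter fun u => ν' u < ν' v).image ψ := by
      ext w
      simp only [mem_filter, mem_image]
      constructor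
      · rintro ⟨⟨w', hw', rfl⟩, hlt⟩
        refine ⟨w', ⟨hw', (hν w' v ?_).2 hlt⟩, rfl⟩
        intro he
        rw [he] at hlt
        exact lt_irrefl _ hlt
      · rintro ⟨w', ⟨hw', hlt⟩, rfl⟩
        refine ⟨⟨w', hw', rfl⟩, (hν w' v ?_).1 hlt⟩
        intro he
        exact hv.2 (h.inj y w' (hτ hw') v hv.1 he ▸ hw')
    rw [h2]
    exact (card_img h ((filter_subset _ _).trans hτ)).symm

/-- The vanishing of the reduced `ℓ²`-homology passes to the base of a bijective covering. -/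
theorem l2_of_cov (hφ : Function.Bijective φ) (i : ℕ) (h0 : L2HomologyZero Q' i) :
    L2HomologyZero Q i := by
  classical
  intro ν hνi z hz hdz ε hε
  -- the order of the labels upstairs
  obtain ⟨ν', hν'i, hν⟩ : ∃ ν' : V' → ℕ, Function.Injective ν' ∧
      ∀ a b, ψ a ≠ ψ b → (ν' a < ν' b ↔ ν (ψ a) < ν (ψ b)) := by
    let e := Fintype.equivFin V'
    let N := Fintype.card V'
    have hlt : ∀ a b : V', ν (ψ a) < ν (ψ b) →
        ν (ψ a) * N + (e a).val < ν (ψ b) * N + (e b).val := by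
      intro a b hab
      have h1 : (ν (ψ a) + 1) * N ≤ ν (ψ b) * N := Nat.mul_le_mul_right _ hab
      have h2 : (e a).val < N := (e a).isLt
      have h3 : (ν (ψ a) + 1) * N = ν (ψ a) * N + N := by ring
      omega
    refine ⟨fun v => ν (ψ v) * N + (e v).val, ?_, ?_⟩
    · intro a b hab
      rcases lt_trichotomy (ν (ψ a)) (ν (ψ b)) with h1 | h1 | h1
      · exact absurd hab (hlt a b h1).ne
      · simp only [h1] at hab
        have h2 : (e a).val = (e b).val := by omega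
        exact e.injective (Fin.ext h2)
      · exact absurd hab (hlt b a h1).ne'
    · intro a b hab
      constructor
      · intro h1
        rcases lt_trichotomy (ν (ψ a)) (ν (ψ b)) with h2 | h2 | h2
        · exact h2
        · exact absurd (hνi h2) hab
        · exact absurd (hlt b a h2) (not_lt.2 h1.le)
      · exact hlt a b
  -- the inverse of `φ`
  obtain ⟨χ, hχ1, hχ2⟩ := Function.bijective_iff_has_inverse.1 hφ
  -- the chain upstairs
  let z' : Finset V' → X' → ℂ := fun σ y => if σ ⊆ Q'.lab y then z (σ.image ψ) (φ y) else 0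
  have hz'1 : ∀ σ y, σ ⊆ Q'.lab y → z' σ y = z (σ.image ψ) (φ y) := fun σ y hσ => if_pos hσ
  have hz'0 : ∀ σ y, z' σ y ≠ 0 → σ ⊆ Q'.lab y := by
    intro σ y hne
    by_contra hσ
    exact hne (if_neg hσ)
  have hz' : IsL2Chain Q' i z' := by
    refine ⟨fun σ y hne => ?_, fun σ y hσ v hv => ?_, fun σ => ?_⟩
    · have h1 := hz'0 σ y hne
      rw [hz'1 σ y h1] at hne
      obtain ⟨_, h3, h4⟩ := hz.supp _ _ hne
      exact ⟨h1, (clique_iff h h1).1 h3, (card_img h h1) ▸ h4⟩
    · by_cases hc : Q'.graph.IsClique (σ : Set V')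
      · have h1 := sub_nb' h hσ hc hv
        rw [hz'1 _ _ h1, hz'1 _ _ hσ, h.nb y v (hσ hv)]
        exact hz.anti _ _ (image_sub h hσ) _ (mem_image_of_mem ψ hv)
      · have h1 : z' σ y = 0 := by
          by_contra hne
          rw [hz'1 σ y hσ] at hne
          exact hc ((clique_iff h hσ).1 (hz.supp _ _ hne).2.1)
        have h2 : z' σ (Q'.nb v y) = 0 := by
          by_contra hne
          have h3 := hz'0 _ _ hne
          rw [hz'1 _ _ h3] at hne
          exact hc ((clique_iff h h3).1 (hz.supp _ _ hne).2.1)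
        rw [h1, h2, neg_zero]
    · have h1 : Summable fun y => ‖z (σ.image ψ) (φ y)‖ ^ 2 :=
        (hz.l2 (σ.image ψ)).comp_injective hφ.1
      refine Summable.of_nonneg_of_le (fun y => sq_nonneg _) (fun y => ?_) h1
      by_cases hσ : σ ⊆ Q'.lab y
      · rw [hz'1 σ y hσ]
      · have h2 : z' σ y = 0 := if_neg hσ
        rw [h2]
        simp
  have hdz' : bdry ν' z' = 0 := by
    funext τ y
    by_cases hτ : τ ⊆ Q'.lab y
    · rw [bdry_cov h hν (fun σ hne => (hz.supp σ _ hne).1) (hz'0 · y) (hz'1 · y) hτ, hdz]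
      rfl
    · unfold bdry
      refine sum_eq_zero fun v _ => ?_
      have h2 : z' (insert v τ) y = 0 := by
        by_contra hne
        exact hτ ((subset_insert v τ).trans (hz'0 _ _ hne))
      rw [h2, mul_zero]
  obtain ⟨w', hw', hlt⟩ := h0 ν' hν'i z' hz' hdz' ε hε
  -- the chain downstairs
  let w : Finset V → X → ℂ := fun σ x =>
    if σ ⊆ Q.lab x then w' (liftS Q' ψ σ (χ x)) (χ x) else 0
  have hw1 : ∀ σ y, σ ⊆ Q.lab (φ y) → w σ (φ y) = w' (liftS Q' ψ σ y) y := by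
    intro σ y hσ
    show (if σ ⊆ Q.lab (φ y) then _ else _) = _
    rw [if_pos hσ, hχ1]
  have hw0 : ∀ σ x, w σ x ≠ 0 → σ ⊆ Q.lab x := by
    intro σ y hne
    by_contra hσ
    exact hne (if_neg hσ)
  have hcl : ∀ σ y, σ ⊆ Q.lab (φ y) → w' (liftS Q' ψ σ y) y ≠ 0 →
      Q.graph.IsClique (σ : Set V) ∧ σ.card = i + 1 ∧
        Q'.graph.IsClique (liftS Q' ψ σ y : Set V') := by
    intro σ y hσ hne
    obtain ⟨h1, h2, h3⟩ := hw'.supp _ _ hne
    have h4 := image_liftS h hσ
    refine ⟨?_, ?_, h2⟩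
    · have h5 := (clique_iff h h1).2 h2
      rwa [h4] at h5
    · have h5 := card_img h h1
      rw [h4] at h5
      rw [h5, h3]
  have hw : IsL2Chain Q (i + 1) w := by
    refine ⟨fun σ x hne => ?_, fun σ x hσ v hv => ?_, fun σ => ?_⟩
    · have h1 := hw0 σ x hne
      obtain ⟨y, rfl⟩ := hφ.2 x
      rw [hw1 σ y h1] at hne
      obtain ⟨h2, h3, _⟩ := hcl σ y h1 hne
      exact ⟨h1, h2, h3⟩
    · obtain ⟨y, rfl⟩ := hφ.2 x
      obtain ⟨v', hv', rfl⟩ := h.lab y v (hσ hv)
      have hvl : v' ∈ liftS Q' ψ σ y := mem_filter.2 ⟨hv', hv⟩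
      by_cases hc : Q.graph.IsClique (σ : Set V)
      · have hc' : Q'.graph.IsClique (liftS Q' ψ σ y : Set V') := by
          rw [← clique_iff h (liftS_sub σ y), image_liftS h hσ]
          exact hc
        have h1 := sub_nb' h (liftS_sub σ y) hc' hvl
        have h2 : σ ⊆ Q.lab (φ (Q'.nb v' y)) := by
          have h3 := image_sub h h1
          rwa [image_liftS h hσ] at h3
        have h3 : liftS Q' ψ σ (Q'.nb v' y) = liftS Q' ψ σ y := by
          have h4 := liftS_image h h1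
          rwa [image_liftS h hσ] at h4
        rw [← h.nb y v' hv', hw1 _ _ h2, hw1 _ _ hσ, h3]
        exact hw'.anti _ _ (liftS_sub σ y) _ hvl
      · have h1 : w σ (φ y) = 0 := by
          by_contra hne
          rw [hw1 σ y hσ] at hne
          exact hc (hcl σ y hσ hne).1
        have h2 : w σ (Q.nb (ψ v') (φ y)) = 0 := by
          by_contra hne
          have h3 := hw0 _ _ hne
          rw [← h.nb y v' hv'] at h3 hne
          rw [hw1 _ _ h3] at hne
          exact hc (hcl σ _ h3 hne).1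
        rw [h1, h2, neg_zero]
    · have hχi : Function.Injective χ := hχ2.injective
      have h1 : Summable fun x => ∑ σ', ‖w' σ' (χ x)‖ ^ 2 :=
        summable_sum fun σ' _ => (hw'.l2 σ').comp_injective hχi
      refine Summable.of_nonneg_of_le (fun y => sq_nonneg _) (fun x => ?_) h1
      by_cases hσ : σ ⊆ Q.lab x
      · have h2 : w σ x = w' (liftS Q' ψ σ (χ x)) (χ x) := if_pos hσ
        rw [h2]
        exact single_le_sum (f := fun σ' => ‖w' σ' (χ x)‖ ^ 2) (fun _ _ => sq_nonneg _)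
          (mem_univ _)
      · have h2 : w σ x = 0 := if_neg hσ
        rw [h2]
        simp only [norm_zero, ne_eq, OfNat.ofNat_ne_zero, not_false_eq_true, zero_pow]
        exact sum_nonneg fun _ _ => sq_nonneg _
  refine ⟨w, hw, ?_⟩
  -- the distances
  have hww : ∀ y σ, σ ⊆ Q'.lab y → w' σ y = w (σ.image ψ) (φ y) := by
    intro y σ hσ
    rw [hw1 _ _ (image_sub h hσ), liftS_image h hσ]
  have hD0 : ∀ σ x, ¬ σ ⊆ Q.lab x → ‖z σ x - bdry ν w σ x‖ ^ 2 = 0 := by
    intro σ x hσ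
    have h1 : z σ x = 0 := by
      by_contra hne
      exact hσ (hz.supp σ x hne).1
    have h2 : bdry ν w σ x = 0 := by
      unfold bdry
      refine sum_eq_zero fun v _ => ?_
      have h3 : w (insert v σ) x = 0 := by
        by_contra hne
        exact hσ ((subset_insert v σ).trans (hw0 _ _ hne))
      rw [h3, mul_zero]
    rw [h1, h2]
    simp
  have hD1 : ∀ σ y, σ ⊆ Q.lab (φ y) → ‖z σ (φ y) - bdry ν w σ (φ y)‖ ^ 2 =
      ‖z' (liftS Q' ψ σ y) y - bdry ν' w' (liftS Q' ψ σ y) y‖ ^ 2 := by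
    intro σ y hσ
    rw [hz'1 _ _ (liftS_sub σ y), bdry_cov h hν (fun σ' hne => hw0 σ' _ hne)
      (fun σ' hne => (hw'.supp σ' _ hne).1) (hww y) (liftS_sub σ y), image_liftS h hσ]
  have hs1 : ∀ σ, Summable fun x => ‖z σ x - bdry ν w σ x‖ ^ 2 := fun σ =>
    l2h_sub (hz.l2 σ) (l2h_sum _ _ fun v _ => l2h_mul _ (hw.l2 (insert v σ)))
  have hs2 : ∀ σ, Summable fun y => ‖z' σ y - bdry ν' w' σ y‖ ^ 2 := fun σ =>
    l2h_sub (hz'.l2 σ) (l2h_sum _ _ fun v _ => l2h_mul _ (hw'.l2 (insert v σ)))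
  refine lt_of_le_of_lt ?_ hlt
  rw [← Summable.tsum_finsetSum fun σ _ => hs1 σ, ← Summable.tsum_finsetSum fun σ _ => hs2 σ]
  rw [← (Equiv.ofBijective φ hφ).tsum_eq]
  refine Summable.tsum_le_tsum (fun y => ?_) ?_ (summable_sum fun σ _ => hs2 σ)
  · show ∑ σ, ‖z σ (φ y) - bdry ν w σ (φ y)‖ ^ 2 ≤ ∑ σ, ‖z' σ y - bdry ν' w' σ y‖ ^ 2
    have e1 : ∑ σ, ‖z σ (φ y) - bdry ν w σ (φ y)‖ ^ 2 =
        ∑ σ ∈ (Q.lab (φ y)).powerset, ‖z σ (φ y) - bdry ν w σ (φ y)‖ ^ 2 := by
      refine (sum_subset (subset_univ _) fun σ _ hσ => ?_).symm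
      exact hD0 σ _ fun h1 => hσ (mem_powerset.2 h1)
    rw [e1]
    have e2 : ∑ σ ∈ (Q.lab (φ y)).powerset, ‖z σ (φ y) - bdry ν w σ (φ y)‖ ^ 2 =
        ∑ σ' ∈ (Q.lab (φ y)).powerset.image (fun σ => liftS Q' ψ σ y),
          ‖z' σ' y - bdry ν' w' σ' y‖ ^ 2 := by
      rw [sum_image]
      · exact sum_congr rfl fun σ hσ => hD1 σ y (mem_powerset.1 hσ)
      · intro a ha b hb hab
        have h1 := image_liftS h (mem_powerset.1 ha)
        have h2 := image_liftS h (mem_powerset.1 hb)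
        rw [← h1, ← h2]
        exact congrArg (Finset.image ψ) hab
    rw [e2]
    exact sum_le_sum_of_subset_of_nonneg (subset_univ _) fun _ _ _ => sq_nonneg _
  · exact (summable_sum fun σ _ => hs1 σ).comp_injective (Equiv.ofBijective φ hφ).injective

end L2

/-! ### Deck groups -/

section Deck

variable {V X V' X' : Type} [DecidableEq V] [DecidableEq V'] {Q' : CubeComplex V' X'}
  {Q : CubeComplex V X} {ψ : V' → V} {φ : X' → X}

/-- induction on the universal cover -/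
theorem cover_induct (Q : CubeComplex V X) (x : X) (P : Q.Cover x → Prop)
    (h0 : P (Quot.mk _ ⟨[], trivial⟩))
    (hs : ∀ c v, v ∈ Q.lab (Q.proj x c) → P c → P (Q.nbc x v c)) (c : Q.Cover x) : P c := by
  induction c using Quot.ind with
  | mk l =>
    obtain ⟨l, hl⟩ := l
    induction l using List.reverseRecOn with
    | nil => exact h0
    | append_singleton l v ih =>
      obtain ⟨h1, h2, -⟩ := (Q.isPath_append x l [v]).1 hl
      have h3 := hs (Quot.mk _ ⟨l, h1⟩) v h2 (ih h1)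
      rwa [Q.nbc_mk x v ⟨l, h1⟩ h2] at h3

theorem proj_nbc' (Q : CubeComplex V X) (x : X) {c : Q.Cover x} {v : V}
    (hv : v ∈ Q.lab (Q.proj x c)) : Q.proj x (Q.nbc x v c) = Q.nb v (Q.proj x c) := by
  induction c using Quot.ind with
  | mk l =>
    rw [Q.nbc_mk x v l hv]
    show Q.fin x (l.1 ++ [v]) = Q.nb v (Q.fin x l.1)
    rw [CubeComplex.fin_append]
    rfl

variable (h : IsCov Q' Q ψ φ) (y : X') {Γ : Type} [Group Γ] [MulAction Γ (Q.Cover (φ y))]

/-- the deck transformations of `Q` which are deck transformations of `Q'` -/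
noncomputable def deckSub (Γ : Type) [Group Γ] [MulAction Γ (Q.Cover (φ y))] : Subgroup Γ where
  carrier := {γ | ∀ c, Q'.proj y (h.up y (γ • h.down y c)) = Q'.proj y c}
  mul_mem' := by
    intro a b ha hb c
    have h1 := ha (h.up y (b • h.down y c))
    rw [h.down_up, hb c] at h1
    rw [mul_smul]
    exact h1
  one_mem' := by
    intro c
    rw [one_smul, h.up_down]
  inv_mem' := by
    intro a ha c
    have h1 := ha (h.up y (a⁻¹ • h.down y c))
    rw [h.down_up, smul_inv_smul, h.up_down] at h1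
    exact h1.symm

/-- the action -/
noncomputable def deckAct : MulAction (deckSub h y Γ) (Q'.Cover y) where
  smul γ c := h.up y ((γ : Γ) • h.down y c)
  one_smul c := by
    show h.up y ((1 : Γ) • h.down y c) = c
    rw [one_smul, h.up_down]
  mul_smul a b c := by
    show h.up y (((a : Γ) * (b : Γ)) • h.down y c) =
      h.up y ((a : Γ) • h.down y (h.up y ((b : Γ) • h.down y c)))
    rw [h.down_up, mul_smul]

theorem isDeck_cov (hΓ : IsDeck Γ Q (φ y)) :
    letI := deckAct h y (Γ := Γ)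
    IsDeck (deckSub h y Γ) Q' y := by
  letI := deckAct h y (Γ := Γ)
  have hsm : ∀ (γ : deckSub h y Γ) (c : Q'.Cover y),
      h.down y (γ • c) = (γ : Γ) • h.down y c := fun γ c => h.down_up y _
  have hinj := (h.down_bij y).1
  -- the main computation
  have key : ∀ (γ : Γ) (c : Q'.Cover y) (v : V'), v ∈ Q'.lab (Q'.proj y c) →
      Q'.proj y (h.up y (γ • h.down y c)) = Q'.proj y c →
      h.up y (γ • h.down y (Q'.nbc y v c)) = Q'.nbc y v (h.up y (γ • h.down y c)) := by
    intro γ c v hv hp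
    apply hinj
    have hv2 : v ∈ Q'.lab (Q'.proj y (h.up y (γ • h.down y c))) := hp ▸ hv
    have hv3 : ψ v ∈ Q.lab (Q.proj (φ y) (h.down y c)) := by
      rw [h.proj_down]
      exact h.lab' _ v hv
    rw [h.down_up, h.down_nbc y _ hv2, h.down_up, h.down_nbc y _ hv, hΓ.nb γ _ _ hv3]
  have step : ∀ (γ : Γ) (c : Q'.Cover y) (v : V'), v ∈ Q'.lab (Q'.proj y c) →
      Q'.proj y (h.up y (γ • h.down y c)) = Q'.proj y c →
      Q'.proj y (h.up y (γ • h.down y (Q'.nbc y v c))) = Q'.proj y (Q'.nbc y v c) := by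
    intro γ c v hv hp
    rw [key γ c v hv hp, proj_nbc' Q' y hv, proj_nbc' Q' y (hp ▸ hv), hp]
  refine ⟨fun γ v c hv => ?_, fun γ c => γ.2 c, fun c c' hcc => ?_, fun γ c hc => ?_⟩
  · exact (key γ c v hv (γ.2 c)).symm
  · obtain ⟨γ, hγ⟩ := hΓ.trans (h.down y c) (h.down y c') (by
      rw [h.proj_down, h.proj_down, hcc])
    have hP : Q'.proj y (h.up y (γ • h.down y c)) = Q'.proj y c := by
      rw [hγ, h.up_down, hcc]
    -- the property spreads over the cover
    let P : Q'.Cover y → Prop := fun c => Q'.proj y (h.up y (γ • h.down y c)) = Q'.proj y c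
    have hback : ∀ c v, v ∈ Q'.lab (Q'.proj y c) → P (Q'.nbc y v c) → P c := by
      intro c v hv hp
      have h1 : v ∈ Q'.lab (Q'.proj y (Q'.nbc y v c)) := by
        rw [proj_nbc' Q' y hv]
        exact Q'.lab_nb v _ hv
      have h2 := step γ _ v h1 hp
      have h3 : Q'.nbc y v (Q'.nbc y v c) = c := (Q'.cover y).nb_nb v c hv
      rw [h3] at h2
      exact h2
    have h0 : P (Quot.mk _ ⟨[], trivial⟩) := by
      have h1 : P c → P (Quot.mk _ ⟨[], trivial⟩) :=
        cover_induct Q' y (fun c => P c → P (Quot.mk _ ⟨[], trivial⟩)) id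
          (fun c v hv ih hp => ih (hback c v hv hp)) c
      exact h1 hP
    have hall : ∀ c, P c := cover_induct Q' y P h0 fun c v hv hp => step γ c v hv hp
    refine ⟨⟨γ, hall⟩, ?_⟩
    apply hinj
    rw [hsm]
    exact hγ
  · apply Subtype.ext
    refine hΓ.free _ (h.down y c) ?_
    rw [← hsm, hc]

end Deck

/-! ### The relabelled covering -/

section Rel

variable {V X : Type} [DecidableEq V] (Q : CubeComplex V X)

/-- the completed involutions -/
def csp (v : V) : Equiv.Perm X := ⟨Q.cs v, Q.cs v, Q.isSpec.inv v, Q.isSpec.inv v⟩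

/-- the finite group -/
abbrev PG (V X : Type) : Type := Finset V → Equiv.Perm X

/-- its generators -/
def gP (v : V) : PG V X := fun T => if v ∈ T then csp Q v else 1

/-- the retractions -/
def ret (T : Finset V) : PG V X →* PG V X where
  toFun p S := p (S ∩ T)
  map_one' := rfl
  map_mul' _ _ := rfl

theorem ret_gP (T : Finset V) (v : V) : ret T (gP Q v) = if v ∈ T then gP Q v else 1 := by
  funext S
  show (if v ∈ S ∩ T then csp Q v else 1) = _
  by_cases hT : v ∈ T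
  · rw [if_pos hT]
    show _ = if v ∈ S then csp Q v else 1
    simp only [mem_inter, hT, and_true]
  · rw [if_neg hT, if_neg (fun h => hT (mem_inter.1 h).2)]
    rfl

theorem gP_sq (v : V) : gP Q v * gP Q v = 1 := by
  funext S
  show (if v ∈ S then csp Q v else 1) * (if v ∈ S then csp Q v else 1) = 1
  by_cases hS : v ∈ S
  · rw [if_pos hS]
    exact Equiv.ext fun x => Q.isSpec.inv v x
  · rw [if_neg hS, one_mul]

theorem gP_comm (u v : V) (huv : Q.graph.Adj u v) : gP Q u * gP Q v = gP Q v * gP Q u := by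
  funext S
  show (if u ∈ S then csp Q u else 1) * (if v ∈ S then csp Q v else 1) =
    (if v ∈ S then csp Q v else 1) * (if u ∈ S then csp Q u else 1)
  by_cases hu : u ∈ S <;> by_cases hv : v ∈ S <;> simp only [hu, hv, if_true, if_false, one_mul,
    mul_one]
  exact Equiv.ext fun x => Q.isSpec.comm u v huv x

/-- the subgroup generated by the star of `v` -/
def HH (v : V) : Subgroup (PG V X) := Subgroup.closure (gP Q '' {u | u = v ∨ Q.graph.Adj v u})

theorem gP_mem_HH {u v : V} (h : u = v ∨ Q.graph.Adj v u) : gP Q u ∈ HH Q v :=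
  Subgroup.subset_closure ⟨u, h, rfl⟩

/-- the action on the vertices -/
def actX (p : PG V X) (x : X) [Fintype V] : X := (p univ)⁻¹ x

theorem actX_mul [Fintype V] (p q : PG V X) (x : X) : actX (p * q) x = actX q (actX p x) := by
  show ((p * q) univ)⁻¹ x = (q univ)⁻¹ ((p univ)⁻¹ x)
  rw [Pi.mul_apply, mul_inv_rev]
  rfl

theorem actX_one [Fintype V] (x : X) : actX (1 : PG V X) x = x := by
  show ((1 : PG V X) univ)⁻¹ x = x
  rw [Pi.one_apply, inv_one]
  rfl

theorem actX_gP [Fintype V] (v : V) (x : X) : actX (gP Q v) x = Q.cs v x := by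
  show (gP Q v univ)⁻¹ x = _
  have h1 : gP Q v univ = csp Q v := if_pos (mem_univ v)
  rw [h1]
  rfl

/-- invariant predicates -/
theorem actX_pred [Fintype V] (A : X → Prop) (T : Set V)
    (hA : ∀ t ∈ T, ∀ x, A x → A (Q.cs t x)) {β : PG V X}
    (hβ : β ∈ Subgroup.closure (gP Q '' T)) : ∀ x, A x ↔ A (actX β x) := by
  induction hβ using Subgroup.closure_induction with
  | mem a ha =>
    obtain ⟨t, ht, rfl⟩ := ha
    intro x
    rw [actX_gP]
    refine ⟨hA t ht x, fun hx => ?_⟩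
    have h1 := hA t ht _ hx
    rwa [Q.isSpec.inv] at h1
  | one =>
    intro x
    rw [actX_one]
  | mul a b _ _ iha ihb =>
    intro x
    rw [actX_mul]
    exact (iha x).trans (ihb _)
  | inv a _ ih =>
    intro x
    have h1 := ih (actX a⁻¹ x)
    rw [← actX_mul, inv_mul_cancel, actX_one] at h1
    exact h1.symm

theorem ret_fix {T : Set V} {T' : Finset V} (hT : ∀ t ∈ T, t ∈ T') {β : PG V X}
    (hβ : β ∈ Subgroup.closure (gP Q '' T)) : ret T' β = β := by
  have h1 : Set.EqOn (ret T' : PG V X →* PG V X) (MonoidHom.id _) (gP Q '' T) := by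
    rintro _ ⟨t, ht, rfl⟩
    show ret T' (gP Q t) = gP Q t
    rw [ret_gP, if_pos (hT t ht)]
  exact MonoidHom.eqOn_closure h1 hβ

theorem ret_mem {T : Set V} (T' : Finset V) {β : PG V X}
    (hβ : β ∈ Subgroup.closure (gP Q '' T)) :
    ret T' β ∈ Subgroup.closure (gP Q '' (T ∩ {t | t ∈ T'})) := by
  induction hβ using Subgroup.closure_induction with
  | mem a ha =>
    obtain ⟨t, ht, rfl⟩ := ha
    rw [ret_gP]
    by_cases h1 : t ∈ T'
    · rw [if_pos h1]
      exact Subgroup.subset_closure ⟨t, ⟨ht, h1⟩, rfl⟩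
    · rw [if_neg h1]
      exact one_mem _
  | one =>
    rw [map_one]
    exact one_mem _
  | mul a b _ _ iha ihb =>
    rw [map_mul]
    exact mul_mem iha ihb
  | inv a _ ih =>
    rw [map_inv]
    exact inv_mem ih

/-- the new labels -/
def RV : Type := Σ v : V, PG V X ⧸ HH Q v

noncomputable instance : DecidableEq (RV Q) := Classical.decEq _

/-- the new label of the `v`-edge at the position `p` -/
def lb (v : V) (p : PG V X) : RV Q := ⟨v, (p : PG V X ⧸ HH Q v)⟩

theorem lb_eq {v : V} {p q : PG V X} : lb Q v p = lb Q v q ↔ p⁻¹ * q ∈ HH Q v := by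
  rw [← QuotientGroup.eq]
  constructor
  · intro h
    exact eq_of_heq (Sigma.mk.inj h).2
  · intro h
    show (⟨v, _⟩ : Σ v : V, PG V X ⧸ HH Q v) = ⟨v, _⟩
    rw [h]

theorem lb_star {u v : V} (h : u = v ∨ Q.graph.Adj v u) (p : PG V X) :
    lb Q v (p * gP Q u) = lb Q v p := by
  rw [lb_eq, mul_inv_rev, inv_mul_cancel_right]
  exact inv_mem (gP_mem_HH Q h)

/-- vertices of the new complex -/
abbrev Tri : Type := PG V X × X × (RV Q → ZMod 2)

/-- the neighbour -/
noncomputable def mv (v : V) (y : Tri Q) : Tri Q :=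
  (y.1 * gP Q v, Q.nb v y.2.1, fun u' => y.2.2 u' + if u' = lb Q v y.1 then 1 else 0)

/-- reachable vertices -/
inductive Reach (x₀ : X) : Tri Q → Prop
  | base : Reach x₀ (1, x₀, fun _ => 0)
  | step (y : Tri Q) (v : V) : Reach x₀ y → v ∈ Q.lab y.2.1 → Reach x₀ (mv Q v y)

/-- the vertices of the new complex -/
def RX (x₀ : X) : Type := {y : Tri Q // Reach Q x₀ y}

/-- the labels at a vertex -/
noncomputable def rlab (y : Tri Q) : Finset (RV Q) := (Q.lab y.2.1).image fun v => lb Q v y.1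

theorem mem_rlab {y : Tri Q} {v' : RV Q} :
    v' ∈ rlab Q y ↔ v'.1 ∈ Q.lab y.2.1 ∧ v' = lb Q v'.1 y.1 := by
  unfold rlab
  rw [mem_image]
  constructor
  · rintro ⟨v, hv, rfl⟩
    exact ⟨hv, rfl⟩
  · rintro ⟨h1, h2⟩
    exact ⟨v'.1, h1, h2.symm⟩

theorem mv_mv {y : Tri Q} {v : V} (hv : v ∈ Q.lab y.2.1) : mv Q v (mv Q v y) = y := by
  obtain ⟨p, x, b⟩ := y
  refine Prod.ext ?_ (Prod.ext ?_ ?_)
  · show p * gP Q v * gP Q v = p
    rw [mul_assoc, gP_sq, mul_one]
  · exact Q.nb_nb v x hv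
  · funext u'
    show b u' + (if u' = lb Q v p then 1 else 0) + (if u' = lb Q v (p * gP Q v) then 1 else 0) =
      b u'
    rw [lb_star Q (Or.inl rfl), add_assoc, CharTwo.add_self_eq_zero, add_zero]

theorem mv_comm {y : Tri Q} {u v : V} (huv : Q.graph.Adj u v) (hu : u ∈ Q.lab y.2.1)
    (hv : v ∈ Q.lab y.2.1) : mv Q u (mv Q v y) = mv Q v (mv Q u y) := by
  obtain ⟨p, x, b⟩ := y
  refine Prod.ext ?_ (Prod.ext ?_ ?_)
  · show p * gP Q v * gP Q u = p * gP Q u * gP Q v
    rw [mul_assoc, mul_assoc, gP_comm Q u v huv]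
  · exact Q.nb_comm u v x huv hu hv
  · funext u'
    show b u' + (if u' = lb Q v p then 1 else 0) + (if u' = lb Q u (p * gP Q v) then 1 else 0) =
      b u' + (if u' = lb Q u p then 1 else 0) + (if u' = lb Q v (p * gP Q u) then 1 else 0)
    rw [lb_star Q (Or.inr huv), lb_star Q (Or.inr huv.symm)]
    ring

/-- **The relabelled covering.** -/
noncomputable def rel (x₀ : X) : CubeComplex (RV Q) (RX Q x₀) where
  graph :=
    { Adj := fun u' v' => Q.graph.Adj u'.1 v'.1 ∧
        ∃ y : RX Q x₀, u' ∈ rlab Q y.1 ∧ v' ∈ rlab Q y.1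
      symm := ⟨fun _ _ h => ⟨h.1.symm, h.2.imp fun _ h1 => ⟨h1.2, h1.1⟩⟩⟩
      loopless := ⟨fun _ h => Q.graph.loopless.irrefl _ h.1⟩ }
  lab y := rlab Q y.1
  nb v' y := open Classical in
    if h : v'.1 ∈ Q.lab y.1.2.1 then ⟨mv Q v'.1 y.1, Reach.step _ _ y.2 h⟩ else y
  lab_nb v' y hv := by
    rw [mem_rlab] at hv
    rw [dif_pos hv.1, mem_rlab]
    exact ⟨Q.lab_nb _ _ hv.1, hv.2.trans (lb_star Q (Or.inl rfl) _).symm⟩
  nb_nb v' y hv := by
    rw [mem_rlab] at hv
    have h1 : v'.1 ∈ Q.lab (mv Q v'.1 y.1).2.1 := Q.lab_nb _ _ hv.1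
    rw [dif_pos hv.1, dif_pos h1]
    exact Subtype.ext (mv_mv Q hv.1)
  lab_adj u' v' y huv hu hv := by
    rw [mem_rlab] at hu hv
    rw [dif_pos hv.1, mem_rlab]
    exact ⟨Q.lab_adj _ _ _ huv.1 hu.1 hv.1, hu.2.trans (lb_star Q (Or.inr huv.1) _).symm⟩
  nb_comm u' v' y huv hu hv := by
    rw [mem_rlab] at hu hv
    have h1 : u'.1 ∈ Q.lab (mv Q v'.1 y.1).2.1 := Q.lab_adj _ _ _ huv.1 hu.1 hv.1
    have h2 : v'.1 ∈ Q.lab (mv Q u'.1 y.1).2.1 := Q.lab_adj _ _ _ huv.1.symm hv.1 hu.1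
    rw [dif_pos hv.1, dif_pos hu.1, dif_pos h1, dif_pos h2]
    exact Subtype.ext (mv_comm Q huv.1 hu.1 hv.1)

variable {Q} {x₀ : X}

theorem rel_nb {v' : RV Q} {y : RX Q x₀} (hv : v' ∈ (rel Q x₀).lab y) :
    ((rel Q x₀).nb v' y).1 = mv Q v'.1 y.1 := by
  have h1 : v'.1 ∈ Q.lab y.1.2.1 := ((mem_rlab Q).1 hv).1
  show (dite _ _ _ : RX Q x₀).1 = _
  rw [dif_pos h1]

theorem rel_cov : IsCov (rel Q x₀) Q Sigma.fst (fun y => y.1.2.1) where
  lab y v hv := ⟨lb Q v y.1.1, (mem_rlab Q).2 ⟨hv, rfl⟩, rfl⟩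
  lab' y v' hv' := ((mem_rlab Q).1 hv').1
  inj y u' hu' v' hv' he := by
    rw [((mem_rlab Q).1 hu').2, ((mem_rlab Q).1 hv').2, he]
  nb y v' hv' := by
    show ((rel Q x₀).nb v' y).1.2.1 = _
    rw [rel_nb hv']
    rfl
  adj u' v' h := h.1
  adj' y u' hu' v' hv' h := ⟨h, y, hu', hv'⟩

theorem rel_bit : IsBit (rel Q x₀) (fun y v' => y.1.2.2 v') := by
  intro v' y hv u'
  show ((rel Q x₀).nb v' y).1.2.2 u' = _
  rw [rel_nb hv]
  show y.1.2.2 u' + (if u' = lb Q v'.1 y.1.1 then 1 else 0) = _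
  rw [← ((mem_rlab Q).1 hv).2]

/-- the base point -/
def rbase (Q : CubeComplex V X) (x₀ : X) : RX Q x₀ := ⟨(1, x₀, fun _ => 0), Reach.base⟩

theorem rel_surj : Function.Surjective ((rel Q x₀).proj (rbase Q x₀)) := by
  rintro ⟨y, hy⟩
  induction hy with
  | base => exact ⟨Quot.mk _ ⟨[], trivial⟩, rfl⟩
  | step y v hy hv ih =>
    obtain ⟨c, hc⟩ := ih
    have h1 : lb Q v y.1 ∈ (rel Q x₀).lab ((rel Q x₀).proj (rbase Q x₀) c) := by
      rw [hc]
      exact (mem_rlab Q).2 ⟨hv, rfl⟩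
    refine ⟨(rel Q x₀).nbc (rbase Q x₀) (lb Q v y.1) c, ?_⟩
    rw [proj_nbc' _ _ h1]
    apply Subtype.ext
    rw [rel_nb h1, hc]
    rfl

theorem reach_pos [Fintype V] {y : Tri Q} (hy : Reach Q x₀ y) : y.2.1 = actX y.1 x₀ := by
  induction hy with
  | base => exact (actX_one x₀).symm
  | step y v hy hv ih =>
    show Q.nb v y.2.1 = actX (y.1 * gP Q v) x₀
    rw [actX_mul, ← ih, actX_gP, Q.cs_of_mem hv]

theorem rel_dimLe {d : ℕ} (hd : DimLe Q d) : DimLe (rel Q x₀) d := by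
  intro y σ hσ hc
  have h1 := hd y.1.2.1 (σ.image Sigma.fst) (image_sub rel_cov hσ) ((clique_iff rel_cov hσ).2 hc)
  exact (card_img rel_cov hσ).symm.le.trans h1

/-- the retraction onto an intersection of subgroups -/
theorem ret_inter [Fintype V] (S : V → Finset V) (s : Finset V) {β : PG V X}
    (hβ : ∀ v ∈ s, ret (S v) β = β) : ret (univ.filter fun t => ∀ v ∈ s, t ∈ S v) β = β := by
  induction s using Finset.induction_on with
  | empty =>
    funext T
    show β (T ∩ _) = β T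
    congr 1
    ext t
    simp
  | insert a s ha ih =>
    have h1 := ih fun v hv => hβ v (mem_insert_of_mem hv)
    have h2 := hβ a (mem_insert_self a s)
    funext T
    show β (T ∩ _) = β T
    have e1 : T ∩ (univ.filter fun t => ∀ v ∈ insert a s, t ∈ S v) =
        (T ∩ univ.filter fun t => ∀ v ∈ s, t ∈ S v) ∩ S a := by
      ext t
      simp only [mem_inter, mem_filter, mem_univ, true_and, mem_insert, forall_eq_or_imp]
      tauto
    rw [e1]
    exact (congrFun h2 _).trans (congrFun h1 T)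

theorem rel_maxCl [Fintype V] {d : ℕ} (hd0 : 0 < d) (hd : DimLe Q d) : MaxCl (rel Q x₀) d := by
  classical
  intro y σ' hσ' hc' hcard u'
  by_contra hcon
  push_neg at hcon
  -- the cube and the label downstairs
  set σ : Finset V := σ'.image Sigma.fst with hσdef
  set u : V := u'.1 with hudef
  set x : X := y.1.2.1 with hxdef
  set p : PG V X := y.1.1 with hpdef
  have hσ : σ ⊆ Q.lab x := image_sub rel_cov hσ'
  have hc : Q.graph.IsClique (σ : Set V) := (clique_iff rel_cov hσ').2 hc'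
  have hcd : σ.card = d := (card_img rel_cov hσ').trans hcard
  have hu : ∀ v ∈ σ, Q.graph.Adj v u := by
    intro v hv
    obtain ⟨v', hv', rfl⟩ := mem_image.1 hv
    exact (hcon v' hv').1
  have huσ : u ∉ σ := fun hm => Q.graph.loopless.irrefl _ (hu u hm)
  have hbig : ∀ z, σ ⊆ Q.lab z → ∀ t, t ∉ σ → (∀ v ∈ σ, Q.graph.Adj v t) → t ∉ Q.lab z := by
    intro z hz t ht hadj htz
    have h1 := hd z (insert t σ) (insert_subset htz hz) (by
      intro a ha b hb hab
      rw [coe_insert, Set.mem_insert_iff, mem_coe] at ha hb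
      rcases ha with rfl | ha <;> rcases hb with rfl | hb
      · exact absurd rfl hab
      · exact (hadj b hb).symm
      · exact hadj a ha
      · exact hc ha hb hab)
    rw [card_insert_of_notMem ht, hcd] at h1
    omega
  have hx : x = actX p x₀ := reach_pos y.2
  -- the witnesses
  have hwit : ∀ v' ∈ σ', ∃ z : RX Q x₀, v' ∈ rlab Q z.1 ∧ u' ∈ rlab Q z.1 := fun v' hv' =>
    (hcon v' hv').2
  haveI : Nonempty (RX Q x₀) := ⟨y⟩
  choose! z hz1 hz2 using hwit
  have hw : ∀ v' ∈ σ', p⁻¹ * (z v').1.1 ∈ HH Q v'.1 := by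
    intro v' hv'
    rw [← lb_eq Q]
    exact ((mem_rlab Q).1 (hσ' hv')).2.symm.trans ((mem_rlab Q).1 (hz1 v' hv')).2
  have hzz : ∀ v' ∈ σ', ∀ w' ∈ σ', (z v').1.1⁻¹ * (z w').1.1 ∈ HH Q u := by
    intro v' hv' w' hw'
    rw [← lb_eq Q]
    exact ((mem_rlab Q).1 (hz2 v' hv')).2.symm.trans ((mem_rlab Q).1 (hz2 w' hw')).2
  -- the stars
  let St : V → Finset V := fun v => univ.filter fun t => t = v ∨ Q.graph.Adj v t
  have hSt : ∀ v t, t ∈ St v ↔ (t = v ∨ Q.graph.Adj v t) := fun v t => by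
    simp only [St, mem_filter, mem_univ, true_and]
  have hfix : ∀ v, ∀ β ∈ HH Q v, ret (St v) β = β := fun v β hβ =>
    ret_fix Q (fun t ht => (hSt v t).2 ht) hβ
  let w : RV Q → PG V X := fun v' => p⁻¹ * (z v').1.1
  let be : RV Q → PG V X := fun v' => w v' * (ret (St u) (w v'))⁻¹
  have hbe : ∀ v' ∈ σ', ∀ w' ∈ σ', be v' = be w' := by
    intro v' hv' w' hw'
    have h1 : (w v')⁻¹ * w w' ∈ HH Q u := by
      have h2 : (w v')⁻¹ * w w' = (z v').1.1⁻¹ * (z w').1.1 := by
        simp only [w]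
        group
      rw [h2]
      exact hzz v' hv' w' hw'
    have h3 := hfix u _ h1
    rw [map_mul, map_inv] at h3
    show w v' * (ret (St u) (w v'))⁻¹ = w w' * (ret (St u) (w w'))⁻¹
    have h4 : ret (St u) (w w') = ret (St u) (w v') * ((w v')⁻¹ * w w') := by
      rw [← h3]
      group
    rw [h4]
    group
  -- choose one label
  have hne : σ'.Nonempty := card_pos.1 (hcard ▸ hd0)
  obtain ⟨v₀, hv₀⟩ := hne
  have hbeH : ∀ v ∈ σ, be v₀ ∈ HH Q v := by
    intro v hv
    obtain ⟨v', hv', rfl⟩ := mem_image.1 hv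
    rw [hbe v₀ hv₀ v' hv']
    refine mul_mem (hw v' hv') (inv_mem ?_)
    have h1 := ret_mem Q (St u) (hw v' hv')
    exact Subgroup.closure_mono (Set.image_mono Set.inter_subset_left) h1
  have hbeI : ret (univ.filter fun t => ∀ v ∈ σ, t ∈ St v) (be v₀) = be v₀ :=
    ret_inter St σ fun v hv => hfix v _ (hbeH v hv)
  have hbeC : be v₀ ∈ Subgroup.closure (gP Q '' {t | ∀ v ∈ σ, t = v ∨ Q.graph.Adj v t}) := by
    have h1 : be v₀ ∈ HH Q v₀.1 := hbeH _ (mem_image_of_mem _ hv₀)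
    have h2 := ret_mem Q (univ.filter fun t => ∀ v ∈ σ, t ∈ St v) h1
    rw [hbeI] at h2
    refine Subgroup.closure_mono (Set.image_mono ?_) h2
    rintro t ⟨_, ht⟩
    simp only [Set.mem_setOf_eq, mem_filter, mem_univ, true_and] at ht
    exact fun v hv => (hSt v t).1 (ht v hv)
  -- the point `x β` is a vertex of a cube of type `σ`
  have hA := (actX_pred Q (fun x => σ ⊆ Q.lab x) _ (by
    intro t ht a ha
    by_cases hts : t ∈ σ
    · show σ ⊆ Q.lab (Q.cs t a)
      rw [Q.cs_of_mem (ha hts)]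
      intro v hv
      rcases ht v hv with rfl | h1
      · exact Q.lab_nb _ _ (ha hv)
      · exact Q.lab_adj v t a h1 (ha hv) (ha hts)
    · have h1 : t ∉ Q.lab a := by
        refine hbig a ha t hts fun v hv => ?_
        rcases ht v hv with rfl | h2
        · exact absurd hv hts
        · exact h2
      show σ ⊆ Q.lab (Q.cs t a)
      rw [Q.cs_of_not_mem h1]
      exact ha) hbeC x).1 hσ
  -- the existence of a `u`-edge
  have hB := (actX_pred Q (fun x => u ∈ Q.lab x) _ (by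
    rintro t ⟨_, ht⟩ a ha
    have ht' := (hSt u t).1 ht
    show u ∈ Q.lab (Q.cs t a)
    by_cases hta : t ∈ Q.lab a
    · rw [Q.cs_of_mem hta]
      rcases ht' with rfl | h1
      · exact Q.lab_nb _ _ ha
      · exact Q.lab_adj u t a h1 ha hta
    · rw [Q.cs_of_not_mem hta]
      exact ha) (ret_mem Q (St u) (hw v₀ hv₀)) (actX (be v₀) x))
  have h1 : actX (ret (St u) (p⁻¹ * (z v₀).1.1)) (actX (be v₀) x) = (z v₀).1.2.1 := by
    rw [← actX_mul]
    have e1 : be v₀ * ret (St u) (p⁻¹ * (z v₀).1.1) = p⁻¹ * (z v₀).1.1 := by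
      show p⁻¹ * (z v₀).1.1 * (ret (St u) (p⁻¹ * (z v₀).1.1))⁻¹ *
        ret (St u) (p⁻¹ * (z v₀).1.1) = _
      rw [inv_mul_cancel_right]
    rw [e1, reach_pos (z v₀).2, hx, ← actX_mul, mul_inv_cancel_left]
  rw [h1] at hB
  have h2 : u ∈ Q.lab (z v₀).1.2.1 := ((mem_rlab Q).1 (hz2 v₀ hv₀)).1
  exact hbig _ hA u huσ hu (hB.2 h2)

/-- **Relabelling.** Every finite complex `Q` of dimension at most `d` has a finite covering with bits and with
labels such that no label is adjacent to all labels of a cube of dimension `d`. -/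
theorem exists_relabel [Fintype V] [Fintype X] (Q : CubeComplex V X) (x₀ : X) {d : ℕ}
    (hd0 : 0 < d) (hd : DimLe Q d) :
    ∃ (V' X' : Type) (_ : DecidableEq V') (_ : Fintype V') (_ : Fintype X')
      (Q' : CubeComplex V' X') (y₀ : X') (bit' : X' → V' → ZMod 2) (ψ : V' → V) (φ : X' → X),
      φ y₀ = x₀ ∧ IsCov Q' Q ψ φ ∧ IsBit Q' bit' ∧ Function.Surjective (Q'.proj y₀) ∧
        DimLe Q' d ∧ MaxCl Q' d := by
  classical
  haveI : Finite (PG V X) := inferInstance
  haveI : Finite (RV Q) := inferInstanceAs (Finite (Σ v : V, PG V X ⧸ HH Q v))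
  haveI : Finite (Tri Q) := inferInstance
  haveI : Finite (RX Q x₀) := inferInstanceAs (Finite {y : Tri Q // Reach Q x₀ y})
  exact ⟨RV Q, RX Q x₀, inferInstance, Fintype.ofFinite _, Fintype.ofFinite _, rel Q x₀,
    rbase Q x₀, fun y v' => y.1.2.2 v', Sigma.fst, fun y => y.1.2.1, rfl, rel_cov, rel_bit,
    rel_surj, rel_dimLe hd, rel_maxCl hd0 hd⟩

/-- the reduction to complexes with bits in which the cubes of dimension `d` are maximal cliques -/
theorem relabel_reduce [Fintype V] [Fintype X] (Q : CubeComplex V X) (x₀ : X) {d : ℕ}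
    (hd0 : 0 < d) (hd : DimLe Q d) {Γ : Type} [Group Γ] [MulAction Γ (Q.Cover x₀)]
    (hΓ : IsDeck Γ Q x₀) :
    ∃ (V' X' : Type) (_ : DecidableEq V') (_ : Fintype V') (_ : Fintype X')
      (Q' : CubeComplex V' X') (y₀ : X') (bit' : X' → V' → ZMod 2),
      IsBit Q' bit' ∧ Function.Surjective (Q'.proj y₀) ∧ DimLe Q' d ∧ MaxCl Q' d ∧
      (∃ (Γ' : Subgroup Γ) (_ : MulAction Γ' (Q'.Cover y₀)), IsDeck Γ' Q' y₀) ∧
      ∀ i, L2HomologyZero (Q'.cover y₀) i → L2HomologyZero (Q.cover x₀) i := by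
  obtain ⟨V', X', i1, i2, i3, Q', y₀, bit', ψ, φ, rfl, hcov, hbit, hsurj, hdim, hmax⟩ :=
    exists_relabel Q x₀ hd0 hd
  exact ⟨V', X', i1, i2, i3, Q', y₀, bit', hbit, hsurj, hdim, hmax,
    ⟨deckSub hcov y₀ Γ, deckAct hcov y₀, isDeck_cov hcov y₀ hΓ⟩,
    fun i h => l2_of_cov (hcov.cover y₀) (hcov.down_bij y₀) i h⟩

end Rel

end Pool.Agent.H37.TM
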