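import Pool.Agent.H37.TM.Psm
import Pool.Agent.H37.TM.Rel
import Pool.Agent.H65.RM.Defs
import Pool.Agent.H4.FC.TitsPos
import Pool.Agent.H19.Cub.CovEmb
import Pool.Agent.H4.Singer.Levels

/-!
# Project TM: the deck group of a complex with bits is torsion free

The deck group embeds into the right-angled Coxeter group, the letters of its elements have even
multiplicity, so the integral Tits representation is `1` modulo four, and matrices which are `1` modulo
four have infinite order or are `1`. Hence proper actions are free.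
-/

set_option autoImplicit false
set_option linter.unusedSectionVars false

open Finset Pointwise

namespace Pool.Agent.H37.TM

open Pool.Agent.H19.Cub Pool.Agent.H77.SX

section Mat

variable {V : Type} [DecidableEq V] [Fintype V]

private theorem TF_expand (C : Matrix V V ℤ) (k j : ℕ) :
    ∃ W : Matrix V V ℤ, (1 + (2 : ℤ) ^ k • C) ^ j =
      1 + (2 : ℤ) ^ k • ((j : ℤ) • C) + ((2 : ℤ) ^ k * 2 ^ k) • W := by
  induction j with
  | zero => exact ⟨0, by simp⟩
  | succ j ih =>
    obtain ⟨W, hW⟩ := ih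
    refine ⟨W + (j : ℤ) • (C * C) + (2 : ℤ) ^ k • (W * C), ?_⟩
    rw [pow_succ, hW]
    simp only [add_mul, mul_add, one_mul, mul_one, smul_mul_assoc, mul_smul_comm, smul_add,
      smul_smul, Nat.cast_succ]
    module

/-- divisible by all powers of two -/
private theorem TF_all {X : Matrix V V ℤ} (h : ∀ k, ∃ C : Matrix V V ℤ, X = 1 + (2 : ℤ) ^ (k + 2) • C) :
    X = 1 := by
  by_contra hne
  have h1 : ∃ a b, (X - 1) a b ≠ 0 := by
    by_contra hcon
    push Not at hcon
    exact hne (sub_eq_zero.1 (Matrix.ext hcon))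
  obtain ⟨a, b, hab⟩ := h1
  obtain ⟨N, hN⟩ : ∃ N, N = ((X - 1) a b).natAbs := ⟨_, rfl⟩
  obtain ⟨C, hC⟩ := h N
  have h2 : (X - 1) a b = (2 : ℤ) ^ (N + 2) * C a b := by
    have h3 := congrFun (congrFun hC a) b
    rw [Matrix.add_apply, Matrix.smul_apply, smul_eq_mul] at h3
    rw [Matrix.sub_apply, h3]
    ring
  have h3 : 2 ^ (N + 2) ∣ ((X - 1) a b).natAbs := by
    have h4 : (2 : ℤ) ^ (N + 2) ∣ (X - 1) a b := ⟨_, h2⟩
    have h5 := Int.natAbs_dvd_natAbs.mpr h4
    rwa [Int.natAbs_pow] at h5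
  have h4 := Nat.le_of_dvd (Int.natAbs_pos.mpr hab) h3
  rw [← hN] at h4
  have h5 : N < 2 ^ N := Nat.lt_two_pow_self
  have h6 : 2 ^ N ≤ 2 ^ (N + 2) := Nat.pow_le_pow_right (by norm_num) (by omega)
  omega

private theorem TF_prime {X : Matrix V V ℤ} (hX : ∃ C : Matrix V V ℤ, X = 1 + (2 : ℤ) ^ 2 • C)
    {p : ℕ} (hp : p.Prime) (h : X ^ p = 1) : X = 1 := by
  refine TF_all fun k => ?_
  induction k with
  | zero => exact hX
  | succ k ih =>
    obtain ⟨C, hC⟩ := ih
    have key : ∃ D : Matrix V V ℤ, C = (2 : ℤ) • D := by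
      rcases hp.eq_two_or_odd' with rfl | hodd
      · have h1 : (2 : ℤ) ^ (k + 3) • (C + (2 : ℤ) ^ (k + 1) • (C * C)) = 0 := by
          have h2 : X ^ 2 - 1 = 0 := by rw [h, sub_self]
          rw [hC, sq] at h2
          rw [← h2]
          simp only [add_mul, mul_add, one_mul, mul_one, smul_mul_assoc, mul_smul_comm, smul_add,
            smul_smul]
          have e1 : (2 : ℤ) ^ (k + 3) = 2 ^ (k + 2) + 2 ^ (k + 2) := by ring
          have e2 : (2 : ℤ) ^ (k + 3) * 2 ^ (k + 1) = 2 ^ (k + 2) * 2 ^ (k + 2) := by ring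
          rw [e2, e1]
          module
        have h3 : C + (2 : ℤ) ^ (k + 1) • (C * C) = 0 := by
          rcases smul_eq_zero.mp h1 with h4 | h4
          · exact absurd h4 (by positivity)
          · exact h4
        refine ⟨-((2 : ℤ) ^ k • (C * C)), ?_⟩
        have h4 : C = -((2 : ℤ) ^ (k + 1) • (C * C)) := eq_neg_of_add_eq_zero_left h3
        conv_lhs => rw [h4]
        rw [smul_neg, smul_smul]
        congr 2
        ring
      · obtain ⟨W, hW⟩ := TF_expand C (k + 2) p
        rw [← hC, h] at hW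
        have h1 : (2 : ℤ) ^ (k + 2) • ((p : ℤ) • C + (2 : ℤ) ^ (k + 2) • W) = 0 := by
          rw [add_assoc] at hW
          rw [← left_eq_add.mp hW]
          simp only [smul_add, smul_smul]
        have h3 : (p : ℤ) • C + (2 : ℤ) ^ (k + 2) • W = 0 := by
          rcases smul_eq_zero.mp h1 with h4 | h4
          · exact absurd h4 (by positivity)
          · exact h4
        obtain ⟨q, hq⟩ := hodd
        refine ⟨-((q : ℤ) • C) - (2 : ℤ) ^ (k + 1) • W, ?_⟩
        have h4 : (p : ℤ) = 2 * q + 1 := by rw [hq]; push_cast; ring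
        rw [h4] at h3
        have e1 : (2 : ℤ) ^ (k + 2) = 2 * 2 ^ (k + 1) := by ring
        rw [e1] at h3
        have h5 : C - ((2 : ℤ) • (-((q : ℤ) • C) - (2 : ℤ) ^ (k + 1) • W)) = 0 := by
          rw [← h3]
          module
        exact sub_eq_zero.mp h5
    obtain ⟨D, hD⟩ := key
    refine ⟨D, ?_⟩
    rw [hC, hD, smul_smul]
    congr 2

private theorem TF_mul {X Y : Matrix V V ℤ} (hX : ∃ C : Matrix V V ℤ, X = 1 + (2 : ℤ) ^ 2 • C)
    (hY : ∃ C : Matrix V V ℤ, Y = 1 + (2 : ℤ) ^ 2 • C) :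
    ∃ C : Matrix V V ℤ, X * Y = 1 + (2 : ℤ) ^ 2 • C := by
  obtain ⟨C, rfl⟩ := hX
  obtain ⟨D, rfl⟩ := hY
  refine ⟨C + D + (2 : ℤ) ^ 2 • (C * D), ?_⟩
  simp only [add_mul, mul_add, one_mul, mul_one, smul_mul_assoc, mul_smul_comm, smul_add, smul_smul]
  module

private theorem TF_pow {X : Matrix V V ℤ} (hX : ∃ C : Matrix V V ℤ, X = 1 + (2 : ℤ) ^ 2 • C)
    (m : ℕ) : ∃ C : Matrix V V ℤ, X ^ m = 1 + (2 : ℤ) ^ 2 • C := by
  induction m with
  | zero => exact ⟨0, by simp⟩
  | succ m ih => rw [pow_succ]; exact TF_mul ih hX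

/-- a matrix of finite order which is `1` modulo four is `1` -/
theorem mat_torsion {X : Matrix V V ℤ} (hX : ∃ C : Matrix V V ℤ, X = 1 + (2 : ℤ) ^ 2 • C)
    {m : ℕ} (hm : 0 < m) (h : X ^ m = 1) : X = 1 := by
  induction m using Nat.strong_induction_on with
  | _ m ih =>
    by_cases h1 : m = 1
    · simpa [h1] using h
    · obtain ⟨q, hq⟩ := m.minFac_dvd
      have hp := m.minFac_prime h1
      have hq0 : 0 < q := by
        rcases Nat.eq_zero_or_pos q with h0 | h0
        · rw [h0, mul_zero] at hq; omega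
        · exact h0
      have hqm : q < m := by
        have := hp.two_le
        nlinarith
      refine ih q hqm hq0 (TF_prime (TF_pow hX q) hp ?_)
      rw [← pow_mul, mul_comm, ← hq, h]

end Mat

/-! ### The right-angled Coxeter group -/

section Racg

open Pool.Agent.H4.Singer
open Pool.Agent.H4.FC (kR titsHom titsHom_simple tits_injective refl_rel refl_map)

variable {V : Type} [DecidableEq V] [Fintype V]

open Classical in
/-- half of the canonical form -/
private noncomputable def TF_h (G : SimpleGraph V) (u v : V) : ℤ :=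
  if u = v then 1 else if G.Adj u v then 0 else -1

/-- the canonical form -/
private noncomputable def TF_k (G : SimpleGraph V) (u v : V) : ℤ := 2 * TF_h G u v

private theorem TF_cast (G : SimpleGraph V) (u v : V) :
    ((TF_k G u v : ℤ) : ℝ) = kR (racg G) u v := by
  unfold TF_k TF_h kR
  by_cases h1 : u = v
  · subst h1
    rw [racg_self]
    simp
  · rw [if_neg h1]
    by_cases h2 : G.Adj u v
    · rw [racg_adj G h2, if_pos h2]
      simp
    · rw [racg_not_adj G h1 h2, if_neg h2]
      simp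

private theorem TF_reflmap (G : SimpleGraph V) (v : V) :
    (Int.castRingHom ℝ).mapMatrix (Pool.Agent.H4.FC.refl (TF_k G) v) = Pool.Agent.H4.FC.refl (kR (racg G)) v := by
  show (Pool.Agent.H4.FC.refl (TF_k G) v).map (Int.castRingHom ℝ) = _
  rw [refl_map]
  congr 1
  funext a b
  exact TF_cast G a b

private theorem TF_mapinj : Function.Injective
    ((Int.castRingHom ℝ).mapMatrix : Matrix V V ℤ →+* Matrix V V ℝ) :=
  Matrix.map_injective Int.cast_injective

/-- the integral Tits representation -/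
private theorem TF_exists_rep (G : SimpleGraph V) : ∃ T : RGrp G →* Matrix V V ℤ,
    Function.Injective T ∧ ∀ v, T (gen G v) = Pool.Agent.H4.FC.refl (TF_k G) v := by
  have hrel : (racg G).IsLiftable (Pool.Agent.H4.FC.refl (TF_k G)) := by
    intro u v
    apply TF_mapinj
    rw [map_pow, map_mul, map_one, TF_reflmap, TF_reflmap]
    exact refl_rel (racg G) u v
  let T : RGrp G →* Matrix V V ℤ := (racg G).toCoxeterSystem.lift ⟨Pool.Agent.H4.FC.refl (TF_k G), hrel⟩
  have hTs : ∀ v, T ((racg G).toCoxeterSystem.simple v) = Pool.Agent.H4.FC.refl (TF_k G) v :=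
    fun v => (racg G).toCoxeterSystem.lift_apply_simple hrel v
  have hg : ((Int.castRingHom ℝ).mapMatrix : Matrix V V ℤ →+* Matrix V V ℝ).toMonoidHom.comp T =
      titsHom (racg G) := by
    apply (racg G).toCoxeterSystem.ext_simple
    intro v
    show (Int.castRingHom ℝ).mapMatrix (T ((racg G).toCoxeterSystem.simple v)) = _
    rw [titsHom_simple, hTs]
    exact TF_reflmap G v
  refine ⟨T, ?_, fun v => ?_⟩
  · intro x y hxy
    apply tits_injective (racg G)
    rw [← hg]
    show (Int.castRingHom ℝ).mapMatrix (T x) = (Int.castRingHom ℝ).mapMatrix (T y)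
    rw [hxy]
  · have h1 := hTs v
    rwa [(racg G).toCoxeterSystem_simple] at h1

/-- a word with letters of even multiplicity is `1` modulo four -/
private theorem TF_word (G : SimpleGraph V) {T : RGrp G →* Matrix V V ℤ}
    (hT : ∀ v, T (gen G v) = Pool.Agent.H4.FC.refl (TF_k G) v) (l : List V) :
    ∃ C : Matrix V V ℤ, T (CubeComplex.wd G l) = 1 +
      (2 : ℤ) • (l.map fun v => (Matrix.of fun i j => if i = v then -TF_h G v j else 0 :
        Matrix V V ℤ)).sum + (2 : ℤ) ^ 2 • C := by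
  induction l with
  | nil => exact ⟨0, by simp [CubeComplex.wd]⟩
  | cons v l ih =>
    obtain ⟨C, hC⟩ := ih
    have h1 : CubeComplex.wd G (v :: l) = gen G v * CubeComplex.wd G l := by
      simp [CubeComplex.wd]
    obtain ⟨A, hA⟩ : ∃ A : Matrix V V ℤ,
      A = Matrix.of fun i j => if i = v then -TF_h G v j else 0 := ⟨_, rfl⟩
    have h2 : Pool.Agent.H4.FC.refl (TF_k G) v = 1 + (2 : ℤ) • A := by
      ext i j
      rw [hA]
      unfold Pool.Agent.H4.FC.refl TF_k
      simp only [Matrix.sub_apply, Matrix.add_apply, Matrix.smul_apply, Matrix.of_apply,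
        smul_eq_mul]
      split_ifs <;> ring
    obtain ⟨S, hS⟩ : ∃ S : Matrix V V ℤ, S = (l.map fun v => (Matrix.of fun i j =>
      if i = v then -TF_h G v j else 0 : Matrix V V ℤ)).sum := ⟨_, rfl⟩
    rw [← hS] at hC
    refine ⟨C + A * S + (2 : ℤ) • (A * C), ?_⟩
    rw [List.map_cons, List.sum_cons, ← hS, ← hA, h1, map_mul, hT, hC, h2]
    simp only [add_mul, mul_add, one_mul, mul_one, smul_mul_assoc, mul_smul_comm, smul_add,
      smul_smul]
    module

/-- **torsion in the right-angled Coxeter group** -/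
theorem racg_torsion (G : SimpleGraph V) (l : List V) (hl : ∀ v, Even (l.count v)) {m : ℕ}
    (hm : 0 < m) (h : CubeComplex.wd G l ^ m = 1) : CubeComplex.wd G l = 1 := by
  obtain ⟨T, hinj, hT⟩ := TF_exists_rep G
  apply hinj
  rw [map_one]
  refine mat_torsion ?_ hm (by rw [← map_pow, h, map_one])
  obtain ⟨C, hC⟩ := TF_word G hT l
  choose q hq using fun v => (hl v)
  refine ⟨(∑ v ∈ l.toFinset, q v • (Matrix.of fun i j => if i = v then -TF_h G v j else 0 :
    Matrix V V ℤ)) + C, ?_⟩
  rw [hC, Finset.sum_list_map_count]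
  have h1 : ∀ v, List.count v l • (Matrix.of fun i j => if i = v then -TF_h G v j else 0 :
      Matrix V V ℤ) = (2 : ℤ) • (q v • (Matrix.of fun i j => if i = v then -TF_h G v j else 0 :
      Matrix V V ℤ)) := by
    intro v
    conv_lhs => rw [hq v]
    rw [add_smul, two_smul]
  simp only [h1]
  rw [← Finset.smul_sum, smul_smul, smul_add, add_assoc]
  norm_num

end Racg

/-! ### Deck groups -/

section DeckT

open Pool.Agent.H4.Singer

variable {V X : Type} [DecidableEq V] [Fintype V] {Q : CubeComplex V X} {x₀ : X}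
  {bit : X → V → ZMod 2}

theorem bit_fin (hbit : IsBit Q bit) {x : X} {l : List V} (hl : Q.IsPath x l) (u : V) :
    bit (Q.fin x l) u = bit x u + (l.count u : ZMod 2) := by
  induction l generalizing x with
  | nil => simp [CubeComplex.fin]
  | cons v l ih =>
    obtain ⟨h1, h2⟩ := hl
    show bit (Q.fin (Q.nb v x) l) u = _
    rw [ih h2, hbit v x h1 u, List.count_cons]
    push_cast
    by_cases h : u = v
    · subst h
      simp
      ring
    · have h' : ¬ (v = u) := fun e => h e.symm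
      simp [h, h']

/-- the base point of the cover -/
private def TF_b (Q : CubeComplex V X) (x₀ : X) : Q.Cover x₀ := Quot.mk _ ⟨[], trivial⟩

/-- the element of the Coxeter group of a deck transformation -/
private noncomputable def TF_w (Q : CubeComplex V X) (x₀ : X) {Γ : Type} [Group Γ]
    [MulAction Γ (Q.Cover x₀)] (g : Γ) : RGrp Q.graph := (Q.emb x₀ (g • TF_b Q x₀)).2

private theorem TF_nbc {c : Q.Cover x₀} {v : V} (hv : v ∈ Q.lab (Q.proj x₀ c)) :
    (Q.emb x₀ (Q.nbc x₀ v c)).2 = (Q.emb x₀ c).2 * gen Q.graph v := by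
  have h := Q.emb_cs x₀ v c hv
  rw [(Q.cover x₀).cs_of_mem hv] at h
  exact congrArg Prod.snd h

private theorem TF_smul {Γ : Type} [Group Γ] [MulAction Γ (Q.Cover x₀)] (hΓ : IsDeck Γ Q x₀)
    (g : Γ) (c : Q.Cover x₀) : (Q.emb x₀ (g • c)).2 = TF_w Q x₀ g * (Q.emb x₀ c).2 := by
  refine cover_induct Q x₀ (fun c => (Q.emb x₀ (g • c)).2 = TF_w Q x₀ g * (Q.emb x₀ c).2) ?_ ?_ c
  · show TF_w Q x₀ g = TF_w Q x₀ g * 1
    rw [mul_one]
  · intro c v hv ih
    have h1 : v ∈ Q.lab (Q.proj x₀ (g • c)) := by rw [hΓ.proj]; exact hv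
    show (Q.emb x₀ (g • Q.nbc x₀ v c)).2 = _
    rw [← hΓ.nb g v c hv, TF_nbc h1, TF_nbc hv, ih, mul_assoc]

private theorem TF_w_mul {Γ : Type} [Group Γ] [MulAction Γ (Q.Cover x₀)] (hΓ : IsDeck Γ Q x₀)
    (g h : Γ) : TF_w Q x₀ (g * h) = TF_w Q x₀ g * TF_w Q x₀ h := by
  rw [TF_w, mul_smul, TF_smul hΓ]
  rfl

private theorem TF_w_pow {Γ : Type} [Group Γ] [MulAction Γ (Q.Cover x₀)] (hΓ : IsDeck Γ Q x₀)
    (g : Γ) (m : ℕ) : TF_w Q x₀ (g ^ m) = TF_w Q x₀ g ^ m := by
  induction m with
  | zero =>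
    rw [pow_zero, pow_zero, TF_w, one_smul]
    rfl
  | succ m ih => rw [pow_succ, TF_w_mul hΓ, ih, pow_succ]

/-- **deck groups of complexes with bits are torsion free** -/
theorem deck_torsion (hbit : IsBit Q bit) {Γ : Type} [Group Γ] [MulAction Γ (Q.Cover x₀)]
    (hΓ : IsDeck Γ Q x₀) {g : Γ} {m : ℕ} (hm : 0 < m) (h : g ^ m = 1) : g = 1 := by
  have h1 : TF_w Q x₀ g ^ m = 1 := by
    rw [← TF_w_pow hΓ, h, TF_w, one_smul]
    rfl
  have h2 : TF_w Q x₀ g = 1 := by
    obtain ⟨l, hl⟩ : ∃ l : {l : List V // Q.IsPath x₀ l}, Quot.mk _ l = g • TF_b Q x₀ :=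
      Quot.exists_rep _
    have h3 : TF_w Q x₀ g = CubeComplex.wd Q.graph l.1 := by
      rw [TF_w, ← hl]
      rfl
    have h4 : Q.fin x₀ l.1 = x₀ := by
      have h5 := hΓ.proj g (TF_b Q x₀)
      rw [← hl] at h5
      exact h5
    rw [h3] at h1 ⊢
    refine racg_torsion Q.graph l.1 (fun v => ?_) hm h1
    have h5 := bit_fin hbit l.2 v
    rw [h4] at h5
    have h6 : ((l.1.count v : ℕ) : ZMod 2) = 0 := by
      simpa using h5
    exact (ZMod.natCast_eq_zero_iff_even).mp h6
  have h3 : g • TF_b Q x₀ = TF_b Q x₀ := by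
    apply Q.emb_injective x₀
    refine Prod.ext ?_ ?_
    · rw [Q.emb_fst, Q.emb_fst, hΓ.proj]
    · rw [TF_w] at h2
      rw [h2]
      rfl
  exact hΓ.free g _ h3

end DeckT

/-! ### Proper actions -/

section Proper

open Pool.Agent.H65.RM

/-- a proper action of a torsion free group is free -/
theorem PAct.free {Γ U : Type} [Group Γ] [DecidableEq U] [MulAction Γ U] {M B : Set (Finset U)}
    (hA : PAct Γ M B) (hne : ∀ s ∈ M, s.Nonempty)
    (hdown : ∀ s ∈ M, ∀ t, t ⊆ s → t.Nonempty → t ∈ M)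
    (htf : ∀ (g : Γ) (m : ℕ), 0 < m → g ^ m = 1 → g = 1) (g : Γ) (s : Finset U) (hs : s ∈ M)
    (h : g • s = s) : g = 1 := by
  obtain ⟨u, hu⟩ := hne s hs
  have h1 : ∀ k : ℕ, g ^ k • s = s := by
    intro k
    induction k with
    | zero => rw [pow_zero, one_smul]
    | succ k ih => rw [pow_succ, mul_smul, h, ih]
  have h2 : ∀ k : ℕ, g ^ k • u ∈ s := by
    intro k
    have h3 := Finset.smul_mem_smul_finset (a := g ^ k) hu
    rwa [h1 k] at h3
  have h3 : (⋃ w ∈ s, {x : Γ | x • u = w}).Finite := by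
    refine Set.Finite.biUnion s.finite_toSet fun w _ => ?_
    exact hA.proper u w (hdown s hs {u} (by simpa using hu) (by simp))
  have h4 : ∃ a b : ℕ, a ≠ b ∧ g ^ a = g ^ b := by
    by_contra hcon
    push Not at hcon
    have hinj : Function.Injective fun k : ℕ => g ^ k := by
      intro a b hab
      by_contra hne'
      exact hcon a b hne' hab
    refine Set.infinite_range_of_injective hinj (h3.subset ?_)
    rintro x ⟨k, rfl⟩
    simp only [Set.mem_iUnion]
    exact ⟨_, h2 k, rfl⟩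
  obtain ⟨a, b, hab, he⟩ := h4
  rcases lt_or_gt_of_ne hab with hlt | hlt
  · refine htf g (b - a) (by omega) ?_
    have h5 : g ^ a * g ^ (b - a) = g ^ a := by
      rw [← pow_add, Nat.add_sub_cancel' hlt.le, ← he]
    exact mul_eq_left.mp h5
  · refine htf g (a - b) (by omega) ?_
    have h5 : g ^ b * g ^ (a - b) = g ^ b := by
      rw [← pow_add, Nat.add_sub_cancel' hlt.le, he]
    exact mul_eq_left.mp h5

theorem PAct.sub {Γ U : Type} [Group Γ] [DecidableEq U] [MulAction Γ U] {M B : Set (Finset U)}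
    (hA : PAct Γ M B) (Γ' : Subgroup Γ) : PAct Γ' M B where
  K_mem g s hs := hA.K_mem g s hs
  B_mem g s hs := hA.B_mem g s hs
  proper u w hu := by
    have h := hA.proper u w hu
    exact (h.preimage (Subtype.val_injective.injOn) : _)

/-- proper actions of deck groups of complexes with bits are free -/
theorem sact_of_proper {V X U Γ : Type} [DecidableEq V] [Fintype V] [DecidableEq U] [Group Γ]
    [MulAction Γ U] {Q : CubeComplex V X} {x₀ : X} [MulAction Γ (Q.Cover x₀)]
    {bit : X → V → ZMod 2} (hbit : IsBit Q bit) (hΓ : IsDeck Γ Q x₀) {M B : Set (Finset U)}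
    (hA : PAct Γ M B) (hne : ∀ s ∈ M, s.Nonempty)
    (hdown : ∀ s ∈ M, ∀ t, t ⊆ s → t.Nonempty → t ∈ M) : SAct Γ M B where
  K_mem := hA.K_mem
  B_mem := hA.B_mem
  free g s hs h := PAct.free hA hne hdown (fun g m hm h => deck_torsion hbit hΓ hm h) g s hs h

end Proper

end Pool.Agent.H37.TM
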