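import Mathlib

/-!
# Project TM: cup products of all orders for ordered simplices, characteristic two

Cochains are functions on finite sets of vertices (all degrees together); the vertices are ordered by a
height function, which is injective on the simplices.
-/

set_option autoImplicit false
set_option linter.unusedSectionVars false

open Finset

namespace Pool.Agent.H37.TM

variable {U : Type} [DecidableEq U] {R : Type} [CommRing R]

/-- the coboundary -/
def cob (x : Finset U → R) (s : Finset U) : R := ∑ v ∈ s, x (s.erase v)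

/-- the number of elements of `B` below `v` -/
def below (h : U → ℕ) (B : Finset U) (v : U) : ℕ := (B.filter fun b => h b < h v).card

/-- the first face: the elements of `B` and those with an even number of elements of `B` below -/
def face1 (h : U → ℕ) (B s : Finset U) : Finset U := s.filter fun v => v ∈ B ∨ Even (below h B v)

/-- the second face -/
def face2 (h : U → ℕ) (B s : Finset U) : Finset U := s.filter fun v => v ∈ B ∨ ¬ Even (below h B v)

/-- the cup product of order `m - 1` (the two faces have `m` common vertices) -/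
def cup (h : U → ℕ) (m : ℕ) (x y : Finset U → R) (s : Finset U) : R :=
  ∑ B ∈ s.powersetCard m, x (face1 h B s) * y (face2 h B s)

theorem add_self_two [CharP R 2] (a : R) : a + a = 0 := CharTwo.add_self_eq_zero a

/-- the coboundary of a coboundary -/
theorem cob_cob [CharP R 2] (x : Finset U → R) (s : Finset U) : cob (cob x) s = 0 := by
  unfold cob
  rw [Finset.sum_sigma']
  refine Finset.sum_involution (fun p _ => ⟨p.2, p.1⟩) ?_ ?_ ?_ ?_
  · rintro ⟨u, v⟩ _
    show x ((s.erase u).erase v) + x ((s.erase v).erase u) = 0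
    rw [Finset.erase_right_comm]
    exact add_self_two _
  · rintro ⟨u, v⟩ h _ he
    rw [Finset.mem_sigma] at h
    have h1 : v = u := congrArg Sigma.fst he
    exact Finset.ne_of_mem_erase h.2 h1
  · rintro ⟨u, v⟩ h
    rw [Finset.mem_sigma] at h ⊢
    have h2 : v ∈ s.erase u := h.2
    have h1 : u ∈ s := h.1
    exact ⟨Finset.mem_of_mem_erase h2,
      Finset.mem_erase.2 ⟨(Finset.ne_of_mem_erase h2).symm, h1⟩⟩
  · rintro ⟨u, v⟩ _
    rfl

/-- the parity of `v` is switched for the vertices in `F` -/
def sw1 (h : U → ℕ) (C F s : Finset U) : Finset U :=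
  s.filter fun v => v ∈ C ∨ (Even (below h C v) ↔ v ∉ F)

theorem sw1_empty (h : U → ℕ) (C s : Finset U) : sw1 h C ∅ s = face1 h C s := by
  unfold sw1 face1
  exact Finset.filter_congr fun v _ => by simp

theorem sw1_self (h : U → ℕ) (C s : Finset U) : sw1 h C s s = face2 h C s := by
  unfold sw1 face2
  refine Finset.filter_congr fun v hv => ?_
  have : ¬ (v ∉ s) := fun h => h hv
  simp only [this, iff_false]

/-- the elements of `s` which are above `k` -/
def up (h : U → ℕ) (k : ℕ) (s : Finset U) : Finset U := s.filter fun v => k ≤ h v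

/-- the telescoping function -/
def tel (h : U → ℕ) (x y : Finset U → R) (C s : Finset U) (k : ℕ) : R :=
  x (sw1 h C (up h k s) s) * y (sw1 h C (s \ up h k s) s)

theorem mem_up {h : U → ℕ} {k : ℕ} {s : Finset U} {v : U} : v ∈ up h k s ↔ v ∈ s ∧ k ≤ h v := by
  unfold up
  exact Finset.mem_filter

theorem below_insert (h : U → ℕ) {C : Finset U} {w : U} (hw : w ∉ C) (v : U) :
    below h (insert w C) v = below h C v + if h w < h v then 1 else 0 := by
  unfold below
  rw [Finset.filter_insert]
  split_ifs with h1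
  · rw [Finset.card_insert_of_notMem fun h2 => hw (Finset.mem_filter.1 h2).1]
  · rfl

/-- the telescoping function does not change where there is no vertex -/
theorem tel_step (h : U → ℕ) (x y : Finset U → R) (C s : Finset U) (k : ℕ)
    (hk : ∀ v ∈ s, h v = k → v ∈ C) : tel h x y C s k = tel h x y C s (k + 1) := by
  have h1 : ∀ v ∈ s, v ∉ C → (v ∈ up h k s ↔ v ∈ up h (k + 1) s) := by
    intro v hv hC
    rw [mem_up, mem_up]
    have h5 : h v ≠ k := fun h0 => hC (hk v hv h0)
    constructor
    · rintro ⟨_, h2⟩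
      exact ⟨hv, by omega⟩
    · rintro ⟨_, h2⟩
      exact ⟨hv, by omega⟩
  have h2 : sw1 h C (up h k s) s = sw1 h C (up h (k + 1) s) s := by
    unfold sw1
    refine Finset.filter_congr fun v hv => ?_
    by_cases hC : v ∈ C
    · simp [hC]
    · rw [h1 v hv hC]
  have h3 : sw1 h C (s \ up h k s) s = sw1 h C (s \ up h (k + 1) s) s := by
    unfold sw1
    refine Finset.filter_congr fun v hv => ?_
    by_cases hC : v ∈ C
    · simp [hC]
    · rw [Finset.mem_sdiff, Finset.mem_sdiff, h1 v hv hC]
  unfold tel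
  rw [h2, h3]

theorem sum_range_tel [CharP R 2] (g : ℕ → R) (N : ℕ) :
    ∑ k ∈ Finset.range N, (g k + g (k + 1)) = g 0 + g N := by
  induction N with
  | zero => simp [add_self_two]
  | succ N ih =>
    rw [Finset.sum_range_succ, ih]
    have := add_self_two (g N)
    calc g 0 + g N + (g N + g (N + 1)) = g 0 + (g N + g N) + g (N + 1) := by ring
      _ = g 0 + g (N + 1) := by rw [this, add_zero]

/-- the telescoping sum -/
theorem sum_tel [CharP R 2] (h : U → ℕ) (x y : Finset U → R) (C s : Finset U)
    (hs : Set.InjOn h (s : Set U)) (N : ℕ) (hN : ∀ v ∈ s, h v < N) :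
    ∑ w ∈ s \ C, (tel h x y C s (h w) + tel h x y C s (h w + 1)) =
      tel h x y C s 0 + tel h x y C s N := by
  rw [← sum_range_tel (tel h x y C s) N]
  have h1 : ∑ w ∈ s \ C, (tel h x y C s (h w) + tel h x y C s (h w + 1)) =
      ∑ k ∈ (s \ C).image h, (tel h x y C s k + tel h x y C s (k + 1)) := by
    rw [Finset.sum_image]
    intro a ha b hb hab
    exact hs (Finset.mem_coe.2 (Finset.mem_sdiff.1 (Finset.mem_coe.1 ha)).1)
      (Finset.mem_coe.2 (Finset.mem_sdiff.1 (Finset.mem_coe.1 hb)).1) hab
  rw [h1]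
  refine Finset.sum_subset ?_ ?_
  · intro k hk
    obtain ⟨v, hv, rfl⟩ := Finset.mem_image.1 hk
    exact Finset.mem_range.2 (hN v (Finset.mem_sdiff.1 hv).1)
  · intro k _ hk
    rw [← tel_step h x y C s k, add_self_two]
    intro v hv hvk
    by_contra hC
    exact hk (Finset.mem_image.2 ⟨v, Finset.mem_sdiff.2 ⟨hv, hC⟩, hvk⟩)

/-- the two terms of a common vertex -/
theorem terms_eq [CharP R 2] (h : U → ℕ) (x y : Finset U → R) {C s : Finset U}
    (hs : Set.InjOn h (s : Set U)) {w : U} (hw : w ∈ s) (hC : w ∉ C) :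
    x ((face1 h (insert w C) s).erase w) * y (face2 h (insert w C) s) +
        x (face1 h (insert w C) s) * y ((face2 h (insert w C) s).erase w) =
      tel h x y C s (h w) + tel h x y C s (h w + 1) := by
  have hne : ∀ v ∈ s, v ≠ w → h v ≠ h w := fun v hv hvw he => hvw (hs hv hw he)
  -- membership for the other vertices
  have h1 : ∀ k, (k = h w ∨ k = h w + 1) → ∀ v ∈ s, v ≠ w →
      (v ∈ face1 h (insert w C) s ↔ v ∈ sw1 h C (up h k s) s) := by
    intro k hk v hv hvw
    have h2 := hne v hv hvw
    unfold face1 sw1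
    rw [Finset.mem_filter, Finset.mem_filter, Finset.mem_insert, below_insert h hC, mem_up]
    by_cases h3 : h w < h v
    · have h4 : k ≤ h v := by rcases hk with rfl | rfl <;> omega
      simp only [h3, if_true, hv, true_and, h4, not_true, iff_false, Nat.even_add_one, hvw,
        false_or]
    · have h4 : ¬ k ≤ h v := by rcases hk with rfl | rfl <;> omega
      simp only [h3, if_false, hv, true_and, h4, not_false_eq_true, iff_true, add_zero, hvw,
        false_or]
  have h1' : ∀ k, (k = h w ∨ k = h w + 1) → ∀ v ∈ s, v ≠ w →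
      (v ∈ face2 h (insert w C) s ↔ v ∈ sw1 h C (s \ up h k s) s) := by
    intro k hk v hv hvw
    have h2 := hne v hv hvw
    unfold face2 sw1
    rw [Finset.mem_filter, Finset.mem_filter, Finset.mem_insert, below_insert h hC,
      Finset.mem_sdiff, mem_up]
    by_cases h3 : h w < h v
    · have h4 : k ≤ h v := by rcases hk with rfl | rfl <;> omega
      simp only [h3, if_true, hv, true_and, h4, not_true, and_false, not_false_eq_true, iff_true,
        Nat.even_add_one, not_not, hvw, false_or]
    · have h4 : ¬ k ≤ h v := by rcases hk with rfl | rfl <;> omega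
      simp only [h3, if_false, hv, true_and, h4, not_false_eq_true, not_true, iff_false, add_zero,
        hvw, false_or]
  -- membership of `w`
  have hw1 : w ∈ face1 h (insert w C) s := Finset.mem_filter.2 ⟨hw, Or.inl (mem_insert_self _ _)⟩
  have hw2 : w ∈ face2 h (insert w C) s := Finset.mem_filter.2 ⟨hw, Or.inl (mem_insert_self _ _)⟩
  have hsub1 : face1 h (insert w C) s ⊆ s := Finset.filter_subset _ _
  have hsub2 : face2 h (insert w C) s ⊆ s := Finset.filter_subset _ _
  have hsw : ∀ F, sw1 h C F s ⊆ s := fun F => Finset.filter_subset _ _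
  have e1 : ∀ k, (k = h w ∨ k = h w + 1) → w ∈ sw1 h C (up h k s) s →
      sw1 h C (up h k s) s = face1 h (insert w C) s := by
    intro k hk hm
    ext v
    by_cases hv : v ∈ s
    · by_cases hvw : v = w
      · subst hvw
        exact ⟨fun _ => hw1, fun _ => hm⟩
      · exact (h1 k hk v hv hvw).symm
    · exact ⟨fun h0 => absurd (hsw _ h0) hv, fun h0 => absurd (hsub1 h0) hv⟩
  have e2 : ∀ k, (k = h w ∨ k = h w + 1) → w ∉ sw1 h C (up h k s) s →
      sw1 h C (up h k s) s = (face1 h (insert w C) s).erase w := by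
    intro k hk hm
    ext v
    rw [Finset.mem_erase]
    by_cases hv : v ∈ s
    · by_cases hvw : v = w
      · subst hvw
        exact ⟨fun h0 => absurd h0 hm, fun h0 => absurd rfl h0.1⟩
      · rw [h1 k hk v hv hvw]
        exact ⟨fun h0 => ⟨hvw, h0⟩, fun h0 => h0.2⟩
    · exact ⟨fun h0 => absurd (hsw _ h0) hv, fun h0 => absurd (hsub1 h0.2) hv⟩
  have e3 : ∀ k, (k = h w ∨ k = h w + 1) → w ∈ sw1 h C (s \ up h k s) s →
      sw1 h C (s \ up h k s) s = face2 h (insert w C) s := by
    intro k hk hm
    ext v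
    by_cases hv : v ∈ s
    · by_cases hvw : v = w
      · subst hvw
        exact ⟨fun _ => hw2, fun _ => hm⟩
      · exact (h1' k hk v hv hvw).symm
    · exact ⟨fun h0 => absurd (hsw _ h0) hv, fun h0 => absurd (hsub2 h0) hv⟩
  have e4 : ∀ k, (k = h w ∨ k = h w + 1) → w ∉ sw1 h C (s \ up h k s) s →
      sw1 h C (s \ up h k s) s = (face2 h (insert w C) s).erase w := by
    intro k hk hm
    ext v
    rw [Finset.mem_erase]
    by_cases hv : v ∈ s
    · by_cases hvw : v = w
      · subst hvw
        exact ⟨fun h0 => absurd h0 hm, fun h0 => absurd rfl h0.1⟩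
      · rw [h1' k hk v hv hvw]
        exact ⟨fun h0 => ⟨hvw, h0⟩, fun h0 => h0.2⟩
    · exact ⟨fun h0 => absurd (hsw _ h0) hv, fun h0 => absurd (hsub2 h0.2) hv⟩
  have m1 : w ∈ sw1 h C (up h (h w) s) s ↔ ¬ Even (below h C w) := by
    unfold sw1
    rw [Finset.mem_filter, mem_up]
    simp [hw, hC]
  have m2 : w ∈ sw1 h C (up h (h w + 1) s) s ↔ Even (below h C w) := by
    unfold sw1
    rw [Finset.mem_filter, mem_up]
    simp [hw, hC]
  have m3 : w ∈ sw1 h C (s \ up h (h w) s) s ↔ Even (below h C w) := by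
    unfold sw1
    rw [Finset.mem_filter, Finset.mem_sdiff, mem_up]
    simp [hw, hC]
  have m4 : w ∈ sw1 h C (s \ up h (h w + 1) s) s ↔ ¬ Even (below h C w) := by
    unfold sw1
    rw [Finset.mem_filter, Finset.mem_sdiff, mem_up]
    simp [hw, hC]
  unfold tel
  by_cases he : Even (below h C w)
  · rw [e2 _ (Or.inl rfl) (fun h0 => m1.1 h0 he), e3 _ (Or.inl rfl) (m3.2 he),
      e1 _ (Or.inr rfl) (m2.2 he), e4 _ (Or.inr rfl) (fun h0 => m4.1 h0 he)]
  · rw [e1 _ (Or.inl rfl) (m1.2 he), e4 _ (Or.inl rfl) (fun h0 => he (m3.1 h0)),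
      e2 _ (Or.inr rfl) (fun h0 => he (m2.1 h0)), e3 _ (Or.inr rfl) (m4.2 he)]
    exact add_comm _ _

theorem face1_subset (h : U → ℕ) (B s : Finset U) : face1 h B s ⊆ s := Finset.filter_subset _ _

theorem face2_subset (h : U → ℕ) (B s : Finset U) : face2 h B s ⊆ s := Finset.filter_subset _ _

theorem face1_erase (h : U → ℕ) (B s : Finset U) (w : U) :
    face1 h B (s.erase w) = (face1 h B s).erase w := by
  unfold face1
  rw [Finset.filter_erase]

theorem face2_erase (h : U → ℕ) (B s : Finset U) (w : U) :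
    face2 h B (s.erase w) = (face2 h B s).erase w := by
  unfold face2
  rw [Finset.filter_erase]

/-- a sum over the pairs of a set with `m + 1` elements and an element of it -/
theorem sum_pairs {M : Type} [AddCommMonoid M] (s : Finset U) (m : ℕ) (F : Finset U → U → M) :
    ∑ B ∈ s.powersetCard (m + 1), ∑ w ∈ B, F B w =
      ∑ C ∈ s.powersetCard m, ∑ w ∈ s \ C, F (insert w C) w := by
  rw [Finset.sum_sigma', Finset.sum_sigma']
  refine Finset.sum_bij' (fun p _ => ⟨p.1.erase p.2, p.2⟩) (fun p _ => ⟨insert p.2 p.1, p.2⟩)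
    ?_ ?_ ?_ ?_ ?_
  · rintro ⟨B, w⟩ hp
    rw [Finset.mem_sigma, Finset.mem_powersetCard] at hp
    obtain ⟨⟨h1, h2⟩, h3⟩ := hp
    rw [Finset.mem_sigma, Finset.mem_powersetCard, Finset.mem_sdiff]
    refine ⟨⟨(Finset.erase_subset _ _).trans h1, ?_⟩, h1 h3, Finset.notMem_erase _ _⟩
    show (B.erase w).card = m
    rw [Finset.card_erase_of_mem h3]
    have : B.card = m + 1 := h2
    omega
  · rintro ⟨C, w⟩ hp
    rw [Finset.mem_sigma, Finset.mem_powersetCard, Finset.mem_sdiff] at hp
    obtain ⟨⟨h1, h2⟩, h3, h4⟩ := hp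
    rw [Finset.mem_sigma, Finset.mem_powersetCard]
    refine ⟨⟨Finset.insert_subset h3 h1, ?_⟩, Finset.mem_insert_self _ _⟩
    show (insert w C).card = m + 1
    rw [Finset.card_insert_of_notMem h4]
    have : C.card = m := h2
    omega
  · rintro ⟨B, w⟩ hp
    rw [Finset.mem_sigma] at hp
    show (⟨insert w (B.erase w), w⟩ : Σ _ : Finset U, U) = ⟨B, w⟩
    rw [Finset.insert_erase hp.2]
  · rintro ⟨C, w⟩ hp
    rw [Finset.mem_sigma, Finset.mem_sdiff] at hp
    show (⟨(insert w C).erase w, w⟩ : Σ _ : Finset U, U) = ⟨C, w⟩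
    rw [Finset.erase_insert hp.2.2]
  · rintro ⟨B, w⟩ hp
    rw [Finset.mem_sigma] at hp
    show F B w = F (insert w (B.erase w)) w
    rw [Finset.insert_erase hp.2]

/-- **The coboundary of the cup products.** -/
theorem cob_cup [CharP R 2] (h : U → ℕ) (m : ℕ) (x y : Finset U → R) (s : Finset U)
    (hs : Set.InjOn h (s : Set U)) :
    cob (cup h (m + 1) x y) s = cup h (m + 1) (cob x) y s + cup h (m + 1) x (cob y) s +
      (cup h m x y s + cup h m y x s) := by
  -- the left side
  have hL : cob (cup h (m + 1) x y) s = ∑ B ∈ s.powersetCard (m + 1), ∑ w ∈ s \ B,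
      x ((face1 h B s).erase w) * y ((face2 h B s).erase w) := by
    unfold cob cup
    rw [Finset.sum_sigma', Finset.sum_sigma']
    refine Finset.sum_bij' (fun p _ => ⟨p.2, p.1⟩) (fun p _ => ⟨p.2, p.1⟩) ?_ ?_ ?_ ?_ ?_
    · rintro ⟨w, B⟩ hp
      rw [Finset.mem_sigma, Finset.mem_powersetCard] at hp
      obtain ⟨h1, h2, h3⟩ := hp
      rw [Finset.mem_sigma, Finset.mem_powersetCard, Finset.mem_sdiff]
      refine ⟨⟨h2.trans (Finset.erase_subset _ _), h3⟩, h1, fun h4 => ?_⟩
      exact Finset.notMem_erase _ _ (h2 h4)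
    · rintro ⟨B, w⟩ hp
      rw [Finset.mem_sigma, Finset.mem_powersetCard, Finset.mem_sdiff] at hp
      obtain ⟨⟨h1, h2⟩, h3, h4⟩ := hp
      rw [Finset.mem_sigma, Finset.mem_powersetCard]
      refine ⟨h3, fun v hv => Finset.mem_erase.2 ⟨?_, h1 hv⟩, h2⟩
      rintro rfl
      exact h4 hv
    · rintro ⟨w, B⟩ _
      rfl
    · rintro ⟨B, w⟩ _
      rfl
    · rintro ⟨w, B⟩ _
      show x (face1 h B (s.erase w)) * y (face2 h B (s.erase w)) = _
      rw [face1_erase, face2_erase]
  -- the right side
  have hR : cup h (m + 1) (cob x) y s + cup h (m + 1) x (cob y) s =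
      (∑ B ∈ s.powersetCard (m + 1), ∑ w ∈ s \ B,
        x ((face1 h B s).erase w) * y ((face2 h B s).erase w)) +
      ∑ B ∈ s.powersetCard (m + 1), ∑ w ∈ B,
        (x ((face1 h B s).erase w) * y (face2 h B s) +
          x (face1 h B s) * y ((face2 h B s).erase w)) := by
    unfold cup cob
    rw [← Finset.sum_add_distrib, ← Finset.sum_add_distrib]
    refine Finset.sum_congr rfl fun B hB => ?_
    rw [Finset.mem_powersetCard] at hB
    have hd1 : face1 h B s = (face1 h B s \ B) ∪ B := by
      rw [Finset.sdiff_union_of_subset]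
      intro v hv
      exact Finset.mem_filter.2 ⟨hB.1 hv, Or.inl hv⟩
    have hd2 : face2 h B s = (face2 h B s \ B) ∪ B := by
      rw [Finset.sdiff_union_of_subset]
      intro v hv
      exact Finset.mem_filter.2 ⟨hB.1 hv, Or.inl hv⟩
    have hs1 : ∑ w ∈ face1 h B s, x ((face1 h B s).erase w) =
        ∑ w ∈ face1 h B s \ B, x ((face1 h B s).erase w) +
          ∑ w ∈ B, x ((face1 h B s).erase w) := by
      conv_lhs => rw [hd1]
      rw [Finset.sum_union Finset.sdiff_disjoint, ← hd1]
    have hs2 : ∑ w ∈ face2 h B s, y ((face2 h B s).erase w) =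
        ∑ w ∈ face2 h B s \ B, y ((face2 h B s).erase w) +
          ∑ w ∈ B, y ((face2 h B s).erase w) := by
      conv_lhs => rw [hd2]
      rw [Finset.sum_union Finset.sdiff_disjoint, ← hd2]
    have hs3 : ∑ w ∈ s \ B, x ((face1 h B s).erase w) * y ((face2 h B s).erase w) =
        (∑ w ∈ face1 h B s \ B, x ((face1 h B s).erase w)) * y (face2 h B s) +
          x (face1 h B s) * ∑ w ∈ face2 h B s \ B, y ((face2 h B s).erase w) := by
      have hdis : Disjoint (face1 h B s \ B) (face2 h B s \ B) := by
        rw [Finset.disjoint_left]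
        intro v hv1 hv2
        rw [Finset.mem_sdiff] at hv1 hv2
        have h1 := (Finset.mem_filter.1 hv1.1).2
        have h2 := (Finset.mem_filter.1 hv2.1).2
        rcases h1 with h1 | h1
        · exact hv1.2 h1
        · rcases h2 with h2 | h2
          · exact hv1.2 h2
          · exact h2 h1
      have hun : s \ B = (face1 h B s \ B) ∪ (face2 h B s \ B) := by
        ext v
        rw [Finset.mem_union, Finset.mem_sdiff, Finset.mem_sdiff, Finset.mem_sdiff]
        constructor
        · rintro ⟨h1, h2⟩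
          by_cases h3 : Even (below h B v)
          · exact Or.inl ⟨Finset.mem_filter.2 ⟨h1, Or.inr h3⟩, h2⟩
          · exact Or.inr ⟨Finset.mem_filter.2 ⟨h1, Or.inr h3⟩, h2⟩
        · rintro (⟨h1, h2⟩ | ⟨h1, h2⟩)
          · exact ⟨face1_subset _ _ _ h1, h2⟩
          · exact ⟨face2_subset _ _ _ h1, h2⟩
      rw [hun, Finset.sum_union hdis, Finset.sum_mul, Finset.mul_sum]
      congr 1
      · refine Finset.sum_congr rfl fun w hw => ?_
        rw [Finset.erase_eq_of_notMem (s := face2 h B s)]
        intro h1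
        have h2 := (Finset.mem_sdiff.1 hw)
        exact Finset.disjoint_left.1 hdis hw (Finset.mem_sdiff.2 ⟨h1, h2.2⟩)
      · refine Finset.sum_congr rfl fun w hw => ?_
        rw [Finset.erase_eq_of_notMem (s := face1 h B s)]
        intro h1
        have h2 := (Finset.mem_sdiff.1 hw)
        exact Finset.disjoint_left.1 hdis (Finset.mem_sdiff.2 ⟨h1, h2.2⟩) hw
    rw [hs3, Finset.sum_add_distrib, ← Finset.sum_mul, ← Finset.mul_sum]
    show (∑ w ∈ face1 h B s, x ((face1 h B s).erase w)) * y (face2 h B s) +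
      x (face1 h B s) * (∑ w ∈ face2 h B s, y ((face2 h B s).erase w)) = _
    rw [hs1, hs2]
    ring
  rw [hL, hR, sum_pairs s m fun B w => x ((face1 h B s).erase w) * y (face2 h B s) +
    x (face1 h B s) * y ((face2 h B s).erase w)]
  rw [add_assoc]
  have hN : ∃ N, ∀ v ∈ s, h v < N := ⟨s.sup h + 1, fun v hv => Nat.lt_succ_of_le (Finset.le_sup hv)⟩
  obtain ⟨N, hN⟩ := hN
  have h1 : ∀ C ∈ s.powersetCard m, ∑ w ∈ s \ C,
      (x ((face1 h (insert w C) s).erase w) * y (face2 h (insert w C) s) +
        x (face1 h (insert w C) s) * y ((face2 h (insert w C) s).erase w)) =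
      x (face1 h C s) * y (face2 h C s) + y (face1 h C s) * x (face2 h C s) := by
    intro C _
    have h2 : ∀ w ∈ s \ C, x ((face1 h (insert w C) s).erase w) * y (face2 h (insert w C) s) +
        x (face1 h (insert w C) s) * y ((face2 h (insert w C) s).erase w) =
        tel h x y C s (h w) + tel h x y C s (h w + 1) := fun w hw =>
      terms_eq h x y hs (Finset.mem_sdiff.1 hw).1 (Finset.mem_sdiff.1 hw).2
    rw [Finset.sum_congr rfl h2, sum_tel h x y C s hs N hN]
    have h3 : up h 0 s = s := by
      unfold up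
      exact Finset.filter_true_of_mem fun v _ => Nat.zero_le _
    have h4 : up h N s = ∅ := by
      unfold up
      exact Finset.filter_false_of_mem fun v hv h0 => absurd (hN v hv) (not_lt.2 h0)
    unfold tel
    rw [h3, h4, Finset.sdiff_self, Finset.sdiff_empty, sw1_empty, sw1_self]
    ring
  rw [Finset.sum_congr rfl h1, Finset.sum_add_distrib]
  unfold cup
  rw [add_self_two, add_zero]

end Pool.Agent.H37.TM
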