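import Pool.Agent.H37.TM.Star
import Pool.Agent.H37.TM.Rel
import Pool.Agent.H77.TC.Final

/-!
# Project TM: the final theorem
-/

set_option autoImplicit false
set_option linter.unusedSectionVars false

open Finset Pointwise

namespace Pool.Agent.H37.TM

open Pool.Agent.H19.Cub Pool.Agent.H77.SX

/-- the action of a subgroup -/
theorem SAct.sub {U Γ : Type} [DecidableEq U] [Group Γ] [MulAction Γ U] {M B : Set (Finset U)}
    (hA : SAct Γ M B) (Γ' : Subgroup Γ) : SAct Γ' M B where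
  K_mem g s hs := hA.K_mem g s hs
  B_mem g s hs := hA.B_mem g s hs
  free g s hs h := by
    have h1 := hA.free g s hs h
    exact Subtype.ext h1

/-- no chains above the dimension -/
theorem l2_above {V X : Type} [DecidableEq V] [Fintype V] {Q : CubeComplex V X} {x₀ : X} {d i : ℕ}
    (hd : DimLe Q d) (hi : d < i) : L2HomologyZero (Q.cover x₀) i := by
  intro ν _ z hz _ ε hε
  have h0 : z = 0 := by
    funext σ x
    by_contra h
    obtain ⟨h1, h2, h3⟩ := hz.supp σ x h
    have h4 := hd (Q.proj x₀ x) σ h1 h2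
    omega
  refine ⟨0, ⟨fun σ x h => absurd rfl h, fun σ x _ v _ => by simp, fun σ => by simp⟩, ?_⟩
  rw [h0]
  have h5 : ∀ σ x, ‖(0 : Finset V → Q.Cover x₀ → ℂ) σ x - bdry ν 0 σ x‖ ^ 2 = 0 := by
    intro σ x
    have h6 : bdry ν (0 : Finset V → Q.Cover x₀ → ℂ) σ x = 0 := by
      unfold bdry
      exact sum_eq_zero fun v _ => by simp
    rw [h6]
    simp
  simp only [h5, tsum_zero, sum_const_zero]
  exact hε

/-- **The theorem.** -/
theorem l2_of_act {V X U Γ : Type} [DecidableEq V] [Fintype V] [Fintype X] [DecidableEq U]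
    [Group Γ] [MulAction Γ U] (Q : CubeComplex V X) (x₀ : X) [MulAction Γ (Q.Cover x₀)]
    (hΓ : IsDeck Γ Q x₀) {M B : Set (Finset U)} {n d : ℕ} (hd : DimLe Q d) (hM : Mfd M B n)
    (hK : AcycLt M d) (hA : SAct Γ M B) {i : ℕ} (hdi : d ≤ i) (hn : n < 2 * i) :
    L2HomologyZero (Q.cover x₀) i := by
  rcases Nat.lt_or_ge d i with h | h
  · exact l2_above hd h
  · obtain rfl : d = i := le_antisymm hdi h
    obtain ⟨V', X', _, _, _, Q', y₀, bit', hbit', hsurj', hd', hmax', ⟨Γ', act', hΓ'⟩, htr⟩ :=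
      relabel_reduce Q x₀ (by omega) hd hΓ
    refine htr d (Pool.Agent.H77.TC.count Q' y₀ bit' hbit' d hmax' fun K _ _ => ?_)
    exact star_rel hbit' hsurj' hΓ' hM hd' hK (hA.sub Γ') hn K

end Pool.Agent.H37.TM
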