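import Pool.Agent.H37.TM.Star
import Pool.Agent.H37.TM.Rel
import Pool.Agent.H37.TM.TF
import Pool.Agent.H77.TC.Final

/-!
# Project TM: the final theorem for proper actions
-/

set_option autoImplicit false
set_option linter.unusedSectionVars false

open Finset Pointwise

namespace Pool.Agent.H37.TM

open Pool.Agent.H19.Cub Pool.Agent.H77.SX Pool.Agent.H65.RM

/-- no chains above the dimension -/
theorem l2_aboveP {V X : Type} [DecidableEq V] [Fintype V] {Q : CubeComplex V X} {x₀ : X} {d i : ℕ}
    (hd : DimLe Q d) (hi : d < i) : L2HomologyZero (Q.cover x₀) i := by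
  intro ν _ z hz _ ε hε
  have h0 : z = 0 := by
    funext σ x
    by_contra h
    obtain ⟨h1, h2, h3⟩ := hz.supp σ x h
    have h4 := hd (Q.proj x₀ x) σ h1 h2
    omega
  refine ⟨0, ⟨fun σ x h => absurd rfl h, fun σ x _ v _ => by simp, fun σ => by simp⟩, ?_⟩
  rw [h0]
  have h5 : ∀ σ x, ‖(0 : Finset V → Q.Cover x₀ → ℂ) σ x - bdry ν 0 σ x‖ ^ 2 = 0 := by
    intro σ x
    have h6 : bdry ν (0 : Finset V → Q.Cover x₀ → ℂ) σ x = 0 := by
      unfold bdry
      exact sum_eq_zero fun v _ => by simp
    rw [h6]
    simp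
  simp only [h5, tsum_zero, sum_const_zero]
  exact hε

/-- **The theorem for proper actions.** Let `Γ` be the deck group of the universal cover of a finite
special cube complex `Q` of dimension at most `d`. If `Γ` acts properly and simplicially on a
triangulated homology manifold `M` (over the field with two elements) of dimension `n` with boundary
`B` whose reduced homology vanishes in the degrees less than `d`, then the reduced `ℓ²`-homology of the
universal cover vanishes in all degrees `i ≥ d` with `n < 2 i`. -/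
theorem l2_of_proper {V X U Γ : Type} [DecidableEq V] [Fintype V] [Fintype X] [DecidableEq U]
    [Group Γ] [MulAction Γ U] (Q : CubeComplex V X) (x₀ : X) [MulAction Γ (Q.Cover x₀)]
    (hΓ : IsDeck Γ Q x₀) {M B : Set (Finset U)} {n d : ℕ} (hd : DimLe Q d) (hM : Mfd M B n)
    (hK : AcycLt M d) (hA : PAct Γ M B) {i : ℕ}
    (hdi : d ≤ i) (hn : n < 2 * i) : L2HomologyZero (Q.cover x₀) i := by
  rcases Nat.lt_or_ge d i with h | h
  · exact l2_aboveP hd h
  · obtain rfl : d = i := le_antisymm hdi h
    obtain ⟨V', X', _, _, _, Q', y₀, bit', hbit', hsurj', hd', hmax', ⟨Γ', act', hΓ'⟩, htr⟩ :=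
      relabel_reduce Q x₀ (by omega) hd hΓ
    refine htr d (Pool.Agent.H77.TC.count Q' y₀ bit' hbit' d hmax' fun K _ _ => ?_)
    exact star_rel hbit' hsurj' hΓ' hM hd' hK
      (sact_of_proper hbit' hΓ' (PAct.sub hA Γ') hM.ne hM.down) hn K

end Pool.Agent.H37.TM
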