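import Pool.Agent.H37.TM.Unst

/-!
# Project TM: invariance and support of the cochain `VT`
-/

set_option autoImplicit false
set_option linter.unusedSectionVars false

open Finset Pointwise

namespace Pool.Agent.H37.TM

variable {U V : Type} [DecidableEq U] [DecidableEq V] {R : Type} [CommRing R]

theorem VV_empty {ht : U → ℕ} {a : Finset V → Finset U → R} {h : U → R} {b : V} {ρ : Finset V}
    {j : ℕ} (hj : 0 < j) : VV ht a h b ρ j ∅ = 0 := by
  unfold VV cup
  have h1 : (∅ : Finset U).powersetCard j = ∅ := by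
    rw [Finset.powersetCard_eq_empty, Finset.card_empty]
    exact hj
  rw [h1]
  simp

theorem VT_empty {ht : U → ℕ} {a : Finset V → Finset U → R} {hp : V → U → R} {q : ℕ} :
    ∀ l : List V, VT ht a hp q l ∅ = 0
  | [] => rfl
  | b :: l => by
    show (if l.length < q then VV ht a (hp b) b l.toFinset (q - l.length) ∅ else 0) +
      dcup ht (hp b) (VT ht a hp q l) ∅ = 0
    have h1 : dcup ht (hp b) (VT ht a hp q l) ∅ = 0 := by
      unfold dcup
      rw [lows_empty, Finset.sum_empty]
    rw [h1, add_zero]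
    split_ifs with h2
    · exact VV_empty (by omega)
    · rfl

theorem cup_ne_zero {ht : U → ℕ} {j : ℕ} {x y : Finset U → R} {s : Finset U}
    (h : cup ht j x y s ≠ 0) : ∃ t ⊆ s, x t ≠ 0 := by
  by_contra hc
  push Not at hc
  exact h (cup_zero_left hc)

/-- the support of `VT` -/
theorem VT_ne_zero {ht : U → ℕ} {a : Finset V → Finset U → R} {hp : V → U → R} {q : ℕ} :
    ∀ (l : List V) (s : Finset U), VT ht a hp q l s ≠ 0 → ∃ t ⊆ s, ∃ A, a A t ≠ 0
  | [], s, h => absurd rfl h
  | b :: l, s, h => by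
    by_contra hc
    push Not at hc
    apply h
    show (if l.length < q then VV ht a (hp b) b l.toFinset (q - l.length) s else 0) +
      dcup ht (hp b) (VT ht a hp q l) s = 0
    have h1 : VV ht a (hp b) b l.toFinset (q - l.length) s = 0 := by
      unfold VV
      refine Finset.sum_eq_zero fun A _ => ?_
      rw [cup_zero_left fun t ht => hc t ht _, cup_zero_left fun t ht => hc t ht _, mul_zero,
        add_zero]
    have h2 : dcup ht (hp b) (VT ht a hp q l) s = 0 := by
      unfold dcup
      refine Finset.sum_eq_zero fun v _ => ?_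
      have h3 : VT ht a hp q l (s.erase v) = 0 := by
        by_contra h4
        obtain ⟨t, ht, A, hA⟩ := VT_ne_zero l (s.erase v) h4
        exact hA (hc t (ht.trans (Finset.erase_subset v s)) A)
      rw [h3, mul_zero]
    rw [h1, h2, add_zero]
    split_ifs <;> rfl

section

variable {Γ : Type} [Group Γ] [MulAction Γ U] {ht : U → ℕ} {g : Γ}

theorem mem_smul_iff' {s : Finset U} {u : U} : g • u ∈ g • s ↔ u ∈ s := Finset.smul_mem_smul_finset_iff g

theorem below_smul (hg : ∀ u, ht (g • u) = ht u) (B : Finset U) (v : U) :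
    below ht (g • B) (g • v) = below ht B v := by
  unfold below
  have h1 : ((g • B).filter fun b => ht b < ht (g • v)) = g • B.filter fun b => ht b < ht v := by
    ext w
    obtain ⟨u, rfl⟩ : ∃ u, g • u = w := ⟨g⁻¹ • w, smul_inv_smul g w⟩
    rw [Finset.mem_filter, mem_smul_iff', mem_smul_iff', Finset.mem_filter, hg, hg]
  rw [h1, Finset.card_smul_finset]

theorem face1_smul (hg : ∀ u, ht (g • u) = ht u) (B s : Finset U) :
    face1 ht (g • B) (g • s) = g • face1 ht B s := by
  ext w
  obtain ⟨u, rfl⟩ : ∃ u, g • u = w := ⟨g⁻¹ • w, smul_inv_smul g w⟩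
  rw [mem_smul_iff']
  unfold face1
  rw [Finset.mem_filter, Finset.mem_filter, mem_smul_iff', mem_smul_iff', below_smul hg]

theorem face2_smul (hg : ∀ u, ht (g • u) = ht u) (B s : Finset U) :
    face2 ht (g • B) (g • s) = g • face2 ht B s := by
  ext w
  obtain ⟨u, rfl⟩ : ∃ u, g • u = w := ⟨g⁻¹ • w, smul_inv_smul g w⟩
  rw [mem_smul_iff']
  unfold face2
  rw [Finset.mem_filter, Finset.mem_filter, mem_smul_iff', mem_smul_iff', below_smul hg]

theorem lows_smul (hg : ∀ u, ht (g • u) = ht u) (s : Finset U) :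
    lows ht (g • s) = g • lows ht s := by
  ext w
  obtain ⟨u, rfl⟩ : ∃ u, g • u = w := ⟨g⁻¹ • w, smul_inv_smul g w⟩
  rw [mem_smul_iff']
  unfold lows
  rw [Finset.mem_filter, Finset.mem_filter, mem_smul_iff']
  refine and_congr_right fun _ => ⟨fun h v hv => ?_, fun h v hv => ?_⟩
  · have := h (g • v) (mem_smul_iff'.2 hv)
    rwa [hg, hg] at this
  · obtain ⟨v', rfl⟩ : ∃ v', g • v' = v := ⟨g⁻¹ • v, smul_inv_smul g v⟩
    rw [hg, hg]
    exact h v' (mem_smul_iff'.1 hv)

theorem erase_smul (s : Finset U) (v : U) : (g • s).erase (g • v) = g • s.erase v := by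
  ext w
  obtain ⟨u, rfl⟩ : ∃ u, g • u = w := ⟨g⁻¹ • w, smul_inv_smul g w⟩
  rw [mem_smul_iff', Finset.mem_erase, Finset.mem_erase, mem_smul_iff']
  refine and_congr_left fun _ => not_congr ?_
  exact (MulAction.injective g).eq_iff

theorem sum_smul {M : Type} [AddCommMonoid M] (s : Finset U) (F : U → M) :
    ∑ v ∈ g • s, F v = ∑ v ∈ s, F (g • v) := by
  show ∑ v ∈ s.image (g • ·), F v = _
  exact Finset.sum_image fun a _ b _ h => MulAction.injective g h

theorem sum_powersetCard_smul {M : Type} [AddCommMonoid M] (s : Finset U) (j : ℕ)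
    (F : Finset U → M) :
    ∑ B ∈ (g • s).powersetCard j, F B = ∑ B ∈ s.powersetCard j, F (g • B) := by
  refine Finset.sum_bij' (fun B _ => g⁻¹ • B) (fun B _ => g • B) ?_ ?_ ?_ ?_ ?_
  · intro B hB
    rw [Finset.mem_powersetCard] at hB ⊢
    refine ⟨?_, by rw [Finset.card_smul_finset]; exact hB.2⟩
    have h1 := Finset.smul_finset_subset_smul_finset_iff (a := g⁻¹).2 hB.1
    rwa [inv_smul_smul] at h1
  · intro B hB
    rw [Finset.mem_powersetCard] at hB ⊢
    exact ⟨Finset.smul_finset_subset_smul_finset_iff.2 hB.1, by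
      rw [Finset.card_smul_finset]; exact hB.2⟩
  · intro B _
    exact smul_inv_smul g B
  · intro B _
    exact inv_smul_smul g B
  · intro B _
    rw [smul_inv_smul]

/-- The data at `g • s` and at `s` correspond to each other. -/
structure Corr (g : Γ) (a a' : Finset V → Finset U → R) (hp hp' : V → U → R) : Prop where
  one : ∀ (ρ : Finset V) (t t' : Finset U), ∑ A ∈ ρ.powerset, a A (g • t) * a (ρ \ A) (g • t') =
    ∑ A ∈ ρ.powerset, a' A t * a' (ρ \ A) t'
  two : ∀ (ρ : Finset V) (b : V), b ∉ ρ → ∀ (t t' : Finset U) (u : U),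
    ∑ A ∈ ρ.powerset, (a (insert b A) (g • t) + hp b (g • u) * a A (g • t)) * a (ρ \ A) (g • t') =
    ∑ A ∈ ρ.powerset, (a' (insert b A) t + hp' b u * a' A t) * a' (ρ \ A) t'
  three : ∀ b u u', hp b (g • u) + hp b (g • u') = hp' b u + hp' b u'

theorem VV_smul (hg : ∀ u, ht (g • u) = ht u) {a a' : Finset V → Finset U → R}
    {hp hp' : V → U → R} (hc : Corr g a a' hp hp') {ρ : Finset V} {b : V} (hb : b ∉ ρ) {j : ℕ}
    {s : Finset U} (hs : Set.InjOn ht (s : Set U)) (hne : s.Nonempty) :
    VV ht a (hp b) b ρ j (g • s) = VV ht a' (hp' b) b ρ j s := by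
  obtain ⟨v, hv, hm⟩ := exists_low ht hne
  have h1 := lows_eq hs hv hm
  have h2 : hmin ht (hp' b) s = hp' b v := by
    unfold hmin
    rw [h1, Finset.sum_singleton]
  have h3 : hmin ht (hp b) (g • s) = hp b (g • v) := by
    unfold hmin
    rw [lows_smul hg, sum_smul, h1, Finset.sum_singleton]
  have key : ∀ (c : Finset V → Finset U → R) (h : R) (s : Finset U),
      ∑ A ∈ ρ.powerset, (cup ht j (c (insert b A)) (c (ρ \ A)) s + h * cup ht j (c A) (c (ρ \ A)) s)
        = ∑ B ∈ s.powersetCard j, ∑ A ∈ ρ.powerset,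
          (c (insert b A) (face1 ht B s) + h * c A (face1 ht B s)) * c (ρ \ A) (face2 ht B s) := by
    intro c h s
    rw [Finset.sum_comm]
    refine Finset.sum_congr rfl fun A _ => ?_
    unfold cup
    rw [Finset.mul_sum, ← Finset.sum_add_distrib]
    exact Finset.sum_congr rfl fun B _ => by ring
  unfold VV
  rw [h2, h3, key, key, sum_powersetCard_smul]
  refine Finset.sum_congr rfl fun B _ => ?_
  rw [face1_smul hg, face2_smul hg]
  exact hc.two ρ b hb _ _ v

/-- **Invariance of `VT`.** -/
theorem VT_smul (hg : ∀ u, ht (g • u) = ht u) {a a' : Finset V → Finset U → R}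
    {hp hp' : V → U → R} (hc : Corr g a a' hp hp') {q : ℕ} : ∀ (l : List V), l.Nodup →
    ∀ s : Finset U, Set.InjOn ht (s : Set U) → VT ht a hp q l (g • s) = VT ht a' hp' q l s
  | [], _, _, _ => rfl
  | b :: l, hl, s, hs => by
    obtain ⟨hb, hl'⟩ := List.nodup_cons.1 hl
    have hb' : b ∉ l.toFinset := fun h => hb (List.mem_toFinset.1 h)
    rcases s.eq_empty_or_nonempty with rfl | hne
    · rw [Finset.smul_finset_empty, VT_empty, VT_empty]
    · show (if l.length < q then VV ht a (hp b) b l.toFinset (q - l.length) (g • s) else 0) +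
          dcup ht (hp b) (VT ht a hp q l) (g • s) =
        (if l.length < q then VV ht a' (hp' b) b l.toFinset (q - l.length) s else 0) +
          dcup ht (hp' b) (VT ht a' hp' q l) s
      rw [VV_smul hg hc hb' hs hne]
      congr 1
      unfold dcup
      rw [lows_smul hg, sum_smul]
      refine Finset.sum_congr rfl fun v _ => ?_
      rw [erase_smul, VT_smul hg hc l hl' _ (hs.mono (by exact_mod_cast Finset.erase_subset v s))]
      rcases (s.erase v).eq_empty_or_nonempty with h0 | h0
      · rw [h0, VT_empty, mul_zero, mul_zero]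
      · obtain ⟨w, hw, hm⟩ := exists_low ht h0
        have h1 := lows_eq (hs.mono (by exact_mod_cast Finset.erase_subset v s)) hw hm
        have h2 : hmin ht (hp' b) (s.erase v) = hp' b w := by
          unfold hmin
          rw [h1, Finset.sum_singleton]
        have h3 : hmin ht (hp b) (g • s.erase v) = hp b (g • w) := by
          unfold hmin
          rw [lows_smul hg, sum_smul, h1, Finset.sum_singleton]
        rw [h2, h3, hc.three]

end

end Pool.Agent.H37.TM
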