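import Pool.Agent.H37.TM.Cup

/-!
# Project TM: the unstable relation

`a A` (`A` a finite set of labels) are cocycles on the subsets of a simplex `s`, `hp b` functions on the
vertices. `WW` is the product of the coboundaries of the `hp b` and of the square of `a ∅`; it is the coboundary
of `VT`.
-/

set_option autoImplicit false
set_option linter.unusedSectionVars false

open Finset

namespace Pool.Agent.H37.TM

variable {U V : Type} [DecidableEq U] [DecidableEq V] {R : Type} [CommRing R]

/-- the lowest elements -/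
def lows (ht : U → ℕ) (s : Finset U) : Finset U := s.filter fun v => ∀ u ∈ s, ht v ≤ ht u

/-- the value of `h` at the lowest vertex -/
def hmin (ht : U → ℕ) (h : U → R) (s : Finset U) : R := ∑ v ∈ lows ht s, h v

/-- the cup product of the coboundary of `h` and of `w` -/
def dcup (ht : U → ℕ) (h : U → R) (w : Finset U → R) (s : Finset U) : R :=
  ∑ v ∈ lows ht s, (h v + hmin ht h (s.erase v)) * w (s.erase v)

theorem lows_eq {ht : U → ℕ} {s : Finset U} (hs : Set.InjOn ht (s : Set U)) {v : U} (hv : v ∈ s)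
    (hm : ∀ u ∈ s, ht v ≤ ht u) : lows ht s = {v} := by
  ext u
  unfold lows
  rw [Finset.mem_filter, Finset.mem_singleton]
  constructor
  · rintro ⟨h1, h2⟩
    exact hs h1 hv (le_antisymm (h2 v hv) (hm u h1))
  · rintro rfl
    exact ⟨hv, hm⟩

theorem lows_empty (ht : U → ℕ) : lows ht ∅ = ∅ := rfl

theorem exists_low (ht : U → ℕ) {s : Finset U} (hs : s.Nonempty) : ∃ v ∈ s, ∀ u ∈ s, ht v ≤ ht u :=
  Finset.exists_min_image s ht hs

/-- the Leibniz rule -/
theorem cob_hmin [CharP R 2] (ht : U → ℕ) (h : U → R) (w : Finset U → R) {s : Finset U}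
    (hs : Set.InjOn ht (s : Set U)) :
    cob (fun t => hmin ht h t * w t) s = dcup ht h w s + hmin ht h s * cob w s := by
  rcases s.eq_empty_or_nonempty with rfl | hne
  · simp [cob, dcup, hmin, lows_empty]
  · obtain ⟨v, hv, hm⟩ := exists_low ht hne
    have h1 := lows_eq hs hv hm
    have h2 : ∀ u ∈ s.erase v, lows ht (s.erase u) = {v} := by
      intro u hu
      refine lows_eq (hs.mono ?_) (Finset.mem_erase.2 ⟨(Finset.ne_of_mem_erase hu).symm, hv⟩)
        fun u' hu' => hm u' (Finset.mem_of_mem_erase hu')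
      exact_mod_cast Finset.erase_subset u s
    unfold cob dcup
    rw [h1, Finset.sum_singleton]
    conv_lhs => rw [← Finset.add_sum_erase s _ hv]
    conv_rhs => rw [← Finset.add_sum_erase s (fun u => w (s.erase u)) hv]
    have h3 : ∑ u ∈ s.erase v, hmin ht h (s.erase u) * w (s.erase u) =
        h v * ∑ u ∈ s.erase v, w (s.erase u) := by
      rw [Finset.mul_sum]
      refine Finset.sum_congr rfl fun u hu => ?_
      unfold hmin
      rw [h2 u hu, Finset.sum_singleton]
    have h4 : hmin ht h s = h v := by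
      unfold hmin
      rw [h1, Finset.sum_singleton]
    rw [h3, h4]
    have h5 := add_self_two (h v * w (s.erase v))
    linear_combination -h5

theorem cob_congr {x y : Finset U → R} {s : Finset U} (h : ∀ t ⊆ s, x t = y t) : cob x s = cob y s :=
  Finset.sum_congr rfl fun v _ => h _ (Finset.erase_subset v s)

theorem dcup_congr {ht : U → ℕ} {h : U → R} {x y : Finset U → R} {s : Finset U}
    (hxy : ∀ t ⊆ s, x t = y t) : dcup ht h x s = dcup ht h y s :=
  Finset.sum_congr rfl fun v _ => by rw [hxy _ (Finset.erase_subset v s)]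

theorem cob_add (x y : Finset U → R) (s : Finset U) :
    cob (fun t => x t + y t) s = cob x s + cob y s := Finset.sum_add_distrib

theorem cob_zero (s : Finset U) : cob (fun _ => (0 : R)) s = 0 := by
  simp [cob]

theorem cob_sum {ι : Type} (I : Finset ι) (x : ι → Finset U → R) (s : Finset U) :
    cob (fun t => ∑ i ∈ I, x i t) s = ∑ i ∈ I, cob (x i) s := by
  unfold cob
  rw [Finset.sum_comm]

theorem dcup_add (ht : U → ℕ) (h : U → R) (x y : Finset U → R) (s : Finset U) :
    dcup ht h (fun t => x t + y t) s = dcup ht h x s + dcup ht h y s := by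
  unfold dcup
  rw [← Finset.sum_add_distrib]
  exact Finset.sum_congr rfl fun v _ => by ring

theorem dcup_zero (ht : U → ℕ) (h : U → R) (s : Finset U) : dcup ht h (fun _ => 0) s = 0 := by
  simp [dcup]

/-- the coboundary commutes with the multiplication by a cocycle -/
theorem cob_dcup [CharP R 2] (ht : U → ℕ) (h : U → R) (w : Finset U → R) {s : Finset U}
    (hs : Set.InjOn ht (s : Set U)) : cob (dcup ht h w) s = dcup ht h (cob w) s := by
  have h1 : ∀ t ⊆ s, dcup ht h w t =
      cob (fun t => hmin ht h t * w t) t + hmin ht h t * cob w t := by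
    intro t hts
    rw [cob_hmin ht h w (hs.mono (by exact_mod_cast hts)), add_assoc, add_self_two, add_zero]
  rw [cob_congr h1, cob_add, cob_cob, cob_hmin ht h _ hs, cob_cob, mul_zero, add_zero, zero_add]

/-- the components of the product of `a` with itself -/
def PQ (ht : U → ℕ) (a : Finset V → Finset U → R) (ρ : Finset V) (j : ℕ) (s : Finset U) : R :=
  ∑ A ∈ ρ.powerset, cup ht j (a A) (a (ρ \ A)) s

/-- the cochain `V_m` -/
def VV (ht : U → ℕ) (a : Finset V → Finset U → R) (h : U → R) (b : V) (ρ : Finset V) (j : ℕ)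
    (s : Finset U) : R :=
  ∑ A ∈ ρ.powerset, (cup ht j (a (insert b A)) (a (ρ \ A)) s +
    hmin ht h s * cup ht j (a A) (a (ρ \ A)) s)

theorem cup_zero_left {ht : U → ℕ} {j : ℕ} {x y : Finset U → R} {s : Finset U}
    (hx : ∀ t ⊆ s, x t = 0) : cup ht j x y s = 0 :=
  Finset.sum_eq_zero fun B _ => by rw [hx _ (face1_subset _ _ _), zero_mul]

theorem cup_zero_right {ht : U → ℕ} {j : ℕ} {x y : Finset U → R} {s : Finset U}
    (hy : ∀ t ⊆ s, y t = 0) : cup ht j x y s = 0 :=
  Finset.sum_eq_zero fun B _ => by rw [hy _ (face2_subset _ _ _), mul_zero]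

/-- the coboundary of the cup product of cocycles -/
theorem cob_cup' [CharP R 2] {ht : U → ℕ} {j : ℕ} {x y : Finset U → R} {s : Finset U}
    (hs : Set.InjOn ht (s : Set U)) (hx : ∀ t ⊆ s, cob x t = 0) (hy : ∀ t ⊆ s, cob y t = 0) :
    cob (cup ht (j + 1) x y) s = cup ht j x y s + cup ht j y x s := by
  rw [cob_cup ht j x y s hs, cup_zero_left hx, cup_zero_right hy, zero_add, zero_add]

theorem sum_powerset_compl {M : Type} [AddCommMonoid M] (ρ : Finset V) (F : Finset V → M) :
    ∑ A ∈ ρ.powerset, F (ρ \ A) = ∑ A ∈ ρ.powerset, F A := by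
  refine Finset.sum_bij' (fun A _ => ρ \ A) (fun A _ => ρ \ A) ?_ ?_ ?_ ?_ ?_
  · intro A _
    exact Finset.mem_powerset.2 Finset.sdiff_subset
  · intro A _
    exact Finset.mem_powerset.2 Finset.sdiff_subset
  · intro A hA
    exact Finset.sdiff_sdiff_eq_self (Finset.mem_powerset.1 hA)
  · intro A hA
    exact Finset.sdiff_sdiff_eq_self (Finset.mem_powerset.1 hA)
  · intro A _
    rfl

theorem PQ_insert (ht : U → ℕ) (a : Finset V → Finset U → R) {ρ : Finset V} {b : V} (hb : b ∉ ρ)
    (j : ℕ) (s : Finset U) : PQ ht a (insert b ρ) j s =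
      ∑ A ∈ ρ.powerset, (cup ht j (a (insert b A)) (a (ρ \ A)) s +
        cup ht j (a (ρ \ A)) (a (insert b A)) s) := by
  unfold PQ
  rw [Finset.sum_powerset_insert hb, Finset.sum_add_distrib, add_comm]
  congr 1
  · refine Finset.sum_congr rfl fun A hA => ?_
    have h1 : b ∉ A := fun h => hb (Finset.mem_powerset.1 hA h)
    have h2 : insert b ρ \ insert b A = ρ \ A := by
      ext v
      simp only [Finset.mem_sdiff, Finset.mem_insert, not_or]
      constructor
      · rintro ⟨h3 | h3, h4, h5⟩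
        · exact absurd h3 h4
        · exact ⟨h3, h5⟩
      · rintro ⟨h3, h5⟩
        exact ⟨Or.inr h3, fun h => hb (h ▸ h3), h5⟩
    rw [h2]
  · rw [← sum_powerset_compl ρ fun A => cup ht j (a A) (a (insert b ρ \ A)) s]
    refine Finset.sum_congr rfl fun A hA => ?_
    have h2 : insert b ρ \ (ρ \ A) = insert b A := by
      ext v
      simp only [Finset.mem_sdiff, Finset.mem_insert, not_and, not_not]
      have h3 := Finset.mem_powerset.1 hA
      constructor
      · rintro ⟨h4 | h4, h5⟩
        · exact Or.inl h4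
        · exact Or.inr (h5 h4)
      · rintro (h4 | h4)
        · exact ⟨Or.inl h4, fun h => absurd (h4 ▸ h) hb⟩
        · exact ⟨Or.inr (h3 h4), fun _ => h4⟩
    rw [h2]

theorem cob_PQ [CharP R 2] {ht : U → ℕ} {a : Finset V → Finset U → R} {ρ : Finset V} {j : ℕ}
    {s : Finset U} (hs : Set.InjOn ht (s : Set U)) (ha : ∀ A, ∀ t ⊆ s, cob (a A) t = 0) :
    cob (PQ ht a ρ (j + 1)) s = 0 := by
  unfold PQ
  rw [cob_sum]
  have h1 : ∀ A ∈ ρ.powerset, cob (cup ht (j + 1) (a A) (a (ρ \ A))) s =
      cup ht j (a A) (a (ρ \ A)) s + cup ht j (a (ρ \ A)) (a A) s := fun A _ =>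
    cob_cup' hs (ha A) (ha (ρ \ A))
  rw [Finset.sum_congr rfl h1, Finset.sum_add_distrib]
  have h2 : ∑ A ∈ ρ.powerset, cup ht j (a (ρ \ A)) (a A) s =
      ∑ A ∈ ρ.powerset, cup ht j (a A) (a (ρ \ A)) s := by
    rw [← sum_powerset_compl ρ fun A => cup ht j (a A) (a (ρ \ A)) s]
    refine Finset.sum_congr rfl fun A hA => ?_
    rw [Finset.sdiff_sdiff_eq_self (Finset.mem_powerset.1 hA)]
  rw [h2, add_self_two]

/-- one step of the unstable relation -/
theorem cob_VV [CharP R 2] {ht : U → ℕ} {a : Finset V → Finset U → R} {h : U → R} {b : V}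
    {ρ : Finset V} (hb : b ∉ ρ) {j : ℕ} {s : Finset U} (hs : Set.InjOn ht (s : Set U))
    (ha : ∀ A, ∀ t ⊆ s, cob (a A) t = 0) :
    cob (VV ht a h b ρ (j + 1)) s = PQ ht a (insert b ρ) j s + dcup ht h (PQ ht a ρ (j + 1)) s := by
  have h1 : VV ht a h b ρ (j + 1) = fun t =>
      (∑ A ∈ ρ.powerset, cup ht (j + 1) (a (insert b A)) (a (ρ \ A)) t) +
        hmin ht h t * PQ ht a ρ (j + 1) t := by
    funext t
    unfold VV PQ
    rw [Finset.sum_add_distrib, Finset.mul_sum]
  rw [h1, cob_add, cob_sum, cob_hmin ht h _ hs, cob_PQ hs ha, mul_zero, add_zero,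
    PQ_insert ht a hb]
  congr 1
  exact Finset.sum_congr rfl fun A _ => cob_cup' hs (ha _) (ha _)

/-- the product of the coboundaries of the `hp b`, `b ∈ l`, and of the square of `a ∅` -/
def WW (ht : U → ℕ) (a : Finset V → Finset U → R) (hp : V → U → R) (q : ℕ) :
    List V → Finset U → R
  | [] => PQ ht a ∅ q
  | b :: l => dcup ht (hp b) (WW ht a hp q l)

/-- the cochain whose coboundary is `WW` -/
def VT (ht : U → ℕ) (a : Finset V → Finset U → R) (hp : V → U → R) (q : ℕ) :
    List V → Finset U → R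
  | [] => fun _ => 0
  | b :: l => fun s =>
    (if l.length < q then VV ht a (hp b) b l.toFinset (q - l.length) s else 0) +
      dcup ht (hp b) (VT ht a hp q l) s

theorem PQ_zero {ht : U → ℕ} {a : Finset V → Finset U → R} (h0 : ∀ A, a A ∅ = 0) (ρ : Finset V)
    (s : Finset U) : PQ ht a ρ 0 s = 0 := by
  unfold PQ cup
  refine Finset.sum_eq_zero fun A _ => ?_
  rw [Finset.powersetCard_zero, Finset.sum_singleton]
  have h1 : face2 ht ∅ s = ∅ := by
    unfold face2 below
    exact Finset.filter_false_of_mem fun v _ => by simp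
  rw [h1, h0, mul_zero]

theorem WW_aux [CharP R 2] {ht : U → ℕ} {a : Finset V → Finset U → R} {hp : V → U → R} {q : ℕ}
    (h0 : ∀ A, a A ∅ = 0) : ∀ (l : List V), l.Nodup → ∀ s : Finset U,
    Set.InjOn ht (s : Set U) → (∀ A, ∀ t ⊆ s, cob (a A) t = 0) →
    WW ht a hp q l s = (if l.length ≤ q then PQ ht a l.toFinset (q - l.length) s else 0) +
      cob (VT ht a hp q l) s
  | [], _, s, _, _ => by
    show PQ ht a ∅ q s = (if 0 ≤ q then PQ ht a ∅ (q - 0) s else 0) + cob (fun _ => 0) s
    rw [cob_zero, add_zero, if_pos (Nat.zero_le _), Nat.sub_zero]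
  | b :: l, hl, s, hs, ha => by
    obtain ⟨hb, hl'⟩ := List.nodup_cons.1 hl
    have hb' : b ∉ l.toFinset := fun h => hb (List.mem_toFinset.1 h)
    have ih := fun t (hts : t ⊆ s) => WW_aux (hp := hp) (q := q) h0 l hl' t
      (hs.mono (by exact_mod_cast hts)) fun A t' ht' => ha A t' (ht'.trans hts)
    show dcup ht (hp b) (WW ht a hp q l) s = _
    rw [dcup_congr ih, dcup_add, ← cob_dcup ht (hp b) _ hs]
    have h2 : cob (VT ht a hp q (b :: l)) s =
        cob (fun t => if l.length < q then VV ht a (hp b) b l.toFinset (q - l.length) t else 0) s +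
          cob (dcup ht (hp b) (VT ht a hp q l)) s := cob_add _ _ s
    rw [h2, ← add_assoc]
    congr 1
    rw [List.length_cons, List.toFinset_cons]
    by_cases h3 : l.length < q
    · obtain ⟨j, hj⟩ : ∃ j, q - l.length = j + 1 := ⟨q - l.length - 1, by omega⟩
      have hj' : q - (l.length + 1) = j := by omega
      have h4 : l.length ≤ q := h3.le
      have h5 : l.length + 1 ≤ q := h3
      simp only [if_pos h3, if_pos h4, if_pos h5, hj, hj']
      rw [cob_VV hb' hs ha, ← add_assoc, add_self_two, zero_add]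
    · have h5 : ¬ l.length + 1 ≤ q := h3
      simp only [if_neg h3, if_neg h5]
      rw [cob_zero, add_zero]
      by_cases h4 : l.length ≤ q
      · have h6 : q - l.length = 0 := by omega
        simp only [if_pos h4, h6]
        rw [dcup_congr (y := fun _ => 0) fun t _ => PQ_zero h0 _ t, dcup_zero]
      · simp only [if_neg h4]
        exact dcup_zero _ _ _

/-- **The unstable relation.** -/
theorem WW_eq [CharP R 2] {ht : U → ℕ} {a : Finset V → Finset U → R} {hp : V → U → R} {q : ℕ}
    (h0 : ∀ A, a A ∅ = 0) {l : List V} (hl : l.Nodup) (hlq : q ≤ l.length) {s : Finset U}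
    (hs : Set.InjOn ht (s : Set U)) (ha : ∀ A, ∀ t ⊆ s, cob (a A) t = 0) :
    WW ht a hp q l s = cob (VT ht a hp q l) s := by
  rw [WW_aux h0 l hl s hs ha]
  by_cases h1 : l.length ≤ q
  · have h2 : q - l.length = 0 := by omega
    rw [if_pos h1, h2, PQ_zero h0, zero_add]
  · rw [if_neg h1, zero_add]

end Pool.Agent.H37.TM
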