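import Mathlib

/-!
# Project TM: sums over orbits
-/

set_option autoImplicit false
set_option linter.unusedSectionVars false

open Finset

namespace Pool.Agent.H37.TM

/-- the sum over the orbits of an invariant function -/
noncomputable def osum (Γ : Type) [Group Γ] {A M : Type} [MulAction Γ A] [AddCommMonoid M]
    (F : A → M) : M := ∑ᶠ q : MulAction.orbitRel.Quotient Γ A, F q.out

section aux

variable {Γ : Type} [Group Γ] {A B M : Type} [MulAction Γ A] [MulAction Γ B]

/-- the orbit of `a` -/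
def omk (Γ : Type) [Group Γ] {A : Type} [MulAction Γ A] (a : A) :
    MulAction.orbitRel.Quotient Γ A := Quotient.mk (MulAction.orbitRel Γ A) a

theorem omk_out (q : MulAction.orbitRel.Quotient Γ A) : omk Γ q.out = q := Quotient.out_eq q

theorem omk_smul (g : Γ) (a : A) : omk Γ (g • a) = omk Γ a := by
  apply Quotient.sound
  change (MulAction.orbitRel Γ A).r (g • a) a
  rw [MulAction.orbitRel_apply]
  exact ⟨g, rfl⟩

theorem omk_eq {a b : A} (h : omk Γ a = omk Γ b) : ∃ g : Γ, g • a = b := by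
  have h2 : (MulAction.orbitRel Γ A).r a b := Quotient.exact h
  rw [MulAction.orbitRel_apply] at h2
  obtain ⟨g, hg⟩ := h2
  exact ⟨g⁻¹, by rw [← hg]; simp⟩

theorem out_omk (a : A) : ∃ g : Γ, g • a = (omk Γ a).out :=
  omk_eq (omk_out _).symm

/-- finitely many orbits meet the support -/
theorem finite_out [Zero M] (F : A → M)
    (hF : ∃ S : Finset A, ∀ a, F a ≠ 0 → ∃ g : Γ, g • a ∈ S) :
    (Function.support fun q : MulAction.orbitRel.Quotient Γ A => F q.out).Finite := by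
  classical
  obtain ⟨S, hS⟩ := hF
  refine (S.finite_toSet.image (omk Γ)).subset ?_
  intro q hq
  obtain ⟨g, hg⟩ := hS q.out hq
  refine ⟨g • q.out, hg, ?_⟩
  rw [omk_smul, omk_out]

/-- the sum over orbits of rows is the sum over orbits of pairs -/
theorem osum_pairs [AddCommMonoid M]
    (k : A → B → M) (hk : ∀ (g : Γ) a b, k (g • a) (g • b) = k a b)
    (hA : ∀ a b, k a b ≠ 0 → ∀ g : Γ, g • a = a → g = 1)
    (hrow : ∀ a, {b | k a b ≠ 0}.Finite)
    (hfin : ∃ F : Finset A, ∀ a b, k a b ≠ 0 → ∃ g : Γ, g • a ∈ F) :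
    osum Γ (fun a => ∑ᶠ b, k a b) = osum Γ fun p : A × B => k p.1 p.2 := by
  classical
  unfold osum
  let f : MulAction.orbitRel.Quotient Γ A × B → M := fun x => k x.1.out x.2
  have hf : (Function.support f).Finite := by
    obtain ⟨F, hF⟩ := hfin
    refine ((F.finite_toSet.image (omk Γ)).biUnion
      (t := fun q => (fun b => (q, b)) '' {b | k q.out b ≠ 0})
      (fun q _ => (hrow q.out).image _)).subset ?_
    rintro ⟨q, b⟩ h
    have h' : k q.out b ≠ 0 := h
    obtain ⟨g, hg⟩ := hF q.out b h'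
    refine Set.mem_biUnion (x := q) ⟨g • q.out, hg, ?_⟩ ⟨b, h', rfl⟩
    rw [omk_smul, omk_out]
  have h1 : ∑ᶠ q : MulAction.orbitRel.Quotient Γ A, ∑ᶠ b, k q.out b = ∑ᶠ x, f x :=
    (finsum_curry f hf).symm
  rw [h1]
  let g : MulAction.orbitRel.Quotient Γ (A × B) → M := fun Q => k Q.out.1 Q.out.2
  change ∑ᶠ x, f x = ∑ᶠ Q, g Q
  rw [← finsum_mem_support f, ← finsum_mem_support g]
  have hval : ∀ x : MulAction.orbitRel.Quotient Γ A × B, f x = g (omk Γ (x.1.out, x.2)) := by
    rintro ⟨q, b⟩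
    obtain ⟨h, hh⟩ := out_omk (Γ := Γ) (q.out, b)
    change k q.out b = k (omk Γ (q.out, b)).out.1 (omk Γ (q.out, b)).out.2
    rw [← hh]
    exact (hk h _ _).symm
  refine finsum_mem_eq_of_bijOn (fun x => omk Γ (x.1.out, x.2)) ⟨?_, ?_, ?_⟩
    (fun x _ => hval x)
  · intro x hx
    have hx' : f x ≠ 0 := hx
    rw [hval] at hx'
    exact hx'
  · rintro ⟨q, b⟩ hx ⟨q', b'⟩ hx' h
    have hx1 : k q.out b ≠ 0 := hx
    obtain ⟨g, hg⟩ := omk_eq h
    have e1 : g • q.out = q'.out := congrArg Prod.fst hg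
    have e2 : g • b = b' := congrArg Prod.snd hg
    have e3 : q = q' := by
      rw [← omk_out q, ← omk_out q', ← e1, omk_smul]
    subst e3
    have e4 := hA _ _ hx1 g e1
    subst e4
    rw [one_smul] at e2
    rw [e2]
  · intro Q hQ
    have hQ' : k Q.out.1 Q.out.2 ≠ 0 := hQ
    obtain ⟨h, hh⟩ := out_omk (Γ := Γ) Q.out.1
    have e : omk Γ ((omk Γ Q.out.1).out, h • Q.out.2) = Q := by
      rw [← hh]
      have : (h • Q.out.1, h • Q.out.2) = h • Q.out := rfl
      rw [this, omk_smul, omk_out]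
    refine ⟨(omk Γ Q.out.1, h • Q.out.2), ?_, e⟩
    change k (omk Γ Q.out.1).out (h • Q.out.2) ≠ 0
    rw [← hh, hk]
    exact hQ'

end aux

/-- the columns of an invariant kernel are finite, if the rows are finite, `Γ` acts freely on the support and
the rows form finitely many orbits -/
theorem finite_col {Γ A B M : Type} [Group Γ] [MulAction Γ A] [MulAction Γ B] [Zero M]
    (k : A → B → M) (hk : ∀ (g : Γ) a b, k (g • a) (g • b) = 0 ↔ k a b = 0)
    (hB : ∀ a b, k a b ≠ 0 → ∀ g : Γ, g • b = b → g = 1)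
    (hrow : ∀ a, {b | k a b ≠ 0}.Finite)
    (hfin : ∃ F : Finset A, ∀ a b, k a b ≠ 0 → ∃ g : Γ, g • a ∈ F) (b : B) :
    {a | k a b ≠ 0}.Finite := by
  classical
  obtain ⟨F, hF⟩ := hfin
  have hg : ∀ f : A, {g : Γ | k f (g • b) ≠ 0}.Finite := by
    intro f
    refine Set.Finite.of_finite_image (f := fun g : Γ => g • b)
      ((hrow f).subset ?_) ?_
    · rintro _ ⟨g, hg, rfl⟩
      exact hg
    · intro g hg g' hg' h
      have hg0 : k f (g • b) ≠ 0 := hg
      have h' : g • b = g' • b := h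
      have h1 : (g' * g⁻¹) • (g • b) = g • b := by
        rw [mul_smul, inv_smul_smul, h']
      have h2 := hB _ _ hg0 _ h1
      exact (mul_inv_eq_one.1 h2).symm
  refine (F.finite_toSet.biUnion (t := fun f => (fun g : Γ => g⁻¹ • f) '' {g : Γ | k f (g • b) ≠ 0})
    (fun f _ => (hg f).image _)).subset ?_
  intro a ha
  have ha' : k a b ≠ 0 := ha
  obtain ⟨g, hgF⟩ := hF a b ha'
  refine Set.mem_biUnion hgF ⟨g, ?_, inv_smul_smul g a⟩
  exact fun h => ha' ((hk g a b).1 h)

/-- **Double counting modulo `Γ`.** The kernel `k` is invariant, `Γ` acts freely on its support, the rows and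
columns are finite, and the rows that do not vanish form finitely many orbits. -/
theorem osum_comm {Γ A B M : Type} [Group Γ] [MulAction Γ A] [MulAction Γ B] [AddCommMonoid M]
    (k : A → B → M) (hk : ∀ (g : Γ) a b, k (g • a) (g • b) = k a b)
    (hA : ∀ a b, k a b ≠ 0 → ∀ g : Γ, g • a = a → g = 1)
    (hB : ∀ a b, k a b ≠ 0 → ∀ g : Γ, g • b = b → g = 1)
    (hrow : ∀ a, {b | k a b ≠ 0}.Finite)
    (hfin : ∃ F : Finset A, ∀ a b, k a b ≠ 0 → ∃ g : Γ, g • a ∈ F) :
    osum Γ (fun a => ∑ᶠ b, k a b) = osum Γ fun b => ∑ᶠ a, k a b := by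
  classical
  have hcol : ∀ b, {a | k a b ≠ 0}.Finite :=
    finite_col k (fun g a b => by rw [hk]) hB hrow hfin
  have hfin' : ∃ F : Finset B, ∀ b a, k a b ≠ 0 → ∃ g : Γ, g • b ∈ F := by
    obtain ⟨F, hF⟩ := hfin
    refine ⟨F.biUnion fun a => (hrow a).toFinset, fun b a h => ?_⟩
    obtain ⟨g, hg⟩ := hF a b h
    refine ⟨g, Finset.mem_biUnion.2 ⟨g • a, hg, ?_⟩⟩
    rw [Set.Finite.mem_toFinset]
    change k (g • a) (g • b) ≠ 0
    rwa [hk]
  rw [osum_pairs k hk hA hrow hfin,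
    osum_pairs (fun b a => k a b) (fun g b a => hk g a b) (fun b a h => hB a b h) hcol hfin']
  unfold osum
  refine finsum_eq_of_bijective
    (fun Q : MulAction.orbitRel.Quotient Γ (A × B) => omk Γ (Q.out.2, Q.out.1)) ⟨?_, ?_⟩ ?_
  · intro Q Q' h
    obtain ⟨g, hg⟩ := omk_eq h
    have e1 : g • Q.out.2 = Q'.out.2 := congrArg Prod.fst hg
    have e2 : g • Q.out.1 = Q'.out.1 := congrArg Prod.snd hg
    have e3 : g • Q.out = Q'.out := Prod.ext e2 e1
    rw [← omk_out Q, ← omk_out Q', ← e3, omk_smul]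
  · intro Q
    refine ⟨omk Γ (Q.out.2, Q.out.1), ?_⟩
    obtain ⟨g, hg⟩ := out_omk (Γ := Γ) (Q.out.2, Q.out.1)
    have e : ((omk Γ (Q.out.2, Q.out.1)).out.2, (omk Γ (Q.out.2, Q.out.1)).out.1) = g • Q.out := by
      rw [← hg]
      rfl
    change omk Γ ((omk Γ (Q.out.2, Q.out.1)).out.2, (omk Γ (Q.out.2, Q.out.1)).out.1) = Q
    rw [e, omk_smul, omk_out]
  · intro Q
    change k Q.out.1 Q.out.2 = k (omk Γ (Q.out.2, Q.out.1)).out.2 (omk Γ (Q.out.2, Q.out.1)).out.1
    obtain ⟨g, hg⟩ := out_omk (Γ := Γ) (Q.out.2, Q.out.1)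
    rw [← hg]
    exact (hk g _ _).symm

/-- the sum over orbits can be computed with any set of representatives -/
theorem osum_eq_of_reps {Γ A M J : Type} [Group Γ] [MulAction Γ A] [AddCommMonoid M] [Fintype J]
    (F : A → M) (hF : ∀ (g : Γ) a, F (g • a) = F a) (r : J → A)
    (hr : ∀ i j (g : Γ), g • r i = r j → i = j)
    (hsupp : ∀ a, F a ≠ 0 → ∃ (g : Γ) (j : J), g • a = r j) :
    osum Γ F = ∑ j, F (r j) := by
  classical
  unfold osum
  have hinj : Function.Injective fun j : J => omk Γ (r j) := by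
    intro i j h
    obtain ⟨g, hg⟩ := omk_eq h
    exact hr i j g hg
  have hout : ∀ a, F (omk Γ a).out = F a := by
    intro a
    obtain ⟨g, hg⟩ := out_omk (Γ := Γ) a
    rw [← hg, hF]
  rw [← finsum_eq_sum_of_fintype]
  calc ∑ᶠ q : MulAction.orbitRel.Quotient Γ A, F q.out
      = ∑ᶠ q ∈ Set.range (fun j : J => omk Γ (r j)), F q.out := by
        refine finsum_congr fun q => ?_
        rw [finsum_eq_if]
        split_ifs with hq
        · rfl
        · by_contra h
          obtain ⟨g, j, hj⟩ := hsupp q.out h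
          refine hq ⟨j, ?_⟩
          change omk Γ (r j) = q
          rw [← hj, omk_smul, omk_out]
    _ = ∑ᶠ j, F (omk Γ (r j)).out := finsum_mem_range hinj
    _ = ∑ᶠ j, F (r j) := by simp only [hout]

/-- additivity -/
theorem osum_add {Γ A M : Type} [Group Γ] [MulAction Γ A] [AddCommMonoid M] (F G : A → M)
    (hF : ∃ S : Finset A, ∀ a, F a ≠ 0 → ∃ g : Γ, g • a ∈ S)
    (hG : ∃ S : Finset A, ∀ a, G a ≠ 0 → ∃ g : Γ, g • a ∈ S) :
    osum Γ (fun a => F a + G a) = osum Γ F + osum Γ G := by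
  unfold osum
  exact finsum_add_distrib (finite_out F hF) (finite_out G hG)

end Pool.Agent.H37.TM
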