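import Pool.Agent.H37.TM.Tot

/-!
# Project TM: pseudomanifolds

`Psm K B n`: what is used of the manifold apart from the exactness of the complex of pairs. The
simplicial complex of the flags of a homology manifold is of this kind.
-/

set_option autoImplicit false
set_option linter.unusedSectionVars false

open Finset Pointwise

namespace Pool.Agent.H37.TM

variable {U : Type} [DecidableEq U]

/-- Locally finite complexes of dimension `n` with a subcomplex `B` such that every simplex with
`n` vertices which is not in `B` has an even number of cofaces. -/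
structure Psm (K B : Set (Finset U)) (n : ℕ) : Prop where
  ne : ∀ s ∈ K, s.Nonempty
  down : ∀ s ∈ K, ∀ t, t ⊆ s → t.Nonempty → t ∈ K
  bd_sub : B ⊆ K
  bd_down : ∀ s ∈ B, ∀ t, t ⊆ s → t.Nonempty → t ∈ B
  locfin : ∀ s ∈ K, {t | t ∈ K ∧ s ⊆ t}.Finite
  card_le : ∀ s ∈ K, s.card ≤ n + 1
  even : ∀ s ∈ K, s ∉ B → s.card = n → ((cofs K s (n + 1)).card : ZMod 2) = 0

theorem mem_cofsP {K B : Set (Finset U)} {n : ℕ} (hM : Psm K B n) {t : Finset U} (ht : t ∈ K)
    {j : ℕ} {t' : Finset U} : t' ∈ cofs K t j ↔ t' ∈ K ∧ t ⊆ t' ∧ t'.card = j := by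
  have h : {t' | t' ∈ K ∧ t ⊆ t' ∧ t'.card = j}.Finite :=
    (hM.locfin t ht).subset fun t' h => ⟨h.1, h.2.1⟩
  unfold cofs
  rw [dif_pos h, Set.Finite.mem_toFinset]
  rfl

/-- an interior simplex with `n` vertices has an even number of cofaces -/
theorem card_cofs_even {K B : Set (Finset U)} {n : ℕ} (hM : Mfd K B n) {s : Finset U}
    (hs : s ∈ K) (hB : s ∉ B) (hc : s.card = n) : ((cofs K s (n + 1)).card : ZMod 2) = 0 := by
  classical
  have hB' : ∀ t ∈ K, s ⊆ t → t ∉ B := fun t _ hst h => hB (hM.bd_down t h s hst (hM.ne s hs))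
  have h1 := (hM.top s hs (fun t => if t ∈ cofs K s (n + 1) then 1 else 0) (by
    intro t ht'
    beta_reduce at ht'
    split_ifs at ht' with h
    · rw [mem_cofs hM hs] at h
      exact ⟨h.1, hB' t h.1 h.2.1, h.2⟩
    · exact absurd rfl ht')).2 ⟨fun t => if t = s then 1 else 0, by
      intro t ht'
      beta_reduce at ht'
      split_ifs at ht' with h
      · rw [h]; exact ⟨hs, hB, subset_rfl, hc⟩
      · exact absurd rfl ht', by
      intro t htK htB hst
      beta_reduce
      have hcard := hM.card_le t htK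
      have hst' := Finset.card_le_card hst
      by_cases h : t.card = n + 1
      · rw [if_pos ((mem_cofs hM hs).2 ⟨htK, hst, h⟩)]
        have h7 : (t \ s).card = 1 := by
          rw [Finset.card_sdiff_of_subset hst]; omega
        obtain ⟨w, hw⟩ := Finset.card_eq_one.1 h7
        rw [hw, Finset.sum_singleton, if_pos]
        have hw1 : w ∈ t ∧ w ∉ s := by
          rw [← Finset.mem_sdiff, hw]; exact Finset.mem_singleton_self w
        have h8 : s ⊆ t.erase w := Finset.subset_erase.2 ⟨hst, hw1.2⟩
        refine (Finset.eq_of_subset_of_card_le h8 ?_).symm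
        rw [Finset.card_erase_of_mem hw1.1]; omega
      · rw [if_neg (fun h' => h ((mem_cofs hM hs).1 h').2.2)]
        have h9 : t = s := (Finset.eq_of_subset_of_card_le hst (by omega)).symm
        rw [h9, Finset.sdiff_self, Finset.sum_empty]⟩
  rw [← h1, finsum_eq_sum_of_support_subset (s := cofs K s (n + 1)) _ (by
    intro t ht'
    rw [Function.mem_support] at ht'
    split_ifs at ht' with h
    · exact h
    · exact absurd rfl ht'), Finset.sum_ite_mem, Finset.inter_self, Finset.sum_const,
    nsmul_eq_mul, mul_one]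

theorem Mfd.psm {K B : Set (Finset U)} {n : ℕ} (hM : Mfd K B n) : Psm K B n where
  ne := hM.ne
  down := hM.down
  bd_sub := hM.bd_sub
  bd_down := hM.bd_down
  locfin := hM.locfin
  card_le := hM.card_le
  even := fun _ hs hB hc => card_cofs_even hM hs hB hc

/-- a free simplicial action -/
structure SAct (Γ : Type) [Group Γ] [MulAction Γ U] (K B : Set (Finset U)) : Prop where
  K_mem : ∀ (g : Γ) (s : Finset U), s ∈ K → g • s ∈ K
  B_mem : ∀ (g : Γ) (s : Finset U), s ∈ B → g • s ∈ B
  free : ∀ (g : Γ) (s : Finset U), s ∈ K → g • s = s → g = 1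

theorem MAct.sact {Γ : Type} [Group Γ] [MulAction Γ U] {K B : Set (Finset U)} {n : ℕ}
    {ht : U → ℕ} (hA : MAct Γ K B n ht) : SAct Γ K B := ⟨hA.K_mem, hA.B_mem, hA.free⟩

end Pool.Agent.H37.TM
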