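import Pool.Agent.H37.TM.Psm

/-!
# Project TM: the complex of the flags

The flags of a homology manifold form a pseudomanifold (`sd_psm`); its vertices are the simplices.
-/

set_option autoImplicit false
set_option linter.unusedSectionVars false

open Finset Pointwise

namespace Pool.Agent.H37.TM

variable {U : Type} [DecidableEq U] {K B : Set (Finset U)} {n : ℕ}

/-- the simplices of `K`, the vertices of the subdivision -/
abbrev Sx (K : Set (Finset U)) : Type := {s : Finset U // s ∈ K}

/-- the flags of `K` -/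
def sdK (K : Set (Finset U)) : Set (Finset (Sx K)) :=
  {c | c.Nonempty ∧ ∀ a ∈ c, ∀ b ∈ c, a.1 ⊆ b.1 ∨ b.1 ⊆ a.1}

/-- the flags of `B` -/
def sdB (K B : Set (Finset U)) : Set (Finset (Sx K)) :=
  {c | c ∈ sdK K ∧ ∀ a ∈ c, a.1 ∈ B}

theorem sd_sub {c : Finset (Sx K)} (hc : c ∈ sdK K) {a b : Sx K} (ha : a ∈ c) (hb : b ∈ c)
    (h : a.1.card ≤ b.1.card) : a.1 ⊆ b.1 := by
  rcases hc.2 a ha b hb with h1 | h1
  · exact h1
  · rw [Finset.eq_of_subset_of_card_le h1 h]

theorem sd_inj {c : Finset (Sx K)} (hc : c ∈ sdK K) :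
    Set.InjOn (fun a : Sx K => a.1.card) (c : Set (Sx K)) := by
  intro a ha b hb h
  have h' : a.1.card = b.1.card := h
  exact Subtype.ext (Finset.eq_of_subset_of_card_le (sd_sub hc ha hb h'.le) h'.ge)

/-- the largest simplex of a flag -/
theorem sd_top {c : Finset (Sx K)} (hc : c ∈ sdK K) : ∃ a ∈ c, ∀ b ∈ c, b.1 ⊆ a.1 := by
  obtain ⟨a, ha, h⟩ := Finset.exists_max_image c (fun a => a.1.card) hc.1
  exact ⟨a, ha, fun b hb => sd_sub hc hb ha (h b hb)⟩

theorem sd_down {c c' : Finset (Sx K)} (hc : c ∈ sdK K) (h : c' ⊆ c) (h' : c'.Nonempty) :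
    c' ∈ sdK K :=
  ⟨h', fun a ha b hb => hc.2 a (h ha) b (h hb)⟩

theorem sd_image (hM : Psm K B n) {c : Finset (Sx K)} (_hc : c ∈ sdK K) :
    c.image (fun a : Sx K => a.1.card) ⊆ Finset.Icc 1 (n + 1) := by
  intro i hi
  rw [Finset.mem_image] at hi
  obtain ⟨a, _, rfl⟩ := hi
  rw [Finset.mem_Icc]
  exact ⟨Finset.card_pos.2 (hM.ne _ a.2), hM.card_le _ a.2⟩

theorem sd_card_le (hM : Psm K B n) {c : Finset (Sx K)} (hc : c ∈ sdK K) : c.card ≤ n + 1 := by
  have h1 := Finset.card_le_card (sd_image hM hc)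
  rw [Finset.card_image_of_injOn (sd_inj hc), Nat.card_Icc] at h1
  omega

/-- the simplices which meet a finite set of vertices -/
theorem sd_near (hM : Psm K B n) (τ : Finset U) : {a : Sx K | ∃ v ∈ τ, v ∈ a.1}.Finite := by
  have h1 : ∀ v : U, {s | s ∈ K ∧ v ∈ s}.Finite := by
    intro v
    by_cases h : ({v} : Finset U) ∈ K
    · refine (hM.locfin _ h).subset fun t ht => ⟨ht.1, ?_⟩
      rw [Finset.singleton_subset_iff]; exact ht.2
    · refine Set.Finite.subset Set.finite_empty fun t ht => ?_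
      exact absurd (hM.down t ht.1 {v} (Finset.singleton_subset_iff.2 ht.2)
        (Finset.singleton_nonempty v)) h
  have h2 : (⋃ v ∈ τ, {s | s ∈ K ∧ v ∈ s}).Finite :=
    Set.Finite.biUnion (Finset.finite_toSet τ) fun v _ => h1 v
  refine Set.Finite.of_finite_image (f := Subtype.val) (h2.subset ?_)
    (Subtype.val_injective.injOn)
  rintro _ ⟨a, ⟨v, hv, hva⟩, rfl⟩
  simp only [Set.mem_iUnion, exists_prop]
  exact ⟨v, hv, a.2, hva⟩

theorem sd_locfin (hM : Psm K B n) {s : Finset (Sx K)} (hs : s ∈ sdK K) :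
    {t | t ∈ sdK K ∧ s ⊆ t}.Finite := by
  obtain ⟨a, ha⟩ := hs.1
  have h1 := sd_near hM a.1
  refine (h1.toFinset.powerset.finite_toSet).subset ?_
  rintro t ⟨ht, hst⟩
  rw [Finset.mem_coe, Finset.mem_powerset]
  intro b hb
  rw [Set.Finite.mem_toFinset]
  rcases ht.2 a (hst ha) b hb with h | h
  · obtain ⟨v, hv⟩ := hM.ne _ a.2
    exact ⟨v, hv, h hv⟩
  · obtain ⟨v, hv⟩ := hM.ne _ b.2
    exact ⟨v, h hv, hv⟩

theorem mem_cofs_sd (hM : Psm K B n) {s : Finset (Sx K)} (hs : s ∈ sdK K) {j : ℕ}
    {t : Finset (Sx K)} : t ∈ cofs (sdK K) s j ↔ t ∈ sdK K ∧ s ⊆ t ∧ t.card = j := by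
  have h : {t' | t' ∈ sdK K ∧ s ⊆ t' ∧ t'.card = j}.Finite :=
    (sd_locfin hM hs).subset fun t' h => ⟨h.1, h.2.1⟩
  unfold cofs
  rw [dif_pos h, Set.Finite.mem_toFinset]
  rfl

/-- counting the fillings of the gap of size `j` -/
theorem sd_count (hM : Psm K B n) {s : Finset (Sx K)} (hs : s ∈ sdK K) (hc : s.card = n) {j : ℕ}
    (hj : j ∈ Finset.Icc 1 (n + 1)) (hjs : j ∉ s.image (fun a : Sx K => a.1.card))
    (G : Finset (Finset U)) (hG : ∀ b, b ∈ G ↔ b ∈ K ∧ b.card = j ∧
      (∀ e ∈ s, e.1.card < j → e.1 ⊆ b) ∧ ∀ e ∈ s, j < e.1.card → b ⊆ e.1) :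
    (cofs (sdK K) s (n + 1)).card = G.card := by
  classical
  have hne : ∀ e ∈ s, e.1.card ≠ j := fun e he h => hjs (Finset.mem_image.2 ⟨e, he, h⟩)
  have hnot : ∀ b (hb : b ∈ G), (⟨b, ((hG b).1 hb).1⟩ : Sx K) ∉ s := fun b hb h =>
    hne _ h ((hG b).1 hb).2.1
  symm
  refine Finset.card_bij (fun b hb => insert (⟨b, ((hG b).1 hb).1⟩ : Sx K) s) ?_ ?_ ?_
  · intro b hb
    obtain ⟨h1, h2, h3, h4⟩ := (hG b).1 hb
    rw [mem_cofs_sd hM hs]
    refine ⟨⟨Finset.insert_nonempty _ _, ?_⟩, Finset.subset_insert _ _, ?_⟩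
    · have hcmp : ∀ e ∈ s, e.1 ⊆ b ∨ b ⊆ e.1 := by
        intro e he
        rcases Nat.lt_trichotomy e.1.card j with h | h | h
        · exact Or.inl (h3 e he h)
        · exact absurd h (hne e he)
        · exact Or.inr (h4 e he h)
      intro x hx y hy
      rw [Finset.mem_insert] at hx hy
      rcases hx with rfl | hx <;> rcases hy with rfl | hy
      · exact Or.inl subset_rfl
      · exact (hcmp y hy).symm
      · exact hcmp x hx
      · exact hs.2 x hx y hy
    · rw [Finset.card_insert_of_notMem (hnot b hb), hc]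
  · intro b hb b' hb' h
    have h1 : (⟨b, ((hG b).1 hb).1⟩ : Sx K) ∈ insert (⟨b', ((hG b').1 hb').1⟩ : Sx K) s := by
      have h0 : insert (⟨b, ((hG b).1 hb).1⟩ : Sx K) s =
        insert (⟨b', ((hG b').1 hb').1⟩ : Sx K) s := h
      rw [← h0]; exact Finset.mem_insert_self _ _
    rw [Finset.mem_insert] at h1
    rcases h1 with h1 | h1
    · exact congrArg Subtype.val h1
    · exact absurd h1 (hnot b hb)
  · intro t ht
    rw [mem_cofs_sd hM hs] at ht
    obtain ⟨h1, h2, h3⟩ := ht
    have h4 : (t \ s).card = 1 := by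
      rw [Finset.card_sdiff_of_subset h2]; omega
    obtain ⟨b, hb⟩ := Finset.card_eq_one.1 h4
    have hb1 : b ∈ t ∧ b ∉ s := by
      rw [← Finset.mem_sdiff, hb]; exact Finset.mem_singleton_self b
    have h5 : t.image (fun a : Sx K => a.1.card) = Finset.Icc 1 (n + 1) := by
      refine Finset.eq_of_subset_of_card_le (sd_image hM h1) ?_
      rw [Finset.card_image_of_injOn (sd_inj h1), Nat.card_Icc, h3]
      omega
    have h6 : insert b s = t := by
      rw [← Finset.sdiff_union_of_subset h2, hb]; rfl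
    have h7 : b.1.card = j := by
      have h8 : j ∈ t.image (fun a : Sx K => a.1.card) := by rw [h5]; exact hj
      rw [Finset.mem_image] at h8
      obtain ⟨e, he, hej⟩ := h8
      rw [← h6, Finset.mem_insert] at he
      rcases he with rfl | he
      · exact hej
      · exact absurd hej (hne e he)
    refine ⟨b.1, (hG b.1).2 ⟨b.2, h7, ?_, ?_⟩, h6⟩
    · intro e he h
      exact sd_sub h1 (h2 he) hb1.1 (by omega)
    · intro e he h
      exact sd_sub h1 hb1.1 (h2 he) (by omega)

/-- **The flags form a pseudomanifold.** -/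
theorem sd_psm (hM : Psm K B n) : Psm (sdK K) (sdB K B) n where
  ne := fun s hs => hs.1
  down := fun s hs t hts ht => sd_down hs hts ht
  bd_sub := fun s hs => hs.1
  bd_down := fun s hs t hts ht => ⟨sd_down hs.1 hts ht, fun a ha => hs.2 a (hts ha)⟩
  locfin := fun s hs => sd_locfin hM hs
  card_le := fun s hs => sd_card_le hM hs
  even := by
    classical
    intro s hs hB hc
    -- the missing size
    have h1 : (Finset.Icc 1 (n + 1) \ s.image (fun a : Sx K => a.1.card)).card = 1 := by
      rw [Finset.card_sdiff_of_subset (sd_image hM hs),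
        Finset.card_image_of_injOn (sd_inj hs), Nat.card_Icc, hc]
      omega
    obtain ⟨j, hj⟩ := Finset.card_eq_one.1 h1
    have hj1 : j ∈ Finset.Icc 1 (n + 1) ∧ j ∉ s.image (fun a : Sx K => a.1.card) := by
      rw [← Finset.mem_sdiff, hj]; exact Finset.mem_singleton_self j
    have hex : ∀ i, 1 ≤ i → i ≤ n + 1 → i ≠ j → ∃ e ∈ s, e.1.card = i := by
      intro i hi1 hi2 hij
      by_contra hne
      have h2 : i ∈ Finset.Icc 1 (n + 1) \ s.image (fun a : Sx K => a.1.card) := by
        rw [Finset.mem_sdiff]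
        refine ⟨Finset.mem_Icc.2 ⟨hi1, hi2⟩, fun h => hne ?_⟩
        rw [Finset.mem_image] at h
        exact h
      rw [hj, Finset.mem_singleton] at h2
      exact hij h2
    have hne : ∀ e ∈ s, e.1.card ≠ j := fun e he h => hj1.2 (Finset.mem_image.2 ⟨e, he, h⟩)
    have hn1 : 1 ≤ n := by
      rw [← hc]; exact Finset.card_pos.2 hs.1
    have hjI := Finset.mem_Icc.1 hj1.1
    by_cases hjn : j = n + 1
    · -- the top gap
      obtain ⟨r, hr, hrc⟩ := hex n hn1 (by omega) (by omega)
      have hrmax : ∀ e ∈ s, e.1 ⊆ r.1 := by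
        intro e he
        have h2 := hM.card_le _ e.2
        have h3 := hne e he
        exact sd_sub hs he hr (by omega)
      have hrB : r.1 ∉ B := by
        intro h
        exact hB ⟨hs, fun a ha => hM.bd_down _ h _ (hrmax a ha) (hM.ne _ a.2)⟩
      rw [sd_count hM hs hc hj1.1 hj1.2 (cofs K r.1 (n + 1)) (by
        intro b
        rw [mem_cofsP hM r.2]
        constructor
        · rintro ⟨h2, h3, h4⟩
          refine ⟨h2, by omega, fun e he _ => (hrmax e he).trans h3, fun e he h => ?_⟩
          have h5 := hM.card_le _ e.2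
          omega
        · rintro ⟨h2, h3, h4, _⟩
          exact ⟨h2, h4 r hr (by omega), by omega⟩)]
      exact hM.even r.1 r.2 hrB hrc
    · -- two fillings
      obtain ⟨c, hcs, hcc⟩ := hex (j + 1) (by omega) (by omega) (by omega)
      obtain ⟨a, ha1, ha2, ha3⟩ : ∃ a : Finset U, a ⊆ c.1 ∧ a.card + 1 = j ∧
          ∀ b : Finset U, (∀ e ∈ s, e.1.card < j → e.1 ⊆ b) ↔ a ⊆ b := by
        by_cases hj2 : j = 1
        · refine ⟨∅, Finset.empty_subset _, by rw [hj2]; rfl, fun b => ?_⟩
          constructor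
          · intro _; exact Finset.empty_subset _
          · intro _ e he h
            have h5 := Finset.card_pos.2 (hM.ne _ e.2)
            omega
        · obtain ⟨a, ha, hac⟩ := hex (j - 1) (by omega) (by omega) (by omega)
          refine ⟨a.1, sd_sub hs ha hcs (by omega), by omega, fun b => ?_⟩
          constructor
          · intro h; exact h a ha (by omega)
          · intro h e he h'
            exact (sd_sub hs he ha (by omega)).trans h
      have h2 : (c.1 \ a).card = 2 := by
        rw [Finset.card_sdiff_of_subset ha1]; omega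
      have h3 : ((c.1 \ a).image fun x => insert x a).card = 2 := by
        rw [Finset.card_image_of_injOn, h2]
        intro x hx y hy hxy
        have h4 : x ∈ insert y a := by
          have h0 : insert x a = insert y a := hxy
          rw [← h0]; exact Finset.mem_insert_self _ _
        rw [Finset.mem_insert] at h4
        rcases h4 with h4 | h4
        · exact h4
        · exact absurd h4 (Finset.mem_sdiff.1 hx).2
      rw [sd_count hM hs hc hj1.1 hj1.2 ((c.1 \ a).image fun x => insert x a) (by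
        intro b
        rw [ha3 b, Finset.mem_image]
        constructor
        · rintro ⟨x, hx, rfl⟩
          rw [Finset.mem_sdiff] at hx
          have h4 : insert x a ⊆ c.1 := Finset.insert_subset hx.1 ha1
          refine ⟨hM.down _ c.2 _ h4 (Finset.insert_nonempty _ _), ?_,
            Finset.subset_insert _ _, fun e he h => ?_⟩
          · rw [Finset.card_insert_of_notMem hx.2]; omega
          · exact h4.trans (sd_sub hs hcs he (by omega))
        · rintro ⟨_, h5, h6, h7⟩
          have h8 := h7 c hcs (by omega)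
          have h9 : (b \ a).card = 1 := by
            rw [Finset.card_sdiff_of_subset h6]; omega
          obtain ⟨x, hx⟩ := Finset.card_eq_one.1 h9
          have hx1 : x ∈ b ∧ x ∉ a := by
            rw [← Finset.mem_sdiff, hx]; exact Finset.mem_singleton_self x
          refine ⟨x, Finset.mem_sdiff.2 ⟨h8 hx1.1, hx1.2⟩, ?_⟩
          rw [← Finset.sdiff_union_of_subset h6, hx]; rfl), h3]
      decide

end Pool.Agent.H37.TM
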