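import Pool.Agent.H37.TM.SdT

/-!
# Project TM: the map to the pairs of flags is a chain map
-/

set_option autoImplicit false
set_option linter.unusedSectionVars false

open Finset Pointwise

namespace Pool.Agent.H37.TM

variable {U : Type} [DecidableEq U] {K B : Set (Finset U)} {n : ℕ}

section

variable {φ : Sx K → U} {σ τ : Finset U} {s t : Finset (Sx K)}

/-- another element of the fibre -/
def Mu (φ : Sx K → U) (t : Finset (Sx K)) (w : Sx K) : Prop := ∃ w' ∈ t, w' ≠ w ∧ φ w' = φ w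

theorem mem_ov {a : Sx K} : a ∈ ov φ σ t ↔ a ∈ t ∧ φ a ∈ σ := by
  unfold ov
  rw [Finset.mem_filter]

/-- (C1) lowering at a multiple point is raising over `σ` -/
theorem sd_c1 (ht : t ∈ sdK K) (hs : s.Nonempty) (hst : s ⊆ t) (hστ : σ ⊆ τ) {w : Sx K}
    (hw : w ∈ t \ s) :
    ((TC φ σ τ t ∧ insert w s = ov φ σ t) ∧ Mu φ t w) ↔
      ((TC φ σ τ (t.erase w) ∧ s = ov φ σ (t.erase w)) ∧ φ w ∈ σ) := by
  classical
  rw [Finset.mem_sdiff] at hw
  constructor
  · rintro ⟨⟨⟨_, h2, h3⟩, h4⟩, w', hw', hne, hφw⟩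
    have hwσ : φ w ∈ σ := by
      have : w ∈ ov φ σ t := by rw [← h4]; exact Finset.mem_insert_self _ _
      exact (mem_ov.1 this).2
    refine ⟨⟨⟨sd_down ht (Finset.erase_subset _ _) ?_, ?_, ?_⟩, ?_⟩, hwσ⟩
    · exact hs.mono (Finset.subset_erase.2 ⟨hst, hw.2⟩)
    · rw [← h2]
      refine Finset.Subset.antisymm (Finset.image_subset_image (Finset.erase_subset _ _)) ?_
      intro v hv
      rw [Finset.mem_image] at hv ⊢
      obtain ⟨a, ha, rfl⟩ := hv
      by_cases haw : a = w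
      · exact ⟨w', Finset.mem_erase.2 ⟨hne, hw'⟩, by rw [hφw, haw]⟩
      · exact ⟨a, Finset.mem_erase.2 ⟨haw, ha⟩, rfl⟩
    · intro a ha b hb
      exact h3 a (Finset.mem_of_mem_erase ha) b (Finset.mem_of_mem_erase hb)
    · ext a
      rw [mem_ov, Finset.mem_erase]
      constructor
      · intro ha
        have h5 : a ∈ ov φ σ t := by rw [← h4]; exact Finset.mem_insert_of_mem ha
        exact ⟨⟨fun h => hw.2 (h ▸ ha), (mem_ov.1 h5).1⟩, (mem_ov.1 h5).2⟩
      · rintro ⟨⟨h5, h6⟩, h7⟩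
        have h8 : a ∈ insert w s := by rw [h4]; exact mem_ov.2 ⟨h6, h7⟩
        rw [Finset.mem_insert] at h8
        exact h8.resolve_left h5
  · rintro ⟨⟨⟨_, h2, h3⟩, h4⟩, hwσ⟩
    have h5 : φ w ∈ (t.erase w).image φ := by rw [h2]; exact hστ hwσ
    rw [Finset.mem_image] at h5
    obtain ⟨w', hw', hφw⟩ := h5
    rw [Finset.mem_erase] at hw'
    refine ⟨⟨⟨ht, ?_, ?_⟩, ?_⟩, w', hw'.2, hw'.1, hφw⟩
    · rw [← h2]
      refine Finset.Subset.antisymm ?_ (Finset.image_subset_image (Finset.erase_subset _ _))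
      intro v hv
      rw [Finset.mem_image] at hv ⊢
      obtain ⟨a, ha, rfl⟩ := hv
      by_cases haw : a = w
      · exact ⟨w', Finset.mem_erase.2 hw', by rw [hφw, haw]⟩
      · exact ⟨a, Finset.mem_erase.2 ⟨haw, ha⟩, rfl⟩
    · intro a ha b hb hab haσ
      have h6 : a ≠ w := fun h => haσ (by rw [h]; exact hwσ)
      have h7 : b ≠ w := fun h => haσ (by rw [hab, h]; exact hwσ)
      exact h3 a (Finset.mem_erase.2 ⟨h6, ha⟩) b (Finset.mem_erase.2 ⟨h7, hb⟩) hab haσ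
    · ext a
      rw [mem_ov, Finset.mem_insert]
      constructor
      · rintro (rfl | ha)
        · exact ⟨hw.1, hwσ⟩
        · rw [h4, mem_ov] at ha
          exact ⟨Finset.mem_of_mem_erase ha.1, ha.2⟩
      · rintro ⟨ha, haσ⟩
        by_cases haw : a = w
        · exact Or.inl haw
        · right
          rw [h4, mem_ov]
          exact ⟨Finset.mem_erase.2 ⟨haw, ha⟩, haσ⟩

open Classical in
/-- (C2) raising over `τ - σ` cancels in pairs -/
theorem sd_c2 (hs : s.Nonempty) (hst : s ⊆ t) (ht : t ∈ sdK K) :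
    ∑ w ∈ t \ s, (if (TC φ σ τ (t.erase w) ∧ s = ov φ σ (t.erase w)) ∧ φ w ∉ σ ∧ φ w ∈ τ
      then (1 : ZMod 2) else 0) = 0 := by
  rw [← Finset.sum_filter]
  set A := (t \ s).filter fun w => (TC φ σ τ (t.erase w) ∧ s = ov φ σ (t.erase w)) ∧
    φ w ∉ σ ∧ φ w ∈ τ with hA
  have hex : ∀ w ∈ A, ∃ w' ∈ t, w' ≠ w ∧ φ w' = φ w := by
    intro w hw
    rw [hA, Finset.mem_filter] at hw
    obtain ⟨_, ⟨⟨_, h2, _⟩, _⟩, _, h5⟩ := hw
    rw [← h2, Finset.mem_image] at h5
    obtain ⟨w', hw', h6⟩ := h5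
    rw [Finset.mem_erase] at hw'
    exact ⟨w', hw'.2, hw'.1, h6⟩
  choose! g hg1 hg2 hg3 using hex
  have hmem : ∀ w ∈ A, g w ∈ A := by
    intro w hw
    have hw0 := hw
    have e1 := hg1 w hw
    have e2 := hg2 w hw
    have e3 := hg3 w hw
    rw [hA, Finset.mem_filter] at hw
    obtain ⟨h0, ⟨⟨_, h2, h3⟩, h4⟩, h5, h6⟩ := hw
    rw [Finset.mem_sdiff] at h0
    have hgs : g w ∉ s := by
      intro h
      rw [h4, mem_ov, e3] at h
      exact h5 h.2
    have hov : ov φ σ (t.erase (g w)) = ov φ σ (t.erase w) := by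
      ext a
      rw [mem_ov, mem_ov, Finset.mem_erase, Finset.mem_erase]
      constructor
      · rintro ⟨⟨_, h7⟩, h8⟩
        exact ⟨⟨fun h => h5 (by rw [← h]; exact h8), h7⟩, h8⟩
      · rintro ⟨⟨_, h7⟩, h8⟩
        exact ⟨⟨fun h => h5 (by rw [← e3, ← h]; exact h8), h7⟩, h8⟩
    rw [hA, Finset.mem_filter]
    refine ⟨Finset.mem_sdiff.2 ⟨e1, hgs⟩, ⟨⟨?_, ?_, ?_⟩, ?_⟩, ?_, ?_⟩
    · exact sd_down ht (Finset.erase_subset _ _)
        (hs.mono (Finset.subset_erase.2 ⟨hst, hgs⟩))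
    · rw [← h2]
      ext v
      simp only [Finset.mem_image, Finset.mem_erase]
      constructor
      · rintro ⟨a, ⟨h7, h8⟩, rfl⟩
        by_cases haw : a = w
        · exact ⟨g w, ⟨e2, e1⟩, by rw [e3, haw]⟩
        · exact ⟨a, ⟨haw, h8⟩, rfl⟩
      · rintro ⟨a, ⟨h7, h8⟩, rfl⟩
        by_cases haw : a = g w
        · exact ⟨w, ⟨e2.symm, h0.1⟩, by rw [← e3, haw]⟩
        · exact ⟨a, ⟨haw, h8⟩, rfl⟩
    · intro a ha b hb hab haσ
      rw [Finset.mem_erase] at ha hb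
      by_cases haw : a = w
      · by_cases hbw : b = w
        · rw [haw, hbw]
        · exfalso
          have h7 : b = g w := h3 b (Finset.mem_erase.2 ⟨hbw, hb.2⟩) (g w)
            (Finset.mem_erase.2 ⟨e2, e1⟩) (by rw [← hab, haw, e3]) (by rw [← hab]; exact haσ)
          exact hb.1 h7
      · by_cases hbw : b = w
        · exfalso
          have h7 : a = g w := h3 a (Finset.mem_erase.2 ⟨haw, ha.2⟩) (g w)
            (Finset.mem_erase.2 ⟨e2, e1⟩) (by rw [hab, hbw, e3]) haσ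
          exact ha.1 h7
        · exact h3 a (Finset.mem_erase.2 ⟨haw, ha.2⟩) b (Finset.mem_erase.2 ⟨hbw, hb.2⟩) hab haσ
    · rw [hov]; exact h4
    · rw [e3]; exact h5
    · rw [e3]; exact h6
  have hinv : ∀ w ∈ A, g (g w) = w := by
    intro w hw
    have e1 := hg1 w hw
    have e2 := hg2 w hw
    have e3 := hg3 w hw
    have f1 := hg1 _ (hmem w hw)
    have f2 := hg2 _ (hmem w hw)
    have f3 := hg3 _ (hmem w hw)
    by_contra hne
    rw [hA, Finset.mem_filter] at hw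
    obtain ⟨h0, ⟨⟨_, h2, h3⟩, h4⟩, h5, h6⟩ := hw
    exact f2 (h3 _ (Finset.mem_erase.2 ⟨hne, f1⟩) _ (Finset.mem_erase.2 ⟨e2, e1⟩) f3
      (by rw [f3, e3]; exact h5))
  refine Finset.sum_involution (fun w _ => g w) ?_ ?_ ?_ ?_
  · intro w _; decide
  · intro w hw _ h
    exact hg2 w hw h
  · intro w hw; exact hmem w hw
  · intro w hw; exact hinv w hw

open Classical in
/-- (C3) raising outside of `τ` -/
theorem sd_c3 (hM : Psm K B n) (hφ : ∀ a, φ a ∈ a.1) (ht : t ∈ sdK K) (hs : s.Nonempty)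
    (hst : s ⊆ t) (hτ : τ ∈ K) (hστ : σ ⊆ τ) :
    ∑ w ∈ t \ s, (if (TC φ σ τ (t.erase w) ∧ s = ov φ σ (t.erase w)) ∧ φ w ∉ τ
      then (1 : ZMod 2) else 0) = ∑ τ₁ ∈ cofs K τ (τ.card + 1), tc φ σ τ₁ s t := by
  -- the image of a flag is a simplex
  have himK : t.image φ ∈ K := by
    obtain ⟨a, ha, hmax⟩ := sd_top ht
    refine hM.down _ a.2 _ ?_ (ht.1.image φ)
    intro v hv
    rw [Finset.mem_image] at hv
    obtain ⟨b, hb, rfl⟩ := hv
    exact hmax b hb (hφ b)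
  -- the right side
  have hR : ∑ τ₁ ∈ cofs K τ (τ.card + 1), tc φ σ τ₁ s t =
      if (t.image φ ∈ cofs K τ (τ.card + 1) ∧
        ∀ a ∈ t, ∀ b ∈ t, φ a = φ b → φ a ∉ σ → a = b) ∧ s = ov φ σ t then 1 else 0 := by
    by_cases hc : (t.image φ ∈ cofs K τ (τ.card + 1) ∧
        ∀ a ∈ t, ∀ b ∈ t, φ a = φ b → φ a ∉ σ → a = b) ∧ s = ov φ σ t
    · rw [if_pos hc, Finset.sum_eq_single (t.image φ)]
      · unfold tc
        rw [if_pos ⟨⟨ht, rfl, hc.1.2⟩, hc.2⟩]
      · intro τ₁ _ hne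
        unfold tc
        rw [if_neg]
        rintro ⟨⟨_, h2, _⟩, _⟩
        exact hne h2.symm
      · intro h
        exact absurd hc.1.1 h
    · rw [if_neg hc]
      refine Finset.sum_eq_zero fun τ₁ hτ₁ => ?_
      unfold tc
      rw [if_neg]
      rintro ⟨⟨_, h2, h3⟩, h4⟩
      exact hc ⟨⟨by rw [h2]; exact hτ₁, h3⟩, h4⟩
  rw [hR]
  by_cases hc : (t.image φ ∈ cofs K τ (τ.card + 1) ∧
        ∀ a ∈ t, ∀ b ∈ t, φ a = φ b → φ a ∉ σ → a = b) ∧ s = ov φ σ t
  · rw [if_pos hc]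
    obtain ⟨⟨h1, h2⟩, h3⟩ := hc
    rw [mem_cofsP hM hτ] at h1
    obtain ⟨_, h4, h5⟩ := h1
    have h6 : (t.image φ \ τ).card = 1 := by
      rw [Finset.card_sdiff_of_subset h4]; omega
    obtain ⟨u, hu⟩ := Finset.card_eq_one.1 h6
    have hu1 : u ∈ t.image φ ∧ u ∉ τ := by
      rw [← Finset.mem_sdiff, hu]; exact Finset.mem_singleton_self u
    obtain ⟨w, hw, hwu⟩ := Finset.mem_image.1 hu1.1
    have huσ : u ∉ σ := fun h => hu1.2 (hστ h)
    have hws : w ∉ s := by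
      intro h
      rw [h3, mem_ov, hwu] at h
      exact huσ h.2
    have huniq : ∀ a ∈ t, φ a = u → a = w := by
      intro a ha hau
      exact h2 a ha w hw (by rw [hau, hwu]) (by rw [hau]; exact huσ)
    rw [Finset.sum_eq_single w]
    · rw [if_pos]
      refine ⟨⟨⟨sd_down ht (Finset.erase_subset _ _)
        (hs.mono (Finset.subset_erase.2 ⟨hst, hws⟩)), ?_, ?_⟩, ?_⟩, by rw [hwu]; exact hu1.2⟩
      · ext v
        rw [Finset.mem_image]
        constructor
        · rintro ⟨a, ha, rfl⟩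
          rw [Finset.mem_erase] at ha
          by_contra hv
          have h7 : φ a ∈ t.image φ \ τ := Finset.mem_sdiff.2 ⟨Finset.mem_image_of_mem φ ha.2, hv⟩
          rw [hu, Finset.mem_singleton] at h7
          exact ha.1 (huniq a ha.2 h7)
        · intro hv
          obtain ⟨a, ha, hav⟩ := Finset.mem_image.1 (h4 hv)
          refine ⟨a, Finset.mem_erase.2 ⟨?_, ha⟩, hav⟩
          rintro rfl
          rw [← hav, hwu] at hv
          exact hu1.2 hv
      · intro a ha b hb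
        exact h2 a (Finset.mem_of_mem_erase ha) b (Finset.mem_of_mem_erase hb)
      · rw [h3]
        ext a
        rw [mem_ov, mem_ov, Finset.mem_erase]
        constructor
        · rintro ⟨h7, h8⟩
          exact ⟨⟨fun h => huσ (by rw [← hwu, ← h]; exact h8), h7⟩, h8⟩
        · rintro ⟨⟨_, h7⟩, h8⟩
          exact ⟨h7, h8⟩
    · intro w' hw' hne
      rw [if_neg]
      rintro ⟨⟨⟨_, h7, _⟩, _⟩, h8⟩
      rw [Finset.mem_sdiff] at hw'
      have h9 : φ w' ∈ t.image φ \ τ := Finset.mem_sdiff.2 ⟨Finset.mem_image_of_mem φ hw'.1, h8⟩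
      rw [hu, Finset.mem_singleton] at h9
      exact hne (huniq w' hw'.1 h9)
    · intro h
      exact absurd (Finset.mem_sdiff.2 ⟨hw, hws⟩) h
  · rw [if_neg hc]
    refine Finset.sum_eq_zero fun w hw => ?_
    rw [if_neg]
    rintro ⟨⟨⟨_, h2, h3⟩, h4⟩, h5⟩
    rw [Finset.mem_sdiff] at hw
    have h6 : t.image φ = insert (φ w) τ := by
      rw [← h2, ← Finset.image_insert, Finset.insert_erase hw.1]
    refine hc ⟨⟨?_, ?_⟩, ?_⟩
    · rw [mem_cofsP hM hτ]
      refine ⟨himK, by rw [h6]; exact Finset.subset_insert _ _, ?_⟩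
      rw [h6, Finset.card_insert_of_notMem h5]
    · intro a ha b hb hab haσ
      by_cases haw : a = w
      · by_cases hbw : b = w
        · rw [haw, hbw]
        · exfalso
          have h7 : φ b ∈ (t.erase w).image φ :=
            Finset.mem_image_of_mem φ (Finset.mem_erase.2 ⟨hbw, hb⟩)
          rw [h2, ← hab, haw] at h7
          exact h5 h7
      · by_cases hbw : b = w
        · exfalso
          have h7 : φ a ∈ (t.erase w).image φ :=
            Finset.mem_image_of_mem φ (Finset.mem_erase.2 ⟨haw, ha⟩)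
          rw [h2, hab, hbw] at h7
          exact h5 h7
        · exact h3 a (Finset.mem_erase.2 ⟨haw, ha⟩) b (Finset.mem_erase.2 ⟨hbw, hb⟩) hab haσ
    · rw [h4]
      ext a
      rw [mem_ov, mem_ov, Finset.mem_erase]
      constructor
      · rintro ⟨⟨_, h7⟩, h8⟩
        exact ⟨h7, h8⟩
      · rintro ⟨h7, h8⟩
        exact ⟨⟨fun h => h5 (hστ (by rw [← h]; exact h8)), h7⟩, h8⟩

open Classical in
/-- (C4) lowering at a simple point -/
theorem sd_c4 (ht : t ∈ sdK K) (hστ : σ ⊆ τ) :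
    ∑ w ∈ t \ s, (if (TC φ σ τ t ∧ insert w s = ov φ σ t) ∧ ¬ Mu φ t w
      then (1 : ZMod 2) else 0) = ∑ v ∈ σ, tc φ (σ.erase v) τ s t := by
  unfold tc
  rw [← Finset.sum_filter, ← Finset.sum_filter]
  refine Finset.sum_bij (fun w _ => φ w) ?_ ?_ ?_ ?_
  · intro w hw
    rw [Finset.mem_filter, Finset.mem_sdiff] at hw
    obtain ⟨⟨h1, h2⟩, ⟨⟨_, h3, h4⟩, h5⟩, h6⟩ := hw
    have hwσ : φ w ∈ σ := by
      have : w ∈ ov φ σ t := by rw [← h5]; exact Finset.mem_insert_self _ _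
      exact (mem_ov.1 this).2
    rw [Finset.mem_filter]
    refine ⟨hwσ, ⟨ht, h3, ?_⟩, ?_⟩
    · intro a ha b hb hab haσ
      by_cases haw : φ a = φ w
      · have h7 : a = w := by
          by_contra hne
          exact h6 ⟨a, ha, hne, haw⟩
        have h8 : b = w := by
          by_contra hne
          exact h6 ⟨b, hb, hne, by rw [← hab, haw]⟩
        rw [h7, h8]
      · refine h4 a ha b hb hab fun h => haσ ?_
        exact Finset.mem_erase.2 ⟨haw, h⟩
    · ext a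
      rw [mem_ov, Finset.mem_erase]
      constructor
      · intro ha
        have h7 : a ∈ ov φ σ t := by rw [← h5]; exact Finset.mem_insert_of_mem ha
        rw [mem_ov] at h7
        refine ⟨h7.1, fun h => h6 ⟨a, h7.1, fun h' => h2 (h' ▸ ha), h⟩, h7.2⟩
      · rintro ⟨h7, h8, h9⟩
        have h10 : a ∈ insert w s := by rw [h5]; exact mem_ov.2 ⟨h7, h9⟩
        rw [Finset.mem_insert] at h10
        rcases h10 with rfl | h10
        · exact absurd rfl h8
        · exact h10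
  · intro w hw w' hw' h
    rw [Finset.mem_filter, Finset.mem_sdiff] at hw hw'
    by_contra hne
    exact hw.2.2 ⟨w', hw'.1.1, fun h' => hne h'.symm, h.symm⟩
  · intro v hv
    rw [Finset.mem_filter] at hv
    obtain ⟨hvσ, ⟨_, h3, h4⟩, h5⟩ := hv
    have h6 : v ∈ t.image φ := by rw [h3]; exact hστ hvσ
    obtain ⟨w, hw, hwv⟩ := Finset.mem_image.1 h6
    have hws : w ∉ s := by
      intro h
      rw [h5, mem_ov, Finset.mem_erase] at h
      exact h.2.1 hwv
    have huniq : ∀ a ∈ t, φ a = v → a = w := by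
      intro a ha hav
      refine h4 a ha w hw (by rw [hav, hwv]) ?_
      rw [hav]
      exact Finset.notMem_erase _ _
    refine ⟨w, ?_, hwv⟩
    rw [Finset.mem_filter, Finset.mem_sdiff]
    refine ⟨⟨hw, hws⟩, ⟨⟨ht, h3, ?_⟩, ?_⟩, ?_⟩
    · intro a ha b hb hab haσ
      exact h4 a ha b hb hab fun h => haσ (Finset.mem_of_mem_erase h)
    · ext a
      rw [mem_ov, Finset.mem_insert]
      constructor
      · rintro (rfl | ha)
        · exact ⟨hw, by rw [hwv]; exact hvσ⟩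
        · rw [h5, mem_ov] at ha
          exact ⟨ha.1, Finset.mem_of_mem_erase ha.2⟩
      · rintro ⟨ha, haσ⟩
        by_cases hav : φ a = v
        · exact Or.inl (huniq a ha hav)
        · right
          rw [h5, mem_ov]
          exact ⟨ha, Finset.mem_erase.2 ⟨hav, haσ⟩⟩
    · rintro ⟨a, ha, hne, h7⟩
      exact hne (huniq a ha (by rw [h7, hwv]))
  · intro w _
    rfl

/-- the pointwise identity -/
theorem zind (P1 P2 M S T : Prop) [Decidable P1] [Decidable P2] [Decidable (P1 ∧ ¬ M)]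
    [Decidable (P2 ∧ ¬ T)] [Decidable (P2 ∧ ¬ S ∧ T)] (hc : (P1 ∧ M) ↔ (P2 ∧ S))
    (hST : S → T) :
    ((if P1 then 1 else 0) + (if P2 then 1 else 0) : ZMod 2) =
      (if P1 ∧ ¬ M then 1 else 0) + (if P2 ∧ ¬ T then 1 else 0) +
        (if P2 ∧ ¬ S ∧ T then 1 else 0) := by
  by_cases p1 : P1
  · by_cases p2 : P2
    · by_cases m : M
      · have hS : S := (hc.1 ⟨p1, m⟩).2
        rw [if_pos p1, if_pos p2, if_neg (fun h => h.2 m), if_neg (fun h => h.2 (hST hS)),
          if_neg (fun h => h.2.1 hS)]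
        decide
      · have hS : ¬ S := fun h => m (hc.2 ⟨p2, h⟩).2
        by_cases hT : T
        · rw [if_pos p1, if_pos p2, if_pos ⟨p1, m⟩, if_neg (fun h => h.2 hT),
            if_pos ⟨p2, hS, hT⟩]
          decide
        · rw [if_pos p1, if_pos p2, if_pos ⟨p1, m⟩, if_pos ⟨p2, hT⟩,
            if_neg (fun h => hT h.2.2)]
          decide
    · have m : ¬ M := fun h => p2 (hc.1 ⟨p1, h⟩).1
      rw [if_pos p1, if_neg p2, if_pos ⟨p1, m⟩, if_neg (fun h => p2 h.1),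
        if_neg (fun h => p2 h.1)]
      decide
  · by_cases p2 : P2
    · have hS : ¬ S := fun h => p1 (hc.2 ⟨p2, h⟩).1
      by_cases hT : T
      · rw [if_neg p1, if_pos p2, if_neg (fun h => p1 h.1), if_neg (fun h => h.2 hT),
          if_pos ⟨p2, hS, hT⟩]
        decide
      · rw [if_neg p1, if_pos p2, if_neg (fun h => p1 h.1), if_pos ⟨p2, hT⟩,
          if_neg (fun h => hT h.2.2)]
        decide
    · rw [if_neg p1, if_neg p2, if_neg (fun h => p1 h.1), if_neg (fun h => p2 h.1),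
        if_neg (fun h => p2 h.1)]
      decide

/-- **The identity of the coefficients.** -/
theorem sd_ident (hM : Psm K B n) (hφ : ∀ a, φ a ∈ a.1) (ht : t ∈ sdK K) (hs : s.Nonempty)
    (hst : s ⊆ t) (hτ : τ ∈ K) (hστ : σ ⊆ τ) :
    ∑ w ∈ t \ s, (tc φ σ τ (insert w s) t + tc φ σ τ s (t.erase w)) =
      ∑ v ∈ σ, tc φ (σ.erase v) τ s t + ∑ τ₁ ∈ cofs K τ (τ.card + 1), tc φ σ τ₁ s t := by
  classical
  rw [← sd_c3 hM hφ ht hs hst hτ hστ, ← sd_c4 (φ := φ) ht hστ]
  have h0 := sd_c2 (φ := φ) (σ := σ) (τ := τ) hs hst ht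
  have h1 : ∀ w ∈ t \ s, tc φ σ τ (insert w s) t + tc φ σ τ s (t.erase w) =
      (if (TC φ σ τ t ∧ insert w s = ov φ σ t) ∧ ¬ Mu φ t w then (1 : ZMod 2) else 0) +
      (if (TC φ σ τ (t.erase w) ∧ s = ov φ σ (t.erase w)) ∧ φ w ∉ τ then 1 else 0) +
      (if (TC φ σ τ (t.erase w) ∧ s = ov φ σ (t.erase w)) ∧ φ w ∉ σ ∧ φ w ∈ τ
        then 1 else 0) := by
    intro w hw
    unfold tc
    exact zind _ _ _ _ _ (sd_c1 (φ := φ) ht hs hst hστ hw) (fun h => hστ h)
  rw [Finset.sum_congr rfl h1, Finset.sum_add_distrib, Finset.sum_add_distrib, h0, add_zero]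

end

end Pool.Agent.H37.TM
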