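import Pool.Agent.H37.TM.SdC

/-!
# Project TM: the chain map to the pairs of flags
-/

set_option autoImplicit false
set_option linter.unusedSectionVars false

open Finset Pointwise

namespace Pool.Agent.H37.TM

variable {U : Type} [DecidableEq U] {K B : Set (Finset U)} {n : ℕ}

theorem cofs_top (hM : Psm K B n) {t : Finset U} (ht : t ∈ K) (h : t.card = n + 1) :
    cofs K t (t.card + 1) = ∅ := by
  refine Finset.eq_empty_of_forall_notMem fun t' ht' => ?_
  rw [mem_cofsP hM ht] at ht'
  have := hM.card_le _ ht'.1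
  omega

/-- the boundary of a cell of index one -/
theorem bdE_one (hM : Psm K B n) {e : Finset U × Finset U} (he : e ∈ TCell K B n 1) :
    e.1.card = 1 ∧ e.2.card = n + 1 ∧ bdE K n e = Finsupp.single (∅, ∅) 1 := by
  obtain ⟨h1, h2, h3, h4, h5⟩ := he
  have h5 : e.1.card + n = e.2.card := h5
  have h6 := hM.card_le _ h3
  have h7 := Finset.card_pos.2 h1
  have h8 : e.1.card = 1 := by omega
  have h9 : e.2.card = n + 1 := by omega
  refine ⟨h8, h9, ?_⟩
  unfold bdE
  rw [if_neg h1.ne_empty, if_pos h8, if_pos h9, cofs_top hM h3 h9, Finset.sum_empty, add_zero]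

theorem bdE_mem (hM : Psm K B n) {m : ℕ} {e : Finset U × Finset U}
    (he : e ∈ TCell K B n (m + 1)) : bdE K n e ∈ TN K B n m := by
  classical
  cases m with
  | zero =>
    rw [(bdE_one hM he).2.2]
    exact Finsupp.single_mem_supported _ _ rfl
  | succ m =>
    obtain ⟨h1, h2, h3, h4, h5⟩ := he
    unfold bdE
    rw [if_neg h1.ne_empty]
    refine Submodule.add_mem _ ?_ (Submodule.sum_mem _ fun t ht => ?_)
    · split_ifs with h6 h7
      · have := Finset.card_le_card h2
        omega
      · exact Submodule.zero_mem _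
      · refine Submodule.sum_mem _ fun v hv => ?_
        refine Finsupp.single_mem_supported _ _ ⟨?_, ?_, h3, h4, ?_⟩
        · rw [← Finset.card_pos, Finset.card_erase_of_mem hv]
          have := Finset.card_pos.2 h1
          omega
        · exact (Finset.erase_subset _ _).trans h2
        · show (e.1.erase v).card + n = e.2.card + m
          rw [Finset.card_erase_of_mem hv]
          have := Finset.card_pos.2 h1
          omega
    · rw [mem_cofsP hM h3] at ht
      refine Finsupp.single_mem_supported _ _ ⟨h1, h2.trans ht.2.1, ht.1, fun h => ?_, ?_⟩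
      · exact h4 (hM.bd_down _ h _ ht.2.1 (hM.ne _ h3))
      · show e.1.card + n = t.card + m
        rw [ht.2.2]
        omega

theorem bdT_mem (hM : Psm K B n) {m : ℕ} {x : Finset U × Finset U →₀ ZMod 2}
    (hx : x ∈ TN K B n (m + 1)) : bdT K n x ∈ TN K B n m := by
  change lin (bdE K n) x ∈ TN K B n m
  refine lin_mem fun c hc => bdE_mem hM ?_
  exact (Finsupp.mem_supported _ _).1 hx (Finsupp.mem_support_iff.2 hc)

section

variable {φ : Sx K → U}

theorem image_sub_top {c : Finset (Sx K)} (hφ : ∀ a, φ a ∈ a.1) {a : Sx K}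
    (hmax : ∀ b ∈ c, b.1 ⊆ a.1) : c.image φ ⊆ a.1 := by
  intro v hv
  rw [Finset.mem_image] at hv
  obtain ⟨b, hb, rfl⟩ := hv
  exact hmax b hb (hφ b)

/-- the flags in `τ` with the image `τ`: there is exactly one -/
theorem uniq_flag (hM : Psm K B n) (hφ : ∀ a, φ a ∈ a.1) : ∀ k : ℕ, ∀ τ ∈ K, τ.card = k + 1 →
    ∃ c : Finset (Sx K), ∀ c' : Finset (Sx K),
      (c' ∈ sdK K ∧ c'.image φ = τ ∧ ∀ a ∈ c', a.1 ⊆ τ) ↔ c' = c := by
  classical
  intro k
  induction k with
  | zero =>
    intro τ hτ hc
    obtain ⟨v, hv⟩ := Finset.card_eq_one.1 hc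
    refine ⟨{⟨τ, hτ⟩}, fun c' => ⟨?_, ?_⟩⟩
    · rintro ⟨h1, _, h3⟩
      have h4 : ∀ a ∈ c', a = ⟨τ, hτ⟩ := by
        intro a ha
        refine Subtype.ext ?_
        have h5 := h3 a ha
        rw [hv, Finset.subset_singleton_iff] at h5
        rcases h5 with h5 | h5
        · exact absurd h5 (hM.ne _ a.2).ne_empty
        · show a.1 = τ
          rw [h5, hv]
      exact (Finset.eq_singleton_iff_nonempty_unique_mem).2 ⟨h1.1, h4⟩
    · rintro rfl
      have h4 : φ ⟨τ, hτ⟩ = v := by
        have h5 : φ ⟨τ, hτ⟩ ∈ τ := hφ ⟨τ, hτ⟩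
        have h6 : ∀ u ∈ τ, u = v := by
          intro u hu
          rwa [hv, Finset.mem_singleton] at hu
        exact h6 _ h5
      refine ⟨⟨Finset.singleton_nonempty _, ?_⟩, ?_, ?_⟩
      · intro a ha b hb
        rw [Finset.mem_singleton] at ha hb
        rw [ha, hb]
        exact Or.inl subset_rfl
      · rw [Finset.image_singleton, h4, hv]
      · intro a ha
        rw [Finset.mem_singleton] at ha
        rw [ha]
  | succ k ih =>
    intro τ hτ hc
    have hv : φ ⟨τ, hτ⟩ ∈ τ := hφ ⟨τ, hτ⟩
    set v := φ ⟨τ, hτ⟩ with hvdef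
    have hc' : (τ.erase v).card = k + 1 := by
      rw [Finset.card_erase_of_mem hv]; omega
    have hτ' : τ.erase v ∈ K := hM.down _ hτ _ (Finset.erase_subset _ _)
      (Finset.card_pos.1 (by omega))
    obtain ⟨c, hcu⟩ := ih _ hτ' hc'
    obtain ⟨hcK, hcim, hcsub⟩ := (hcu c).2 rfl
    refine ⟨insert ⟨τ, hτ⟩ c, fun c' => ⟨?_, ?_⟩⟩
    · rintro ⟨h1, h2, h3⟩
      -- the top element
      obtain ⟨a, ha, hmax⟩ := sd_top h1
      have haτ : a = ⟨τ, hτ⟩ := by
        refine Subtype.ext (Finset.Subset.antisymm (h3 a ha) ?_)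
        show τ ⊆ a.1
        rw [← h2]
        exact image_sub_top hφ hmax
      rw [haτ] at ha
      have hlt : ∀ b ∈ c'.erase ⟨τ, hτ⟩, b.1.card < τ.card := by
        intro b hb
        rw [Finset.mem_erase] at hb
        have h4 := h3 b hb.2
        refine lt_of_le_of_ne (Finset.card_le_card h4) fun h5 => hb.1 ?_
        exact Subtype.ext (Finset.eq_of_subset_of_card_le h4 h5.ge)
      have h4 : c'.card ≤ k + 2 := by
        have h5 : c'.image (fun a : Sx K => a.1.card) ⊆ Finset.Icc 1 (k + 2) := by
          intro i hi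
          rw [Finset.mem_image] at hi
          obtain ⟨b, hb, rfl⟩ := hi
          have := Finset.card_le_card (h3 b hb)
          rw [Finset.mem_Icc]
          exact ⟨Finset.card_pos.2 (hM.ne _ b.2), by omega⟩
        have h6 := Finset.card_le_card h5
        rw [Finset.card_image_of_injOn (sd_inj h1), Nat.card_Icc] at h6
        omega
      have hinj : Set.InjOn φ (c' : Set (Sx K)) := by
        rw [← Finset.card_image_iff]
        have h5 := Finset.card_image_le (s := c') (f := φ)
        rw [h2] at h5 ⊢
        omega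
      have hne : (c'.erase ⟨τ, hτ⟩).Nonempty := by
        rw [← Finset.card_pos, Finset.card_erase_of_mem ha]
        have h5 := Finset.card_image_le (s := c') (f := φ)
        rw [h2] at h5
        omega
      have h5 : c'.erase ⟨τ, hτ⟩ ∈ sdK K := sd_down h1 (Finset.erase_subset _ _) hne
      have h6 : (c'.erase ⟨τ, hτ⟩).image φ = τ.erase v := by
        ext u
        rw [Finset.mem_image, Finset.mem_erase]
        constructor
        · rintro ⟨b, hb, rfl⟩
          rw [Finset.mem_erase] at hb
          refine ⟨fun h => hb.1 (hinj hb.2 ha h), ?_⟩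
          rw [← h2]
          exact Finset.mem_image_of_mem φ hb.2
        · rintro ⟨hu, hu'⟩
          rw [← h2, Finset.mem_image] at hu'
          obtain ⟨b, hb, rfl⟩ := hu'
          refine ⟨b, Finset.mem_erase.2 ⟨?_, hb⟩, rfl⟩
          rintro rfl
          exact hu rfl
      obtain ⟨r, hr, hrmax⟩ := sd_top h5
      have h7 : τ.erase v = r.1 := by
        refine Finset.eq_of_subset_of_card_le ?_ ?_
        · rw [← h6]
          exact image_sub_top hφ hrmax
        · have := hlt r hr
          omega
      have h8 : c'.erase ⟨τ, hτ⟩ = c := by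
        rw [← hcu]
        refine ⟨h5, h6, fun b hb => ?_⟩
        rw [h7]
        exact hrmax b hb
      rw [← h8, Finset.insert_erase ha]
    · rintro rfl
      have h0 : ∀ a ∈ c, a.1 ⊆ τ := fun a ha => (hcsub a ha).trans (Finset.erase_subset _ _)
      refine ⟨⟨Finset.insert_nonempty _ _, ?_⟩, ?_, ?_⟩
      · intro a ha b hb
        rw [Finset.mem_insert] at ha hb
        rcases ha with rfl | ha <;> rcases hb with rfl | hb
        · exact Or.inl subset_rfl
        · exact Or.inr (h0 b hb)
        · exact Or.inl (h0 a ha)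
        · exact hcK.2 a ha b hb
      · rw [Finset.image_insert, hcim, ← hvdef, Finset.insert_erase hv]
      · intro a ha
        rw [Finset.mem_insert] at ha
        rcases ha with rfl | ha
        · exact subset_rfl
        · exact h0 a ha

/-- the image of a cell of index one is one cell -/
theorem thE_one (hM : Psm K B n) (hφ : ∀ a, φ a ∈ a.1) {e : Finset U × Finset U}
    (he : e ∈ TCell K B n 1) : ∃ p, thE φ e = Finsupp.single p 1 := by
  classical
  obtain ⟨h1, h2, _⟩ := bdE_one hM he
  obtain ⟨σ, τ⟩ := e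
  obtain ⟨hσ, hστ, hτK, hτB, hcard⟩ := he
  simp only at hσ hστ hτK hτB hcard h1 h2
  obtain ⟨c, hc⟩ := uniq_flag hM hφ n τ hτK h2
  refine ⟨(ov φ σ c, c), ?_⟩
  unfold thE
  rw [if_neg hσ.ne_empty]
  have h3 : TF φ σ τ = {c} := by
    ext c'
    rw [mem_TF hM hφ, Finset.mem_singleton, ← hc c']
    constructor
    · rintro ⟨h4, h5, _⟩
      refine ⟨h4, h5, ?_⟩
      obtain ⟨a, ha, hmax⟩ := sd_top h4
      have h6 : τ = a.1 := by
        refine Finset.eq_of_subset_of_card_le ?_ ?_
        · rw [← h5]; exact image_sub_top hφ hmax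
        · rw [h2]; exact hM.card_le _ a.2
      rw [h6]
      exact hmax
    · rintro ⟨h4, h5, _⟩
      refine ⟨h4, h5, fun a ha b hb hab _ => ?_⟩
      have hinj : Set.InjOn φ (c' : Set (Sx K)) := by
        rw [← Finset.card_image_iff]
        have h6 := Finset.card_image_le (s := c') (f := φ)
        have h7 := sd_card_le hM h4
        rw [h5] at h6 ⊢
        omega
      exact hinj ha hb hab
  rw [h3, Finset.sum_singleton]

theorem tc_zero {σ τ : Finset U} {s t : Finset (Sx K)} (h : ¬ (s ⊆ t ∧ t ∈ sdK K)) :
    tc φ σ τ s t = 0 := by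
  unfold tc
  rw [if_neg]
  rintro ⟨⟨h1, _, _⟩, h2⟩
  exact h ⟨by rw [h2]; exact Finset.filter_subset _ _, h1⟩

/-- **The chain map.** -/
theorem bdT_thE (hM : Psm K B n) (hφ : ∀ a, φ a ∈ a.1) {i : ℕ} {e : Finset U × Finset U}
    (he : e ∈ TCell K B n i) : bdT (sdK K) n (thE φ e) = lin (thE φ) (bdE K n e) := by
  classical
  have hsd := sd_psm hM
  match i with
  | 0 =>
    have he' : e = (∅, ∅) := he
    subst he'
    have h1 : bdE K n ((∅ : Finset U), (∅ : Finset U)) = 0 := by
      unfold bdE
      rw [if_pos rfl]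
    have h2 : thE φ ((∅ : Finset U), (∅ : Finset U)) = Finsupp.single (∅, ∅) 1 := by
      unfold thE
      rw [if_pos rfl]
    rw [h1, h2, map_zero]
    change lin (bdE (sdK K) n) _ = 0
    rw [lin_single]
    unfold bdE
    rw [if_pos rfl]
  | 1 =>
    obtain ⟨p, hp⟩ := thE_one hM hφ he
    have h1 := thE_mem hM hφ he
    rw [hp] at h1
    have h2 : p ∈ TCell (sdK K) (sdB K B) n 1 := by
      refine (Finsupp.mem_supported _ _).1 h1 ?_
      rw [Finset.mem_coe, Finsupp.mem_support_iff, Finsupp.single_eq_same]
      exact one_ne_zero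
    rw [hp, (bdE_one hM he).2.2]
    change lin (bdE (sdK K) n) _ = _
    rw [lin_single, lin_single, (bdE_one hsd h2).2.2]
    unfold thE
    rw [if_pos rfl]
  | m + 2 =>
    have hmemL : bdT (sdK K) n (thE φ e) ∈ TN (sdK K) (sdB K B) n (m + 1) :=
      bdT_mem hsd (thE_mem hM hφ he)
    have hmemR : lin (thE φ) (bdE K n e) ∈ TN (sdK K) (sdB K B) n (m + 1) := by
      refine lin_mem fun c hc => thE_mem hM hφ ?_
      exact (Finsupp.mem_supported _ _).1 (bdE_mem hM he) (Finsupp.mem_support_iff.2 hc)
    refine Finsupp.ext fun p => ?_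
    obtain ⟨s, t⟩ := p
    by_cases hs : s.Nonempty
    · rw [bdT_coeff hsd (thE_mem hM hφ he) hs]
      obtain ⟨σ, τ⟩ := e
      obtain ⟨hσ, hστ, hτK, hτB, hcard⟩ := he
      simp only at hσ hστ hτK hτB hcard
      -- the right side
      have hR : lin (thE φ) (bdE K n (σ, τ)) (s, t) =
          ∑ v ∈ σ, tc φ (σ.erase v) τ s t + ∑ τ₁ ∈ cofs K τ (τ.card + 1), tc φ σ τ₁ s t := by
        unfold bdE
        rw [if_neg hσ.ne_empty, map_add, Finsupp.add_apply]
        congr 1
        · simp only
          by_cases h1 : σ.card = 1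
          · rw [if_pos h1]
            have h2 : ¬ τ.card = n + 1 := by
              intro h; omega
            rw [if_neg h2, map_zero, Finsupp.zero_apply]
            symm
            refine Finset.sum_eq_zero fun v hv => ?_
            obtain ⟨w, hw⟩ := Finset.card_eq_one.1 h1
            rw [hw, Finset.mem_singleton] at hv
            rw [hw, hv, Finset.erase_singleton]
            unfold tc
            rw [if_neg]
            rintro ⟨_, h3⟩
            have h4 : ov φ ∅ t = ∅ := by
              unfold ov
              rw [Finset.filter_eq_empty_iff]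
              intro a _
              exact Finset.notMem_empty _
            rw [h4] at h3
            exact hs.ne_empty h3
          · rw [if_neg h1, map_sum, Finsupp.finsetSum_apply]
            refine Finset.sum_congr rfl fun v hv => ?_
            rw [lin_single]
            refine thE_apply hM hφ ?_ s t
            intro h
            have h2 := Finset.card_erase_of_mem hv
            have h3 := Finset.card_pos.2 hσ
            rw [h, Finset.card_empty] at h2
            omega
        · rw [map_sum, Finsupp.finsetSum_apply]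
          refine Finset.sum_congr rfl fun τ₁ _ => ?_
          rw [lin_single]
          exact thE_apply hM hφ hσ.ne_empty s t
      rw [hR]
      unfold DP
      by_cases hc : s ⊆ t ∧ t ∈ sdK K
      · rw [if_pos hc, ← sd_ident hM hφ hc.2 hs hc.1 hτK hστ]
        refine Finset.sum_congr rfl fun w _ => ?_
        simp only
        rw [thE_apply hM hφ hσ.ne_empty, thE_apply hM hφ hσ.ne_empty]
      · rw [if_neg hc]
        symm
        rw [Finset.sum_eq_zero fun v _ => tc_zero hc, Finset.sum_eq_zero fun v _ => tc_zero hc,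
          add_zero]
    · have h1 : (s, t) ∉ TCell (sdK K) (sdB K B) n (m + 1) := fun h => hs h.1
      have h2 : ∀ x ∈ TN (sdK K) (sdB K B) n (m + 1), x (s, t) = 0 := by
        intro x hx
        by_contra h
        exact h1 ((Finsupp.mem_supported _ _).1 hx (Finsupp.mem_support_iff.2 h))
      rw [h2 _ hmemL, h2 _ hmemR]

end

end Pool.Agent.H37.TM
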