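import Pool.Agent.H37.TM.SdD
import Pool.Agent.H37.TM.StarA

/-!
# Project TM: the action on the flags

Every free simplicial action gives a free simplicial action on the flags, with an invariant height (`sd_mact`); the
chain map `thE` is equivariant if the choice `φ` is (`thE_smul`), and composition with it makes the map `Ψ` a
map to the pairs of flags (`sd_psi`).
-/

set_option autoImplicit false
set_option linter.unusedSectionVars false

open Finset Pointwise

namespace Pool.Agent.H37.TM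

open Pool.Agent.H19.Cub Pool.Agent.H77.SX

section

variable {U Γ : Type} [DecidableEq U] [Group Γ] [MulAction Γ U] {K B : Set (Finset U)} {n : ℕ}
  [MulAction Γ (Sx K)]

/-- the height of the vertices of the flags -/
def sdht (K : Set (Finset U)) (a : Sx K) : ℕ := a.1.card - 1

theorem sx_smul_iff (hact : ∀ (g : Γ) (a : Sx K), (g • a).1 = g • a.1) (g : Γ) (a b : Sx K) :
    (g • a).1 ⊆ (g • b).1 ↔ a.1 ⊆ b.1 := by
  rw [hact, hact, Finset.smul_finset_subset_smul_finset_iff]

theorem sdK_smul (hact : ∀ (g : Γ) (a : Sx K), (g • a).1 = g • a.1) (g : Γ)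
    {c : Finset (Sx K)} (hc : c ∈ sdK K) : g • c ∈ sdK K := by
  refine ⟨hc.1.smul_finset, ?_⟩
  intro a ha b hb
  rw [Finset.mem_smul_finset] at ha hb
  obtain ⟨a', ha', rfl⟩ := ha
  obtain ⟨b', hb', rfl⟩ := hb
  rw [sx_smul_iff hact, sx_smul_iff hact]
  exact hc.2 a' ha' b' hb'

/-- the action on the flags -/
theorem sd_mact (hM : Psm K B n) (hact : ∀ (g : Γ) (a : Sx K), (g • a).1 = g • a.1)
    (hB : ∀ (g : Γ) (s : Finset U), s ∈ B → g • s ∈ B)
    (hfree : ∀ (g : Γ) (s : Finset U), s ∈ K → g • s = s → g = 1) :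
    MAct Γ (sdK K) (sdB K B) n (sdht K) where
  K_mem := fun g s hs => sdK_smul hact g hs
  B_mem := by
    intro g s hs
    refine ⟨sdK_smul hact g hs.1, fun a ha => ?_⟩
    rw [Finset.mem_smul_finset] at ha
    obtain ⟨a', ha', rfl⟩ := ha
    rw [hact]
    exact hB g _ (hs.2 a' ha')
  free := by
    intro g s hs h
    obtain ⟨a, ha⟩ := hs.1
    have h1 : g • a ∈ s := by
      rw [← h]
      exact Finset.smul_mem_smul_finset ha
    have h2 : g • a = a := by
      refine sd_inj hs h1 ha ?_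
      show (g • a).1.card = a.1.card
      rw [hact, Finset.card_smul_finset]
    refine hfree g a.1 a.2 ?_
    rw [← hact, h2]
  ht_smul := by
    intro g a
    unfold sdht
    rw [hact, Finset.card_smul_finset]
  ht_inj := by
    intro s hs a ha b hb h
    have h1 := Finset.card_pos.2 (hM.ne _ a.2)
    have h2 := Finset.card_pos.2 (hM.ne _ b.2)
    refine sd_inj hs ha hb ?_
    show a.1.card = b.1.card
    unfold sdht at h
    omega
  ht_le := by
    intro s _ a _
    have h1 := hM.card_le _ a.2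
    unfold sdht
    omega

theorem sd_singleton (a : Sx K) : ({a} : Finset (Sx K)) ∈ sdK K := by
  refine ⟨Finset.singleton_nonempty a, fun b hb c hc => ?_⟩
  rw [Finset.mem_singleton] at hb hc
  rw [hb, hc]
  exact Or.inl subset_rfl

/-- an equivariant choice of a vertex of every simplex -/
theorem exists_phi (hM : Psm K B n) (hact : ∀ (g : Γ) (a : Sx K), (g • a).1 = g • a.1)
    (hfree : ∀ (g : Γ) (s : Finset U), s ∈ K → g • s = s → g = 1) :
    ∃ φ : Sx K → U, (∀ a, φ a ∈ a.1) ∧ ∀ (g : Γ) a, φ (g • a) = g • φ a := by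
  classical
  rcases isEmpty_or_nonempty (Sx K) with h | h
  · exact ⟨fun a => (h.false a).elim, fun a => (h.false a).elim, fun _ a => (h.false a).elim⟩
  · obtain ⟨a⟩ := h
    obtain ⟨m0, _⟩ := hM.ne _ a.2
    obtain ⟨φ, h1, h2⟩ := exists_equivOn (G := Γ) (B := Sx K) (M := U) Set.univ
      (fun _ _ _ => Set.mem_univ _)
      (fun b _ g h => hfree g b.1 b.2 (by rw [← hact, h]))
      (fun g m => g • m) (fun g h m => mul_smul g h m) (fun b m => m ∈ b.1)
      (fun g b _ m hm => by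
        rw [hact]
        exact Finset.smul_mem_smul_finset hm)
      (fun b _ => hM.ne _ b.2) m0
    exact ⟨φ, fun a => h2 a (Set.mem_univ a), fun g a => h1 g a (Set.mem_univ a)⟩

variable {φ : Sx K → U}

theorem ov_smul (hφg : ∀ (g : Γ) a, φ (g • a) = g • φ a) (g : Γ) (σ : Finset U)
    (c : Finset (Sx K)) : ov φ (g • σ) (g • c) = g • ov φ σ c := by
  ext a
  rw [mem_ov]
  constructor
  · rintro ⟨ha, h⟩
    rw [Finset.mem_smul_finset] at ha
    obtain ⟨b, hb, rfl⟩ := ha
    rw [hφg, Finset.smul_mem_smul_finset_iff] at h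
    exact Finset.smul_mem_smul_finset (mem_ov.2 ⟨hb, h⟩)
  · intro ha
    rw [Finset.mem_smul_finset] at ha
    obtain ⟨b, hb, rfl⟩ := ha
    rw [mem_ov] at hb
    refine ⟨Finset.smul_mem_smul_finset hb.1, ?_⟩
    rw [hφg, Finset.smul_mem_smul_finset_iff]
    exact hb.2

theorem TC_smul (hact : ∀ (g : Γ) (a : Sx K), (g • a).1 = g • a.1)
    (hφg : ∀ (g : Γ) a, φ (g • a) = g • φ a) (g : Γ) {σ τ : Finset U}
    {c : Finset (Sx K)} (h : TC φ σ τ c) : TC φ (g • σ) (g • τ) (g • c) := by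
  obtain ⟨h1, h2, h3⟩ := h
  refine ⟨sdK_smul hact g h1, ?_, ?_⟩
  · rw [← h2]
    ext u
    simp only [Finset.mem_image, Finset.mem_smul_finset]
    constructor
    · rintro ⟨_, ⟨a, ha, rfl⟩, rfl⟩
      exact ⟨φ a, ⟨a, ha, rfl⟩, (hφg g a).symm⟩
    · rintro ⟨_, ⟨a, ha, rfl⟩, rfl⟩
      exact ⟨g • a, ⟨a, ha, rfl⟩, hφg g a⟩
  · intro a ha b hb hab haσ
    rw [Finset.mem_smul_finset] at ha hb
    obtain ⟨a', ha', rfl⟩ := ha
    obtain ⟨b', hb', rfl⟩ := hb
    rw [hφg, hφg] at hab
    rw [hφg, Finset.smul_mem_smul_finset_iff] at haσ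
    rw [h3 a' ha' b' hb' (smul_left_cancel g hab) haσ]

theorem thE_smul (hM : Psm K B n) (hφ : ∀ a, φ a ∈ a.1)
    (hact : ∀ (g : Γ) (a : Sx K), (g • a).1 = g • a.1)
    (hφg : ∀ (g : Γ) a, φ (g • a) = g • φ a) (g : Γ) (e : Finset U × Finset U) :
    thE φ (g • e) = (thE φ e).mapDomain (g • ·) := by
  classical
  obtain ⟨σ, τ⟩ := e
  change thE φ (g • σ, g • τ) = _
  unfold thE
  simp only
  by_cases h0 : σ = ∅
  · rw [if_pos h0, if_pos (by rw [h0, Finset.smul_finset_empty]), Finsupp.mapDomain_single]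
    rfl
  · rw [if_neg h0, if_neg (by rwa [Finset.smul_finset_eq_empty]), Finsupp.mapDomain_finsetSum]
    symm
    refine Finset.sum_bij (fun c _ => g • c) ?_ ?_ ?_ ?_
    · intro c hc
      rw [mem_TF hM hφ] at hc ⊢
      exact TC_smul hact hφg g hc
    · intro c _ c' _ h
      exact smul_left_cancel g h
    · intro c hc
      rw [mem_TF hM hφ] at hc
      have h1 := TC_smul hact hφg g⁻¹ hc
      rw [inv_smul_smul, inv_smul_smul] at h1
      exact ⟨g⁻¹ • c, (mem_TF hM hφ).2 h1, smul_inv_smul g c⟩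
    · intro c _
      rw [Finsupp.mapDomain_single, ov_smul hφg]
      rfl

end

section

variable {V X U Γ : Type} [DecidableEq V] [DecidableEq U] [Group Γ] [MulAction Γ U]
  {Q : CubeComplex V X} {x₀ : X} [MulAction Γ (Q.Cover x₀)] {bit : X → V → ZMod 2}
  {K B : Set (Finset U)} {n : ℕ} [MulAction Γ (Sx K)] {φ : Sx K → U}

/-- **From the manifold to the flags.** -/
theorem sd_psi (hM : Psm K B n) (hφ : ∀ a, φ a ∈ a.1)
    (hact : ∀ (g : Γ) (a : Sx K), (g • a).1 = g • a.1)
    (hφg : ∀ (g : Γ) a, φ (g • a) = g • φ a)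
    {Ψ : Q.Cover x₀ × Finset V → (Finset U × Finset U →₀ ZMod 2)}
    (hΨ : IsPsi Γ Q x₀ bit K B n Ψ) :
    IsPsi Γ Q x₀ bit (sdK K) (sdB K B) n (fun e => lin (thE φ) (Ψ e)) where
  mem := fun i e he => lin_mem fun c hc => thE_mem hM hφ (tn_cell (hΨ.mem i e he) c hc)
  smul := by
    intro g i e he
    rw [hΨ.smul g i e he, lin_mapDomain, mapDomain_lin]
    exact lin_congr fun c _ => thE_smul hM hφ hact hφg g c
  bd := by
    intro i e he
    have h1 : bdT (sdK K) n (lin (thE φ) (Ψ e)) = lin (thE φ) (bdT K n (Ψ e)) := by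
      rw [map_lin]
      change _ = lin (thE φ) (lin (bdE K n) (Ψ e))
      rw [← lin_lin]
      exact lin_congr fun c hc => bdT_thE hM hφ (tn_cell (hΨ.mem i e he) c hc)
    rw [h1, hΨ.bd i e he, map_add, lin_lin]
    congr 1
    split_ifs
    · rw [lin_single]
      unfold thE
      rw [if_pos rfl]
    · rw [map_zero]

end

end Pool.Agent.H37.TM
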