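import Pool.Agent.H37.TM.Sd
import Pool.Agent.H37.TM.Lift

/-!
# Project TM: from the pairs of simplices to the pairs of flags

`φ a ∈ a` for all simplices `a`. The cell `(σ, τ)` goes to the sum of the pairs
`(c ∩ φ⁻¹ σ, c)` of flags with `φ (c) = τ` such that `φ` is injective over `τ - σ`. This is a chain
map (`bdT_thE`); the cells of degree zero go to exactly one cell.
-/

set_option autoImplicit false
set_option linter.unusedSectionVars false

open Finset Pointwise

namespace Pool.Agent.H37.TM

section coeff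

variable {U : Type} [DecidableEq U] {K B : Set (Finset U)} {n : ℕ}

open Classical in
/-- the coefficients of the boundary of a function of the pairs -/
noncomputable def DP (K : Set (Finset U)) (z : Finset U × Finset U → ZMod 2)
    (p : Finset U × Finset U) : ZMod 2 :=
  if p.1 ⊆ p.2 ∧ p.2 ∈ K then
    ∑ w ∈ p.2 \ p.1, (z (insert w p.1, p.2) + z (p.1, p.2.erase w)) else 0

theorem bdE_coeff (hM : Psm K B n) {m : ℕ} {e : Finset U × Finset U}
    (he : e ∈ TCell K B n (m + 1)) {s t : Finset U} (hs : s.Nonempty) :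
    bdE K n e (s, t) = DP K (Pi.single e 1) (s, t) := by
  classical
  obtain ⟨σ, τ⟩ := e
  obtain ⟨hσ, hστ, hτK, hτB, hcard⟩ := he
  simp only at hσ hστ hτK hτB hcard
  have hsne : s ≠ ∅ := hs.ne_empty
  -- the coefficients of `bdE`
  have hA : bdE K n (σ, τ) (s, t) = (∑ v ∈ σ, if σ.erase v = s ∧ τ = t then (1 : ZMod 2) else 0) +
      (if σ = s ∧ t ∈ cofs K τ (τ.card + 1) then 1 else 0) := by
    unfold bdE
    rw [if_neg hσ.ne_empty, Finsupp.add_apply]
    congr 1
    · simp only
      by_cases h1 : σ.card = 1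
      · rw [if_pos h1]
        obtain ⟨v, hv⟩ := Finset.card_eq_one.1 h1
        have h2 : (∑ v ∈ σ, if σ.erase v = s ∧ τ = t then (1 : ZMod 2) else 0) = 0 := by
          refine Finset.sum_eq_zero fun w hw => ?_
          rw [if_neg]
          rintro ⟨h3, _⟩
          rw [hv, Finset.mem_singleton] at hw
          rw [hv, hw, Finset.erase_singleton] at h3
          exact hsne h3.symm
        rw [h2]
        split_ifs
        · rw [Finsupp.single_apply, if_neg]
          intro h3
          rw [Prod.mk.injEq] at h3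
          exact hsne h3.1.symm
        · rfl
      · rw [if_neg h1, Finsupp.finsetSum_apply]
        refine Finset.sum_congr rfl fun v _ => ?_
        rw [Finsupp.single_apply]
        simp only [Prod.mk.injEq]
    · rw [Finsupp.finsetSum_apply]
      simp only [Finsupp.single_apply, Prod.mk.injEq]
      by_cases h1 : σ = s
      · simp [h1]
      · simp [h1]
  rw [hA]
  unfold DP
  by_cases hc : s ⊆ t ∧ t ∈ K
  · rw [if_pos hc, Finset.sum_add_distrib]
    congr 1
    · have h1 : ∀ w ∈ t \ s, (Pi.single (σ, τ) (1 : ZMod 2) : Finset U × Finset U → ZMod 2)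
          (insert w s, t) = if insert w s = σ ∧ t = τ then 1 else 0 := by
        intro w _
        rw [Pi.single_apply]
        simp only [Prod.mk.injEq]
      rw [Finset.sum_congr rfl h1, ← Finset.sum_filter, ← Finset.sum_filter]
      refine Finset.sum_congr ?_ fun _ _ => rfl
      ext v
      simp only [Finset.mem_filter, Finset.mem_sdiff]
      constructor
      · rintro ⟨h2, h3, h4⟩
        refine ⟨⟨by rw [← h4]; exact hστ h2, ?_⟩, ?_, h4.symm⟩
        · rw [← h3]; exact Finset.notMem_erase _ _
        · rw [← h3, Finset.insert_erase h2]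
      · rintro ⟨⟨_, h3⟩, h4, h5⟩
        refine ⟨by rw [← h4]; exact Finset.mem_insert_self _ _, ?_, h5.symm⟩
        rw [← h4, Finset.erase_insert h3]
    · have h1 : ∀ w ∈ t \ s, (Pi.single (σ, τ) (1 : ZMod 2) : Finset U × Finset U → ZMod 2)
          (s, t.erase w) = if s = σ ∧ t.erase w = τ then 1 else 0 := by
        intro w _
        rw [Pi.single_apply]
        simp only [Prod.mk.injEq]
      rw [Finset.sum_congr rfl h1]
      by_cases h2 : σ = s ∧ t ∈ cofs K τ (τ.card + 1)
      · rw [if_pos h2]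
        obtain ⟨h3, h4⟩ := h2
        rw [mem_cofsP hM hτK] at h4
        obtain ⟨_, h5, h6⟩ := h4
        have h7 : (t \ τ).card = 1 := by
          rw [Finset.card_sdiff_of_subset h5]; omega
        obtain ⟨w, hw⟩ := Finset.card_eq_one.1 h7
        have hw1 : w ∈ t ∧ w ∉ τ := by
          rw [← Finset.mem_sdiff, hw]; exact Finset.mem_singleton_self w
        have hw2 : t.erase w = τ := by
          have h8 : τ ⊆ t.erase w := Finset.subset_erase.2 ⟨h5, hw1.2⟩
          refine (Finset.eq_of_subset_of_card_le h8 ?_).symm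
          rw [Finset.card_erase_of_mem hw1.1]; omega
        rw [Finset.sum_eq_single w]
        · rw [if_pos ⟨h3.symm, hw2⟩]
        · intro v hv hvw
          rw [if_neg]
          rintro ⟨_, h9⟩
          rw [Finset.mem_sdiff] at hv
          have : v ∈ t \ τ := by
            rw [Finset.mem_sdiff, ← h9]
            exact ⟨hv.1, Finset.notMem_erase _ _⟩
          rw [hw, Finset.mem_singleton] at this
          exact hvw this
        · intro h9
          exact absurd (Finset.mem_sdiff.2 ⟨hw1.1, fun h => hw1.2 (hστ (by rw [h3]; exact h))⟩) h9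
      · rw [if_neg h2]
        symm
        refine Finset.sum_eq_zero fun w hw => ?_
        rw [if_neg]
        rintro ⟨h3, h4⟩
        rw [Finset.mem_sdiff] at hw
        refine h2 ⟨h3.symm, ?_⟩
        rw [mem_cofsP hM hτK]
        refine ⟨hc.2, by rw [← h4]; exact Finset.erase_subset _ _, ?_⟩
        rw [← h4, Finset.card_erase_of_mem hw.1]
        have := Finset.card_pos.2 ⟨w, hw.1⟩
        omega
  · rw [if_neg hc]
    have h1 : (∑ v ∈ σ, if σ.erase v = s ∧ τ = t then (1 : ZMod 2) else 0) = 0 := by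
      refine Finset.sum_eq_zero fun v _ => ?_
      rw [if_neg]
      rintro ⟨h3, h4⟩
      refine hc ⟨?_, by rw [← h4]; exact hτK⟩
      rw [← h3, ← h4]
      exact (Finset.erase_subset _ _).trans hστ
    rw [h1, zero_add, if_neg]
    rintro ⟨h3, h4⟩
    rw [mem_cofsP hM hτK] at h4
    exact hc ⟨by rw [← h3]; exact hστ.trans h4.2.1, h4.1⟩

/-- `DP` is additive -/
theorem DP_add (z z' : Finset U × Finset U → ZMod 2) : DP K (z + z') = DP K z + DP K z' := by
  funext p
  rw [Pi.add_apply]
  unfold DP
  by_cases h : p.1 ⊆ p.2 ∧ p.2 ∈ K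
  · rw [if_pos h, if_pos h, if_pos h, ← Finset.sum_add_distrib]
    refine Finset.sum_congr rfl fun w _ => ?_
    simp only [Pi.add_apply]; ring
  · rw [if_neg h, if_neg h, if_neg h, add_zero]

/-- `DP` as an additive map -/
noncomputable def DPL (K : Set (Finset U)) :
    (Finset U × Finset U → ZMod 2) →+ (Finset U × Finset U → ZMod 2) where
  toFun := DP K
  map_zero' := by
    funext p
    unfold DP
    by_cases h : p.1 ⊆ p.2 ∧ p.2 ∈ K
    · rw [if_pos h]; simp
    · rw [if_neg h]; rfl
  map_add' := DP_add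

/-- the coefficients of the boundary of a chain -/
theorem bdT_coeff (hM : Psm K B n) {m : ℕ} {x : Finset U × Finset U →₀ ZMod 2}
    (hx : x ∈ TN K B n (m + 1)) {s t : Finset U} (hs : s.Nonempty) :
    bdT K n x (s, t) = DP K x (s, t) := by
  classical
  have hx' : ∀ e ∈ x.support, e ∈ TCell K B n (m + 1) := fun e he =>
    (Finsupp.mem_supported _ _).1 hx he
  have h1 : (x : Finset U × Finset U → ZMod 2) = ∑ e ∈ x.support, Pi.single e (x e) := by
    funext p
    rw [Finset.sum_apply]
    by_cases hp : p ∈ x.support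
    · rw [Finset.sum_eq_single p]
      · rw [Pi.single_eq_same]
      · intro e _ hne
        rw [Pi.single_eq_of_ne hne.symm]
      · intro h; exact absurd hp h
    · rw [Finsupp.notMem_support_iff.1 hp]
      symm
      refine Finset.sum_eq_zero fun e he => ?_
      rw [Pi.single_eq_of_ne]
      intro h; rw [h] at hp; exact hp he
  have h2 : DP K x = ∑ e ∈ x.support, DP K (Pi.single e (x e)) := by
    conv_lhs => rw [h1]
    exact map_sum (DPL K) _ _
  rw [h2, Finset.sum_apply]
  unfold bdT
  rw [Finsupp.linearCombination_apply, Finsupp.sum, Finsupp.finsetSum_apply]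
  refine Finset.sum_congr rfl fun e he => ?_
  have h3 : x e = 1 := by
    have h4 := Finsupp.mem_support_iff.1 he
    revert h4
    generalize x e = a
    revert a
    decide
  rw [h3, one_smul]
  exact bdE_coeff hM (hx' e he) hs

end coeff

variable {U : Type} [DecidableEq U] {K B : Set (Finset U)} {n : ℕ}

/-- the condition on the flag `c` for the cell `(σ, τ)` -/
def TC (φ : Sx K → U) (σ τ : Finset U) (c : Finset (Sx K)) : Prop :=
  c ∈ sdK K ∧ c.image φ = τ ∧ ∀ a ∈ c, ∀ b ∈ c, φ a = φ b → φ a ∉ σ → a = b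

open Classical in
/-- the flags for the cell `(σ, τ)` -/
noncomputable def TF (φ : Sx K → U) (σ τ : Finset U) : Finset (Finset (Sx K)) :=
  if h : {c | TC φ σ τ c}.Finite then h.toFinset else ∅

theorem TC_fin (hM : Psm K B n) (φ : Sx K → U) (hφ : ∀ a, φ a ∈ a.1) (σ τ : Finset U) :
    {c | TC φ σ τ c}.Finite := by
  refine ((sd_near hM τ).toFinset.powerset.finite_toSet).subset ?_
  rintro c ⟨_, h2, _⟩
  rw [Finset.mem_coe, Finset.mem_powerset]
  intro a ha
  rw [Set.Finite.mem_toFinset]
  exact ⟨φ a, by rw [← h2]; exact Finset.mem_image_of_mem φ ha, hφ a⟩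

theorem mem_TF (hM : Psm K B n) {φ : Sx K → U} (hφ : ∀ a, φ a ∈ a.1) {σ τ : Finset U}
    {c : Finset (Sx K)} : c ∈ TF φ σ τ ↔ TC φ σ τ c := by
  unfold TF
  rw [dif_pos (TC_fin hM φ hφ σ τ), Set.Finite.mem_toFinset]
  rfl

/-- the part of the flag over `σ` -/
def ov (φ : Sx K → U) (σ : Finset U) (c : Finset (Sx K)) : Finset (Sx K) :=
  c.filter fun a => φ a ∈ σ

/-- the image of the cell `(σ, τ)` -/
noncomputable def thE (φ : Sx K → U) (e : Finset U × Finset U) :
    Finset (Sx K) × Finset (Sx K) →₀ ZMod 2 :=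
  if e.1 = ∅ then Finsupp.single (∅, ∅) 1
  else ∑ c ∈ TF φ e.1 e.2, Finsupp.single (ov φ e.1 c, c) 1

open Classical in
/-- the coefficients of `thE` -/
noncomputable def tc (φ : Sx K → U) (σ τ : Finset U) (s t : Finset (Sx K)) : ZMod 2 :=
  if TC φ σ τ t ∧ s = ov φ σ t then 1 else 0

theorem thE_apply (hM : Psm K B n) {φ : Sx K → U} (hφ : ∀ a, φ a ∈ a.1) {σ τ : Finset U}
    (hσ : σ ≠ ∅) (s t : Finset (Sx K)) : thE φ (σ, τ) (s, t) = tc φ σ τ s t := by
  classical
  unfold thE tc
  rw [if_neg hσ, Finsupp.finsetSum_apply]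
  simp only [Finsupp.single_apply, Prod.mk.injEq]
  by_cases h : TC φ σ τ t ∧ s = ov φ σ t
  · rw [if_pos h, Finset.sum_eq_single t]
    · rw [if_pos ⟨h.2.symm, rfl⟩]
    · intro c _ hc
      rw [if_neg (fun h' => hc h'.2)]
    · intro h'
      exact absurd ((mem_TF hM hφ).2 h.1) h'
  · rw [if_neg h]
    refine Finset.sum_eq_zero fun c hc => ?_
    rw [if_neg]
    rintro ⟨h1, h2⟩
    rw [mem_TF hM hφ, h2] at hc
    rw [h2] at h1
    exact h ⟨hc, h1.symm⟩

/-- the image of a cell is a chain of the complex of the flags -/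
theorem thE_mem (hM : Psm K B n) {φ : Sx K → U} (hφ : ∀ a, φ a ∈ a.1) {i : ℕ}
    {e : Finset U × Finset U} (he : e ∈ TCell K B n i) :
    thE φ e ∈ TN (sdK K) (sdB K B) n i := by
  classical
  match i with
  | 0 =>
    have he' : e = (∅, ∅) := he
    subst he'
    unfold thE
    rw [if_pos rfl]
    exact Finsupp.single_mem_supported _ _ rfl
  | m + 1 =>
    obtain ⟨σ, τ⟩ := e
    obtain ⟨hσ, hστ, hτK, hτB, hcard⟩ := he
    simp only at hσ hστ hτK hτB hcard
    unfold thE
    rw [if_neg hσ.ne_empty]
    refine Submodule.sum_mem _ fun c hc => ?_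
    rw [mem_TF hM hφ] at hc
    obtain ⟨h1, h2, h3⟩ := hc
    simp only at h2 h3
    refine Finsupp.single_mem_supported _ _ ⟨?_, Finset.filter_subset _ _, h1, ?_, ?_⟩
    · obtain ⟨v, hv⟩ := hσ
      have h4 : v ∈ c.image φ := by rw [h2]; exact hστ hv
      rw [Finset.mem_image] at h4
      obtain ⟨a, ha, hav⟩ := h4
      exact ⟨a, Finset.mem_filter.2 ⟨ha, by rw [hav]; exact hv⟩⟩
    · rintro ⟨_, h4⟩
      obtain ⟨a, ha, hmax⟩ := sd_top h1
      have h5 : τ ⊆ a.1 := by
        rw [← h2]
        intro v hv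
        rw [Finset.mem_image] at hv
        obtain ⟨b, hb, rfl⟩ := hv
        exact hmax b hb (hφ b)
      exact hτB (hM.bd_down _ (h4 a ha) τ h5 (hM.ne _ hτK))
    · -- the sizes
      show (ov φ σ c).card + n = c.card + m
      have h4 : (c.filter fun a => φ a ∉ σ).card = (τ \ σ).card := by
        have h5 : (c.filter fun a => φ a ∉ σ).image φ = τ \ σ := by
          rw [← h2]
          ext v
          simp only [Finset.mem_image, Finset.mem_filter, Finset.mem_sdiff]
          constructor
          · rintro ⟨a, ⟨h6, h7⟩, rfl⟩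
            exact ⟨⟨a, h6, rfl⟩, h7⟩
          · rintro ⟨⟨a, h6, rfl⟩, h7⟩
            exact ⟨a, ⟨h6, h7⟩, rfl⟩
        rw [← h5, Finset.card_image_of_injOn]
        intro a ha b hb hab
        rw [Finset.mem_coe, Finset.mem_filter] at ha hb
        exact h3 a ha.1 b hb.1 hab ha.2
      have h5 := Finset.card_filter_add_card_filter_not (s := c) (fun a => φ a ∈ σ)
      have h6 : (c.filter fun a => ¬ φ a ∈ σ).card = (c.filter fun a => φ a ∉ σ).card := rfl
      have h7 : (τ \ σ).card = τ.card - σ.card := Finset.card_sdiff_of_subset hστ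
      have h8 := Finset.card_le_card hστ
      unfold ov
      omega

end Pool.Agent.H37.TM
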