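import Pool.Agent.H37.TM.StarC

/-!
# Project TM: evaluation of the two sides
-/

set_option autoImplicit false
set_option linter.unusedSectionVars false

open Finset Pointwise

namespace Pool.Agent.H37.TM

open Pool.Agent.H19.Cub Pool.Agent.H77.SX

variable {V X U Γ P K : Type} [DecidableEq V] [DecidableEq U] [Group Γ] [MulAction Γ U]
  {Q : CubeComplex V X} {x₀ : X} [MulAction Γ (Q.Cover x₀)] {bit : X → V → ZMod 2}
  [Group P] [Field K] [Algebra (ZMod 2) K] {g : V → P} {t : V → P → K}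

/-- The left side: `lin_bet_TT` with `h b c = pot b c p` and `t b c = if b ∈ s then t b (p * pos c) else 0`; only
the cubes `(c, s)` contribute; `osum_eq_of_reps` with the vertices `x` with `s ⊆ lab x` and bits `0` on `s`. -/
theorem star_left [Fintype V] [Fintype X] [Fintype P] [CharP K 2] (D : Dat Q g t)
    {s : Finset V} {d : ℕ} (hbit : IsBit Q bit) (hΓ : IsDeck Γ Q x₀)
    (hsurj : Function.Surjective (Q.proj x₀)) {z : Finset V → X → Finset V × P → K}
    (hz : z ∈ ZQ K Q d (rX g s t)) (hs : Q.graph.IsClique (s : Set V)) (hsd : s.card = d)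
    {l : List V} (hl : l.Nodup) (hls : l.toFinset = s) :
    osum Γ (fun e : Q.Cover x₀ × Finset V => open Classical in
      if e ∈ Cell Q x₀ bit d then ∑ p, be D s x₀ l p (TT Q x₀ e) * upz D s x₀ z e (∅, p) ^ 2
      else 0) =
      ∑ x ∈ univ.filter (fun x => s ⊆ Q.lab x ∧ ∀ v ∈ s, bit x v = 0), ∑ p,
        (∏ v ∈ s, t v p) * z s x (∅, p) ^ 2 := by
  classical
  have hld : l.length = d := by rw [← hsd, ← hls, List.toFinset_card_of_nodup hl]
  -- the value at a cube
  have hval : ∀ e : Q.Cover x₀ × Finset V, (if e ∈ Cell Q x₀ bit d then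
      ∑ p, be D s x₀ l p (TT Q x₀ e) * upz D s x₀ z e (∅, p) ^ 2 else 0) =
      if e ∈ Cell Q x₀ bit d ∧ e.2 = s then
        ∑ p, (∏ v ∈ s, t v p) * z s (Q.proj x₀ e.1) (∅, p) ^ 2 else 0 := by
    intro e
    by_cases he : e ∈ Cell Q x₀ bit d
    · rw [if_pos he]
      have h1 : ∀ p : P, be D s x₀ l p (TT Q x₀ e) =
          if e.2 = s then ∏ b ∈ s, t b (p * pos D x₀ e.1) else 0 := by
        intro p
        have h2 := lin_bet_TT (Q := Q) (x₀ := x₀) (bit := bit)
          (h := fun b c => pot D s x₀ b c p)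
          (t := fun b c => if b ∈ s then t b (p * pos D x₀ c) else 0)
          (fun c v hv b => by
            show pot D s x₀ b (Q.nbc x₀ v c) p = pot D s x₀ b c p + _
            rw [pot_nbc D s x₀ hv]
            congr 1
            by_cases h3 : v = b <;> by_cases h4 : b ∈ s <;> simp [h3, h4])
          (fun c v hv b hbv => by
            show (if b ∈ s then t b (p * pos D x₀ (Q.nbc x₀ v c)) else 0) =
              if b ∈ s then t b (p * pos D x₀ c) else 0
            rw [pos_nbc D x₀ hv, ← mul_assoc, D.star b v (hbv.imp Eq.symm id)])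
          (e := e) hl (by rw [hld]; exact he)
        unfold be
        rw [h2, hls]
        by_cases h3 : e.2 = s
        · rw [if_pos h3, if_pos h3, h3]
          exact prod_congr rfl fun b hb => if_pos hb
        · rw [if_neg h3, if_neg h3]
      by_cases h3 : e.2 = s
      · rw [if_pos ⟨he, h3⟩]
        refine Fintype.sum_equiv (Equiv.mulRight (pos D x₀ e.1)) _ _ fun p => ?_
        rw [h1, if_pos h3]
        show _ * (act D s x₀ e.1 (z e.2 (Q.proj x₀ e.1)) (∅, p)) ^ 2 = _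
        rw [act_empty, h3]
        rfl
      · rw [if_neg (fun h => h3 h.2)]
        refine sum_eq_zero fun p _ => ?_
        rw [h1, if_neg h3, zero_mul]
    · rw [if_neg he, if_neg (fun h => he h.1)]
  -- the representatives
  choose c hc using hsurj
  have hcell : ∀ x, x ∈ univ.filter (fun x => s ⊆ Q.lab x ∧ ∀ v ∈ s, bit x v = 0) ↔
      (c x, s) ∈ Cell Q x₀ bit d := by
    intro x
    unfold Cell
    rw [mem_filter, Set.mem_ofPred_eq, hc]
    exact ⟨fun h => ⟨h.2.1, hs, hsd, h.2.2⟩, fun h => ⟨mem_univ x, h.1, h.2.2.2⟩⟩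
  rw [show (fun e : Q.Cover x₀ × Finset V => open Classical in
      if e ∈ Cell Q x₀ bit d then ∑ p, be D s x₀ l p (TT Q x₀ e) * upz D s x₀ z e (∅, p) ^ 2
      else 0) = fun e => if e ∈ Cell Q x₀ bit d ∧ e.2 = s then
        ∑ p, (∏ v ∈ s, t v p) * z s (Q.proj x₀ e.1) (∅, p) ^ 2 else 0 from funext hval]
  rw [osum_eq_of_reps (J := {x // x ∈ univ.filter
      (fun x => s ⊆ Q.lab x ∧ ∀ v ∈ s, bit x v = 0)}) _ ?_ (fun j => (c j.1, s)) ?_ ?_]
  · rw [sum_subtype (univ.filter (fun x => s ⊆ Q.lab x ∧ ∀ v ∈ s, bit x v = 0))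
      (fun _ => Iff.rfl)]
    refine sum_congr rfl fun j _ => ?_
    rw [if_pos ⟨(hcell j.1).1 j.2, rfl⟩, hc]
  · intro γ e
    simp only [cell_smul hΓ]
    rw [cu_smul]
    simp only [hΓ.proj]
  · intro i j γ h
    have h1 := congrArg Prod.fst h
    have h2 : Q.proj x₀ (γ • c i.1) = Q.proj x₀ (c j.1) := congrArg (Q.proj x₀) h1
    rw [hΓ.proj, hc, hc] at h2
    exact Subtype.ext h2
  · intro e he
    have h1 : e ∈ Cell Q x₀ bit d ∧ e.2 = s := by
      by_contra h
      exact he (if_neg h)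
    have h2 : Q.proj x₀ e.1 ∈ univ.filter (fun x => s ⊆ Q.lab x ∧ ∀ v ∈ s, bit x v = 0) := by
      have h3 := h1.1
      unfold Cell at h3
      rw [Set.mem_ofPred_eq, h1.2] at h3
      exact mem_filter.2 ⟨mem_univ _, h3.1, h3.2.2.2⟩
    obtain ⟨γ, hγ⟩ := hΓ.trans e.1 (c (Q.proj x₀ e.1)) (hc _).symm
    refine ⟨γ, ⟨Q.proj x₀ e.1, h2⟩, ?_⟩
    rw [cu_smul, hγ, h1.2]

variable {M B : Set (Finset U)} {n : ℕ} {ht : U → ℕ}

/-! #### evaluation of the map to the tuples -/

theorem bet_map' {D D' : Type} (h : V → D' → K) (f : D → D') : ∀ (l : List V) (m : List D),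
    bet h l (m.map f) = bet (fun b x => h b (f x)) l m
  | [], [] => by rw [List.map_nil, bet_nil_nil, bet_nil_nil]
  | [], [x] => by rw [List.map_singleton, bet_nil_one, bet_nil_one]
  | [], x :: y :: m => by rw [List.map_cons, List.map_cons, bet_nil_two, bet_nil_two]
  | b :: l, [] => by rw [List.map_nil, bet_cons_nil, bet_cons_nil]
  | b :: l, [x] => by rw [List.map_singleton, bet_cons_one, bet_cons_one]
  | b :: l, x :: y :: m => by
    rw [List.map_cons, List.map_cons, bet_cons_two, bet_cons_two, ← bet_map' h f l (y :: m),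
      List.map_cons]

theorem bet_diff' {D : Type} {h h' : V → D → K} (hd : ∀ b x y, h b x + h b y = h' b x + h' b y) :
    ∀ (l : List V) (m : List D), bet h l m = bet h' l m
  | [], [] => by rw [bet_nil_nil, bet_nil_nil]
  | [], [x] => by rw [bet_nil_one, bet_nil_one]
  | [], x :: y :: m => by rw [bet_nil_two, bet_nil_two]
  | b :: l, [] => by rw [bet_cons_nil, bet_cons_nil]
  | b :: l, [x] => by rw [bet_cons_one, bet_cons_one]
  | b :: l, x :: y :: m => by
    rw [bet_cons_two, bet_cons_two, bet_diff' hd l (y :: m), hd]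

theorem bet_hpf_smul (D : Dat Q g t) (s : Finset V) (hΓ : IsDeck Γ Q x₀) {f : U → Q.Cover x₀}
    (hf : IsVMap Γ f) (p : P) (γ : Γ) (l : List V) (m : List U) :
    bet (hpf D s x₀ f p) l (m.map (γ • ·)) =
      bet (hpf D s x₀ f (p * pos D x₀ (γ • base Q x₀))) l m := by
  rw [bet_map']
  refine bet_diff' (fun b x y => ?_) l m
  unfold hpf
  rw [hf γ x, hf γ y, pot_smul D s x₀ hΓ γ (f x), pot_smul D s x₀ hΓ γ (f y)]
  have h := add_self_zero (pot D s x₀ b (γ • base Q x₀) p)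
  linear_combination h

/-- the value of the map to the tuples -/
theorem lam_eval {d : ℕ} {y : Finset U × Finset U →₀ ZMod 2} (hy : y ∈ TN M B n (d + 1))
    (F : List U → K) {S : Finset (Finset U)} (hS : ∀ e, y e ≠ 0 → e.2 ∈ S) :
    lin F (lin (lamE M n ht) y) = ∑ τ ∈ S, al y τ • lin F (lamT M n ht τ) := by
  classical
  have hcell : ∀ e, y e ≠ 0 → e ∈ TCell M B n (d + 1) := fun e he =>
    (Finsupp.mem_supported _ _).1 hy (Finsupp.mem_support_iff.2 he)
  rw [← lin_lin]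
  have h1 : lin (fun c => lin F (lamE M n ht c)) y =
      ∑ e ∈ y.support, y e • lin F (lamE M n ht e) := by
    unfold lin
    rw [Finsupp.linearCombination_apply]
    rfl
  rw [h1]
  have h2 : ∑ e ∈ y.support, y e • lin F (lamE M n ht e) =
      ∑ e ∈ (S.biUnion fun τ => τ.powerset) ×ˢ S, y e • lin F (lamE M n ht e) := by
    refine sum_subset (fun e he => ?_) fun e _ he => ?_
    · have he' := Finsupp.mem_support_iff.1 he
      exact mem_product.2 ⟨mem_biUnion.2 ⟨e.2, hS e he', mem_powerset.2 (hcell e he').2.1⟩, hS e he'⟩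
    · rw [Finsupp.notMem_support_iff.1 he, zero_smul]
  rw [h2, sum_product_right]
  refine sum_congr rfl fun τ hτ => ?_
  have h3 : ∑ σ ∈ S.biUnion (fun τ => τ.powerset), y (σ, τ) • lin F (lamE M n ht (σ, τ)) =
      ∑ σ ∈ τ.image (fun v => ({v} : Finset U)), y (σ, τ) • lin F (lamE M n ht (σ, τ)) := by
    refine (sum_subset (fun σ hσ => ?_) fun σ _ hσ => ?_).symm
    · obtain ⟨v, hv, rfl⟩ := mem_image.1 hσ
      exact mem_biUnion.2 ⟨τ, hτ, mem_powerset.2 (singleton_subset_iff.2 hv)⟩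
    · by_cases h4 : y (σ, τ) = 0
      · rw [h4, zero_smul]
      · obtain ⟨h5, h6, -⟩ := hcell _ h4
        have h7 : 1 < σ.card := by
          by_contra h8
          have h9 : σ.card = 1 := by
            have := card_pos.2 h5
            dsimp only at this
            omega
          obtain ⟨v, rfl⟩ := card_eq_one.1 h9
          exact hσ (mem_image.2 ⟨v, h6 (mem_singleton_self v), rfl⟩)
        rw [lamE_two h7, map_zero, smul_zero]
  rw [h3, sum_image (fun v _ w _ h => singleton_injective h)]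
  unfold al
  rw [Finset.sum_smul]
  refine sum_congr rfl fun v _ => ?_
  rw [lamE_one (card_singleton v)]

theorem lamT_eval {d : ℕ} {τ : Finset U} (hτ : τ.card + d = n + 1) (F : List U → K) :
    lin F (lamT M n ht τ) = open Classical in if ∀ u ∈ τ, d ≤ ht u then
      ∑ T ∈ cofs M τ (n + 1), F (frontL ht T d) else 0 := by
  classical
  have h1 : n + 1 - τ.card = d := by omega
  unfold lamT
  rw [h1]
  split_ifs with h
  · rw [map_sum]
    exact sum_congr rfl fun T _ => lin_single _ _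
  · rw [map_zero]

/-- the final segments of the top simplices -/
theorem top_seg (hA : MAct Γ M B n ht) {d : ℕ} {T : Finset U} (hT : T ∈ M)
    (hc : T.card = n + 1) (hd : d ≤ n + 1) : (T.filter fun u => d ≤ ht u).card + d = n + 1 := by
  have hinj := hA.ht_inj T hT
  have himg : T.image ht = range (n + 1) := by
    refine eq_of_subset_of_card_le (fun i hi => ?_) ?_
    · obtain ⟨u, hu, rfl⟩ := mem_image.1 hi
      exact mem_range.2 (by have := hA.ht_le T hT u hu; omega)
    · rw [card_image_of_injOn hinj, hc, card_range]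
  have h2 : (T.filter fun u => d ≤ ht u).image ht = (range (n + 1)).filter fun i => d ≤ i := by
    rw [← himg]
    ext i
    simp only [mem_image, mem_filter]
    constructor
    · rintro ⟨u, ⟨h3, h4⟩, rfl⟩
      exact ⟨⟨u, h3, rfl⟩, h4⟩
    · rintro ⟨⟨u, h3, rfl⟩, h4⟩
      exact ⟨u, ⟨h3, h4⟩, rfl⟩
  have h3 : ((range (n + 1)).filter fun i => d ≤ i).card + d = n + 1 := by
    have h4 : ((range (n + 1)).filter fun i => d ≤ i) = Ico d (n + 1) := by
      ext i
      simp only [mem_filter, mem_range, mem_Ico]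
      omega
    rw [h4, Nat.card_Ico]
    omega
  rw [← h3, ← h2, card_image_of_injOn (hinj.mono (by exact_mod_cast filter_subset _ T))]

/-- The columns of `al (Ψ e) τ` are finite and vanish outside `M` and in `B`. -/
theorem al_fin [Fintype V] [Fintype X] {d : ℕ} (hΓ : IsDeck Γ Q x₀) (hM : Psm M B n)
    (hA : MAct Γ M B n ht) {Ψ : Q.Cover x₀ × Finset V → (Finset U × Finset U →₀ ZMod 2)}
    (hΨ : IsPsi Γ Q x₀ bit M B n Ψ) :
    (∀ e ∈ Cell Q x₀ bit d, ∀ τ, al (Ψ e) τ ≠ 0 → τ ∈ M ∧ τ ∉ B ∧ τ.card + d = n + 1) ∧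
    (∀ e, {τ | al (Ψ e) τ ≠ 0}.Finite) ∧
    (∀ τ, {e | e ∈ Cell Q x₀ bit d ∧ al (Ψ e) τ ≠ 0}.Finite) ∧
    (∀ γ : Γ, ∀ e ∈ Cell Q x₀ bit d, ∀ τ, al (Ψ (γ • e)) (γ • τ) = al (Ψ e) τ) := by
  classical
  have h1 : ∀ e ∈ Cell Q x₀ bit d, ∀ τ, al (Ψ e) τ ≠ 0 → τ ∈ M ∧ τ ∉ B ∧ τ.card + d = n + 1 := by
    intro e he τ h
    obtain ⟨v, _, h2⟩ := exists_ne_zero_of_sum_ne_zero h
    have h3 := (Finsupp.mem_supported _ _).1 (hΨ.mem d e he) (Finsupp.mem_support_iff.2 h2)
    obtain ⟨-, -, h4, h5, h6⟩ := h3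
    refine ⟨h4, h5, ?_⟩
    dsimp only at h6
    rw [card_singleton] at h6
    omega
  have h2 : ∀ e, {τ | al (Ψ e) τ ≠ 0}.Finite := by
    intro e
    refine ((Ψ e).support.image Prod.snd).finite_toSet.subset fun τ hτ => ?_
    obtain ⟨v, _, h3⟩ := exists_ne_zero_of_sum_ne_zero hτ
    exact mem_coe.2 (mem_image.2 ⟨_, Finsupp.mem_support_iff.2 h3, rfl⟩)
  have h4 : ∀ γ : Γ, ∀ e ∈ Cell Q x₀ bit d, ∀ τ, al (Ψ (γ • e)) (γ • τ) = al (Ψ e) τ := by
    intro γ e he τ
    unfold al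
    rw [hΨ.smul γ d e he, sum_smul]
    refine sum_congr rfl fun v _ => ?_
    have h5 : (({γ • v} : Finset U), γ • τ) = γ • (({v} : Finset U), τ) := by
      rw [Prod.smul_mk, smul_finset_singleton]
    rw [h5]
    exact Finsupp.mapDomain_apply (MulAction.injective γ) _ _
  refine ⟨h1, h2, fun τ => ?_, h4⟩
  have h5 := finite_col (Γ := Γ) (M := ZMod 2)
    (fun (e : Q.Cover x₀ × Finset V) (τ : Finset U) =>
      if e ∈ Cell Q x₀ bit d then al (Ψ e) τ else 0)
    (fun γ e τ => by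
      simp only [cell_smul hΓ]
      by_cases he : e ∈ Cell Q x₀ bit d
      · rw [if_pos he, if_pos he, h4 γ e he]
      · rw [if_neg he, if_neg he])
    (fun e τ h γ hγ => by
      have he : e ∈ Cell Q x₀ bit d := by
        by_contra he
        exact h (if_neg he)
      rw [if_pos he] at h
      exact hA.free γ τ (h1 e he τ h).1 hγ)
    (fun e => (h2 e).subset fun τ h => by
      by_cases he : e ∈ Cell Q x₀ bit d
      · have h' : (if e ∈ Cell Q x₀ bit d then al (Ψ e) τ else 0) ≠ 0 := h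
        rwa [if_pos he] at h'
      · exact absurd (if_neg he) h)
    (by
      obtain ⟨F, hF⟩ := cu_fin (Γ := Γ) (Q := Q) (x₀ := x₀) hΓ
      exact ⟨F, fun e _ _ => hF e⟩) τ
  refine h5.subset fun e he => ?_
  show (if e ∈ Cell Q x₀ bit d then al (Ψ e) τ else 0) ≠ 0
  rw [if_pos he.1]
  exact he.2

open Classical in
/-- the kernel of the double sum -/
noncomputable def srk (D : Dat Q g t) (s : Finset V) (bit : X → V → ZMod 2) [Fintype P] (d n : ℕ)
    (M : Set (Finset U)) (ht : U → ℕ)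
    (Ψ : Q.Cover x₀ × Finset V → (Finset U × Finset U →₀ ZMod 2)) (f : U → Q.Cover x₀)
    (z : Finset V → X → Finset V × P → K) (l : List V) (e : Q.Cover x₀ × Finset V)
    (T : Finset U) : K :=
  if e ∈ Cell Q x₀ bit d ∧ T ∈ M ∧ T.card = n + 1 then
    ∑ p, bet (hpf D s x₀ f p) l (frontL ht T d) *
      (al (Ψ e) (T.filter fun u => d ≤ ht u) • upz D s x₀ z e (∅, p) ^ 2)
  else 0

theorem filter_smul' (hg : ∀ (γ : Γ) u, ht (γ • u) = ht u) (γ : Γ) (T : Finset U) (d : ℕ) :
    (γ • T).filter (fun u => d ≤ ht u) = γ • T.filter fun u => d ≤ ht u := by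
  ext w
  obtain ⟨u, rfl⟩ : ∃ u, γ • u = w := ⟨γ⁻¹ • w, smul_inv_smul γ w⟩
  rw [mem_filter, mem_smul_iff', mem_smul_iff', mem_filter, hg]

theorem srk_smul [Fintype V] [Fintype X] [Fintype P] (D : Dat Q g t) (s : Finset V) {d : ℕ}
    (hΓ : IsDeck Γ Q x₀) (hM : Psm M B n) (hA : MAct Γ M B n ht)
    {Ψ : Q.Cover x₀ × Finset V → (Finset U × Finset U →₀ ZMod 2)}
    (hΨ : IsPsi Γ Q x₀ bit M B n Ψ) {f : U → Q.Cover x₀} (hf : IsVMap Γ f)
    (z : Finset V → X → Finset V × P → K) (l : List V) (γ : Γ) (e : Q.Cover x₀ × Finset V)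
    (T : Finset U) : srk D s bit d n M ht Ψ f z l (γ • e) (γ • T) =
      srk D s bit d n M ht Ψ f z l e T := by
  classical
  have hTM : γ • T ∈ M ↔ T ∈ M :=
    ⟨fun h => by simpa using hA.K_mem γ⁻¹ _ h, fun h => hA.K_mem γ T h⟩
  unfold srk
  rw [cell_smul hΓ, hTM, card_smul_finset]
  split_ifs with h
  · obtain ⟨he, hT, hc⟩ := h
    rw [filter_smul' hA.ht_smul, (al_fin (d := d) hΓ hM hA hΨ).2.2.2 γ e he,
      frontL_smul hA.ht_smul γ (hA.ht_inj T hT)]
    rw [← Equiv.sum_comp (Equiv.mulRight (pos D x₀ (γ • base Q x₀)))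
      fun p => bet (hpf D s x₀ f p) l (frontL ht T d) *
        (al (Ψ e) (T.filter fun u => d ≤ ht u) • upz D s x₀ z e (∅, p) ^ 2)]
    refine sum_congr rfl fun p _ => ?_
    rw [bet_hpf_smul D s hΓ hf, upz_empty_smul D s hΓ]
    rfl
  · rfl

theorem srk_row [Fintype P] (D : Dat Q g t) (s : Finset V) {d : ℕ} (hM : Psm M B n)
    {Ψ : Q.Cover x₀ × Finset V → (Finset U × Finset U →₀ ZMod 2)} (f : U → Q.Cover x₀)
    (z : Finset V → X → Finset V × P → K) (l : List V) (e : Q.Cover x₀ × Finset V) (T : Finset U)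
    (h : srk D s bit d n M ht Ψ f z l e T ≠ 0) : e ∈ Cell Q x₀ bit d ∧ T ∈ M ∧ T.card = n + 1 ∧
      al (Ψ e) (T.filter fun u => d ≤ ht u) ≠ 0 := by
  classical
  unfold srk at h
  by_cases h1 : e ∈ Cell Q x₀ bit d ∧ T ∈ M ∧ T.card = n + 1
  · refine ⟨h1.1, h1.2.1, h1.2.2, fun h2 => ?_⟩
    rw [if_pos h1] at h
    refine h (sum_eq_zero fun p _ => ?_)
    rw [h2, zero_smul, mul_zero]
  · exact absurd (if_neg h1) h

/-- the sum over the rows -/
theorem srk_sum [Fintype V] [Fintype X] [Fintype P] (D : Dat Q g t) (s : Finset V) {d : ℕ}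
    (hΓ : IsDeck Γ Q x₀) (hM : Psm M B n) (hA : MAct Γ M B n ht)
    {Ψ : Q.Cover x₀ × Finset V → (Finset U × Finset U →₀ ZMod 2)}
    (hΨ : IsPsi Γ Q x₀ bit M B n Ψ) (f : U → Q.Cover x₀)
    (z : Finset V → X → Finset V × P → K) (l : List V) (hd : d ≤ n + 1)
    {e : Q.Cover x₀ × Finset V} (he : e ∈ Cell Q x₀ bit d) :
    ∑ p, be D s x₀ l p (Phi M n ht f (Ψ e)) * upz D s x₀ z e (∅, p) ^ 2 =
      ∑ᶠ T, srk D s bit d n M ht Ψ f z l e T := by
  classical
  obtain ⟨hf1, -, -, -⟩ := al_fin (d := d) hΓ hM hA hΨ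
  set S : Finset (Finset U) := (Ψ e).support.image Prod.snd with hS
  have hSmem : ∀ e', Ψ e e' ≠ 0 → e'.2 ∈ S := fun e' h =>
    mem_image.2 ⟨e', Finsupp.mem_support_iff.2 h, rfl⟩
  have hSal : ∀ τ, al (Ψ e) τ ≠ 0 → τ ∈ S := fun τ h => by
    obtain ⟨v, _, h1⟩ := exists_ne_zero_of_sum_ne_zero h
    exact hSmem _ h1
  set C : Finset U → Finset (Finset U) := fun τ =>
    if (∀ u ∈ τ, d ≤ ht u) ∧ τ ∈ M ∧ τ.card + d = n + 1 then cofs M τ (n + 1) else ∅ with hC
  have hCmem : ∀ τ T, T ∈ C τ ↔ (∀ u ∈ τ, d ≤ ht u) ∧ τ ∈ M ∧ τ.card + d = n + 1 ∧ T ∈ M ∧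
      τ ⊆ T ∧ T.card = n + 1 := by
    intro τ T
    rw [hC]
    dsimp only
    split_ifs with h
    · rw [mem_cofsP hM h.2.1]
      tauto
    · simp only [notMem_empty, false_iff]
      tauto
  have hCseg : ∀ τ T, T ∈ C τ → (T.filter fun u => d ≤ ht u) = τ := by
    intro τ T hT
    obtain ⟨h1, h2, h3, h4, h5, h6⟩ := (hCmem τ T).1 hT
    have h7 := top_seg hA h4 h6 hd
    refine (eq_of_subset_of_card_le (fun u hu => mem_filter.2 ⟨h5 hu, h1 u hu⟩) ?_).symm
    omega
  have hsum : ∑ᶠ T, srk D s bit d n M ht Ψ f z l e T =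
      ∑ τ ∈ S, ∑ T ∈ C τ, srk D s bit d n M ht Ψ f z l e T := by
    rw [← sum_biUnion (fun τ _ τ' _ hne => disjoint_left.2 fun T hT hT' =>
      hne ((hCseg τ T hT).symm.trans (hCseg τ' T hT')))]
    refine finsum_eq_sum_of_support_subset _ fun T hT => ?_
    obtain ⟨_, h2, h3, h4⟩ := srk_row D s hM f z l e T hT
    obtain ⟨h5, _, h6⟩ := hf1 e he _ h4
    exact mem_coe.2 (mem_biUnion.2 ⟨_, hSal _ h4, (hCmem _ _).2
      ⟨fun u hu => (mem_filter.1 hu).2, h5, h6, h2, filter_subset _ _, h3⟩⟩)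
  have hbe : ∀ p, be D s x₀ l p (Phi M n ht f (Ψ e)) =
      ∑ τ ∈ S, al (Ψ e) τ • lin (bet (hpf D s x₀ f p) l) (lamT M n ht τ) := by
    intro p
    unfold be Phi
    rw [lin_map, ← lam_eval (hΨ.mem d e he) _ hSmem]
    congr 2
    funext m
    exact bet_map' _ _ _ _
  rw [hsum]
  simp only [hbe, sum_mul]
  rw [sum_comm]
  refine sum_congr rfl fun τ _ => ?_
  by_cases h0 : al (Ψ e) τ = 0
  · rw [sum_eq_zero fun p _ => by rw [h0, zero_smul, zero_mul]]
    refine (sum_eq_zero fun T hT => ?_).symm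
    by_contra h1
    have h2 := (srk_row D s hM f z l e T h1).2.2.2
    rw [hCseg τ T hT] at h2
    exact h2 h0
  · obtain ⟨h1, _, h2⟩ := hf1 e he τ h0
    have h3 : ∀ T ∈ C τ, srk D s bit d n M ht Ψ f z l e T =
        ∑ p, bet (hpf D s x₀ f p) l (frontL ht T d) *
          (al (Ψ e) τ • upz D s x₀ z e (∅, p) ^ 2) := by
      intro T hT
      obtain ⟨_, _, _, h4, _, h5⟩ := (hCmem τ T).1 hT
      unfold srk
      rw [if_pos ⟨he, h4, h5⟩, hCseg τ T hT]
    rw [sum_congr rfl h3, sum_comm]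
    refine sum_congr rfl fun p _ => ?_
    rw [← sum_mul, lamT_eval h2]
    by_cases h4 : ∀ u ∈ τ, d ≤ ht u
    · have h5 : C τ = cofs M τ (n + 1) := by
        rw [hC]
        exact if_pos ⟨h4, h1, h2⟩
      rw [if_pos h4, h5, smul_mul_assoc, mul_smul_comm]
    · have h5 : C τ = ∅ := by
        rw [hC]
        exact if_neg fun h => h4 h.1
      rw [if_neg h4, h5, sum_empty, smul_zero, zero_mul, zero_mul]

/-- squares of sums in characteristic two -/
theorem sq_sum_two [CharP K 2] {ι : Type} (E : Finset ι) (c : ι → ZMod 2) (x : ι → K) :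
    (∑ e ∈ E, c e • x e) ^ 2 = ∑ e ∈ E, c e • x e ^ 2 := by
  classical
  induction E using Finset.induction_on with
  | empty => simp
  | insert a E ha ih =>
    rw [sum_insert ha, sum_insert ha, ← ih, CharTwo.add_sq]
    congr 1
    rw [smul_pow]
    congr 1
    generalize c a = b
    revert b
    decide

/-- The right side: the definition of `lamE`, `WW_top`, the square of a sum is the sum of the squares, and
`osum_comm`. -/
theorem star_right [Fintype V] [Fintype X] [Fintype P] [CharP K 2] (D : Dat Q g t)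
    {s : Finset V} {d q : ℕ} (hbit : IsBit Q bit) (hΓ : IsDeck Γ Q x₀) (hM : Psm M B n)
    (hA : MAct Γ M B n ht) {Ψ : Q.Cover x₀ × Finset V → (Finset U × Finset U →₀ ZMod 2)}
    (hΨ : IsPsi Γ Q x₀ bit M B n Ψ) {f : U → Q.Cover x₀} (hf : IsVMap Γ f)
    {z : Finset V → X → Finset V × P → K}
    (hz : z ∈ ZQ K Q d (rX g s t)) {l : List V} (hl : l.length = d) (hq0 : 0 < q)
    (hq : q + d = n + 1) :
    osum Γ (fun e : Q.Cover x₀ × Finset V => open Classical in
      if e ∈ Cell Q x₀ bit d then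
        ∑ p, be D s x₀ l p (Phi M n ht f (Ψ e)) * upz D s x₀ z e (∅, p) ^ 2
      else 0) =
    osum Γ (fun τ : Finset U => open Classical in
      if τ ∈ M ∧ τ.card = n + 1 then
        ∑ p, WW ht (aa D s x₀ bit d z Ψ p) (hpf D s x₀ f p) q l τ
      else 0) := by
  classical
  obtain ⟨hf1, -, hf3, -⟩ := al_fin (d := d) hΓ hM hA hΨ
  have hd : d ≤ n + 1 := by omega
  have h1 : (fun e : Q.Cover x₀ × Finset V =>
      if e ∈ Cell Q x₀ bit d then
        ∑ p, be D s x₀ l p (Phi M n ht f (Ψ e)) * upz D s x₀ z e (∅, p) ^ 2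
      else 0) = fun e => ∑ᶠ T, srk D s bit d n M ht Ψ f z l e T := by
    funext e
    by_cases he : e ∈ Cell Q x₀ bit d
    · rw [if_pos he, srk_sum D s hΓ hM hA hΨ f z l hd he]
    · rw [if_neg he]
      refine (finsum_eq_zero_of_forall_eq_zero fun T => ?_).symm
      by_contra h
      exact he (srk_row D s hM f z l e T h).1
  have h2 : (fun τ : Finset U => if τ ∈ M ∧ τ.card = n + 1 then
        ∑ p, WW ht (aa D s x₀ bit d z Ψ p) (hpf D s x₀ f p) q l τ
      else 0) = fun T => ∑ᶠ e, srk D s bit d n M ht Ψ f z l e T := by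
    funext T
    by_cases hT : T ∈ M ∧ T.card = n + 1
    · rw [if_pos hT]
      set τ := T.filter fun u => d ≤ ht u with hτ
      set E := (hf3 τ).toFinset with hE
      have hEm : ∀ e, e ∈ E ↔ e ∈ Cell Q x₀ bit d ∧ al (Ψ e) τ ≠ 0 := fun e => by
        rw [hE, Set.Finite.mem_toFinset]
        rfl
      have h3 : ∑ᶠ e, srk D s bit d n M ht Ψ f z l e T =
          ∑ e ∈ E, srk D s bit d n M ht Ψ f z l e T := by
        refine finsum_eq_sum_of_support_subset _ fun e he => ?_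
        obtain ⟨h4, _, _, h5⟩ := srk_row D s hM f z l e T he
        exact mem_coe.2 ((hEm e).2 ⟨h4, h5⟩)
      have h4 : ∀ e ∈ E, srk D s bit d n M ht Ψ f z l e T =
          ∑ p, bet (hpf D s x₀ f p) l (frontL ht T d) *
            (al (Ψ e) τ • upz D s x₀ z e (∅, p) ^ 2) := fun e he => by
        unfold srk
        rw [if_pos ⟨((hEm e).1 he).1, hT⟩]
      have h5 : ∀ p, aa D s x₀ bit d z Ψ p ∅ τ =
          ∑ e ∈ E, al (Ψ e) τ • upz D s x₀ z e (∅, p) := fun p => by
        unfold aa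
        rw [finsum_eq_sum_of_support_subset (s := E)]
        · exact sum_congr rfl fun e he => if_pos ((hEm e).1 he).1
        · intro e he
          have he' : (if e ∈ Cell Q x₀ bit d then al (Ψ e) τ • upz D s x₀ z e (∅, p) else 0) ≠ 0 :=
            he
          by_cases h6 : e ∈ Cell Q x₀ bit d
          · rw [if_pos h6] at he'
            refine mem_coe.2 ((hEm e).2 ⟨h6, fun h7 => he' ?_⟩)
            rw [h7, zero_smul]
          · rw [if_neg h6] at he'
            exact absurd rfl he'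
      rw [h3, sum_congr rfl h4, sum_comm]
      refine sum_congr rfl fun p _ => ?_
      rw [WW_top (hA.ht_inj T hT.1) (hA.ht_le T hT.1) hT.2 _ _ hq0 l (by rw [hl]; exact hq), hl,
        ← hτ, h5, sq_sum_two, mul_sum]
    · rw [if_neg hT]
      refine (finsum_eq_zero_of_forall_eq_zero fun e => ?_).symm
      by_contra h
      obtain ⟨_, h4, h5, _⟩ := srk_row D s hM f z l e T h
      exact hT ⟨h4, h5⟩
  have h3 := osum_comm (Γ := Γ) (fun (e : Q.Cover x₀ × Finset V) (T : Finset U) =>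
    srk D s bit d n M ht Ψ f z l e T)
    (fun γ e T => srk_smul D s hΓ hM hA hΨ hf z l γ e T)
    (fun e T _ γ hγ => cu_free hΓ e γ hγ)
    (fun e T h γ hγ => hA.free γ T (srk_row D s hM f z l e T h).2.1 hγ)
    (fun e => by
      refine (Set.Finite.biUnion ((Ψ e).support.image Prod.snd).finite_toSet
        (t := fun τ => {T | τ ∈ M ∧ T ∈ M ∧ τ ⊆ T}) fun τ _ => ?_).subset fun T hT => ?_
      · by_cases h5 : τ ∈ M
        · exact (hM.locfin τ h5).subset fun T hT => ⟨hT.2.1, hT.2.2⟩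
        · exact Set.finite_empty.subset fun T hT => h5 hT.1
      · obtain ⟨h5, h6, _, h7⟩ := srk_row D s hM f z l e T hT
        obtain ⟨v, _, h8⟩ := exists_ne_zero_of_sum_ne_zero h7
        exact Set.mem_biUnion (mem_coe.2 (mem_image.2 ⟨_, Finsupp.mem_support_iff.2 h8, rfl⟩))
          ⟨(hf1 e h5 _ h7).1, h6, filter_subset _ _⟩)
    (by
      obtain ⟨F, hF⟩ := cu_fin (Γ := Γ) (Q := Q) (x₀ := x₀) hΓ
      exact ⟨F, fun e _ _ => hF e⟩)
  rw [h1, h2]
  exact h3

end Pool.Agent.H37.TM
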