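import Pool.Agent.H37.TM.Up
import Pool.Agent.H37.TM.Lam
import Pool.Agent.H37.TM.Inv
import Pool.Agent.H37.TM.Osum

/-!
# Project TM: the assembly, definitions
-/

set_option autoImplicit false
set_option linter.unusedSectionVars false

open Finset Pointwise

namespace Pool.Agent.H37.TM

open Pool.Agent.H19.Cub Pool.Agent.H77.SX

section

variable {V X Γ : Type} [DecidableEq V] [Group Γ] {Q : CubeComplex V X} {x₀ : X}
  [MulAction Γ (Q.Cover x₀)]

/-- the action on the cubes -/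
instance cuAct : MulAction Γ (Q.Cover x₀ × Finset V) where
  smul g e := (g • e.1, e.2)
  one_smul e := by
    show ((1 : Γ) • e.1, e.2) = e
    rw [one_smul]
  mul_smul g g' e := by
    show ((g * g') • e.1, e.2) = (g • g' • e.1, e.2)
    rw [mul_smul]

theorem cu_smul (g : Γ) (e : Q.Cover x₀ × Finset V) : g • e = (g • e.1, e.2) := rfl

theorem cu_free (hΓ : IsDeck Γ Q x₀) (e : Q.Cover x₀ × Finset V) (g : Γ) (h : g • e = e) :
    g = 1 := hΓ.free g e.1 (congrArg Prod.fst h)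

theorem cell_smul (hΓ : IsDeck Γ Q x₀) {bit : X → V → ZMod 2} {i : ℕ} (g : Γ)
    (e : Q.Cover x₀ × Finset V) : g • e ∈ Cell Q x₀ bit i ↔ e ∈ Cell Q x₀ bit i := by
  unfold Cell
  rw [cu_smul, Set.mem_ofPred_eq, Set.mem_ofPred_eq, hΓ.proj]

/-- the cubes form finitely many orbits -/
theorem cu_fin [Fintype V] [Fintype X] (hΓ : IsDeck Γ Q x₀) :
    ∃ F : Finset (Q.Cover x₀ × Finset V), ∀ e, ∃ g : Γ, g • e ∈ F := by
  classical
  have h1 : ∀ x : X, ∃ c : Option (Q.Cover x₀), ∀ c', Q.proj x₀ c' = x →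
      ∃ c'', c = some c'' ∧ Q.proj x₀ c'' = x := by
    intro x
    by_cases h : ∃ c', Q.proj x₀ c' = x
    · obtain ⟨c', hc'⟩ := h
      exact ⟨some c', fun _ _ => ⟨c', rfl, hc'⟩⟩
    · exact ⟨none, fun c' hc' => absurd ⟨c', hc'⟩ h⟩
  choose r hr using h1
  refine ⟨(univ ×ˢ univ : Finset (X × Finset V)).biUnion fun y =>
    (r y.1).toFinset.image fun c => (c, y.2), fun e => ?_⟩
  obtain ⟨c'', h2, h3⟩ := hr (Q.proj x₀ e.1) e.1 rfl
  obtain ⟨g, hg⟩ := hΓ.trans e.1 c'' h3.symm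
  refine ⟨g, mem_biUnion.2 ⟨(Q.proj x₀ e.1, e.2), by simp, mem_image.2 ⟨c'', ?_, ?_⟩⟩⟩
  · rw [h2]
    simp
  · rw [cu_smul, hg]

end

section

variable {V X U Γ : Type} [DecidableEq V] [DecidableEq U] [Group Γ] [MulAction Γ U]

/-- `Ψ` is an equivariant chain map from the cubes to the complex of pairs -/
structure IsPsi (Γ : Type) [Group Γ] [MulAction Γ U] (Q : CubeComplex V X) (x₀ : X)
    [MulAction Γ (Q.Cover x₀)] (bit : X → V → ZMod 2) (K B : Set (Finset U)) (n : ℕ)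
    (Ψ : Q.Cover x₀ × Finset V → (Finset U × Finset U →₀ ZMod 2)) : Prop where
  mem : ∀ i, ∀ e ∈ Cell Q x₀ bit i, Ψ e ∈ TN K B n (i + 1)
  smul : ∀ (g : Γ) i, ∀ e ∈ Cell Q x₀ bit i, Ψ (g • e) = (Ψ e).mapDomain (g • ·)
  bd : ∀ i, ∀ e ∈ Cell Q x₀ bit i, bdT K n (Ψ e) =
    (if i = 0 then Finsupp.single (∅, ∅) 1 else 0) + lin Ψ (bdD Q x₀ e)

/-- `f` is an equivariant map on the vertices -/
def IsVMap (Γ : Type) [Group Γ] [MulAction Γ U] {D : Type} [MulAction Γ D] (f : U → D) : Prop :=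
  ∀ (g : Γ) (u : U), f (g • u) = g • f u

/-- the map from the complex of pairs to the tuples of `D` -/
noncomputable def Phi {D : Type} (K : Set (Finset U)) (n : ℕ) (ht : U → ℕ) (f : U → D)
    (y : Finset U × Finset U →₀ ZMod 2) : List D →₀ ZMod 2 :=
  (lin (lamE K n ht) y).mapDomain (List.map f)

/-- the cochain of a chain of pairs -/
def al (y : Finset U × Finset U →₀ ZMod 2) (τ : Finset U) : ZMod 2 := ∑ v ∈ τ, y ({v}, τ)

variable {P K : Type} [Group P] [Field K] [Algebra (ZMod 2) K] {Q : CubeComplex V X} {g : V → P}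
  {t : V → P → K}

open Classical in
/-- the cochains `a p A` on `M` -/
noncomputable def aa (D : Dat Q g t) (s : Finset V) (x₀ : X) (bit : X → V → ZMod 2) (d : ℕ)
    (z : Finset V → X → Finset V × P → K)
    (Ψ : Q.Cover x₀ × Finset V → (Finset U × Finset U →₀ ZMod 2)) (p : P) (A : Finset V)
    (τ : Finset U) : K :=
  ∑ᶠ e : Q.Cover x₀ × Finset V,
    if e ∈ Cell Q x₀ bit d then al (Ψ e) τ • upz D s x₀ z e (A, p) else 0

/-- the potentials on the vertices of `M` -/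
noncomputable def hpf (D : Dat Q g t) (s : Finset V) (x₀ : X) (f : U → Q.Cover x₀) (p : P)
    (b : V) (u : U) : K := pot D s x₀ b (f u) p

/-- the product of the one-cocycles at the chain `x` of tuples -/
noncomputable def be (D : Dat Q g t) (s : Finset V) (x₀ : X) (l : List V) (p : P)
    (x : List (Q.Cover x₀) →₀ ZMod 2) : K := lin (bet (fun b c => pot D s x₀ b c p) l) x

end

end Pool.Agent.H37.TM
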