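import Mathlib

/-!
# Project TM: auxiliary file for `Tot` (1)

The operator `D` on the functions of the pairs `(s, t)` of simplices.
-/

set_option autoImplicit false

open Finset

namespace Pool.Agent.H37.TM.TotX

variable {V : Type*} [DecidableEq V]

/-- The simplicial boundary on finite chains modulo 2, augmented (the empty simplex is kept). -/
noncomputable def sbd : (Finset V →₀ ZMod 2) →ₗ[ZMod 2] (Finset V →₀ ZMod 2) :=
  Finsupp.linearCombination (ZMod 2) fun s => ∑ v ∈ s, Finsupp.single (s.erase v) 1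

/-- `x` is a cochain of size `j` on the simplices of `I` which contain `s` -/
def Supp (I : Set (Finset V)) (s : Finset V) (j : ℕ) (x : Finset V → ZMod 2) : Prop :=
  ∀ t, x t ≠ 0 → t ∈ I ∧ s ⊆ t ∧ t.card = j

/-- the coboundary of a cochain on the simplices containing `s` -/
def cob (s : Finset V) (x : Finset V → ZMod 2) (t : Finset V) : ZMod 2 :=
  ∑ w ∈ t \ s, x (t.erase w)

/-- A locally finite simplicial complex `faces` of dimension `n` with a subcomplex `bd` such
that the cochains on the simplices containing a simplex `s`, modulo `bd`, have the cohomology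
of a ball modulo its boundary, and such that the complex is acyclic modulo 2 in the degrees
less than `dd`. -/
structure MX (V : Type*) [DecidableEq V] (n : ℕ) where
  faces : Set (Finset V)
  bd : Set (Finset V)
  ne : ∀ s ∈ faces, s.Nonempty
  down : ∀ t ∈ faces, ∀ s ⊆ t, s.Nonempty → s ∈ faces
  bd_down : ∀ t ∈ bd, ∀ s ⊆ t, s.Nonempty → s ∈ bd
  card_le : ∀ s ∈ faces, s.card ≤ n + 1
  fin : ∀ v, {t | t ∈ faces ∧ v ∈ t}.Finite
  loc : ∀ s ∈ faces, ∀ j < n, ∀ x : Finset V → ZMod 2, Supp (faces \ bd) s (j + 1) x →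
    (∀ t ∈ faces, s ⊆ t → cob s x t = 0) →
    ∃ y : Finset V → ZMod 2, Supp (faces \ bd) s j y ∧
      ∀ t ∈ faces, s ⊆ t → x t = cob s y t
  top : ∀ s ∈ faces, ∀ x : Finset V → ZMod 2, Supp (faces \ bd) s (n + 1) x →
    (∑ᶠ t, x t = 0 ↔ ∃ y : Finset V → ZMod 2, Supp (faces \ bd) s n y ∧
      ∀ t ∈ faces, s ⊆ t → x t = cob s y t)
  ex_top : ∀ s ∈ faces, ∃ t ∈ faces \ bd, s ⊆ t ∧ t.card = n + 1
  nonempty : faces.Nonempty
  dd : ℕ
  acyc : ∀ c : Finset V →₀ ZMod 2, (∀ s ∈ c.support, s ∈ faces ∧ s.card ≤ dd) → sbd c = 0 →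
    ∃ b : Finset V →₀ ZMod 2, (∀ s ∈ b.support, s ∈ faces) ∧ sbd b = c

/-- interior simplices -/
def MX.int {n : ℕ} (M : MX V n) : Set (Finset V) := M.faces \ M.bd

/-- The boundary of `Tot`, as an operator on all functions of the pairs `(s, t)`. -/
noncomputable def MX.D {n : ℕ} (M : MX V n) (z : Finset V × Finset V → ZMod 2)
    (p : Finset V × Finset V) : ZMod 2 :=
  open Classical in
  if p.1.Nonempty ∧ p.1 ⊆ p.2 ∧ p.2 ∈ M.faces then
    ∑ w ∈ p.2 \ p.1, (z (insert w p.1, p.2) + z (p.1, p.2.erase w)) else 0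

/-- the pairs of degree `k` -/
def MX.Good {n : ℕ} (M : MX V n) (k : ℕ) (p : Finset V × Finset V) : Prop :=
  p.1.Nonempty ∧ p.1 ⊆ p.2 ∧ p.2 ∈ M.int ∧ p.1.card + n = p.2.card + k

/-- chains of degree `k` of `Tot` -/
def MX.IsTot {n : ℕ} (M : MX V n) (k : ℕ) (z : Finset V × Finset V → ZMod 2) : Prop :=
  (Function.support z).Finite ∧ ∀ p, z p ≠ 0 → M.Good k p

theorem zmod2_add_self (a : ZMod 2) : a + a = 0 := by
  revert a; decide

/-- a symmetric sum over the ordered pairs of different elements is zero modulo 2 -/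
theorem sum_pairs_symm {U : Type*} [DecidableEq U] (A : Finset U) (G : U → U → ZMod 2)
    (hG : ∀ u w, G u w = G w u) : ∑ w ∈ A, ∑ u ∈ A.erase w, G w u = 0 := by
  have h1 : ∑ w ∈ A, ∑ u ∈ A.erase w, G w u = ∑ p ∈ A.offDiag, G p.1 p.2 := by
    rw [Finset.sum_sigma' A (fun w => A.erase w) (fun w u => G w u)]
    refine Finset.sum_bij' (fun p _ => (p.1, p.2)) (fun p _ => ⟨p.1, p.2⟩) ?_ ?_ ?_ ?_ ?_
    · rintro ⟨w, u⟩ h
      simp only [Finset.mem_sigma, Finset.mem_erase, Finset.mem_offDiag] at h ⊢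
      exact ⟨h.1, h.2.2, fun e => h.2.1 e.symm⟩
    · rintro ⟨w, u⟩ h
      simp only [Finset.mem_sigma, Finset.mem_erase, Finset.mem_offDiag] at h ⊢
      exact ⟨h.1, fun e => h.2.2 e.symm, h.2.1⟩
    · rintro ⟨w, u⟩ _; rfl
    · rintro ⟨w, u⟩ _; rfl
    · rintro ⟨w, u⟩ _; rfl
  rw [h1]
  refine Finset.sum_involution (fun p _ => (p.2, p.1)) ?_ ?_ ?_ ?_
  · rintro ⟨w, u⟩ _
    simp only
    rw [hG u w]; exact zmod2_add_self _
  · rintro ⟨w, u⟩ h _ e
    simp only [Finset.mem_offDiag, Prod.mk.injEq] at h e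
    exact h.2.2 e.2
  · rintro ⟨w, u⟩ h
    simp only [Finset.mem_offDiag] at h ⊢
    exact ⟨h.2.1, h.1, fun e => h.2.2 e.symm⟩
  · rintro ⟨w, u⟩ _; rfl

variable {n : ℕ} (M : MX V n)

theorem MX.D_of {z : Finset V × Finset V → ZMod 2} {s t : Finset V} (hs : s.Nonempty)
    (hst : s ⊆ t) (ht : t ∈ M.faces) :
    M.D z (s, t) = ∑ w ∈ t \ s, (z (insert w s, t) + z (s, t.erase w)) := by
  classical
  unfold MX.D
  rw [if_pos ⟨hs, hst, ht⟩]

theorem MX.D_of_not {z : Finset V × Finset V → ZMod 2} {p : Finset V × Finset V}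
    (h : ¬ (p.1.Nonempty ∧ p.1 ⊆ p.2 ∧ p.2 ∈ M.faces)) : M.D z p = 0 := by
  classical
  unfold MX.D
  rw [if_neg h]

theorem MX.D_add (z z' : Finset V × Finset V → ZMod 2) :
    M.D (z + z') = M.D z + M.D z' := by
  classical
  funext p
  by_cases h : p.1.Nonempty ∧ p.1 ⊆ p.2 ∧ p.2 ∈ M.faces
  · obtain ⟨s, t⟩ := p
    rw [Pi.add_apply, M.D_of h.1 h.2.1 h.2.2, M.D_of h.1 h.2.1 h.2.2, M.D_of h.1 h.2.1 h.2.2,
      ← Finset.sum_add_distrib]
    refine Finset.sum_congr rfl fun w _ => ?_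
    simp only [Pi.add_apply]; ring
  · rw [Pi.add_apply, M.D_of_not h, M.D_of_not h, M.D_of_not h, add_zero]

theorem MX.D_zero : M.D (0 : Finset V × Finset V → ZMod 2) = 0 := by
  classical
  funext p
  by_cases h : p.1.Nonempty ∧ p.1 ⊆ p.2 ∧ p.2 ∈ M.faces
  · obtain ⟨s, t⟩ := p
    rw [M.D_of h.1 h.2.1 h.2.2]; simp
  · rw [M.D_of_not h]; rfl

/-- `D` has square zero, on all functions. -/
theorem MX.D_D (z : Finset V × Finset V → ZMod 2) : M.D (M.D z) = 0 := by
  classical
  funext p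
  by_cases h : p.1.Nonempty ∧ p.1 ⊆ p.2 ∧ p.2 ∈ M.faces
  swap
  · rw [M.D_of_not h]; rfl
  obtain ⟨s, t⟩ := p
  obtain ⟨hs, hst, ht⟩ := h
  simp only at hs hst ht
  rw [M.D_of hs hst ht]
  have key : ∀ w ∈ t \ s, (M.D z (insert w s, t) + M.D z (s, t.erase w)) =
      ∑ u ∈ (t \ s).erase w, ((z (insert u (insert w s), t) + z (insert w s, t.erase u)) +
        (z (insert u s, t.erase w) + z (s, (t.erase w).erase u))) := by
    intro w hw
    rw [Finset.mem_sdiff] at hw
    have h1 : insert w s ⊆ t := Finset.insert_subset hw.1 hst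
    have h2 : s ⊆ t.erase w := Finset.subset_erase.2 ⟨hst, hw.2⟩
    have h3 : t.erase w ∈ M.faces := M.down t ht _ (Finset.erase_subset _ _) (hs.mono h2)
    have e1 : t \ insert w s = (t \ s).erase w := by
      ext u; simp only [Finset.mem_sdiff, Finset.mem_insert, Finset.mem_erase]; tauto
    have e2 : t.erase w \ s = (t \ s).erase w := by
      ext u; simp only [Finset.mem_sdiff, Finset.mem_erase]; tauto
    rw [M.D_of (Finset.insert_nonempty _ _) h1 ht, M.D_of hs h2 h3, e1, e2,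
      ← Finset.sum_add_distrib]
  rw [Finset.sum_congr rfl key]
  refine sum_pairs_symm (t \ s) (fun w u => (z (insert u (insert w s), t) +
    z (insert w s, t.erase u)) + (z (insert u s, t.erase w) + z (s, (t.erase w).erase u))) ?_
  intro u w
  rw [Finset.insert_comm u w s, Finset.erase_right_comm (a := w) (b := u)]
  ring

theorem MX.int_sub : M.int ⊆ M.faces := Set.sdiff_subset

theorem MX.int_up {s t : Finset V} (hs : s ∈ M.int) (hst : s ⊆ t) (ht : t ∈ M.faces) :
    t ∈ M.int :=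
  ⟨ht, fun hb => hs.2 (M.bd_down t hb s hst (M.ne s hs.1))⟩

/-- the simplices containing a nonempty set are finite in number -/
theorem MX.fin_up {s : Finset V} (hs : s.Nonempty) :
    {t | t ∈ M.faces ∧ s ⊆ t}.Finite := by
  obtain ⟨v, hv⟩ := hs
  exact (M.fin v).subset fun t ht => ⟨ht.1, ht.2 hv⟩

/-- the boundary of a finite chain of degree `k + 1` is a finite chain of degree `k` -/
theorem MX.isTot_D {k : ℕ} {z : Finset V × Finset V → ZMod 2} (hz : M.IsTot (k + 1) z) :
    M.IsTot k (M.D z) := by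
  classical
  constructor
  · have h1 : Function.support (M.D z) ⊆
        (⋃ p ∈ Function.support z, (fun q : Finset V × Finset V => q) ''
          ((p.1.powerset : Set (Finset V)) ×ˢ {t | t ∈ M.faces ∧ p.2 ⊆ t})) := by
      rintro ⟨s, t⟩ h
      rw [Function.mem_support] at h
      by_cases hc : s.Nonempty ∧ s ⊆ t ∧ t ∈ M.faces
      swap
      · exact absurd (M.D_of_not (p := (s, t)) hc) h
      obtain ⟨hs, hst, ht⟩ := hc
      rw [M.D_of hs hst ht] at h
      obtain ⟨w, hw, hne⟩ := Finset.exists_ne_zero_of_sum_ne_zero h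
      rw [Finset.mem_sdiff] at hw
      simp only [Set.image_id', Set.mem_iUnion, exists_prop]
      by_cases h2 : z (insert w s, t) = 0
      · have h3 : z (s, t.erase w) ≠ 0 := by
          intro h3; rw [h2, h3, add_zero] at hne; exact hne rfl
        refine ⟨(s, t.erase w), h3, ?_⟩
        simp only [Set.mem_prod, Finset.coe_powerset, Set.mem_preimage, Set.mem_powerset_iff,
          Set.mem_ofPred_eq]
        exact ⟨subset_rfl, ht, Finset.erase_subset _ _⟩
      · refine ⟨(insert w s, t), h2, ?_⟩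
        simp only [Set.mem_prod, Finset.coe_powerset, Set.mem_preimage, Set.mem_powerset_iff,
          Set.mem_ofPred_eq]
        exact ⟨by exact_mod_cast Finset.subset_insert _ _, ht, subset_rfl⟩
    refine Set.Finite.subset ?_ h1
    refine hz.1.biUnion fun p hp => ?_
    refine Set.Finite.image _ ?_
    refine Set.Finite.prod (Finset.finite_toSet _) ?_
    have hg := hz.2 p hp
    exact M.fin_up (M.ne _ (M.int_sub hg.2.2.1))
  · rintro ⟨s, t⟩ h
    by_cases hc : s.Nonempty ∧ s ⊆ t ∧ t ∈ M.faces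
    swap
    · exact absurd (M.D_of_not (p := (s, t)) hc) h
    obtain ⟨hs, hst, ht⟩ := hc
    rw [M.D_of hs hst ht] at h
    obtain ⟨w, hw, hne⟩ := Finset.exists_ne_zero_of_sum_ne_zero h
    rw [Finset.mem_sdiff] at hw
    by_cases h2 : z (insert w s, t) = 0
    · have h3 : z (s, t.erase w) ≠ 0 := by
        intro h3; rw [h2, h3, add_zero] at hne; exact hne rfl
      obtain ⟨_, _, g3, g4⟩ := hz.2 _ h3
      refine ⟨hs, hst, M.int_up g3 (Finset.erase_subset _ _) ht, ?_⟩
      simp only at g4 ⊢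
      rw [Finset.card_erase_of_mem hw.1] at g4
      have := Finset.card_pos.2 ⟨w, hw.1⟩
      omega
    · obtain ⟨_, _, g3, g4⟩ := hz.2 _ h2
      refine ⟨hs, hst, g3, ?_⟩
      simp only at g4 ⊢
      rw [Finset.card_insert_of_notMem hw.2] at g4
      omega

theorem MX.isTot_add {k : ℕ} {z z' : Finset V × Finset V → ZMod 2} (hz : M.IsTot k z)
    (hz' : M.IsTot k z') : M.IsTot k (z + z') := by
  refine ⟨(hz.1.union hz'.1).subset (Function.support_add _ _), ?_⟩
  intro p hp
  by_cases h : z p = 0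
  · refine hz'.2 p fun h' => hp ?_
    rw [Pi.add_apply, h, h', add_zero]
  · exact hz.2 p h

theorem MX.isTot_zero (k : ℕ) : M.IsTot k (0 : Finset V × Finset V → ZMod 2) := by
  refine ⟨?_, ?_⟩
  · rw [Function.support_zero]; exact Set.finite_empty
  · intro p hp; exact absurd rfl hp

end Pool.Agent.H37.TM.TotX
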