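import Pool.Agent.H37.TM.Defs

/-!
# Project TM: positions, module values and potentials on the universal cover
-/

set_option autoImplicit false
set_option linter.unusedSectionVars false

open Finset

namespace Pool.Agent.H37.TM

open Pool.Agent.H19.Cub Pool.Agent.H77.SX

/-- the potential along a list of labels -/
def potL {V P K : Type} [DecidableEq V] [Group P] [Field K] (g : V → P) (s : Finset V)
    (t : V → P → K) (b : V) : List V → P → K
  | [], _ => 0
  | v :: l, p => (if v = b ∧ b ∈ s then t b p else 0) + potL g s t b l (p * g v)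

/-- The data: `g` involutions which commute for the edges, `t v` invariant along the star of `v`. -/
structure Dat {V X : Type} [DecidableEq V] (Q : CubeComplex V X) {P K : Type} [Group P]
    (g : V → P) (t : V → P → K) : Prop where
  sq : ∀ v, g v * g v = 1
  comm : ∀ u v, Q.graph.Adj u v → g u * g v = g v * g u
  star : ∀ v u, (u = v ∨ Q.graph.Adj v u) → ∀ p, t v (p * g u) = t v p

variable {V X P K : Type} [DecidableEq V] [Group P] [Field K] [Algebra (ZMod 2) K]
  {Q : CubeComplex V X} {g : V → P} {t : V → P → K} (D : Dat Q g t) (s : Finset V) (x₀ : X)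

omit [DecidableEq V] [Algebra (ZMod 2) K] in
theorem add_self_zero [Algebra (ZMod 2) K] (a : K) : a + a = 0 := by
  have h2 : (2 : K) = 0 := by
    have h := map_ofNat (algebraMap (ZMod 2) K) 2
    rw [← h, show (OfNat.ofNat 2 : ZMod 2) = 0 from rfl, map_zero]
  rw [← two_mul, h2, zero_mul]

include D in
theorem posL_step {l l' : List V} (h : Step Q.graph l l') : (l.map g).prod = (l'.map g).prod := by
  cases h with
  | back a b v =>
    simp only [List.map_append, List.map_cons, List.prod_append, List.prod_cons]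
    rw [← mul_assoc (g v), D.sq, one_mul]
  | square a b u v h =>
    simp only [List.map_append, List.map_cons, List.prod_append, List.prod_cons]
    rw [← mul_assoc (g u), D.comm u v h, mul_assoc (g v)]

theorem rX_apply (v : V) (f : Finset V × P → K) (A : Finset V) (p : P) :
    rX g s t v f (A, p) = f (A, p * g v) +
      if v ∈ s ∧ v ∈ A then t v p * f (A.erase v, p * g v) else 0 := rfl

include D in
theorem rX_sq (v : V) (f : Finset V × P → K) : rX g s t v (rX g s t v f) = f := by
  funext ⟨A, p⟩
  simp only [rX_apply]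
  rw [mul_assoc p, D.sq, mul_one, D.star v v (Or.inl rfl)]
  by_cases h : v ∈ s ∧ v ∈ A
  · rw [if_pos h, if_pos h, if_neg (fun h => absurd h.2 (notMem_erase v A)), add_zero, add_assoc,
      add_self_zero, add_zero]
  · rw [if_neg h, if_neg h, add_zero, add_zero]

include D in
theorem rX_comm {u v : V} (h : Q.graph.Adj u v) (f : Finset V × P → K) :
    rX g s t u (rX g s t v f) = rX g s t v (rX g s t u f) := by
  have huv : u ≠ v := h.ne
  funext ⟨A, p⟩
  simp only [rX_apply, mem_erase]
  rw [mul_assoc p, mul_assoc p, D.comm u v h, D.star v u (Or.inr h.symm), D.star u v (Or.inr h),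
    erase_right_comm]
  by_cases h1 : u ∈ s ∧ u ∈ A <;> by_cases h2 : v ∈ s ∧ v ∈ A
  · simp [h1, h2, huv, huv.symm]
    ring
  · have h3 : ¬ (v ∈ s ∧ v ≠ u ∧ v ∈ A) := fun h => h2 ⟨h.1, h.2.2⟩
    rw [if_neg h2, if_pos h1, if_neg h3, if_neg h2, if_pos h1]
    ring
  · have h3 : ¬ (u ∈ s ∧ u ≠ v ∧ u ∈ A) := fun h => h1 ⟨h.1, h.2.2⟩
    rw [if_neg h1, if_pos h2, if_neg h3, if_neg h1, if_pos h2]
    ring
  · rw [if_neg h1, if_neg h2, if_neg h1, if_neg h2]

include D in
theorem actL_step {l l' : List V} (h : Step Q.graph l l') :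
    (l.map (rX g s t)).prod = (l'.map (rX g s t)).prod := by
  cases h with
  | back a b v =>
    simp only [List.map_append, List.map_cons, List.prod_append, List.prod_cons]
    rw [← mul_assoc (rX g s t v), show rX g s t v * rX g s t v = 1 from
      LinearMap.ext fun f => rX_sq D s v f, one_mul]
  | square a b u v h =>
    simp only [List.map_append, List.map_cons, List.prod_append, List.prod_cons]
    rw [← mul_assoc (rX g s t u), show rX g s t u * rX g s t v = rX g s t v * rX g s t u from
      LinearMap.ext fun f => rX_comm D s h f, mul_assoc (rX g s t v)]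

theorem potL_append (b : V) (l m : List V) (p : P) :
    potL g s t b (l ++ m) p = potL g s t b l p + potL g s t b m (p * (l.map g).prod) := by
  induction l generalizing p with
  | nil => simp [potL]
  | cons v l ih =>
    show (if v = b ∧ b ∈ s then t b p else 0) + potL g s t b (l ++ m) (p * g v) =
      (if v = b ∧ b ∈ s then t b p else 0) + potL g s t b l (p * g v) +
        potL g s t b m (p * ((v :: l).map g).prod)
    rw [ih, List.map_cons, List.prod_cons, ← mul_assoc, add_assoc]

include D in
theorem potL_step (b : V) {l l' : List V} (h : Step Q.graph l l') :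
    potL g s t b l = potL g s t b l' := by
  funext p
  cases h with
  | back a m v =>
    rw [potL_append, potL_append]
    congr 1
    generalize p * (a.map g).prod = q
    show (if v = b ∧ b ∈ s then t b q else 0) + ((if v = b ∧ b ∈ s then t b (q * g v) else 0) +
      potL g s t b m (q * g v * g v)) = potL g s t b m q
    rw [mul_assoc q, D.sq, mul_one, ← add_assoc]
    by_cases hv : v = b ∧ b ∈ s
    · rw [if_pos hv, if_pos hv, D.star b v (Or.inl hv.1), add_self_zero, zero_add]
    · rw [if_neg hv, if_neg hv, add_zero, zero_add]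
  | square a m u v h =>
    rw [potL_append, potL_append]
    congr 1
    generalize p * (a.map g).prod = q
    show (if u = b ∧ b ∈ s then t b q else 0) + ((if v = b ∧ b ∈ s then t b (q * g u) else 0) +
      potL g s t b m (q * g u * g v)) = (if v = b ∧ b ∈ s then t b q else 0) +
      ((if u = b ∧ b ∈ s then t b (q * g v) else 0) + potL g s t b m (q * g v * g u))
    have h1 : (if v = b ∧ b ∈ s then t b (q * g u) else 0) = if v = b ∧ b ∈ s then t b q else 0 := by
      split_ifs with hv
      · exact D.star b u (Or.inr (hv.1 ▸ h.symm)) q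
      · rfl
    have h2 : (if u = b ∧ b ∈ s then t b (q * g v) else 0) = if u = b ∧ b ∈ s then t b q else 0 := by
      split_ifs with hu
      · exact D.star b v (Or.inr (hu.1 ▸ h)) q
      · rfl
    rw [h1, h2, mul_assoc q, mul_assoc q, D.comm u v h, ← add_assoc, ← add_assoc]
    congr 1
    exact add_comm _ _

/-- the base point of the cover -/
def base (Q : CubeComplex V X) (x₀ : X) : Q.Cover x₀ := Quot.mk _ ⟨[], trivial⟩

/-- the position in `P` -/
def pos : Q.Cover x₀ → P := Quot.lift (fun l => (l.1.map g).prod) fun _ _ h => posL_step D h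

/-- the action of the path on the extension module -/
noncomputable def act : Q.Cover x₀ → ((Finset V × P → K) →ₗ[K] (Finset V × P → K)) :=
  Quot.lift (fun l => (l.1.map (rX g s t)).prod) fun _ _ h => actL_step D s h

/-- the potential -/
noncomputable def pot (b : V) : Q.Cover x₀ → P → K :=
  Quot.lift (fun l => potL g s t b l.1) fun _ _ h => potL_step D s b h

theorem pos_base : pos D x₀ (base Q x₀) = 1 := rfl

theorem act_base : act D s x₀ (base Q x₀) = 1 := rfl

theorem pot_base (b : V) (p : P) : pot D s x₀ b (base Q x₀) p = 0 := rfl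

theorem pos_nbc {c : Q.Cover x₀} {v : V} (hv : v ∈ Q.lab (Q.proj x₀ c)) :
    pos D x₀ (Q.nbc x₀ v c) = pos D x₀ c * g v := by
  induction c using Quot.ind with
  | mk l =>
    rw [Q.nbc_mk x₀ v l hv]
    show ((l.1 ++ [v]).map g).prod = (l.1.map g).prod * g v
    rw [List.map_append, List.prod_append, List.map_singleton, List.prod_singleton]

theorem act_nbc {c : Q.Cover x₀} {v : V} (hv : v ∈ Q.lab (Q.proj x₀ c)) (f : Finset V × P → K) :
    act D s x₀ (Q.nbc x₀ v c) f = act D s x₀ c (rX g s t v f) := by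
  induction c using Quot.ind with
  | mk l =>
    rw [Q.nbc_mk x₀ v l hv]
    show ((l.1 ++ [v]).map (rX g s t)).prod f = (l.1.map (rX g s t)).prod (rX g s t v f)
    rw [List.map_append, List.prod_append, List.map_singleton, List.prod_singleton,
      Module.End.mul_apply]

theorem pot_nbc {c : Q.Cover x₀} {v : V} (hv : v ∈ Q.lab (Q.proj x₀ c)) (b : V) (p : P) :
    pot D s x₀ b (Q.nbc x₀ v c) p =
      pot D s x₀ b c p + if v = b ∧ b ∈ s then t b (p * pos D x₀ c) else 0 := by
  induction c using Quot.ind with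
  | mk l =>
    rw [Q.nbc_mk x₀ v l hv]
    show potL g s t b (l.1 ++ [v]) p = potL g s t b l.1 p +
      if v = b ∧ b ∈ s then t b (p * (l.1.map g).prod) else 0
    rw [potL_append]
    congr 1
    exact add_zero _

/-- the component `∅` -/
theorem act_empty (c : Q.Cover x₀) (f : Finset V × P → K) (p : P) :
    act D s x₀ c f (∅, p) = f (∅, p * pos D x₀ c) := by
  induction c using Quot.ind with
  | mk l =>
    obtain ⟨l, hl⟩ := l
    show (l.map (rX g s t)).prod f (∅, p) = f (∅, p * (l.map g).prod)
    clear hl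
    induction l generalizing p with
    | nil => simp
    | cons v l ih =>
      rw [List.map_cons, List.prod_cons, Module.End.mul_apply, rX_apply,
        if_neg (fun h => absurd h.2 (notMem_empty v)), add_zero, ih, List.map_cons, List.prod_cons,
        mul_assoc]

/-- the projection of a neighbour -/
theorem proj_nbc {c : Q.Cover x₀} {v : V} (hv : v ∈ Q.lab (Q.proj x₀ c)) :
    Q.proj x₀ (Q.nbc x₀ v c) = Q.nb v (Q.proj x₀ c) := by
  induction c using Quot.ind with
  | mk l =>
    rw [Q.nbc_mk x₀ v l hv]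
    show Q.fin x₀ (l.1 ++ [v]) = Q.nb v (Q.fin x₀ l.1)
    rw [Q.fin_append]
    rfl

/-- induction on the length of a path to the vertex `c` of the cover -/
theorem cover_ind {x₀ : X} {motive : Q.Cover x₀ → Prop} (h0 : motive (base Q x₀))
    (h1 : ∀ c v, v ∈ Q.lab (Q.proj x₀ c) → motive c → motive (Q.nbc x₀ v c))
    (c : Q.Cover x₀) : motive c := by
  induction c using Quot.ind with
  | mk l =>
    obtain ⟨l, hl⟩ := l
    induction l using List.reverseRecOn with
    | nil => exact h0
    | append_singleton l v ih =>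
      obtain ⟨hl1, hl2, -⟩ := (Q.isPath_append x₀ l [v]).1 hl
      have h2 := h1 (Quot.mk _ ⟨l, hl1⟩) v hl2 (ih hl1)
      rw [Q.nbc_mk x₀ v ⟨l, hl1⟩ hl2] at h2
      exact h2

section

variable {Γ : Type} [Group Γ] [MulAction Γ (Q.Cover x₀)] (hΓ : IsDeck Γ Q x₀)

include hΓ

theorem pos_smul (γ : Γ) (c : Q.Cover x₀) :
    pos D x₀ (γ • c) = pos D x₀ (γ • base Q x₀) * pos D x₀ c := by
  induction c using cover_ind with
  | h0 => rw [pos_base, mul_one]
  | h1 c v hv ih =>
    rw [← hΓ.nb γ v c hv, pos_nbc D x₀ (by rw [hΓ.proj]; exact hv), ih, pos_nbc D x₀ hv, mul_assoc]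

theorem act_smul (γ : Γ) (c : Q.Cover x₀) (f : Finset V × P → K) :
    act D s x₀ (γ • c) f = act D s x₀ (γ • base Q x₀) (act D s x₀ c f) := by
  induction c using cover_ind generalizing f with
  | h0 => rw [act_base, Module.End.one_apply]
  | h1 c v hv ih =>
    rw [← hΓ.nb γ v c hv, act_nbc D s x₀ (by rw [hΓ.proj]; exact hv), ih, act_nbc D s x₀ hv]

theorem pot_smul (γ : Γ) (c : Q.Cover x₀) (b : V) (p : P) :
    pot D s x₀ b (γ • c) p = pot D s x₀ b (γ • base Q x₀) p +
      pot D s x₀ b c (p * pos D x₀ (γ • base Q x₀)) := by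
  induction c using cover_ind with
  | h0 => rw [pot_base, add_zero]
  | h1 c v hv ih =>
    rw [← hΓ.nb γ v c hv, pot_nbc D s x₀ (by rw [hΓ.proj]; exact hv), ih, pot_nbc D s x₀ hv,
      pos_smul D x₀ hΓ γ c, ← mul_assoc, add_assoc]

end

omit [Group P] in
theorem core_sum (v : V) (τ : K) (F F' : Finset V → K) (ρ : Finset V) :
    ∑ A ∈ ρ.powerset, (F A + if v ∈ A then τ * F (A.erase v) else 0) *
      (F' (ρ \ A) + if v ∈ ρ \ A then τ * F' ((ρ \ A).erase v) else 0) =
      ∑ A ∈ ρ.powerset, F A * F' (ρ \ A) := by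
  by_cases hv : v ∈ ρ
  · obtain ⟨ρ', hv', rfl⟩ : ∃ ρ', v ∉ ρ' ∧ ρ = insert v ρ' :=
      ⟨ρ.erase v, notMem_erase v ρ, (insert_erase hv).symm⟩
    rw [sum_powerset_insert hv', sum_powerset_insert hv', ← sum_add_distrib, ← sum_add_distrib]
    refine sum_congr rfl fun B hB => ?_
    have hB' : v ∉ B := fun h => hv' (mem_powerset.1 hB h)
    have e1 : insert v ρ' \ insert v B = ρ' \ B := by
      ext u
      simp only [mem_sdiff, mem_insert]
      constructor
      · rintro ⟨h1, h2⟩
        exact ⟨h1.resolve_left fun h => h2 (Or.inl h), fun h => h2 (Or.inr h)⟩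
      · rintro ⟨h1, h2⟩
        exact ⟨Or.inr h1, fun h => h.elim (fun h => hv' (h ▸ h1)) h2⟩
    have e2 : (insert v ρ' \ B).erase v = ρ' \ B := by
      ext u
      simp only [mem_erase, mem_sdiff, mem_insert]
      constructor
      · rintro ⟨h1, h2, h3⟩
        exact ⟨h2.resolve_left h1, h3⟩
      · rintro ⟨h1, h2⟩
        exact ⟨fun h => hv' (h ▸ h1), Or.inr h1, h2⟩
    have e3 : v ∈ insert v ρ' \ B := mem_sdiff.2 ⟨mem_insert_self v ρ', hB'⟩
    have e4 : v ∉ ρ' \ B := fun h => hv' (mem_sdiff.1 h).1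
    rw [e1, if_neg hB', if_pos e3, e2, if_pos (mem_insert_self v B), erase_insert hB', if_neg e4]
    have h2 := add_self_zero (τ * F B * F' (ρ' \ B))
    linear_combination h2
  · refine sum_congr rfl fun A hA => ?_
    have hA' : v ∉ A := fun h => hv (mem_powerset.1 hA h)
    rw [if_neg hA', if_neg (fun h => hv (mem_sdiff.1 h).1), add_zero, add_zero]

theorem rX_apply' (v : V) (f : Finset V × P → K) (A : Finset V) (p : P) :
    rX g s t v f (A, p) = f (A, p * g v) +
      if v ∈ A then (if v ∈ s then t v p else 0) * f (A.erase v, p * g v) else 0 := by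
  rw [rX_apply]
  by_cases h1 : v ∈ s <;> by_cases h2 : v ∈ A <;> simp [h1, h2]

theorem one_step (v : V) (f f' : Finset V × P → K) (ρ : Finset V) (p : P) :
    ∑ A ∈ ρ.powerset, rX g s t v f (A, p) * rX g s t v f' (ρ \ A, p) =
      ∑ A ∈ ρ.powerset, f (A, p * g v) * f' (ρ \ A, p * g v) := by
  simp only [rX_apply']
  exact core_sum v (if v ∈ s then t v p else 0) (fun A => f (A, p * g v))
    (fun A => f' (A, p * g v)) ρ

/-- the product of two elements is invariant -/
theorem act_one (c : Q.Cover x₀) (f f' : Finset V × P → K) (ρ : Finset V) (p : P) :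
    ∑ A ∈ ρ.powerset, act D s x₀ c f (A, p) * act D s x₀ c f' (ρ \ A, p) =
      ∑ A ∈ ρ.powerset, f (A, p * pos D x₀ c) * f' (ρ \ A, p * pos D x₀ c) := by
  induction c using Quot.ind with
  | mk l =>
    obtain ⟨l, hl⟩ := l
    show ∑ A ∈ ρ.powerset, (l.map (rX g s t)).prod f (A, p) *
      (l.map (rX g s t)).prod f' (ρ \ A, p) =
      ∑ A ∈ ρ.powerset, f (A, p * (l.map g).prod) * f' (ρ \ A, p * (l.map g).prod)
    clear hl
    induction l generalizing p with
    | nil => simp
    | cons v l ih =>
      simp only [List.map_cons, List.prod_cons, Module.End.mul_apply, ← mul_assoc]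
      rw [one_step, ih]

theorem two_step (v : V) (f f' : Finset V × P → K) (ρ : Finset V) {b : V} (hb : b ∉ ρ)
    (a h : K) (p : P) :
    ∑ A ∈ ρ.powerset, (rX g s t v f (insert b A, p) +
        ((if v = b ∧ b ∈ s then t b p else 0) + a + h) * rX g s t v f (A, p)) *
          rX g s t v f' (ρ \ A, p) =
      ∑ A ∈ ρ.powerset, (f (insert b A, p * g v) + (a + h) * f (A, p * g v)) *
        f' (ρ \ A, p * g v) := by
  by_cases hvb : v = b
  · subst hvb
    refine sum_congr rfl fun A hA => ?_
    have hA' : v ∉ A := fun h => hb (mem_powerset.1 hA h)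
    rw [rX_apply, rX_apply, rX_apply, if_neg (c := v ∈ s ∧ v ∈ A) (fun h => hA' h.2),
      if_neg (c := v ∈ s ∧ v ∈ ρ \ A) (fun h => hb (mem_sdiff.1 h.2).1), add_zero, add_zero,
      erase_insert hA']
    by_cases hs : v ∈ s
    · rw [if_pos ⟨hs, mem_insert_self v A⟩, if_pos ⟨rfl, hs⟩]
      have h2 := add_self_zero (t v p * f (A, p * g v) * f' (ρ \ A, p * g v))
      linear_combination h2
    · rw [if_neg (fun h => hs h.1), if_neg (fun h => hs h.2)]
      ring
  · rw [← core_sum v (if v ∈ s then t v p else 0)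
      (fun A => f (insert b A, p * g v) + (a + h) * f (A, p * g v)) (fun A => f' (A, p * g v)) ρ]
    refine sum_congr rfl fun A _ => ?_
    have e1 : (insert b A).erase v = insert b (A.erase v) := erase_insert_of_ne (Ne.symm hvb)
    have e2 : v ∈ insert b A ↔ v ∈ A := by simp [hvb]
    rw [rX_apply', rX_apply', rX_apply', e1, if_neg (c := v = b ∧ b ∈ s) (fun h => hvb h.1)]
    simp only [e2]
    split_ifs <;> ring

/-- the corrected product is invariant -/
theorem act_two (c : Q.Cover x₀) (f f' : Finset V × P → K) (ρ : Finset V) {b : V} (hb : b ∉ ρ)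
    (h : K) (p : P) :
    ∑ A ∈ ρ.powerset, (act D s x₀ c f (insert b A, p) +
        (pot D s x₀ b c p + h) * act D s x₀ c f (A, p)) * act D s x₀ c f' (ρ \ A, p) =
      ∑ A ∈ ρ.powerset, (f (insert b A, p * pos D x₀ c) + h * f (A, p * pos D x₀ c)) *
        f' (ρ \ A, p * pos D x₀ c) := by
  induction c using Quot.ind with
  | mk l =>
    obtain ⟨l, hl⟩ := l
    show ∑ A ∈ ρ.powerset, ((l.map (rX g s t)).prod f (insert b A, p) +
        (potL g s t b l p + h) * (l.map (rX g s t)).prod f (A, p)) *
        (l.map (rX g s t)).prod f' (ρ \ A, p) =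
      ∑ A ∈ ρ.powerset, (f (insert b A, p * (l.map g).prod) + h * f (A, p * (l.map g).prod)) *
        f' (ρ \ A, p * (l.map g).prod)
    clear hl
    induction l generalizing p with
    | nil => simp [potL]
    | cons v l ih =>
      simp only [List.map_cons, List.prod_cons, Module.End.mul_apply, ← mul_assoc]
      rw [← ih (p * g v)]
      show ∑ A ∈ ρ.powerset, (rX g s t v ((l.map (rX g s t)).prod f) (insert b A, p) +
          ((if v = b ∧ b ∈ s then t b p else 0) + potL g s t b l (p * g v) + h) *
            rX g s t v ((l.map (rX g s t)).prod f) (A, p)) *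
          rX g s t v ((l.map (rX g s t)).prod f') (ρ \ A, p) = _
      exact two_step s v _ _ ρ hb _ h p

/-- the value of the cycle `z` at the cube `(c, σ)` -/
noncomputable def upz (z : Finset V → X → Finset V × P → K) (e : Q.Cover x₀ × Finset V) :
    Finset V × P → K := act D s x₀ e.1 (z e.2 (Q.proj x₀ e.1))

section

variable [Fintype V] {d : ℕ} {z : Finset V → X → Finset V × P → K}
  (hz : z ∈ ZQ K Q d (rX g s t))

include hz

theorem upz_nbc {c : Q.Cover x₀} {σ : Finset V} (hσ : σ ⊆ Q.lab (Q.proj x₀ c)) {v : V}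
    (hv : v ∈ σ) : upz D s x₀ z (Q.nbc x₀ v c, σ) = upz D s x₀ z (c, σ) := by
  show act D s x₀ (Q.nbc x₀ v c) (z σ (Q.proj x₀ (Q.nbc x₀ v c))) = act D s x₀ c (z σ (Q.proj x₀ c))
  rw [proj_nbc x₀ (hσ hv), hz.2.1 σ _ hσ v hv, act_nbc D s x₀ (hσ hv), rX_sq D s]

theorem upz_cyc (c : Q.Cover x₀) (κ : Finset V) : ∑ v ∈ κᶜ, upz D s x₀ z (c, insert v κ) = 0 := by
  show ∑ v ∈ κᶜ, act D s x₀ c (z (insert v κ) (Q.proj x₀ c)) = 0
  rw [← map_sum, hz.2.2 κ (Q.proj x₀ c), map_zero]

end

theorem upz_smul {Γ : Type} [Group Γ] [MulAction Γ (Q.Cover x₀)] (hΓ : IsDeck Γ Q x₀)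
    (z : Finset V → X → Finset V × P → K) (γ : Γ) (c : Q.Cover x₀) (σ : Finset V) :
    upz D s x₀ z (γ • c, σ) = act D s x₀ (γ • base Q x₀) (upz D s x₀ z (c, σ)) := by
  show act D s x₀ (γ • c) (z σ (Q.proj x₀ (γ • c))) = _
  rw [hΓ.proj, act_smul D s x₀ hΓ]
  rfl

end Pool.Agent.H37.TM
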