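import Pool.Agent.H37.TM.Rel
import Pool.Agent.H19.LI.Defs

/-!
# Project TM: quotients by special actions

`IsSpecial H C`: the group `H` acts on `C` with a special quotient. The quotient `C / H` is a finite
labelled cube complex and `C → C / H` is a covering (`IsCov`) after the adjacencies of labels which do
not occur have been removed from `C` (`cut`).
-/

set_option autoImplicit false
set_option linter.unusedSectionVars false

open Finset

namespace Pool.Agent.H37.TM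

open Pool.Agent.H19.Cub Pool.Agent.H19.LI

/-- The action of `Γ` on the vertices is free, and the quotient is special: labels at a vertex are in
different orbits (the hyperplanes of the quotient do not intersect or osculate themselves), and the
labels `u`, `v` at a vertex are adjacent if `u` is adjacent to a translate of `v` (the hyperplanes of
the quotient do not osculate if they cross). -/
structure IsSpecial (Γ : Type) {V X : Type} [DecidableEq V] [Group Γ] [MulAction Γ V]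
    [MulAction Γ X] (C : CubeComplex V X) : Prop where
  free : ∀ (g : Γ) (x : X), g • x = x → g = 1
  self : ∀ (g : Γ) v x, v ∈ C.lab x → g • v ∈ C.lab x → g • v = v
  inter : ∀ (g : Γ) u v x, u ∈ C.lab x → v ∈ C.lab x → C.graph.Adj u (g • v) → C.graph.Adj u v

/-- actions by automorphisms -/
structure IsAutAct (Γ : Type) {V X : Type} [DecidableEq V] [Group Γ] [MulAction Γ V]
    [MulAction Γ X] (C : CubeComplex V X) : Prop where
  graph : ∀ (g : Γ) u v, C.graph.Adj (g • u) (g • v) ↔ C.graph.Adj u v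
  lab : ∀ (g : Γ) v x, g • v ∈ C.lab (g • x) ↔ v ∈ C.lab x
  nb : ∀ (g : Γ) v x, v ∈ C.lab x → C.nb (g • v) (g • x) = g • C.nb v x

/-- the label `v` occurs -/
def Occ {V X : Type} [DecidableEq V] (C : CubeComplex V X) (v : V) : Prop := ∃ x, v ∈ C.lab x

section Cut

variable {V X : Type} [DecidableEq V]

/-- the complex without the adjacencies of labels which do not occur -/
def cut (C : CubeComplex V X) : CubeComplex V X where
  graph :=
    { Adj := fun u v => C.graph.Adj u v ∧ Occ C u ∧ Occ C v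
      symm := ⟨fun _ _ h => ⟨h.1.symm, h.2.2, h.2.1⟩⟩
      loopless := ⟨fun _ h => h.1.ne rfl⟩ }
  lab := C.lab
  nb := C.nb
  lab_nb := C.lab_nb
  nb_nb := C.nb_nb
  lab_adj u v x h := C.lab_adj u v x h.1
  nb_comm u v x h := C.nb_comm u v x h.1

theorem cut_isPath {C : CubeComplex V X} {x : X} {l : List V} :
    (cut C).IsPath x l ↔ C.IsPath x l := by
  induction l generalizing x with
  | nil => exact Iff.rfl
  | cons v l ih => exact and_congr Iff.rfl ih

theorem cut_fin {C : CubeComplex V X} {x : X} {l : List V} : (cut C).fin x l = C.fin x l := by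
  induction l generalizing x with
  | nil => rfl
  | cons v l ih => exact ih

theorem cut_clique {C : CubeComplex V X} {x : X} {σ : Finset V} (hσ : σ ⊆ C.lab x) :
    (cut C).graph.IsClique (σ : Set V) ↔ C.graph.IsClique (σ : Set V) := by
  constructor
  · intro hc a ha b hb hab
    exact (hc ha hb hab).1
  · intro hc a ha b hb hab
    exact ⟨hc ha hb hab, ⟨x, hσ ha⟩, ⟨x, hσ hb⟩⟩

theorem cut_l2zero {C : CubeComplex V X} {i : ℕ} (h : L2Zero (cut C) i) : L2Zero C i := by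
  have key : ∀ (j : ℕ) (f : Finset V → X → ℂ), IsChain C j f ↔ IsChain (cut C) j f := by
    intro j f
    constructor
    · intro hf
      refine ⟨fun σ x hne => ?_, hf.anti, hf.l2⟩
      obtain ⟨h1, h2, h3⟩ := hf.supp σ x hne
      exact ⟨h1, (cut_clique (C := C) h1).2 h2, h3⟩
    · intro hf
      refine ⟨fun σ x hne => ?_, hf.anti, hf.l2⟩
      obtain ⟨h1, h2, h3⟩ := hf.supp σ x hne
      exact ⟨h1, (cut_clique (C := C) h1).1 h2, h3⟩
  intro ν hν z hz hdz ε hε
  obtain ⟨y, hy, h1⟩ := h ν hν z ((key i z).1 hz) hdz ε hε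
  exact ⟨y, (key _ y).2 hy, h1⟩

theorem cut_step {C : CubeComplex V X} {x : X} {l l' : List V} (hl : C.IsPath x l)
    (h : Step C.graph l l') : Step (cut C).graph l l' := by
  cases h with
  | back a b v => exact Step.back a b v
  | square a b u v h =>
    rw [CubeComplex.isPath_append] at hl
    obtain ⟨-, h1, h2, -⟩ := hl
    exact Step.square a b u v ⟨h, ⟨_, h1⟩, ⟨_, h2⟩⟩

theorem cut_cat0 {C : CubeComplex V X} (h : IsCAT0 C) : IsCAT0 (cut C) := by
  intro x
  let f : C.Cover x → (cut C).Cover x :=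
    Quot.map (fun l => ⟨l.1, cut_isPath.2 l.2⟩) fun l _ hs => cut_step l.2 hs
  have hf : Function.Surjective f := by
    intro c
    induction c using Quot.ind with
    | mk l => exact ⟨Quot.mk _ ⟨l.1, cut_isPath.1 l.2⟩, rfl⟩
  have hp : ∀ c, (cut C).proj x (f c) = C.proj x c := by
    intro c
    induction c using Quot.ind with
    | mk l => exact cut_fin
  constructor
  · intro a b hab
    obtain ⟨a', rfl⟩ := hf a
    obtain ⟨b', rfl⟩ := hf b
    rw [hp, hp] at hab
    rw [(h x).1 hab]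
  · intro y
    obtain ⟨c, hc⟩ := (h x).2 y
    exact ⟨f c, (hp c).trans hc⟩

end Cut

/-! ### The quotient -/

section Quo

variable {V X Γ : Type} [DecidableEq V] [Group Γ] [MulAction Γ V] [MulAction Γ X]

/-- the orbits of the labels which occur, and one more label -/
def QV (Γ : Type) {V X : Type} [DecidableEq V] [Group Γ] [MulAction Γ V] (C : CubeComplex V X) :
    Type :=
  Option {a : MulAction.orbitRel.Quotient Γ V // ∃ v, Occ C v ∧ Quotient.mk'' v = a}

/-- the orbits of the vertices -/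
abbrev QX (Γ X : Type) [Group Γ] [MulAction Γ X] : Type := MulAction.orbitRel.Quotient Γ X

/-- the orbit of a vertex -/
def qx (Γ : Type) {X : Type} [Group Γ] [MulAction Γ X] (x : X) : QX Γ X := Quotient.mk'' x

open Classical in
/-- the orbit of a label -/
noncomputable def qv (Γ : Type) {V X : Type} [DecidableEq V] [Group Γ] [MulAction Γ V]
    (C : CubeComplex V X) (v : V) : QV Γ C :=
  if h : Occ C v then some ⟨Quotient.mk'' v, v, h, rfl⟩ else none

theorem qx_eq {x y : X} : qx Γ x = qx Γ y ↔ ∃ g : Γ, g • y = x := by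
  unfold qx
  rw [Quotient.eq'']
  exact MulAction.orbitRel_apply.trans Iff.rfl

theorem qx_smul (g : Γ) (x : X) : qx Γ (g • x) = qx Γ x := qx_eq.2 ⟨g, rfl⟩

variable {C : CubeComplex V X}

theorem qv_eq {u v : V} (hu : Occ C u) (hv : Occ C v) :
    qv Γ C u = qv Γ C v ↔ ∃ g : Γ, g • v = u := by
  unfold qv
  rw [dif_pos hu, dif_pos hv]
  constructor
  · intro h
    have h1 := congrArg Subtype.val (Option.some.inj h)
    exact MulAction.orbitRel_apply.1 (Quotient.eq''.1 h1)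
  · intro h
    congr 1
    apply Subtype.ext
    exact Quotient.eq''.2 (MulAction.orbitRel_apply.2 h)

theorem Occ.smul (hA : IsAutAct Γ C) {v : V} (h : Occ C v) (g : Γ) : Occ C (g • v) := by
  obtain ⟨x, hx⟩ := h
  exact ⟨g • x, (hA.lab g v x).2 hx⟩

theorem qv_smul (hA : IsAutAct Γ C) {v : V} (h : Occ C v) (g : Γ) :
    qv Γ C (g • v) = qv Γ C v := (qv_eq (h.smul hA g) h).2 ⟨g, rfl⟩

theorem qv_inj (hS : IsSpecial Γ C) {x : X} {u v : V} (hu : u ∈ C.lab x) (hv : v ∈ C.lab x)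
    (h : qv Γ C u = qv Γ C v) : u = v := by
  obtain ⟨g, rfl⟩ := (qv_eq ⟨x, hu⟩ ⟨x, hv⟩).1 h
  exact hS.self g v x hv hu

/-- adjacency of the orbits -/
def QAdj (Γ : Type) {V X : Type} [DecidableEq V] [Group Γ] [MulAction Γ V]
    (C : CubeComplex V X) (a b : QV Γ C) : Prop :=
  ∃ u v, Occ C u ∧ Occ C v ∧ C.graph.Adj u v ∧ qv Γ C u = a ∧ qv Γ C v = b

theorem qadj_iff (hA : IsAutAct Γ C) (hS : IsSpecial Γ C) {x : X} {u v : V} (hu : u ∈ C.lab x)
    (hv : v ∈ C.lab x) : QAdj Γ C (qv Γ C u) (qv Γ C v) ↔ C.graph.Adj u v := by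
  constructor
  · rintro ⟨u', v', hu', hv', h, h1, h2⟩
    obtain ⟨g, rfl⟩ := (qv_eq hu' ⟨x, hu⟩).1 h1
    obtain ⟨k, rfl⟩ := (qv_eq hv' ⟨x, hv⟩).1 h2
    refine hS.inter (g⁻¹ * k) u v x hu hv ?_
    rw [← hA.graph g, ← mul_smul, mul_inv_cancel_left]
    exact h
  · intro h
    exact ⟨u, v, ⟨x, hu⟩, ⟨x, hv⟩, h, rfl, rfl⟩

theorem qadj_irrefl (hA : IsAutAct Γ C) (hS : IsSpecial Γ C) (a : QV Γ C) : ¬ QAdj Γ C a a := by
  rintro ⟨u, v, hu, hv, h, rfl, h2⟩
  obtain ⟨x, hx⟩ := hu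
  obtain ⟨g, rfl⟩ := (qv_eq hv ⟨x, hx⟩).1 h2
  exact (hS.inter g u u x hx hx h).ne rfl

open Classical in
noncomputable instance : DecidableEq (QV Γ C) := fun _ _ => Classical.propDecidable _

/-- the labels at an orbit -/
noncomputable def qlab (hA : IsAutAct Γ C) (q : QX Γ X) : Finset (QV Γ C) :=
  Quotient.liftOn' q (fun x => (C.lab x).image (qv Γ C)) (by
    intro x y hxy
    obtain ⟨g, rfl⟩ := MulAction.orbitRel_apply.1 hxy
    ext a
    simp only [mem_image]
    constructor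
    · rintro ⟨v, hv, rfl⟩
      refine ⟨g⁻¹ • v, ?_, qv_smul hA ⟨_, hv⟩ g⁻¹⟩
      rw [← hA.lab g, smul_inv_smul]
      exact hv
    · rintro ⟨v, hv, rfl⟩
      exact ⟨g • v, (hA.lab g v y).2 hv, qv_smul hA ⟨_, hv⟩ g⟩)

theorem qlab_mk (hA : IsAutAct Γ C) (x : X) : qlab hA (qx Γ x) = (C.lab x).image (qv Γ C) := rfl

theorem mem_qlab (hA : IsAutAct Γ C) {x : X} {a : QV Γ C} :
    a ∈ qlab hA (qx Γ x) ↔ ∃ v ∈ C.lab x, qv Γ C v = a := by
  rw [qlab_mk, mem_image]

open Classical in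
/-- the neighbours -/
noncomputable def qnb (Γ : Type) {V X : Type} [DecidableEq V] [Group Γ] [MulAction Γ V]
    [MulAction Γ X] (C : CubeComplex V X) (a : QV Γ C) (q : QX Γ X) : QX Γ X :=
  if h : ∃ p : X × V, qx Γ p.1 = q ∧ p.2 ∈ C.lab p.1 ∧ qv Γ C p.2 = a then
    qx Γ (C.nb h.choose.2 h.choose.1) else q

theorem qnb_mk (hA : IsAutAct Γ C) (hS : IsSpecial Γ C) {x : X} {v : V} (hv : v ∈ C.lab x) :
    qnb Γ C (qv Γ C v) (qx Γ x) = qx Γ (C.nb v x) := by
  have h : ∃ p : X × V, qx Γ p.1 = qx Γ x ∧ p.2 ∈ C.lab p.1 ∧ qv Γ C p.2 = qv Γ C v :=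
    ⟨(x, v), rfl, hv, rfl⟩
  unfold qnb
  rw [dif_pos h]
  obtain ⟨h1, h2, h3⟩ := h.choose_spec
  obtain ⟨g, hg⟩ := qx_eq.1 h1
  have h4 : g • v ∈ C.lab h.choose.1 := by
    rw [← hg]
    exact (hA.lab g v x).2 hv
  have h5 : h.choose.2 = g • v :=
    qv_inj hS h2 h4 (h3.trans (qv_smul hA ⟨x, hv⟩ g).symm)
  rw [h5, ← hg, hA.nb g v x hv, qx_smul]

theorem qx_surj (q : QX Γ X) : ∃ x, qx Γ x = q := Quotient.exists_rep q

/-- **the quotient** -/
noncomputable def quo (hA : IsAutAct Γ C) (hS : IsSpecial Γ C) : CubeComplex (QV Γ C) (QX Γ X) where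
  graph :=
    { Adj := QAdj Γ C
      symm := ⟨fun _ _ ⟨u, v, hu, hv, h, h1, h2⟩ => ⟨v, u, hv, hu, h.symm, h2, h1⟩⟩
      loopless := ⟨qadj_irrefl hA hS⟩ }
  lab := qlab hA
  nb := qnb Γ C
  lab_nb a q h := by
    obtain ⟨x, rfl⟩ := qx_surj q
    obtain ⟨v, hv, rfl⟩ := (mem_qlab hA).1 h
    rw [qnb_mk hA hS hv]
    exact (mem_qlab hA).2 ⟨v, C.lab_nb v x hv, rfl⟩
  nb_nb a q h := by
    obtain ⟨x, rfl⟩ := qx_surj q
    obtain ⟨v, hv, rfl⟩ := (mem_qlab hA).1 h
    rw [qnb_mk hA hS hv, qnb_mk hA hS (C.lab_nb v x hv), C.nb_nb v x hv]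
  lab_adj a b q hab ha hb := by
    obtain ⟨x, rfl⟩ := qx_surj q
    obtain ⟨u, hu, rfl⟩ := (mem_qlab hA).1 ha
    obtain ⟨v, hv, rfl⟩ := (mem_qlab hA).1 hb
    have h := (qadj_iff hA hS hu hv).1 hab
    rw [qnb_mk hA hS hv]
    exact (mem_qlab hA).2 ⟨u, C.lab_adj u v x h hu hv, rfl⟩
  nb_comm a b q hab ha hb := by
    obtain ⟨x, rfl⟩ := qx_surj q
    obtain ⟨u, hu, rfl⟩ := (mem_qlab hA).1 ha
    obtain ⟨v, hv, rfl⟩ := (mem_qlab hA).1 hb
    have h := (qadj_iff hA hS hu hv).1 hab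
    rw [qnb_mk hA hS hv, qnb_mk hA hS (C.lab_adj u v x h hu hv), qnb_mk hA hS hu,
      qnb_mk hA hS (C.lab_adj v u x h.symm hv hu), C.nb_comm u v x h hu hv]

/-- the projection to the quotient is a covering -/
theorem quo_cov (hA : IsAutAct Γ C) (hS : IsSpecial Γ C) :
    IsCov (cut C) (quo hA hS) (qv Γ C) (qx Γ) where
  lab y a ha := (mem_qlab hA).1 ha
  lab' y v hv := (mem_qlab hA).2 ⟨v, hv, rfl⟩
  inj y u hu v hv h := qv_inj hS hu hv h
  nb y v hv := (qnb_mk hA hS hv).symm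
  adj u v h := ⟨u, v, h.2.1, h.2.2, h.1, rfl, rfl⟩
  adj' y u hu v hv h := ⟨(qadj_iff hA hS hu hv).1 h, ⟨y, hu⟩, ⟨y, hv⟩⟩

end Quo

/-! ### Simply connected coverings -/

section Simply

variable {V X V' X' : Type} [DecidableEq V] [DecidableEq V'] {Q' : CubeComplex V' X'}
  {Q : CubeComplex V X} {ψ : V' → V} {φ : X' → X} (h : IsCov Q' Q ψ φ) (hs : IsCAT0 Q')

/-- the identification of the vertices with the vertices of the universal cover of the base -/
noncomputable def lft (y₀ : X') (y : X') : Q.Cover (φ y₀) :=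
  h.down y₀ ((Equiv.ofBijective _ (hs y₀)).symm y)

theorem lft_proj (y₀ : X') (c : Q'.Cover y₀) : lft h hs y₀ (Q'.proj y₀ c) = h.down y₀ c := by
  unfold lft
  congr 1
  exact (Equiv.ofBijective _ (hs y₀)).symm_apply_apply c

theorem proj_lft (y₀ y : X') : Q.proj (φ y₀) (lft h hs y₀ y) = φ y := by
  unfold lft
  rw [h.proj_down]
  congr 1
  exact (Equiv.ofBijective _ (hs y₀)).apply_symm_apply y

theorem lft_bij (y₀ : X') : Function.Bijective (lft h hs y₀) :=
  (h.down_bij y₀).comp (Equiv.ofBijective _ (hs y₀)).symm.bijective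

theorem lft_nb (y₀ y : X') {v : V'} (hv : v ∈ Q'.lab y) :
    lft h hs y₀ (Q'.nb v y) = Q.nbc (φ y₀) (ψ v) (lft h hs y₀ y) := by
  obtain ⟨c, rfl⟩ := (hs y₀).2 y
  rw [← proj_nbc' Q' y₀ hv, lft_proj, lft_proj]
  exact h.down_nbc y₀ c hv

/-- the identification is a covering -/
theorem lft_cov (y₀ : X') : IsCov Q' (Q.cover (φ y₀)) ψ (lft h hs y₀) where
  lab y v hv := by
    have h1 : v ∈ Q.lab (Q.proj (φ y₀) (lft h hs y₀ y)) := hv
    rw [proj_lft] at h1
    exact h.lab y v h1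
  lab' y v' hv' := by
    show ψ v' ∈ Q.lab (Q.proj (φ y₀) (lft h hs y₀ y))
    rw [proj_lft]
    exact h.lab' y v' hv'
  inj := h.inj
  nb y v' hv' := lft_nb h hs y₀ y hv'
  adj := h.adj
  adj' := h.adj'

end Simply

end Pool.Agent.H37.TM
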