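import Pool.Agent.H37.TM.VirtA
import Pool.Agent.H37.TM.VirtB
import Pool.Agent.H37.TM.FinalP

/-!
# Project TM: virtually special actions
-/

set_option autoImplicit false
set_option linter.unusedSectionVars false

open Finset

namespace Pool.Agent.H37.TM

open Pool.Agent.H19.Cub Pool.Agent.H19.LI Pool.Agent.H65.RM

section Deck

variable {V X Γ : Type} [DecidableEq V] [Group Γ] [MulAction Γ V] [MulAction Γ X]
  {C : CubeComplex V X}

/-- the action of the group on the universal cover of the quotient, by transport of structure -/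
noncomputable def qact (hA : IsAutAct Γ C) (hS : IsSpecial Γ C) (hC : IsCAT0 (cut C)) (x₀ : X) :
    MulAction Γ ((quo hA hS).Cover (qx Γ x₀)) where
  smul g c := lft (quo_cov hA hS) hC x₀
    (g • (Equiv.ofBijective _ (lft_bij (quo_cov hA hS) hC x₀)).symm c)
  one_smul c := by
    show lft (quo_cov hA hS) hC x₀
      ((1 : Γ) • (Equiv.ofBijective _ (lft_bij (quo_cov hA hS) hC x₀)).symm c) = c
    rw [one_smul]
    exact (Equiv.ofBijective _ (lft_bij (quo_cov hA hS) hC x₀)).apply_symm_apply c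
  mul_smul a b c := by
    show lft (quo_cov hA hS) hC x₀
        ((a * b) • (Equiv.ofBijective _ (lft_bij (quo_cov hA hS) hC x₀)).symm c) =
      lft (quo_cov hA hS) hC x₀ (a • (Equiv.ofBijective _ (lft_bij (quo_cov hA hS) hC x₀)).symm
        (lft (quo_cov hA hS) hC x₀
          (b • (Equiv.ofBijective _ (lft_bij (quo_cov hA hS) hC x₀)).symm c)))
    have h1 : ∀ y, (Equiv.ofBijective _ (lft_bij (quo_cov hA hS) hC x₀)).symm
        (lft (quo_cov hA hS) hC x₀ y) = y :=
      fun y => (Equiv.ofBijective _ (lft_bij (quo_cov hA hS) hC x₀)).symm_apply_apply y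
    rw [h1, mul_smul]

theorem isDeck_quo (hA : IsAutAct Γ C) (hS : IsSpecial Γ C) (hC : IsCAT0 (cut C)) (x₀ : X) :
    letI := qact hA hS hC x₀
    IsDeck Γ (quo hA hS) (qx Γ x₀) := by
  letI := qact hA hS hC x₀
  have hsm : ∀ (g : Γ) (y : X), g • lft (quo_cov hA hS) hC x₀ y =
      lft (quo_cov hA hS) hC x₀ (g • y) := by
    intro g y
    show lft (quo_cov hA hS) hC x₀ (g • (Equiv.ofBijective _ (lft_bij (quo_cov hA hS) hC x₀)).symm
      (lft (quo_cov hA hS) hC x₀ y)) = _
    congr 2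
    exact (Equiv.ofBijective _ (lft_bij (quo_cov hA hS) hC x₀)).symm_apply_apply y
  have hsurj := (lft_bij (quo_cov hA hS) hC x₀).2
  have hinj := (lft_bij (quo_cov hA hS) hC x₀).1
  refine ⟨fun g v c hv => ?_, fun g c => ?_, fun c c' hcc => ?_, fun g c hc => ?_⟩
  · obtain ⟨y, rfl⟩ := hsurj c
    have hv1 : v ∈ (quo hA hS).lab (qx Γ y) := by
      have h1 := hv
      rw [proj_lft] at h1
      exact h1
    obtain ⟨v, hv2, rfl⟩ := (mem_qlab hA).1 hv1
    have hg : g • v ∈ (cut C).lab (g • y) := (hA.lab g v y).2 hv2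
    rw [← lft_nb (quo_cov hA hS) hC x₀ y (v := v) hv2, hsm, hsm,
      ← qv_smul hA ⟨y, hv2⟩ g, ← lft_nb (quo_cov hA hS) hC x₀ (g • y) (v := g • v) hg]
    exact congrArg _ (hA.nb g v y hv2)
  · obtain ⟨y, rfl⟩ := hsurj c
    rw [hsm, proj_lft, proj_lft, qx_smul]
  · obtain ⟨y, rfl⟩ := hsurj c
    obtain ⟨y', rfl⟩ := hsurj c'
    rw [proj_lft, proj_lft] at hcc
    obtain ⟨g, hg⟩ := qx_eq.1 hcc.symm
    exact ⟨g, by rw [hsm, hg]⟩
  · obtain ⟨y, rfl⟩ := hsurj c
    rw [hsm] at hc
    exact hS.free g y (hinj hc)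

end Deck

section Fin

variable {V X Γ : Type} [DecidableEq V] [Group Γ] [MulAction Γ V] [MulAction Γ X]
  {C : CubeComplex V X}

theorem finite_qx {G X : Type} [Group G] [MulAction G X] (H : Subgroup G) [H.FiniteIndex]
    (h : ∃ F : Finset X, ∀ x, ∃ g : G, g • x ∈ F) : Finite (QX H X) := by
  obtain ⟨F, hF⟩ := h
  have h1 : Finite (G ⧸ H) := inferInstance
  refine Finite.of_surjective
    (fun p : (G ⧸ H) × {x // x ∈ F} => qx H ((p.1.out : G)⁻¹ • (p.2 : X))) ?_
  intro q
  obtain ⟨x, rfl⟩ := qx_surj q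
  obtain ⟨g, hg⟩ := hF x
  obtain ⟨k, hk⟩ := QuotientGroup.mk_out_eq_mul H g
  refine ⟨((g : G ⧸ H), ⟨g • x, hg⟩), ?_⟩
  show qx H ((((g : G ⧸ H)).out : G)⁻¹ • (g • x)) = qx H x
  rw [hk, mul_inv_rev, mul_smul, inv_smul_smul]
  exact qx_smul (k⁻¹ : H) x

theorem finite_qv (hA : IsAutAct Γ C) [Finite (QX Γ X)] : Finite (QV Γ C) := by
  have h1 : ∀ q : QX Γ X, ∃ x, qx Γ x = q := qx_surj
  choose r hr using h1
  have h2 : Finite {a : MulAction.orbitRel.Quotient Γ V //
      ∃ v, Occ C v ∧ Quotient.mk'' v = a} := by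
    refine Finite.of_surjective (α := Σ q : QX Γ X, {v // v ∈ C.lab (r q)})
      (fun p => ⟨Quotient.mk'' p.2.1, p.2.1, ⟨_, p.2.2⟩, rfl⟩) ?_
    rintro ⟨a, v, ⟨x, hx⟩, rfl⟩
    obtain ⟨g, hg⟩ := qx_eq.1 (hr (qx Γ x))
    refine ⟨⟨qx Γ x, g • v, ?_⟩, ?_⟩
    · rw [← hg]
      exact (hA.lab g v x).2 hx
    · apply Subtype.ext
      exact Quotient.eq''.2 (MulAction.orbitRel_apply.2 ⟨g, rfl⟩)
  unfold QV
  infer_instance

theorem dimLe_quo (hA : IsAutAct Γ C) (hS : IsSpecial Γ C) {d : ℕ} (hd : DimLe C d) :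
    DimLe (quo hA hS) d := by
  intro q σ hσ hc
  obtain ⟨x, rfl⟩ := qx_surj q
  have h1 := image_liftS (quo_cov hA hS) (y := x) hσ
  have h2 := liftS_sub (Q' := cut C) (ψ := qv Γ C) σ x
  have h3 : (cut C).graph.IsClique (liftS (cut C) (qv Γ C) σ x : Set V) := by
    rw [← clique_iff (quo_cov hA hS) h2, h1]
    exact hc
  have h4 := card_img (quo_cov hA hS) h2
  rw [h1] at h4
  rw [h4]
  exact hd x _ h2 ((cut_clique (C := C) h2).1 h3)

end Fin

/-- Theorem for special actions. -/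
theorem l2_special {V X U Γ : Type} [DecidableEq V] [DecidableEq U] [Group Γ] [MulAction Γ V]
    [MulAction Γ X] [MulAction Γ U] [Finite (QX Γ X)] (C : CubeComplex V X) (hC : IsCAT0 C)
    (hA : IsAutAct Γ C) (hS : IsSpecial Γ C) {M B : Set (Finset U)} {n d : ℕ} (hd : DimLe C d)
    (hM : Mfd M B n) (hK : AcycLt M d) (hP : PAct Γ M B) {i : ℕ} (hdi : d ≤ i)
    (hn : n < 2 * i) : L2Zero C i := by
  rcases isEmpty_or_nonempty X with hX | ⟨⟨x₀⟩⟩
  · intro ν _ z hz _ ε hε
    refine ⟨z, ⟨fun σ x => (hX.false x).elim, fun σ x => (hX.false x).elim, hz.l2⟩, ?_, ?_⟩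
    · have h1 : IsEmpty (Finset V × X) := inferInstance
      exact summable_empty
    · have h1 : IsEmpty (Finset V × X) := inferInstance
      rw [tsum_empty]
      exact hε
  · have hC' := cut_cat0 hC
    letI := qact hA hS hC' x₀
    have hfv := finite_qv (Γ := Γ) (C := C) hA
    letI : Fintype (QV Γ C) := Fintype.ofFinite _
    letI : Fintype (QX Γ X) := Fintype.ofFinite _
    have h1 := l2_of_proper (quo hA hS) (qx Γ x₀) (isDeck_quo hA hS hC' x₀)
      (dimLe_quo hA hS hd) hM hK hP hdi hn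
    exact cut_l2zero (l2zero_of_cov (lft_cov (quo_cov hA hS) hC' x₀)
      (lft_bij (quo_cov hA hS) hC' x₀) i h1)

/-- **The theorem for virtually special actions.** Let the group `G` act properly and cocompactly on a
CAT(0) cube complex `C` of dimension at most `d`, such that a subgroup `H` of finite index acts with a
special quotient. If `G` acts properly and simplicially on a triangulated homology manifold `M` (over
the field with two elements) of dimension `n` with boundary `B` whose reduced homology vanishes in the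
degrees less than `d`, then the reduced `ℓ²`-homology of `C` vanishes in all degrees `i ≥ d` with
`n < 2 i`. -/
theorem l2_virt {V X U G : Type} [DecidableEq V] [DecidableEq U] [Group G]
    [MulAction G V] [MulAction G X] [MulAction G U] (C : CubeComplex V X) (hC : IsCAT0 C)
    (hG : IsGeom G C) (hS : ∃ H : Subgroup G, H.FiniteIndex ∧ IsSpecial H C)
    {M B : Set (Finset U)} {n d : ℕ} (hd : DimLe C d) (hM : Mfd M B n) (hK : AcycLt M d)
    (hA : PAct G M B) {i : ℕ} (hdi : d ≤ i) (hn : n < 2 * i) : L2Zero C i := by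
  obtain ⟨H, hH, hS⟩ := hS
  have hfx : Finite (QX H X) := finite_qx H hG.cocompact
  have hAH : IsAutAct H C :=
    ⟨fun g u v => hG.graph g u v, fun g v x => hG.lab g v x, fun g v x => hG.nb g v x⟩
  exact l2_special C hC hAH hS hd hM hK (PAct.sub hA H) hdi hn

end Pool.Agent.H37.TM
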