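import Pool.Agent.H37.TM.Rel
import Pool.Agent.H19.LI.Defs

/-!
# Project TM: transfer of the vanishing to coverings with infinitely many labels

`l2zero_of_cov`: if `Q' → Q` is a covering which is bijective on the vertices, `Q` has finitely many
labels and the reduced `ℓ²`-homology of `Q` vanishes, then that of `Q'` vanishes. The orders of the
labels need not agree: a chain is multiplied by the sign of the permutation which compares them.
-/

set_option autoImplicit false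
set_option linter.unusedSectionVars false

open Finset

namespace Pool.Agent.H37.TM

open Pool.Agent.H19.Cub Pool.Agent.H19.LI

section Sign

variable {V : Type} [DecidableEq V]

/-- the number of the pairs of `σ` which are ordered differently by `ν` and `κ` -/
def dif (ν κ : V → ℕ) (σ : Finset V) : ℕ :=
  ((σ ×ˢ σ).filter fun p => ν p.1 < ν p.2 ∧ κ p.2 < κ p.1).card

/-- the sign of the permutation which compares the orders by `ν` and `κ` -/
def dsg (ν κ : V → ℕ) (σ : Finset V) : ℤ := (-1) ^ dif ν κ σ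

theorem dsg_mul_self (ν κ : V → ℕ) (σ : Finset V) : dsg ν κ σ * dsg ν κ σ = 1 := by
  unfold dsg
  rw [← mul_pow]
  simp

theorem dif_insert {ν κ : V → ℕ} {τ : Finset V} {v : V} (hv : v ∉ τ) :
    dif ν κ (insert v τ) = dif ν κ τ + (τ.filter fun u => ν u < ν v ∧ κ v < κ u).card +
      (τ.filter fun u => ν v < ν u ∧ κ u < κ v).card := by
  unfold dif
  have h1 : ((insert v τ ×ˢ insert v τ).filter fun p => ν p.1 < ν p.2 ∧ κ p.2 < κ p.1) =
      ((τ ×ˢ τ).filter fun p => ν p.1 < ν p.2 ∧ κ p.2 < κ p.1) ∪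
        ((τ.filter fun u => ν u < ν v ∧ κ v < κ u).image fun u => (u, v)) ∪
        ((τ.filter fun u => ν v < ν u ∧ κ u < κ v).image fun u => (v, u)) := by
    ext ⟨a, b⟩
    simp only [mem_filter, mem_product, mem_insert, mem_union, mem_image, Prod.mk.injEq]
    constructor
    · rintro ⟨⟨ha, hb⟩, h1, h2⟩
      rcases ha with rfl | ha
      · rcases hb with rfl | hb
        · exact absurd h1 (lt_irrefl _)
        · exact Or.inr ⟨b, ⟨hb, h1, h2⟩, rfl, rfl⟩
      · rcases hb with rfl | hb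
        · exact Or.inl (Or.inr ⟨a, ⟨ha, h1, h2⟩, rfl, rfl⟩)
        · exact Or.inl (Or.inl ⟨⟨ha, hb⟩, h1, h2⟩)
    · rintro ((⟨⟨ha, hb⟩, h1, h2⟩ | ⟨u, ⟨hu, h1, h2⟩, rfl, rfl⟩) | ⟨u, ⟨hu, h1, h2⟩, rfl, rfl⟩)
      · exact ⟨⟨Or.inr ha, Or.inr hb⟩, h1, h2⟩
      · exact ⟨⟨Or.inr hu, Or.inl rfl⟩, h1, h2⟩
      · exact ⟨⟨Or.inl rfl, Or.inr hu⟩, h1, h2⟩
  rw [h1, card_union_of_disjoint, card_union_of_disjoint, card_image_of_injective,
    card_image_of_injective]
  · intro a b hab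
    exact (Prod.mk.inj hab).2
  · intro a b hab
    exact (Prod.mk.inj hab).1
  · rw [disjoint_left]
    rintro ⟨a, b⟩ h2 h3
    simp only [mem_filter, mem_product, mem_image, Prod.mk.injEq] at h2 h3
    obtain ⟨u, _, rfl, rfl⟩ := h3
    exact hv h2.1.2
  · rw [disjoint_left]
    rintro ⟨a, b⟩ h2 h3
    simp only [mem_filter, mem_product, mem_union, mem_image, Prod.mk.injEq] at h2 h3
    obtain ⟨u, _, rfl, rfl⟩ := h3
    rcases h2 with h2 | ⟨w, ⟨hw, _⟩, rfl, _⟩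
    · exact hv h2.1.1
    · exact hv hw

/-- the sign of a new element -/
theorem dsg_insert {ν κ : V → ℕ} {τ : Finset V} {v : V} (hv : v ∉ τ)
    (hν : ∀ u ∈ τ, ν u ≠ ν v) (hκ : ∀ u ∈ τ, κ u ≠ κ v) :
    dsg ν κ (insert v τ) * (-1) ^ (τ.filter fun u => κ u < κ v).card = dsg ν κ τ * sv ν v τ := by
  have e1 : (τ.filter fun u => ν u < ν v).card =
      (τ.filter fun u => ν u < ν v ∧ κ v < κ u).card +
        (τ.filter fun u => ν u < ν v ∧ κ u < κ v).card := by
    rw [← card_union_of_disjoint]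
    · congr 1
      ext u
      simp only [mem_filter, mem_union]
      constructor
      · rintro ⟨hu, h1⟩
        rcases lt_or_gt_of_ne (hκ u hu) with h2 | h2
        · exact Or.inr ⟨hu, h1, h2⟩
        · exact Or.inl ⟨hu, h1, h2⟩
      · rintro (⟨hu, h1, _⟩ | ⟨hu, h1, _⟩) <;> exact ⟨hu, h1⟩
    · rw [disjoint_left]
      intro u h1 h2
      rw [mem_filter] at h1 h2
      exact absurd h1.2.2 (not_lt.2 h2.2.2.le)
  have e2 : (τ.filter fun u => κ u < κ v).card =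
      (τ.filter fun u => ν u < ν v ∧ κ u < κ v).card +
        (τ.filter fun u => ν v < ν u ∧ κ u < κ v).card := by
    rw [← card_union_of_disjoint]
    · congr 1
      ext u
      simp only [mem_filter, mem_union]
      constructor
      · rintro ⟨hu, h1⟩
        rcases lt_or_gt_of_ne (hν u hu) with h2 | h2
        · exact Or.inl ⟨hu, h2, h1⟩
        · exact Or.inr ⟨hu, h2, h1⟩
      · rintro (⟨hu, _, h1⟩ | ⟨hu, _, h1⟩) <;> exact ⟨hu, h1⟩
    · rw [disjoint_left]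
      intro u h1 h2
      rw [mem_filter] at h1 h2
      exact absurd h1.2.1 (not_lt.2 h2.2.1.le)
  unfold dsg sv
  rw [dif_insert hv, e1, e2]
  obtain ⟨A, hA⟩ : ∃ A, A = (τ.filter fun u => ν u < ν v ∧ κ u < κ v).card := ⟨_, rfl⟩
  obtain ⟨B, hB⟩ : ∃ B, B = (τ.filter fun u => ν u < ν v ∧ κ v < κ u).card := ⟨_, rfl⟩
  obtain ⟨D, hD⟩ : ∃ D, D = (τ.filter fun u => ν v < ν u ∧ κ u < κ v).card := ⟨_, rfl⟩
  rw [← hA, ← hB, ← hD]
  have h2 : ((-1 : ℤ) ^ D) * (-1) ^ D = 1 := by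
    rw [← mul_pow]
    simp
  calc (-1 : ℤ) ^ (dif ν κ τ + B + D) * (-1) ^ (A + D)
      = (-1) ^ dif ν κ τ * (-1) ^ (B + A) * ((-1) ^ D * (-1) ^ D) := by
        rw [pow_add, pow_add, pow_add, pow_add]; ring
    _ = (-1) ^ dif ν κ τ * (-1) ^ (B + A) := by rw [h2, mul_one]

end Sign

section Trans

variable {V X V' X' : Type} [DecidableEq V] [DecidableEq V'] [Fintype V]
  {Q' : CubeComplex V' X'} {Q : CubeComplex V X} {ψ : V' → V} {φ : X' → X}
  (h : IsCov Q' Q ψ φ)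

omit [DecidableEq V'] in
theorem l2_diff {ν : V → ℕ} {z w : Finset V → X → ℂ} (hz : ∀ σ, Summable fun x => ‖z σ x‖ ^ 2)
    (hw : ∀ σ, Summable fun x => ‖w σ x‖ ^ 2) (σ : Finset V) :
    Summable fun x => ‖z σ x - bdry ν w σ x‖ ^ 2 := by
  have h1 : Summable fun x => ‖bdry ν w σ x‖ ^ 2 :=
    Pool.Agent.H4.Singer.l2h_sum σᶜ
      (fun v x => (-1) ^ (σ.filter fun u => ν u < ν v).card * w (insert v σ) x)
      fun v _ => Pool.Agent.H4.Singer.l2h_mul _ (hw (insert v σ))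
  exact Pool.Agent.H4.Singer.l2h_sub (hz σ) h1

theorem sum_pair {F : Finset V × X → ℝ} (hF : ∀ p, 0 ≤ F p)
    (hF1 : ∀ σ, Summable fun x => F (σ, x)) :
    Summable F ∧ ∑' p, F p = ∑ σ, ∑' x, F (σ, x) := by
  have h1 : Summable F := by
    refine (summable_prod_of_nonneg hF).2 ⟨hF1, ?_⟩
    exact (hasSum_fintype _).summable
  exact ⟨h1, by rw [h1.tsum_prod' hF1, tsum_fintype]⟩

theorem sum_ind {α β : Type} {S : Set α} {j : α → β} (hjinj : Function.Injective (fun p : S => j p.1))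
    {F : β → ℝ} {F' : α → ℝ} (hF : ∀ p, 0 ≤ F p) (hF1 : Summable F)
    (h1 : ∀ p ∈ S, F' p = F (j p)) (h2 : ∀ p ∉ S, F' p = 0) :
    Summable F' ∧ ∑' p, F' p ≤ ∑' p, F p := by
  have e1 : F' = S.indicator F' := by
    funext p
    by_cases hp : p ∈ S
    · rw [Set.indicator_of_mem hp]
    · rw [Set.indicator_of_notMem hp, h2 p hp]
  have e2 : (F' ∘ ((↑) : S → _)) = F ∘ fun p : S => j p.1 := by
    funext p
    exact h1 p.1 p.2
  have h3 : Summable (F' ∘ ((↑) : S → _)) := by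
    rw [e2]
    exact hF1.comp_injective hjinj
  have h4 : Summable F' := by
    rw [e1]
    exact summable_subtype_iff_indicator.1 h3
  refine ⟨h4, ?_⟩
  have e3 : ∑' p, F' p = ∑' p : S, F' p := by
    conv_lhs => rw [e1]
    exact (tsum_subtype S F').symm
  rw [e3]
  have e4 : ∑' p : S, F' p = ∑' p : S, F (j p.1) := tsum_congr fun p => h1 p.1 p.2
  rw [e4]
  exact tsum_comp_le_tsum_of_inj hF1 hF hjinj

include h

/-- the boundaries agree up to the sign -/
theorem bdry_covS {ν : V → ℕ} (hν : Function.Injective ν) {ν' : V' → ℕ}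
    (hν' : Function.Injective ν') {f' : Finset V' → X' → ℂ} {f : Finset V → X → ℂ} {y : X'}
    (hf : ∀ σ, f σ (φ y) ≠ 0 → σ ⊆ Q.lab (φ y))
    (hff : ∀ σ, σ ⊆ Q'.lab y → f (σ.image ψ) (φ y) = (dsg ν' (ν ∘ ψ) σ : ℂ) * f' σ y)
    {τ : Finset V'} (hτ : τ ⊆ Q'.lab y) :
    bdry ν f (τ.image ψ) (φ y) = (dsg ν' (ν ∘ ψ) τ : ℂ) * bd Q' ν' f' τ y := by
  have e2 : bdry ν f (τ.image ψ) (φ y) = ∑ v ∈ Q.lab (φ y) \ τ.image ψ,
      (-1) ^ ((τ.image ψ).filter fun u => ν u < ν v).card *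
        f (insert v (τ.image ψ)) (φ y) := by
    unfold bdry
    refine (sum_subset ?_ ?_).symm
    · intro v hv
      rw [mem_sdiff] at hv
      exact mem_compl.2 hv.2
    · intro v hv hv2
      rw [mem_compl] at hv
      rw [mem_sdiff] at hv2
      by_contra hne
      have h1 := hf _ (right_ne_zero_of_mul hne) (mem_insert_self v _)
      exact hv2 ⟨h1, hv⟩
  rw [e2]
  unfold bd
  rw [mul_sum]
  symm
  refine sum_nbij ψ ?_ ?_ ?_ ?_
  · intro v hv
    rw [mem_sdiff] at hv ⊢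
    refine ⟨h.lab' y v hv.1, fun hm => ?_⟩
    obtain ⟨w, hw, hwv⟩ := mem_image.1 hm
    exact hv.2 (h.inj y w (hτ hw) v hv.1 hwv ▸ hw)
  · intro a ha b hb hab
    rw [mem_coe, mem_sdiff] at ha hb
    exact h.inj y a ha.1 b hb.1 hab
  · intro v hv
    rw [mem_coe, mem_sdiff] at hv
    obtain ⟨v', hv', rfl⟩ := h.lab y v hv.1
    refine ⟨v', ?_, rfl⟩
    rw [mem_coe, mem_sdiff]
    exact ⟨hv', fun hm => hv.2 (mem_image_of_mem ψ hm)⟩
  · intro v hv
    rw [mem_sdiff] at hv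
    have h1 : insert v τ ⊆ Q'.lab y := insert_subset hv.1 hτ
    rw [← image_insert, hff _ h1]
    have h2 : ((τ.image ψ).filter fun u => ν u < ν (ψ v)).card =
        (τ.filter fun u => (ν ∘ ψ) u < (ν ∘ ψ) v).card := by
      have h3 : (τ.image ψ).filter (fun u => ν u < ν (ψ v)) =
          (τ.filter fun u => (ν ∘ ψ) u < (ν ∘ ψ) v).image ψ := by
        ext w
        simp only [mem_filter, mem_image, Function.comp]
        constructor
        · rintro ⟨⟨w', hw', rfl⟩, hlt⟩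
          exact ⟨w', ⟨hw', hlt⟩, rfl⟩
        · rintro ⟨w', ⟨hw', hlt⟩, rfl⟩
          exact ⟨⟨w', hw', rfl⟩, hlt⟩
      rw [h3]
      exact card_img h ((filter_subset _ _).trans hτ)
    rw [h2]
    have h4 := dsg_insert (ν := ν') (κ := ν ∘ ψ) hv.2
      (fun u hu he => hv.2 (hν' he ▸ hu))
      (fun u hu he => hv.2 (h.inj y u (hτ hu) v hv.1 (hν he) ▸ hu))
    have h5 : ((dsg ν' (ν ∘ ψ) (insert v τ) : ℤ) : ℂ) *
        (-1) ^ (τ.filter fun u => (ν ∘ ψ) u < (ν ∘ ψ) v).card =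
        ((dsg ν' (ν ∘ ψ) τ : ℤ) : ℂ) * ((sv ν' v τ : ℤ) : ℂ) := by
      have h6 := congrArg (Int.cast : ℤ → ℂ) h4
      push_cast at h6
      exact h6
    rw [← mul_assoc, ← h5]
    ring

/-- **The vanishing passes to coverings which are bijective on the vertices.** -/
theorem l2zero_of_cov (hφ : Function.Bijective φ) (i : ℕ) (h0 : L2HomologyZero Q i) :
    L2Zero Q' i := by
  classical
  intro ν' hν'i z' hz' hdz' ε hε
  obtain ⟨ν, hν⟩ : ∃ ν : V → ℕ, Function.Injective ν :=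
    ⟨fun v => (Fintype.equivFin V v).val, fun a b hab =>
      (Fintype.equivFin V).injective (Fin.ext hab)⟩
  obtain ⟨χ, hχ1, hχ2⟩ := Function.bijective_iff_has_inverse.1 hφ
  obtain ⟨s, hs⟩ : ∃ s : Finset V' → ℂ, s = fun σ => ((dsg ν' (ν ∘ ψ) σ : ℤ) : ℂ) := ⟨_, rfl⟩
  have hss : ∀ σ, s σ * s σ = 1 := by
    intro σ
    rw [hs]
    show ((dsg ν' (ν ∘ ψ) σ : ℤ) : ℂ) * ((dsg ν' (ν ∘ ψ) σ : ℤ) : ℂ) = 1
    rw [← Int.cast_mul, dsg_mul_self, Int.cast_one]
  have hsn : ∀ σ, ‖s σ‖ = 1 := by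
    intro σ
    have h1 : ‖s σ‖ * ‖s σ‖ = 1 := by rw [← norm_mul, hss, norm_one]
    nlinarith [norm_nonneg (s σ)]
  -- the chain downstairs
  obtain ⟨z, hzd, hz00⟩ : ∃ z : Finset V → X → ℂ,
      (∀ σ x, σ ⊆ Q.lab x → z σ x = s (liftS Q' ψ σ (χ x)) * z' (liftS Q' ψ σ (χ x)) (χ x)) ∧
      ∀ σ x, ¬ σ ⊆ Q.lab x → z σ x = 0 :=
    ⟨fun σ x => if σ ⊆ Q.lab x then s (liftS Q' ψ σ (χ x)) * z' (liftS Q' ψ σ (χ x)) (χ x) else 0,
      fun σ x hσ => if_pos hσ, fun σ x hσ => if_neg hσ⟩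
  have hz1 : ∀ σ y, σ ⊆ Q.lab (φ y) → z σ (φ y) = s (liftS Q' ψ σ y) * z' (liftS Q' ψ σ y) y := by
    intro σ y hσ
    rw [hzd _ _ hσ, hχ1]
  have hz1' : ∀ σ y, σ ⊆ Q'.lab y → z (σ.image ψ) (φ y) = s σ * z' σ y := by
    intro σ y hσ
    rw [hz1 _ _ (image_sub h hσ), liftS_image h hσ]
  have hz0 : ∀ σ x, z σ x ≠ 0 → σ ⊆ Q.lab x := by
    intro σ y hne
    by_contra hσ
    exact hne (hz00 _ _ hσ)
  have hcl : ∀ σ y, σ ⊆ Q.lab (φ y) → z' (liftS Q' ψ σ y) y ≠ 0 →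
      Q.graph.IsClique (σ : Set V) ∧ σ.card = i := by
    intro σ y hσ hne
    obtain ⟨h1, h2, h3⟩ := hz'.supp _ _ hne
    have h4 := image_liftS h hσ
    refine ⟨?_, ?_⟩
    · have h5 := (clique_iff h h1).2 h2
      rwa [h4] at h5
    · have h5 := card_img h h1
      rw [h4] at h5
      rw [h5, h3]
  have hz : IsL2Chain Q i z := by
    refine ⟨fun σ x hne => ?_, fun σ x hσ v hv => ?_, fun σ => ?_⟩
    · have h1 := hz0 σ x hne
      obtain ⟨y, rfl⟩ := hφ.2 x
      rw [hz1 σ y h1] at hne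
      obtain ⟨h2, h3⟩ := hcl σ y h1 (right_ne_zero_of_mul hne)
      exact ⟨h1, h2, h3⟩
    · obtain ⟨y, rfl⟩ := hφ.2 x
      obtain ⟨v', hv', rfl⟩ := h.lab y v (hσ hv)
      have hvl : v' ∈ liftS Q' ψ σ y := mem_filter.2 ⟨hv', hv⟩
      by_cases hc : Q.graph.IsClique (σ : Set V)
      · have hc' : Q'.graph.IsClique (liftS Q' ψ σ y : Set V') := by
          rw [← clique_iff h (liftS_sub σ y), image_liftS h hσ]
          exact hc
        have h1 := sub_nb' h (liftS_sub σ y) hc' hvl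
        have h2 : σ ⊆ Q.lab (φ (Q'.nb v' y)) := by
          have h3 := image_sub h h1
          rwa [image_liftS h hσ] at h3
        have h3 : liftS Q' ψ σ (Q'.nb v' y) = liftS Q' ψ σ y := by
          have h4 := liftS_image h h1
          rwa [image_liftS h hσ] at h4
        rw [← h.nb y v' hv', hz1 _ _ h2, hz1 _ _ hσ, h3,
          hz'.anti _ _ (liftS_sub σ y) _ hvl, mul_neg]
      · have h1 : z σ (φ y) = 0 := by
          by_contra hne
          rw [hz1 σ y hσ] at hne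
          exact hc (hcl σ y hσ (right_ne_zero_of_mul hne)).1
        have h2 : z σ (Q.nb (ψ v') (φ y)) = 0 := by
          by_contra hne
          have h3 := hz0 _ _ hne
          rw [← h.nb y v' hv'] at h3 hne
          rw [hz1 _ _ h3] at hne
          exact hc (hcl σ _ h3 (right_ne_zero_of_mul hne)).1
        rw [h1, h2, neg_zero]
    · have hj : Function.Injective fun x => (liftS Q' ψ σ (χ x), χ x) := by
        intro a b hab
        exact hχ2.injective (Prod.mk.inj hab).2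
      have h1 := hz'.l2.comp_injective hj
      refine Summable.of_nonneg_of_le (fun y => sq_nonneg _) (fun x => ?_) h1
      by_cases hσ : σ ⊆ Q.lab x
      · rw [hzd _ _ hσ, norm_mul, hsn, one_mul]
        exact le_rfl
      · rw [hz00 _ _ hσ]
        simp only [norm_zero, ne_eq, OfNat.ofNat_ne_zero, not_false_eq_true, zero_pow]
        exact sq_nonneg _
  have hdz : bdry ν z = 0 := by
    funext τ x
    obtain ⟨y, rfl⟩ := hφ.2 x
    by_cases hτ : τ ⊆ Q.lab (φ y)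
    · have h1 := bdry_covS h hν hν'i (f' := z') (f := z) (y := y) (hz0 · _)
        (fun σ hσ => by rw [hz1' σ y hσ, hs]) (liftS_sub (Q' := Q') (ψ := ψ) τ y)
      rw [image_liftS h hτ, hdz'] at h1
      rw [h1]
      simp
    · unfold bdry
      refine sum_eq_zero fun v _ => ?_
      have h2 : z (insert v τ) (φ y) = 0 := by
        by_contra hne
        exact hτ ((subset_insert v τ).trans (hz0 _ _ hne))
      rw [h2, mul_zero]
  obtain ⟨w, hw, hlt⟩ := h0 ν hν z hz hdz ε hε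
  -- the chain upstairs
  obtain ⟨w', hw'1, hw'0⟩ : ∃ w' : Finset V' → X' → ℂ,
      (∀ σ y, σ ⊆ Q'.lab y → w' σ y = s σ * w (σ.image ψ) (φ y)) ∧
      ∀ σ y, ¬ σ ⊆ Q'.lab y → w' σ y = 0 :=
    ⟨fun σ y => if σ ⊆ Q'.lab y then s σ * w (σ.image ψ) (φ y) else 0,
      fun σ y hσ => if_pos hσ, fun σ y hσ => if_neg hσ⟩
  have hww : ∀ σ y, σ ⊆ Q'.lab y → w (σ.image ψ) (φ y) = s σ * w' σ y := by
    intro σ y hσ
    rw [hw'1 σ y hσ, ← mul_assoc, hss, one_mul]
  -- sums over pairs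
  obtain ⟨S, hS⟩ : ∃ S : Set (Finset V' × X'), S = {p | p.1 ⊆ Q'.lab p.2} := ⟨_, rfl⟩
  obtain ⟨j, hj⟩ : ∃ j : Finset V' × X' → Finset V × X, j = fun p => (p.1.image ψ, φ p.2) :=
    ⟨_, rfl⟩
  have hjinj : Function.Injective (fun p : S => j p.1) := by
    rintro ⟨p, h1⟩ ⟨q, h2⟩ he
    have h1' : p.1 ⊆ Q'.lab p.2 := by rw [hS] at h1; exact h1
    have h2' : q.1 ⊆ Q'.lab q.2 := by rw [hS] at h2; exact h2
    have he' : (p.1.image ψ, φ p.2) = (q.1.image ψ, φ q.2) := by rw [hj] at he; exact he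
    have he1 : p.1.image ψ = q.1.image ψ := (Prod.mk.inj he').1
    have he2 : p.2 = q.2 := hφ.1 (Prod.mk.inj he').2
    apply Subtype.ext
    refine Prod.ext ?_ he2
    have e1 := liftS_image h h1'
    have e2 := liftS_image h h2'
    rw [he1, he2] at e1
    exact e1.symm.trans e2
  have hw' : IsChain Q' (i + 1) w' := by
    refine ⟨fun σ y hne => ?_, fun σ y hσ v hv => ?_, ?_⟩
    · have h1 : σ ⊆ Q'.lab y := by
        by_contra hc
        exact hne (hw'0 σ y hc)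
      rw [hw'1 σ y h1] at hne
      obtain ⟨_, h3, h4⟩ := hw.supp _ _ (right_ne_zero_of_mul hne)
      exact ⟨h1, (clique_iff h h1).1 h3, (card_img h h1) ▸ h4⟩
    · by_cases hc : Q'.graph.IsClique (σ : Set V')
      · have h1 := sub_nb' h hσ hc hv
        rw [hw'1 _ _ h1, hw'1 _ _ hσ, h.nb y v (hσ hv),
          hw.anti _ _ (image_sub h hσ) _ (mem_image_of_mem ψ hv), mul_neg]
      · have h1 : w' σ y = 0 := by
          by_contra hne
          rw [hw'1 σ y hσ] at hne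
          exact hc ((clique_iff h hσ).1 (hw.supp _ _ (right_ne_zero_of_mul hne)).2.1)
        have h2 : w' σ (Q'.nb v y) = 0 := by
          by_contra hne
          by_cases h3 : σ ⊆ Q'.lab (Q'.nb v y)
          · rw [hw'1 _ _ h3] at hne
            exact hc ((clique_iff h h3).1 (hw.supp _ _ (right_ne_zero_of_mul hne)).2.1)
          · exact hne (hw'0 _ _ h3)
        rw [h1, h2, neg_zero]
    · have hW := sum_pair (F := fun p : Finset V × X => ‖w p.1 p.2‖ ^ 2) (fun p => sq_nonneg _)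
        hw.l2
      refine (sum_ind hjinj (F := fun p : Finset V × X => ‖w p.1 p.2‖ ^ 2) (fun p => sq_nonneg _)
        hW.1 (fun p hp => ?_) (fun p hp => ?_)).1
      · rw [hS] at hp
        show ‖w' p.1 p.2‖ ^ 2 = ‖w (j p).1 (j p).2‖ ^ 2
        rw [hw'1 _ _ hp, norm_mul, hsn, one_mul, hj]
      · rw [hS] at hp
        show ‖w' p.1 p.2‖ ^ 2 = 0
        rw [hw'0 _ _ hp]
        simp
  have hs1 : ∀ σ, Summable fun x => ‖z σ x - bdry ν w σ x‖ ^ 2 := l2_diff hz.l2 hw.l2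
  have hD := sum_pair (F := fun p : Finset V × X => ‖z p.1 p.2 - bdry ν w p.1 p.2‖ ^ 2)
    (fun p => sq_nonneg _) hs1
  have hE := sum_ind hjinj (F := fun p : Finset V × X => ‖z p.1 p.2 - bdry ν w p.1 p.2‖ ^ 2)
    (F' := fun p : Finset V' × X' => ‖z' p.1 p.2 - bd Q' ν' w' p.1 p.2‖ ^ 2)
    (fun p => sq_nonneg _) hD.1
    (fun p hp => by
      rw [hS] at hp
      have hp' : p.1 ⊆ Q'.lab p.2 := hp
      have h1 := bdry_covS h hν hν'i (f' := w') (f := w) (y := p.2)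
        (fun σ hne => (hw.supp σ _ hne).1)
        (fun σ hσ => by rw [hww σ _ hσ, hs]) hp'
      have h2 := hz1' p.1 p.2 hp'
      show ‖z' p.1 p.2 - bd Q' ν' w' p.1 p.2‖ ^ 2 =
        ‖z (j p).1 (j p).2 - bdry ν w (j p).1 (j p).2‖ ^ 2
      rw [hj]
      show ‖z' p.1 p.2 - bd Q' ν' w' p.1 p.2‖ ^ 2 =
        ‖z (p.1.image ψ) (φ p.2) - bdry ν w (p.1.image ψ) (φ p.2)‖ ^ 2
      rw [h1, h2]
      have h3 : ((dsg ν' (ν ∘ ψ) p.1 : ℤ) : ℂ) = s p.1 := by rw [hs]
      rw [h3, ← mul_sub, norm_mul, hsn, one_mul])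
    (fun p hp => by
      rw [hS] at hp
      have hp' : ¬ p.1 ⊆ Q'.lab p.2 := hp
      show ‖z' p.1 p.2 - bd Q' ν' w' p.1 p.2‖ ^ 2 = 0
      have h1 : z' p.1 p.2 = 0 := by
        by_contra hne
        exact hp' (hz'.supp _ _ hne).1
      have h2 : bd Q' ν' w' p.1 p.2 = 0 := by
        unfold bd
        refine sum_eq_zero fun v _ => ?_
        rw [hw'0 _ _ (fun hc => hp' ((subset_insert v _).trans hc)), mul_zero]
      rw [h1, h2]
      simp)
  refine ⟨w', hw', hE.1, lt_of_le_of_lt hE.2 ?_⟩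
  rw [hD.2]
  exact hlt

end Trans

end Pool.Agent.H37.TM
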